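import Pool.Agent.Y989.RC.Stm2

/-!
Project RC: bounds of the parameters.
-/

set_option autoImplicit false

namespace Pool.Agent.Y989.RC.ALP

open MeasureTheory Real

/-- the complete elliptic integral, as a function of the square of the modulus -/
noncomputable def J (k : ℝ) : ℝ := ∫ t in (0 : ℝ)..(π / 2), 1 / √(1 - k * sin t ^ 2)

theorem pos_aux {k : ℝ} (hk1 : k < 1) (t : ℝ) (hk0 : 0 ≤ k) : 0 < 1 - k * sin t ^ 2 := by
  have h1 := sin_sq_le_one t
  have h2 : 0 ≤ sin t ^ 2 := sq_nonneg _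
  nlinarith

theorem cont_aux {k : ℝ} (hk0 : 0 ≤ k) (hk1 : k < 1) :
    Continuous fun t : ℝ => 1 / √(1 - k * sin t ^ 2) := by
  refine Continuous.div continuous_const ?_ fun t => ?_
  · exact (continuous_const.sub (continuous_const.mul (continuous_sin.pow 2))).sqrt
  · exact (Real.sqrt_pos.2 (pos_aux hk1 t hk0)).ne'

theorem J_ge {k : ℝ} (hk0 : 0 ≤ k) (hk1 : k < 1) : π / 2 ≤ J k := by
  have h1 : ∫ _t in (0 : ℝ)..(π / 2), (1 : ℝ) = π / 2 := by
    rw [intervalIntegral.integral_const]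
    simp
  rw [← h1]
  unfold J
  refine intervalIntegral.integral_mono_on (by positivity) intervalIntegrable_const
    ((cont_aux hk0 hk1).intervalIntegrable _ _) fun t _ => ?_
  have h2 := pos_aux hk1 t hk0
  have h3 : √(1 - k * sin t ^ 2) ≤ 1 := by
    rw [Real.sqrt_le_left zero_le_one, one_pow]
    have : 0 ≤ k * sin t ^ 2 := by positivity
    linarith
  rw [le_div_iff₀ (Real.sqrt_pos.2 h2), one_mul]
  exact h3

theorem J_le {k : ℝ} (hk0 : 0 ≤ k) (hk1 : k ≤ 1 / 2) : J k ≤ 5 / 2 := by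
  have h1 : J k ≤ ∫ _t in (0 : ℝ)..(π / 2), √2 := by
    unfold J
    refine intervalIntegral.integral_mono_on (by positivity)
      ((cont_aux hk0 (by linarith)).intervalIntegrable _ _) intervalIntegrable_const fun t _ => ?_
    have h2 := pos_aux (show k < 1 by linarith) t hk0
    have h3 : 1 / 2 ≤ 1 - k * sin t ^ 2 := by
      have h1 := sin_sq_le_one t
      have h2 : 0 ≤ sin t ^ 2 := sq_nonneg _
      nlinarith
    rw [div_le_iff₀ (Real.sqrt_pos.2 h2), ← Real.sqrt_mul (by norm_num)]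
    rw [Real.one_le_sqrt]
    linarith
  rw [intervalIntegral.integral_const, smul_eq_mul, sub_zero] at h1
  have h4 : √2 ≤ 1.42 := by
    rw [Real.sqrt_le_left (by norm_num)]
    norm_num
  have h5 := Real.pi_lt_d2
  have h6 := Real.pi_pos
  have h7 : 0 ≤ √2 := Real.sqrt_nonneg _
  nlinarith

theorem J_cos {α : ℝ} (h0 : 0 < α) (h1 : α < π / 2) : -Real.log α ≤ J (cos α ^ 2) := by
  have hc0 : 0 ≤ cos α ^ 2 := sq_nonneg _
  have hs : 0 < sin α := sin_pos_of_pos_of_lt_pi h0 (by linarith [Real.pi_pos])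
  have hc1 : cos α ^ 2 < 1 := by
    have := sin_sq_add_cos_sq α
    nlinarith
  have hpi : (1 : ℝ) < π / 2 := by
    have := Real.pi_gt_d2
    linarith
  have h2 : ∫ t in (0 : ℝ)..(π / 2), (π / 2 + α - t)⁻¹ = Real.log ((π / 2 + α) / α) := by
    rw [intervalIntegral.integral_comp_sub_left (fun x => x⁻¹) (π / 2 + α)]
    rw [show π / 2 + α - π / 2 = α by ring, sub_zero]
    exact integral_inv_of_pos h0 (by linarith)
  have h3 : ∫ t in (0 : ℝ)..(π / 2), (π / 2 + α - t)⁻¹ ≤ J (cos α ^ 2) := by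
    unfold J
    refine intervalIntegral.integral_mono_on (by linarith) ?_
      ((cont_aux hc0 hc1).intervalIntegrable _ _) fun t ht => ?_
    · apply ContinuousOn.intervalIntegrable
      intro t ht
      rw [Set.uIcc_of_le (by linarith)] at ht
      apply ContinuousAt.continuousWithinAt
      refine ContinuousAt.inv₀ (by fun_prop) ?_
      have := ht.2
      linarith
    · have h4 := pos_aux hc1 t hc0
      have h5 : 0 < π / 2 + α - t := by linarith [ht.2]
      have h6 : 1 - cos α ^ 2 * sin t ^ 2 ≤ (π / 2 + α - t) ^ 2 := by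
        have e1 : cos t ≤ π / 2 - t := by
          rw [← sin_pi_div_two_sub]
          exact sin_le (by linarith [ht.2])
        have e2 : 0 ≤ cos t := cos_nonneg_of_neg_pi_div_two_le_of_le (by linarith [ht.1, Real.pi_pos]) ht.2
        have e3 : sin α ≤ α := sin_le h0.le
        have e4 := sin_sq_add_cos_sq α
        have e5 := sin_sq_add_cos_sq t
        have e6 : 0 ≤ sin t ^ 2 := sq_nonneg _
        have e7 : 1 - cos α ^ 2 * sin t ^ 2 = cos t ^ 2 + sin α ^ 2 * sin t ^ 2 := by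
          have : cos α ^ 2 = 1 - sin α ^ 2 := by linarith
          rw [this]
          linarith
        rw [e7]
        have e8 : cos t ^ 2 ≤ (π / 2 - t) ^ 2 := pow_le_pow_left₀ e2 e1 2
        have e9 : sin α ^ 2 ≤ α ^ 2 := pow_le_pow_left₀ hs.le e3 2
        have e10 : sin α ^ 2 * sin t ^ 2 ≤ sin α ^ 2 := by
          have := sin_sq_le_one t
          nlinarith [sq_nonneg (sin α)]
        have e11 : 0 ≤ (π / 2 - t) * α := mul_nonneg (by linarith [ht.2]) h0.le
        nlinarith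
      rw [inv_eq_one_div]
      apply one_div_le_one_div_of_le (Real.sqrt_pos.2 h4)
      rw [Real.sqrt_le_left h5.le]
      exact h6
  rw [h2] at h3
  refine le_trans ?_ h3
  rw [← Real.log_inv]
  apply Real.log_le_log (by positivity)
  rw [inv_eq_one_div]
  apply div_le_div_of_nonneg_right _ h0.le
  linarith

theorem exp_bound {α c : ℝ} (h0 : 0 < α) (h : -Real.log α ≤ c) : Real.exp (-c) ≤ α := by
  rw [← Real.le_log_iff_exp_le h0]
  linarith

theorem t_ALP : S_ELL → S_ALP := by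
  intro hell K
  refine ⟨min (1 / 5) (Real.exp (-(5 * K / 2))), by positivity, ?_, ?_⟩
  · exact (min_le_left _ _).trans (by norm_num)
  intro w h hA α lam hP
  obtain ⟨hw, hh, hwK, hhK⟩ := hA
  obtain ⟨hα0, hα1, hlam, hP1, hP2⟩ := hP
  obtain ⟨hE1, hE2⟩ := hell α hα0 hα1
  have hpi := Real.pi_gt_d2
  have hpi2 := Real.pi_lt_d2
  have hs0 : 0 < sin α := sin_pos_of_pos_of_lt_pi hα0 (by linarith)
  have hc0 : 0 < cos α := cos_pos_of_mem_Ioo ⟨by linarith, hα1⟩
  have hsc := sin_sq_add_cos_sq α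
  have hs1 : sin α ^ 2 < 1 := by nlinarith
  have hc1 : cos α ^ 2 < 1 := by nlinarith
  have hA : SC α α = 2 * J (sin α ^ 2) := hE1
  have hB : SC α (π - α) - SC α α = 2 * J (cos α ^ 2) := hE2
  set A : ℝ := J (sin α ^ 2) with hAd
  set B : ℝ := J (cos α ^ 2) with hBd
  have hw1 : (1 : ℝ) ≤ w := by exact_mod_cast hw
  have hh1 : (1 : ℝ) ≤ h := by exact_mod_cast hh
  have hwK' : (w : ℝ) ≤ K * h := by exact_mod_cast hwK
  have hhK' : (h : ℝ) ≤ K * w := by exact_mod_cast hhK
  have eA : lam * (2 * A) = w := by rw [← hA]; exact hP1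
  have eB : lam * (2 * B) = h := by
    rw [← hB]
    linarith
  have hA1 : π / 2 ≤ A := J_ge (sq_nonneg _) hs1
  have hB1 : π / 2 ≤ B := J_ge (sq_nonneg _) hc1
  have hlw : lam ≤ w := by nlinarith
  have hlh : lam ≤ h := by nlinarith
  have hAB : A ≤ K * B := by
    have : lam * (2 * A) ≤ lam * (2 * (K * B)) := by
      rw [eA]
      calc (w : ℝ) ≤ K * h := hwK'
        _ = lam * (2 * (K * B)) := by rw [← eB]; ring
    have := le_of_mul_le_mul_left this hlam
    linarith
  have hBA : B ≤ K * A := by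
    have : lam * (2 * B) ≤ lam * (2 * (K * A)) := by
      rw [eB]
      calc (h : ℝ) ≤ K * w := hhK'
        _ = lam * (2 * (K * A)) := by rw [← eA]; ring
    have := le_of_mul_le_mul_left this hlam
    linarith
  have hK0 : (0 : ℝ) ≤ K := Nat.cast_nonneg _
  have hm0 : 0 ≤ min (w : ℝ) h := le_min (by linarith) (by linarith)
  have hκ1 : min (1 / 5 : ℝ) (Real.exp (-(5 * K / 2))) ≤ 1 / 5 := min_le_left _ _
  have hκ2 : min (1 / 5 : ℝ) (Real.exp (-(5 * K / 2))) ≤ Real.exp (-(5 * K / 2)) := min_le_right _ _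
  set κ : ℝ := min (1 / 5 : ℝ) (Real.exp (-(5 * K / 2))) with hκ
  have hκm : κ * min (w : ℝ) h ≤ 1 / 5 * min (w : ℝ) h := mul_le_mul_of_nonneg_right hκ1 hm0
  have hmw : min (w : ℝ) h ≤ w := min_le_left _ _
  have hmh : min (w : ℝ) h ≤ h := min_le_right _ _
  rcases le_total α (π / 4) with hα | hα
  · have h2 : sin α ^ 2 ≤ 1 / 2 := by
      have h3 : sin α ≤ sin (π / 4) :=
        Real.sin_le_sin_of_le_of_le_pi_div_two (by linarith) (by linarith) hα
      rw [sin_pi_div_four] at h3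
      have h4 : sin α ^ 2 ≤ (√2 / 2) ^ 2 := pow_le_pow_left₀ hs0.le h3 2
      rw [div_pow, Real.sq_sqrt (by norm_num)] at h4
      linarith
    have hA5 : A ≤ 5 / 2 := J_le (sq_nonneg _) h2
    have h5 : -Real.log α ≤ B := J_cos hα0 hα1
    have h6 : B ≤ 5 * K / 2 := by nlinarith
    have h7 := exp_bound hα0 (h5.trans h6)
    refine ⟨hκ2.trans h7, by linarith, ?_, le_min hlw hlh⟩
    have : (w : ℝ) ≤ lam * 5 := by rw [← eA]; nlinarith
    linarith
  · have h2 : cos α ^ 2 ≤ 1 / 2 := by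
      have h3 : cos α ≤ cos (π / 4) :=
        Real.cos_le_cos_of_nonneg_of_le_pi (by linarith) (by linarith) hα
      rw [cos_pi_div_four] at h3
      have h4 : cos α ^ 2 ≤ (√2 / 2) ^ 2 := pow_le_pow_left₀ hc0.le h3 2
      rw [div_pow, Real.sq_sqrt (by norm_num)] at h4
      linarith
    have hB5 : B ≤ 5 / 2 := J_le (sq_nonneg _) h2
    have h5 : -Real.log (π / 2 - α) ≤ A := by
      have := J_cos (α := π / 2 - α) (by linarith) (by linarith)
      rwa [cos_pi_div_two_sub] at this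
    have h6 : A ≤ 5 * K / 2 := by nlinarith
    have h7 := exp_bound (show 0 < π / 2 - α by linarith) (h5.trans h6)
    refine ⟨by linarith, by linarith, ?_, le_min hlw hlh⟩
    have : (h : ℝ) ≤ lam * 5 := by rw [← eB]; nlinarith
    linarith

end Pool.Agent.Y989.RC.ALP
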