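import Pool.Agent.Y989.RC.Stm

/-!
Project RC: the two lattice symmetries.
-/

set_option autoImplicit false

namespace Pool.Agent.Y989.RC
open Finset H974 TH976 TH976.QC Pool.Agent.H160R2.CV
open Pool.Agent.H160R2.CV.Quad Pool.Agent.H389R2.CD

/-- `φ`, `ψ` map the rectangle `[0,w] × [0,h]` onto `[0,h] × [0,w]` and the boundary point `t` to
the boundary point `τ t` -/
def IsSym (w h : ℤ) (φ : Edg ≃ Edg) (ψ : Vtx ≃ Vtx) (τ : ℤ → ℤ) : Prop :=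
  (∀ e, e ∈ RE 0 w 0 h ↔ φ e ∈ RE 0 h 0 w) ∧
  (∀ (F : Finset Edg) (u v : Vtx),
    Reach (↑(F.map φ.toEmbedding)) (ψ u) (ψ v) ↔ Reach (↑F) u v) ∧
  (∀ u v, sd (ψ u) (ψ v) = sd u v) ∧
  (∀ u, inR 0 h 0 w (ψ u) ↔ inR 0 w 0 h u) ∧
  (∀ t, ψ (bd w h t) = bd h w (τ t)) ∧
  (∀ A : Finset Edg → Prop,
    Pr P (RE 0 w 0 h) (fun F => A (F.map φ.toEmbedding)) = Pr P (RE 0 h 0 w) A)

/-- rotation by 90 degrees: `ψ (x, y) = (y, w - x)` -/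
def S_ROT : Prop := ∀ w h : ℤ, 1 ≤ w → 1 ≤ h →
  ∃ (φ : Edg ≃ Edg) (ψ : Vtx ≃ Vtx), IsSym w h φ ψ (fun t => t - w)

/-- reflection `ψ (x, y) = (y, x)` -/
def S_RFL : Prop := ∀ w h : ℤ, 1 ≤ w → 1 ≤ h →
  ∃ (φ : Edg ≃ Edg) (ψ : Vtx ≃ Vtx), IsSym w h φ ψ (fun t => -t)

end Pool.Agent.Y989.RC
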