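import Pool.Agent.Y989.RC.Stm
import Pool.Agent.Y989.RC.Stm3

/-!
Project RC: one boundary arm in the rectangle, upper bound.
-/

set_option autoImplicit false

namespace Pool.Agent.Y989.RC.ARM1
open Finset H974 TH976 TH976.QC Pool.Agent.H160R2.CV
open Pool.Agent.H160R2.CV.Quad Pool.Agent.H389R2.CD

/-- the boundary point in standard position -/
theorem bd_std {w h t : ℤ} (hw : 1 ≤ w) (hh : 1 ≤ h) (h1 : -h ≤ 2 * t) (h2 : 2 * t ≤ w) :
    bd w h t = bt t := by
  unfold bd bt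
  rcases le_or_gt 0 t with h0 | h0
  · have e : t % (2 * (w + h)) = t := Int.emod_eq_of_lt h0 (by linarith)
    rw [e, if_pos (by omega)]
    ext
    · simp only
      omega
    · simp only
      omega
  · have e : t % (2 * (w + h)) = t + 2 * (w + h) := by
      rw [← Int.add_emod_right]
      exact Int.emod_eq_of_lt (by linarith) (by linarith)
    rw [e, if_neg (by omega), if_neg (by omega), if_neg (by omega)]
    ext
    · simp only
      omega
    · simp only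
      omega

theorem inQ_RE (w h : ℤ) : InQ (RE 0 w 0 h) := by
  rintro ⟨x, y, _ | _⟩ he
  · rw [mem_RE_false] at he
    exact ⟨he.1, he.2.2.1⟩
  · rw [mem_RE_true] at he
    exact ⟨he.1, he.2.2.1⟩

theorem Ph_std (hdc : S_DC) {w h t : ℤ} (hw : 1 ≤ w) (hh : 1 ≤ h) (h1 : -h ≤ 2 * t)
    (h2 : 2 * t ≤ w) {x n : ℕ} (hx : x ≤ n) (hn : 2 * (n : ℤ) ≤ min w h) :
    Ph w h t x = Mf t x := by
  have e1 : dc w h t = |(t : ℝ)| := by
    refine (hdc w h hw hh).2.1 t ?_ ?_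
    · have : (-(h : ℝ)) ≤ 2 * t := by exact_mod_cast h1
      linarith
    · have : (2 : ℝ) * t ≤ w := by exact_mod_cast h2
      linarith
  have hxw : (x : ℝ) ≤ w := by
    have : (x : ℤ) ≤ w := by omega
    exact_mod_cast this
  have hxh : (x : ℝ) ≤ h := by
    have : (x : ℤ) ≤ h := by omega
    exact_mod_cast this
  have e2 : min (x : ℝ) (min (w : ℝ) h) = x := min_eq_left (le_min hxw hxh)
  unfold Ph Mf
  rw [e1, e2]

/-- the rotation by 90 degrees -/
theorem rot (hrot : S_ROT) (hdc : S_DC) {w h : ℤ} (hw : 1 ≤ w) (hh : 1 ≤ h) (t : ℤ) (r n : ℕ) :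
    Pr P (RE 0 w 0 h) (CxR w h t r n) = Pr P (RE 0 h 0 w) (CxR h w (t - w) r n) ∧
      ∀ x : ℝ, Ph w h t x = Ph h w ((t - w : ℤ) : ℝ) x := by
  constructor
  · obtain ⟨φ, ψ, -, h2, h3, h4, h5, h6⟩ := hrot w h hw hh
    rw [← h6]
    refine Pr_congr fun F _ => ?_
    constructor
    · rintro ⟨u, v, hu, hut, hv, huv⟩
      refine ⟨ψ u, ψ v, (h4 u).2 hu, ?_, ?_, (h2 F u v).2 huv⟩
      · have := h5 t
        simp only at this
        rw [← this, h3]
        exact hut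
      · have := h5 t
        simp only at this
        rw [← this, h3]
        exact hv
    · rintro ⟨u, v, hu, hut, hv, huv⟩
      obtain ⟨u, rfl⟩ := ψ.surjective u
      obtain ⟨v, rfl⟩ := ψ.surjective v
      have := h5 t
      simp only at this
      rw [← this, h3] at hut hv
      exact ⟨u, v, (h4 u).1 hu, hut, hv, (h2 F u v).1 huv⟩
  · intro x
    have e := ((hdc w h hw hh).1 (t : ℝ)).1
    unfold Ph
    push_cast
    rw [e, min_comm (w : ℝ) h]

theorem t_ARM1 : S_ROT → S_DC → S_ARM1 := by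
  intro hrot hdc
  obtain ⟨K, hK⟩ := ratio_cmp Pool.Agent.H160R2.SA.arSharp
  have hK1 : 1 ≤ K := (hK 0 1 1 le_rfl le_rfl).hk
  have k40 := k4_pos
  have kd0 := kd_pos
  refine ⟨(k4 * kd)⁻¹ * K, by positivity, ?_⟩
  -- the standard position
  have std : ∀ w h t : ℤ, 1 ≤ w → 1 ≤ h → -h ≤ 2 * t → 2 * t ≤ w → ∀ r n : ℕ, 1 ≤ r → r ≤ n →
      2 * (n : ℤ) ≤ min w h → Pr P (RE 0 w 0 h) (CxR w h t r n) ≤
        (k4 * kd)⁻¹ * K * (Ph w h t r / Ph w h t n) ^ ((1 : ℝ) / 3) := by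
    intro w h t hw hh h1 h2 r n hr hrn hn
    rw [Ph_std hdc hw hh h1 h2 hrn hn, Ph_std hdc hw hh h1 h2 le_rfl hn]
    calc Pr P (RE 0 w 0 h) (CxR w h t r n) ≤ Pr P (RE 0 w 0 h) (Cx (bt t) r n) := by
          apply Pr_mono okP
          rintro F - ⟨u, v, hu, hut, hv, huv⟩
          rw [bd_std hw hh h1 h2] at hut hv
          exact ⟨u, v, ⟨hu.1.1, hu.2.1⟩, hut, hv, huv⟩
      _ ≤ bq (bt t) r n := pr_Cx_le (inQ_RE w h) _ hrn
      _ ≤ (k4 * kd)⁻¹ * (aq (bt t) n / aq (bt t) r) := bq_up (bt_in t) hr hrn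
      _ ≤ (k4 * kd)⁻¹ * (K * (Mf t r / Mf t n) ^ ((1 : ℝ) / 3)) :=
          mul_le_mul_of_nonneg_left (hK t r n hr (hr.trans hrn)).l (by positivity)
      _ = _ := by rw [mul_assoc]
  intro w h t hw hh r n hr hrn hn
  -- translation by half a period
  have tra : ∀ t : ℤ, Pr P (RE 0 w 0 h) (CxR w h t r n) =
      Pr P (RE 0 w 0 h) (CxR w h (t - (w + h)) r n) ∧
      ∀ x : ℝ, Ph w h t x = Ph w h ((t - (w + h) : ℤ) : ℝ) x := by
    intro t
    obtain ⟨a1, a2⟩ := rot hrot hdc hw hh t r n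
    obtain ⟨b1, b2⟩ := rot hrot hdc hh hw (t - w) r n
    have e : t - w - h = t - (w + h) := by ring
    rw [e] at b1 b2
    exact ⟨a1.trans b1, fun x => (a2 x).trans (b2 x)⟩
  have trak : ∀ k : ℤ, ∀ t : ℤ, Pr P (RE 0 w 0 h) (CxR w h t r n) =
      Pr P (RE 0 w 0 h) (CxR w h (t - k * (w + h)) r n) ∧
      ∀ x : ℝ, Ph w h t x = Ph w h ((t - k * (w + h) : ℤ) : ℝ) x := by
    intro k
    induction k using Int.induction_on with
    | zero =>
      intro t
      have e : t - 0 * (w + h) = t := by ring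
      rw [e]
      exact ⟨rfl, fun _ => rfl⟩
    | succ k ih =>
      intro t
      obtain ⟨a1, a2⟩ := ih t
      obtain ⟨b1, b2⟩ := tra (t - k * (w + h))
      have e : t - (k + 1) * (w + h) = t - k * (w + h) - (w + h) := by ring
      rw [e]
      exact ⟨a1.trans b1, fun x => (a2 x).trans (b2 x)⟩
    | pred k ih =>
      intro t
      obtain ⟨a1, a2⟩ := ih t
      obtain ⟨b1, b2⟩ := tra (t - (-(k : ℤ) - 1) * (w + h))
      have e : t - (-(k : ℤ) - 1) * (w + h) - (w + h) = t - (-(k : ℤ)) * (w + h) := by ring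
      rw [e] at b1 b2
      exact ⟨a1.trans b1.symm, fun x => (a2 x).trans (b2 x).symm⟩
  obtain ⟨m, hm⟩ : ∃ m : ℤ, m = (2 * t + h) / (2 * (w + h)) := ⟨_, rfl⟩
  obtain ⟨s, hs⟩ : ∃ s : ℤ, s = t - m * (w + h) := ⟨_, rfl⟩
  have hpos : 0 < 2 * (w + h) := by linarith
  have m1 : (2 * (w + h)) * m ≤ 2 * t + h := by rw [hm]; exact Int.mul_ediv_self_le hpos.ne'
  have m2 : 2 * t + h < (2 * (w + h)) * m + 2 * (w + h) := by
    rw [hm]; exact Int.lt_mul_ediv_self_add hpos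
  have s1 : -h ≤ 2 * s := by rw [hs]; linarith
  have s2 : 2 * s < 2 * w + h := by rw [hs]; linarith
  obtain ⟨a1, a2⟩ := trak m t
  rw [← hs] at a1 a2
  rw [a1, a2, a2]
  rcases le_or_gt (2 * s) w with h3 | h3
  · exact std w h s hw hh s1 h3 r n hr hrn hn
  · obtain ⟨b1, b2⟩ := rot hrot hdc hw hh s r n
    rw [b1, b2, b2]
    exact std h w (s - w) hh hw (by linarith) (by linarith) r n hr hrn (by rwa [min_comm])

end Pool.Agent.Y989.RC.ARM1
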