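import Pool.Agent.Y989.RC.Stm

/-!
Project RC: two boundary arms at distance (`S_ARM1 → S_ARM2`), by helper431.
-/

set_option autoImplicit false

namespace Pool.Agent.Y989.RC.ARM2
open Finset H974 TH976 TH976.QC Pool.Agent.H160R2.CV
open Pool.Agent.H160R2.CV.Quad Pool.Agent.H389R2.CD

/-- the edges of the rectangle in the box of radius `m` around `c` -/
noncomputable def bx2 (w h : ℤ) (c : Vtx) (m : ℕ) : Finset Edg :=
  RE (c.1 - m) (c.1 + m) (c.2 - m) (c.2 + m) ∩ RE 0 w 0 h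

theorem bx2_disj {w h : ℤ} {x y : Vtx} {m m' : ℕ} (hd : m + m' + 1 ≤ sd x y) :
    Disjoint (bx2 w h x m) (bx2 w h y m') := by
  rw [Finset.disjoint_left]
  unfold sd at hd
  rintro ⟨a, b, _ | _⟩ h1 h2
  · simp only [bx2, Finset.mem_inter, mem_RE_false] at h1 h2; omega
  · simp only [bx2, Finset.mem_inter, mem_RE_true] at h1 h2; omega

theorem CxR_mono {w h t : ℤ} {r n : ℕ} {F G : Finset Edg} (hFG : F ⊆ G)
    (hF : CxR w h t r n F) : CxR w h t r n G := by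
  obtain ⟨u, v, h0, h1, h2, h3⟩ := hF
  exact ⟨u, v, h0, h1, h2, h3.mono (by exact_mod_cast hFG)⟩

/-- the localized crossing event -/
def LC (w h t : ℤ) (r n : ℕ) (F : Finset Edg) : Prop :=
  CxR w h t r n (F ∩ bx2 w h (Pool.Agent.Y989.RC.bd w h t) n)

theorem LC_inc (w h t : ℤ) (r n : ℕ) : IncA (LC w h t r n) :=
  fun _ _ hh hF => CxR_mono (Finset.inter_subset_inter_right hh) hF

theorem LC_loc (w h t : ℤ) (r n : ℕ) :
    LocE (bx2 w h (Pool.Agent.Y989.RC.bd w h t) n) (LC w h t r n) := by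
  intro F
  unfold LC
  rw [Finset.inter_assoc, Finset.inter_self]

theorem CxR_LC {w h t : ℤ} {r n : ℕ} (hrn : r ≤ n) {F : Finset Edg} (hF : F ⊆ RE 0 w 0 h)
    (hC : CxR w h t r n F) : LC w h t r n F := by
  obtain ⟨u, v, h0, h1, h2, h3⟩ := hC
  obtain ⟨p, hp⟩ : ∃ p, p = Pool.Agent.Y989.RC.bd w h t := ⟨_, rfl⟩
  unfold LC CxR
  rw [← hp] at h1 h2 ⊢
  unfold sd at h1 h2
  obtain ⟨z, h4, h5, h6⟩ := first_exit (a := p.1 - n) (b := p.1 + n) (c := p.2 - n)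
    (d := p.2 + n) (by unfold inR; omega) h3 (by omega)
  refine ⟨u, z, h0, ?_, ?_, h6.mono ?_⟩
  · unfold sd; omega
  · unfold inR at h4
    unfold sd
    omega
  · rintro e ⟨k1, k2⟩
    rw [Finset.mem_coe] at k1 k2 ⊢
    rw [Finset.mem_inter, bx2, Finset.mem_inter]
    exact ⟨k1, k2, hF k1⟩

theorem pr_LC (w h t : ℤ) (r n : ℕ) :
    Pr P (bx2 w h (Pool.Agent.Y989.RC.bd w h t) n) (LC w h t r n) ≤
      Pr P (RE 0 w 0 h) (CxR w h t r n) :=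
  le_trans (Pr_mono Pool.Agent.H160R2.CV.Quad.okP
      (fun _ _ hF => CxR_mono Finset.inter_subset_left hF))
    (Pr_mono_set Pool.Agent.H160R2.CV.Quad.okP Finset.inter_subset_right
      (fun _ _ hh _ hF => CxR_mono hh hF))

theorem Ph_nonneg' {w h : ℤ} (hw : 1 ≤ w) (hh : 1 ≤ h) (t : ℝ) (k : ℕ) : 0 ≤ Ph w h t k := by
  have w0 : (0 : ℝ) ≤ w := by exact_mod_cast (by omega : (0 : ℤ) ≤ w)
  have h0 : (0 : ℝ) ≤ h := by exact_mod_cast (by omega : (0 : ℤ) ≤ h)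
  have m0 : (0 : ℝ) ≤ min (k : ℝ) (min (w : ℝ) h) := le_min (Nat.cast_nonneg k) (le_min w0 h0)
  exact mul_nonneg m0 (le_max_of_le_right m0)

theorem t_ARM2 : S_ARM1 → S_ARM2 := by
  rintro ⟨C, hC, H⟩
  refine ⟨C ^ 2, by positivity, ?_⟩
  intro w h t t' hw hh r n r' n' hr hrn hr' hrn' hn hn' hd
  have h1 := indep2 (RE 0 w 0 h) _ _ (bx2_disj (w := w) (h := h) hd) (LC_inc w h t r n)
    (LC_inc w h t' r' n') (LC_loc w h t r n) (LC_loc w h t' r' n')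
  have h2 := H w h t hw hh r n hr hrn hn
  have h3 := H w h t' hw hh r' n' hr' hrn' hn'
  have e1 : 0 ≤ Ph w h t r / Ph w h t n := div_nonneg (Ph_nonneg' hw hh _ _) (Ph_nonneg' hw hh _ _)
  have e2 : 0 ≤ Ph w h t' r' / Ph w h t' n' :=
    div_nonneg (Ph_nonneg' hw hh _ _) (Ph_nonneg' hw hh _ _)
  have ok := Pool.Agent.H160R2.CV.Quad.okP
  calc Pr P (RE 0 w 0 h) (fun F => CxR w h t r n F ∧ CxR w h t' r' n' F) ≤
      Pr P (RE 0 w 0 h) (fun F => LC w h t r n F ∧ LC w h t' r' n' F) :=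
        Pr_mono ok (fun F hF hc => ⟨CxR_LC hrn hF hc.1, CxR_LC hrn' hF hc.2⟩)
    _ ≤ _ := h1
    _ ≤ Pr P (RE 0 w 0 h) (CxR w h t r n) * Pr P (RE 0 w 0 h) (CxR w h t' r' n') :=
        mul_le_mul (pr_LC w h t r n) (pr_LC w h t' r' n') (Pr_nonneg ok _ _) (Pr_nonneg ok _ _)
    _ ≤ (C * (Ph w h t r / Ph w h t n) ^ ((1 : ℝ) / 3)) *
        (C * (Ph w h t' r' / Ph w h t' n') ^ ((1 : ℝ) / 3)) :=
        mul_le_mul h2 h3 (Pr_nonneg ok _ _) (mul_nonneg hC.le (Real.rpow_nonneg e1 _))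
    _ = C ^ 2 * ((Ph w h t r / Ph w h t n) * (Ph w h t' r' / Ph w h t' n')) ^ ((1 : ℝ) / 3) := by
        rw [Real.mul_rpow e1 e2]; ring

end Pool.Agent.Y989.RC.ARM2
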