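import Pool.Agent.Y989.RC.Stm2

/-!
Project RC (helper989): the cross-ratio in terms of the four arcs (by helper954, with the lemmas of
helper38 in Pool/Agent/Y989/SD/T_XR.lean).
-/

set_option autoImplicit false

namespace Pool.Agent.Y989.RC.CIR

open Pool.Agent.Y989.RC

open Real (sin cos pi)

/-- Bounds of the sine by the distance to the end points. -/
lemma sin_bd {x y : ℝ} (hx : 0 < x) (hy : 0 < y) (h : x + y = pi) :
    2 / pi * min x y ≤ sin x ∧ sin x ≤ min x y := by
  have hs : sin y = sin x := by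
    rw [← Real.sin_pi_sub x]
    congr 1
    linarith
  rcases le_total x y with hxy | hxy
  · rw [min_eq_left hxy]
    exact ⟨Real.mul_le_sin hx.le (by linarith), Real.sin_le hx.le⟩
  · rw [min_eq_right hxy, ← hs]
    exact ⟨Real.mul_le_sin hy.le (by linarith), Real.sin_le hy.le⟩

/-- Quotients. -/
lemma quot {p q r s a b u v k : ℝ} (ha : 0 < a) (hb : 0 < b) (hu : 0 < u) (hv : 0 < v)
    (hp : p ≤ a) (hq : q ≤ b) (hq0 : 0 < q) (hk : 0 < k) (hr : k * u ≤ r)
    (hs : k * v ≤ s) :
    p * q / (r * s) ≤ a * b / (u * v) / k ^ 2 := by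
  have hr0 : 0 < r := lt_of_lt_of_le (by positivity) hr
  have hs0 : 0 < s := lt_of_lt_of_le (by positivity) hs
  rw [div_div]
  refine div_le_div₀ (by positivity) (mul_le_mul hp hq hq0.le ha.le) (by positivity) ?_
  calc u * v * k ^ 2 = k * u * (k * v) := by ring
    _ ≤ r * s := mul_le_mul hr hs (by positivity) hr0.le

lemma core {A G B G' : ℝ} (hA : 0 < A) (hG : 0 < G) (hB : 0 < B) (hG' : 0 < G')
    (h : A + G + B + G' = pi) (h1 : G ≤ G') (h2 : B ≤ A) :
    4 / pi ^ 2 * (A / (A + G) * (B / (B + G))) ≤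
      sin A * sin B / (sin (A + G) * sin (G + B)) ∧
    sin A * sin B / (sin (A + G) * sin (G + B)) ≤
      3 * pi ^ 2 / 4 * (A / (A + G) * (B / (B + G))) := by
  have hpi := Real.pi_pos
  obtain ⟨a1, a2⟩ := sin_bd hA (show 0 < G + B + G' by positivity) (by linarith)
  obtain ⟨b1, b2⟩ := sin_bd hB (show 0 < A + G + G' by positivity) (by linarith)
  obtain ⟨c1, c2⟩ := sin_bd (show 0 < A + G by positivity) (show 0 < B + G' by positivity)
    (by linarith)
  obtain ⟨d1, d2⟩ := sin_bd (show 0 < G + B by positivity) (show 0 < A + G' by positivity)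
    (by linarith)
  rw [min_eq_left (by linarith : B ≤ A + G + G')] at b1 b2
  rw [min_eq_left (by linarith : G + B ≤ A + G')] at d1 d2
  set m := min A (G + B + G') with hm
  set n := min (A + G) (B + G') with hn
  have hm0 : 0 < m := lt_min hA (by positivity)
  have hn0 : 0 < n := lt_min (by positivity) (by positivity)
  have sA : 0 < sin A := lt_of_lt_of_le (by positivity) a1
  have sB : 0 < sin B := lt_of_lt_of_le (by positivity) b1
  have sC : 0 < sin (A + G) := lt_of_lt_of_le (by positivity) c1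
  have sD : 0 < sin (G + B) := lt_of_lt_of_le (by positivity) d1
  -- the two elementary inequalities
  have e1 : m * (A + G) ≤ 3 * (A * n) := by
    have hmA : m ≤ A := min_le_left _ _
    have hmB : m ≤ G + B + G' := min_le_right _ _
    rcases le_total (A + G) (B + G') with hc | hc
    · rw [hn, min_eq_left hc]
      have := mul_le_mul_of_nonneg_right hmA (show 0 ≤ A + G by positivity)
      nlinarith [mul_pos hA hA, mul_pos hA hG]
    · rw [hn, min_eq_right hc]
      have t1 : m * A ≤ (G + B + G') * A := mul_le_mul_of_nonneg_right hmB hA.le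
      have t2 : m * G ≤ A * G := mul_le_mul_of_nonneg_right hmA hG.le
      have t3 : A * G ≤ A * G' := mul_le_mul_of_nonneg_left h1 hA.le
      nlinarith [mul_pos hA hB, mul_pos hA hG']
  have e2 : A * n ≤ m * (A + G) := by
    rcases le_total A (G + B + G') with hc | hc
    · rw [hm, min_eq_left hc]
      exact mul_le_mul_of_nonneg_left (min_le_left _ _) hA.le
    · rw [hm, min_eq_right hc]
      have t1 : A * n ≤ A * (B + G') := mul_le_mul_of_nonneg_left (min_le_right _ _) hA.le
      nlinarith [mul_pos hA hG, mul_pos hG hB, mul_pos hG hG', mul_pos hG hG, mul_pos hA hB]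
  have f1 : m * B / (n * (G + B)) ≤ 3 * (A / (A + G) * (B / (B + G))) := by
    rw [div_mul_div_comm, ← mul_div_assoc, div_le_div_iff₀ (by positivity) (by positivity)]
    have := mul_le_mul_of_nonneg_right e1 (show 0 ≤ B * (B + G) by positivity)
    nlinarith
  have f2 : A / (A + G) * (B / (B + G)) ≤ m * B / (n * (G + B)) := by
    rw [div_mul_div_comm, div_le_div_iff₀ (by positivity) (by positivity)]
    have := mul_le_mul_of_nonneg_right e2 (show 0 ≤ B * (B + G) by positivity)
    nlinarith
  constructor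
  · refine le_trans (mul_le_mul_of_nonneg_left f2 (by positivity)) ?_
    rw [← mul_div_assoc, div_le_div_iff₀ (by positivity) (by positivity)]
    have k1 : sin (A + G) * sin (G + B) ≤ n * (G + B) :=
      mul_le_mul c2 d2 sD.le hn0.le
    have k2 : 2 / pi * m * (2 / pi * B) ≤ sin A * sin B :=
      mul_le_mul a1 b1 (by positivity) sA.le
    calc 4 / pi ^ 2 * (m * B) * (sin (A + G) * sin (G + B))
        = 2 / pi * m * (2 / pi * B) * (sin (A + G) * sin (G + B)) := by
          field_simp
          ring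
      _ ≤ sin A * sin B * (n * (G + B)) := mul_le_mul k2 k1 (by positivity) (by positivity)
  · have q := quot (p := sin A) (q := sin B) (r := sin (A + G)) (s := sin (G + B))
      (a := m) (b := B) (u := n) (v := G + B) (k := 2 / pi)
      hm0 hB hn0 (by positivity) a2 b2 sB (by positivity) c1 d1
    refine q.trans ?_
    have k3 : m * B / (n * (G + B)) / (2 / pi) ^ 2 = pi ^ 2 / 4 * (m * B / (n * (G + B))) := by
      field_simp
      ring
    rw [k3]
    refine (mul_le_mul_of_nonneg_left f1 (by positivity)).trans (le_of_eq ?_)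
    ring

lemma core' {A G B G' : ℝ} (hA : 0 < A) (hG : 0 < G) (hB : 0 < B) (hG' : 0 < G')
    (h : A + G + B + G' = pi) (h1 : G ≤ G') :
    4 / pi ^ 2 * (A / (A + G) * (B / (B + G))) ≤
      sin A * sin B / (sin (A + G) * sin (G + B)) ∧
    sin A * sin B / (sin (A + G) * sin (G + B)) ≤
      3 * pi ^ 2 / 4 * (A / (A + G) * (B / (B + G))) := by
  rcases le_total B A with h2 | h2
  · exact core hA hG hB hG' h h1 h2
  · have := core hB hG hA hG' (by linarith) h1 h2
    rw [mul_comm (B / (B + G)), mul_comm (sin B), mul_comm (sin (B + G)), add_comm G A,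
      add_comm B G] at this
    rwa [add_comm B G]

lemma core'' {A G B G' : ℝ} (hA : 0 < A) (hG : 0 < G) (hB : 0 < B) (hG' : 0 < G')
    (h : A + G + B + G' = pi) :
    4 / pi ^ 2 * (A / (A + min G G') * (B / (B + min G G'))) ≤
      sin A * sin B / (sin (A + G) * sin (G + B)) ∧
    sin A * sin B / (sin (A + G) * sin (G + B)) ≤
      3 * pi ^ 2 / 4 * (A / (A + min G G') * (B / (B + min G G'))) := by
  rcases le_total G G' with h1 | h1
  · rw [min_eq_left h1]
    exact core' hA hG hB hG' h h1
  · rw [min_eq_right h1]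
    have := core' hA hG' hB hG (by linarith) h1
    have s1 : sin (A + G') = sin (G + B) := by
      rw [← Real.sin_pi_sub (G + B)]
      congr 1
      linarith
    have s2 : sin (G' + B) = sin (A + G) := by
      rw [← Real.sin_pi_sub (A + G)]
      congr 1
      linarith
    rw [s1, s2, mul_comm (sin (G + B))] at this
    exact this

lemma ptolemy (A G B : ℝ) :
    sin (A + G) * sin (G + B) = sin A * sin B + sin G * sin (A + G + B) := by
  rw [Real.sin_add (A + G) B, Real.sin_add A G, Real.sin_add G B, Real.cos_add A G]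
  linear_combination (sin A * sin B) * (Real.sin_sq_add_cos_sq G)

/-- Quotients. -/
lemma frac {a b : ℝ} (ha : 0 < a) (hb : 0 < b) :
    1 / 2 * min 1 (a / b) ≤ a / (a + b) ∧ a / (a + b) ≤ min 1 (a / b) := by
  constructor
  · rcases le_total a b with h | h
    · calc 1 / 2 * min 1 (a / b) ≤ 1 / 2 * (a / b) := by
            gcongr
            exact min_le_right _ _
        _ ≤ a / (a + b) := by
            rw [one_div_mul_eq_div, div_div, div_le_div_iff₀ (by positivity) (by positivity)]
            nlinarith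
    · calc 1 / 2 * min 1 (a / b) ≤ 1 / 2 * 1 := by
            gcongr
            exact min_le_left _ _
        _ ≤ a / (a + b) := by
            rw [mul_one, div_le_div_iff₀ (by norm_num) (by positivity)]
            linarith
  · refine le_min ?_ ?_
    · rw [div_le_one (by positivity)]
      linarith
    · exact div_le_div_of_nonneg_left ha.le hb (by linarith)

lemma frac2 {a b d : ℝ} (ha : 0 < a) (hb : 0 < b) (hd : 0 < d) :
    1 / 4 * (min 1 (a / d) * min 1 (b / d)) ≤ a / (a + d) * (b / (b + d)) ∧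
      a / (a + d) * (b / (b + d)) ≤ min 1 (a / d) * min 1 (b / d) := by
  obtain ⟨h1, h2⟩ := frac ha hd
  obtain ⟨h3, h4⟩ := frac hb hd
  have m1 : 0 ≤ min 1 (a / d) := le_min zero_le_one (by positivity)
  have m2 : 0 ≤ min 1 (b / d) := le_min zero_le_one (by positivity)
  constructor
  · calc 1 / 4 * (min 1 (a / d) * min 1 (b / d)) =
        1 / 2 * min 1 (a / d) * (1 / 2 * min 1 (b / d)) := by ring
      _ ≤ _ := mul_le_mul h1 h3 (by positivity) (by positivity)
  · exact mul_le_mul h2 h4 (by positivity) m1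

lemma core4 {A G B G' : ℝ} (hA : 0 < A) (hG : 0 < G) (hB : 0 < B) (hG' : 0 < G')
    (h : A + G + B + G' = pi) :
    1 / pi ^ 2 * (min 1 (A / min G G') * min 1 (B / min G G')) ≤
      sin A * sin B / (sin (A + G) * sin (G + B)) ∧
    sin A * sin B / (sin (A + G) * sin (G + B)) ≤
      3 * pi ^ 2 / 4 * (min 1 (A / min G G') * min 1 (B / min G G')) := by
  have hpi := Real.pi_pos
  obtain ⟨h1, h2⟩ := core'' hA hG hB hG' h
  obtain ⟨h3, h4⟩ := frac2 hA hB (lt_min hG hG')
  constructor
  · refine le_trans ?_ h1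
    calc 1 / pi ^ 2 * (min 1 (A / min G G') * min 1 (B / min G G')) =
        4 / pi ^ 2 * (1 / 4 * (min 1 (A / min G G') * min 1 (B / min G G'))) := by ring
      _ ≤ _ := mul_le_mul_of_nonneg_left h3 (by positivity)
  · exact h2.trans (mul_le_mul_of_nonneg_left h4 (by positivity))

lemma half {a b c : ℝ} : (2 * a) / min (2 * b) (2 * c) = a / min b c := by
  rw [← mul_min_of_nonneg _ _ (by norm_num : (0 : ℝ) ≤ 2),
    mul_div_mul_left _ _ (by norm_num : (2 : ℝ) ≠ 0)]

theorem t_CIR : S_CIR := by
  have hpi := Real.pi_pos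
  refine ⟨1 / pi ^ 2, 3 * pi ^ 2 / 4, by positivity, by positivity, ?_⟩
  intro θ1 θ2 θ3 θ4 h12 h23 h34 h41
  obtain ⟨A, hA⟩ : ∃ A, A = (θ2 - θ1) / 2 := ⟨_, rfl⟩
  obtain ⟨G, hG⟩ : ∃ G, G = (θ3 - θ2) / 2 := ⟨_, rfl⟩
  obtain ⟨B, hB⟩ : ∃ B, B = (θ4 - θ3) / 2 := ⟨_, rfl⟩
  obtain ⟨G', hG'⟩ : ∃ G', G' = (θ1 + 2 * pi - θ4) / 2 := ⟨_, rfl⟩
  have pA : 0 < A := by rw [hA]; linarith
  have pG : 0 < G := by rw [hG]; linarith
  have pB : 0 < B := by rw [hB]; linarith
  have pG' : 0 < G' := by rw [hG']; linarith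
  have hs : A + G + B + G' = pi := by rw [hA, hG, hB, hG']; ring
  have e1 : xr θ1 θ2 θ3 θ4 = sin A * sin B / (sin (A + G) * sin (G + B)) := by
    unfold xr
    have t1 : (θ3 - θ1) / 2 = A + G := by rw [hA, hG]; ring
    have t2 : (θ4 - θ2) / 2 = G + B := by rw [hG, hB]; ring
    rw [t1, t2, ← hA, ← hB]
  have sA : 0 < sin A := Real.sin_pos_of_pos_of_lt_pi pA (by linarith)
  have sB : 0 < sin B := Real.sin_pos_of_pos_of_lt_pi pB (by linarith)
  have sG : 0 < sin G := Real.sin_pos_of_pos_of_lt_pi pG (by linarith)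
  have sC : 0 < sin (A + G) := Real.sin_pos_of_pos_of_lt_pi (by linarith) (by linarith)
  have sD : 0 < sin (G + B) := Real.sin_pos_of_pos_of_lt_pi (by linarith) (by linarith)
  have sE : 0 < sin (A + G + B) := Real.sin_pos_of_pos_of_lt_pi (by linarith) (by linarith)
  have u1 : sin (A + G + B) = sin G' := by
    rw [← Real.sin_pi_sub G']
    congr 1
    linarith
  have u2 : sin (B + G') = sin (A + G) := by
    rw [← Real.sin_pi_sub (A + G)]
    congr 1
    linarith
  have e2 : 1 - xr θ1 θ2 θ3 θ4 = sin G * sin G' / (sin (G + B) * sin (B + G')) := by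
    rw [e1, u2, ← u1, mul_comm (sin (G + B)), eq_div_iff (by positivity), sub_mul, one_mul,
      div_mul_cancel₀ _ (by positivity), ptolemy]
    ring
  refine ⟨?_, ?_, ?_⟩
  · rw [e1]
    positivity
  · rw [e1, div_lt_one (by positivity), ptolemy]
    linarith [mul_pos sG sE]
  · intro i g j k g' m hi hg hj hk hg' hm
    have r1 : i = 2 * A := by rw [hi, hA]; ring
    have r2 : g = 2 * G := by rw [hg, hG]; ring
    have r3 : j = 2 * B := by rw [hj, hB]; ring
    have r4 : k = 2 * G' := by rw [hk, hG']; ring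
    obtain ⟨c1, c2⟩ := core4 pA pG pB pG' hs
    obtain ⟨c3, c4⟩ := core4 pG pB pG' pA (by linarith)
    rw [hg', hm, r1, r2, r3, r4, half, half, half, half, e2, e1]
    rw [min_comm B A] at c3 c4
    exact ⟨c1, c2, c3, c4⟩

end Pool.Agent.Y989.RC.CIR
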