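import Pool.Agent.Y989.RC.Stm

/-!
# Project RC: distance to the corners and the sizes `Ph`

Proofs of `S_DC` and `S_DC → S_PH` (by helper918).
-/

set_option autoImplicit false

namespace Pool.Agent.Y989.RC.DC

open Pool.Agent.Y989.RC

theorem mem_c1 (w h k : ℤ) : (k : ℝ) * (w + h) ∈ corners w h := ⟨k, Or.inl rfl⟩

theorem mem_c2 (w h k : ℤ) : (k : ℝ) * (w + h) + w ∈ corners w h := ⟨k, Or.inr rfl⟩

theorem corners_ne (w h : ℤ) : (corners w h).Nonempty := ⟨_, mem_c1 w h 0⟩

theorem dc_le_of {w h w' h' : ℤ} {t t' : ℝ}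
    (H : ∀ c ∈ corners w h, ∃ c' ∈ corners w' h', |t' - c'| = |t - c|) :
    dc w' h' t' ≤ dc w h t := by
  unfold dc
  rw [Metric.le_infDist (corners_ne w h)]
  intro c hc
  obtain ⟨c', hc', e⟩ := H c hc
  rw [Real.dist_eq, ← e, ← Real.dist_eq]
  exact Metric.infDist_le_dist_of_mem hc'

theorem dc_le_mem {w h : ℤ} {t c : ℝ} (hc : c ∈ corners w h) : dc w h t ≤ |t - c| := by
  rw [← Real.dist_eq]
  exact Metric.infDist_le_dist_of_mem hc

theorem dc_shift_le (w h : ℤ) (t : ℝ) : dc h w (t - w) ≤ dc w h t := by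
  refine dc_le_of ?_
  rintro c ⟨k, rfl | rfl⟩
  · refine ⟨((k - 1 : ℤ) : ℝ) * (h + w) + h, mem_c2 h w (k - 1), ?_⟩
    congr 1
    push_cast
    ring
  · refine ⟨((k : ℤ) : ℝ) * (h + w), mem_c1 h w k, ?_⟩
    congr 1
    ring

theorem dc_per_le (w h : ℤ) (t : ℝ) : dc w h (t + (w + h)) ≤ dc w h t := by
  refine dc_le_of ?_
  rintro c ⟨k, rfl | rfl⟩
  · refine ⟨((k + 1 : ℤ) : ℝ) * (w + h), mem_c1 w h (k + 1), ?_⟩
    congr 1
    push_cast
    ring
  · refine ⟨((k + 1 : ℤ) : ℝ) * (w + h) + w, mem_c2 w h (k + 1), ?_⟩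
    congr 1
    push_cast
    ring

theorem dc_per_ge (w h : ℤ) (t : ℝ) : dc w h t ≤ dc w h (t + (w + h)) := by
  refine dc_le_of ?_
  rintro c ⟨k, rfl | rfl⟩
  · refine ⟨((k - 1 : ℤ) : ℝ) * (w + h), mem_c1 w h (k - 1), ?_⟩
    congr 1
    push_cast
    ring
  · refine ⟨((k - 1 : ℤ) : ℝ) * (w + h) + w, mem_c2 w h (k - 1), ?_⟩
    congr 1
    push_cast
    ring

theorem dc_neg_le (w h : ℤ) (t : ℝ) : dc h w (-t) ≤ dc w h t := by
  refine dc_le_of ?_
  rintro c ⟨k, rfl | rfl⟩
  · refine ⟨((-k : ℤ) : ℝ) * (h + w), mem_c1 h w (-k), ?_⟩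
    rw [← abs_neg]
    congr 1
    push_cast
    ring
  · refine ⟨((-k - 1 : ℤ) : ℝ) * (h + w) + h, mem_c2 h w (-k - 1), ?_⟩
    rw [← abs_neg]
    congr 1
    push_cast
    ring

theorem dc_shift (w h : ℤ) (t : ℝ) : dc h w (t - w) = dc w h t := by
  refine le_antisymm (dc_shift_le w h t) ?_
  have h1 := dc_shift_le h w (t - w)
  have h2 := dc_per_ge w h (t - w - h)
  have e : t - w - h + ((w : ℝ) + h) = t := by ring
  rw [e] at h2
  -- `h2 : dc w h (t - w - h) ≥ dc ...`
  have h3 := dc_per_le w h (t - w - h)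
  rw [e] at h3
  linarith

theorem dc_neg (w h : ℤ) (t : ℝ) : dc h w (-t) = dc w h t := by
  refine le_antisymm (dc_neg_le w h t) ?_
  have h1 := dc_neg_le h w (-t)
  rwa [neg_neg] at h1

theorem dc_per (w h : ℤ) (t : ℝ) : dc w h (t + (w + h)) = dc w h t :=
  le_antisymm (dc_per_le w h t) (dc_per_ge w h t)

theorem dc_zero (w h : ℤ) (t : ℝ) : dc w h t ≤ |t| := by
  have h1 : ((0 : ℤ) : ℝ) * (w + h) ∈ corners w h := mem_c1 w h 0
  have h2 := dc_le_mem (t := t) h1
  simpa using h2

theorem dc_seg {w h : ℤ} (hw : 1 ≤ w) (hh : 1 ≤ h) {t : ℝ} (h0 : 0 ≤ t) (h1 : t ≤ (w : ℝ)) :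
    dc w h t = min t (w - t) := by
  have hw' : (1 : ℝ) ≤ w := by exact_mod_cast hw
  have hh' : (1 : ℝ) ≤ h := by exact_mod_cast hh
  apply le_antisymm
  · refine le_min ?_ ?_
    · have := dc_zero w h t
      rwa [abs_of_nonneg h0] at this
    · have h2 : ((0 : ℤ) : ℝ) * (w + h) + w ∈ corners w h := mem_c2 w h 0
      have h3 := dc_le_mem (t := t) h2
      rw [Int.cast_zero, zero_mul, zero_add, abs_sub_comm, abs_of_nonneg (by linarith)] at h3
      exact h3
  · unfold dc
    rw [Metric.le_infDist (corners_ne w h)]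
    rintro c ⟨k, rfl | rfl⟩
    · rw [Real.dist_eq]
      rcases le_or_gt k 0 with hk | hk
      · have hk' : (k : ℝ) ≤ 0 := by exact_mod_cast hk
        have h2 : (k : ℝ) * (w + h) ≤ 0 := mul_nonpos_of_nonpos_of_nonneg hk' (by linarith)
        refine (min_le_left _ _).trans ((by linarith : t ≤ t - (k : ℝ) * (w + h)).trans
          (le_abs_self _))
      · have hk' : (1 : ℝ) ≤ k := by exact_mod_cast hk
        have h2 : (w : ℝ) + h ≤ (k : ℝ) * (w + h) := by nlinarith
        refine (min_le_right _ _).trans ?_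
        rw [abs_sub_comm]
        exact (by linarith : (w : ℝ) - t ≤ (k : ℝ) * (w + h) - t).trans (le_abs_self _)
    · rw [Real.dist_eq]
      rcases le_or_gt 0 k with hk | hk
      · have hk' : (0 : ℝ) ≤ k := by exact_mod_cast hk
        have h2 : 0 ≤ (k : ℝ) * (w + h) := mul_nonneg hk' (by linarith)
        refine (min_le_right _ _).trans ?_
        rw [abs_sub_comm]
        exact (by linarith : (w : ℝ) - t ≤ (k : ℝ) * (w + h) + w - t).trans (le_abs_self _)
      · have hk1 : k ≤ -1 := by omega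
        have hk' : (k : ℝ) ≤ -1 := by exact_mod_cast hk1
        have h2 : (k : ℝ) * (w + h) ≤ -(w + h) := by nlinarith
        refine (min_le_left _ _).trans
          ((by linarith : t ≤ t - ((k : ℝ) * (w + h) + w)).trans (le_abs_self _))

theorem dc_seg' {w h : ℤ} (hw : 1 ≤ w) (hh : 1 ≤ h) {t : ℝ} (h0 : -(h : ℝ) ≤ t) (h1 : t ≤ 0) :
    dc w h t = min (-t) (h + t) := by
  rw [← dc_neg w h t, dc_seg hh hw (by linarith) (by linarith), sub_neg_eq_add]

theorem t_DC : S_DC := by
  intro w h hw hh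
  refine ⟨fun t => ⟨dc_shift w h t, dc_neg w h t, dc_per w h t, Metric.infDist_nonneg,
    dc_zero w h t, fun s => ?_⟩, fun t h0 h1 => ?_, fun t h0 h1 => dc_seg hw hh h0 h1,
    fun t h0 h1 => dc_seg' hw hh h0 h1⟩
  · have h1 := Metric.infDist_le_infDist_add_dist (s := corners w h) (x := s) (y := t)
    rw [Real.dist_eq] at h1
    exact h1
  · rcases le_or_gt 0 t with ht | ht
    · rw [dc_seg hw hh ht (by
        have hw' : (1 : ℝ) ≤ w := by exact_mod_cast hw
        linarith), abs_of_nonneg ht, min_eq_left (by linarith)]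
    · rw [dc_seg' hw hh (by
        have hh' : (1 : ℝ) ≤ h := by exact_mod_cast hh
        linarith) ht.le, abs_of_neg ht, min_eq_left (by linarith)]

theorem t_PH : S_DC → S_PH := by
  intro _ w h hw hh t
  have hw' : (1 : ℝ) ≤ w := by exact_mod_cast hw
  have hh' : (1 : ℝ) ≤ h := by exact_mod_cast hh
  obtain ⟨m, hm⟩ : ∃ m : ℝ, m = min (w : ℝ) h := ⟨_, rfl⟩
  have hm1 : 1 ≤ m := by rw [hm]; exact le_min hw' hh'
  have hmw : m ≤ w := by rw [hm]; exact min_le_left _ _
  have hmh : m ≤ h := by rw [hm]; exact min_le_right _ _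
  have hd0 : ∀ s, 0 ≤ dc w h s := fun s => Metric.infDist_nonneg
  have hdl : ∀ s t, dc w h s ≤ dc w h t + |s - t| := by
    intro s t
    have h1 := Metric.infDist_le_infDist_add_dist (s := corners w h) (x := s) (y := t)
    rw [Real.dist_eq] at h1
    exact h1
  have hdw : ∀ s, dc w h s ≤ w + h := by
    intro s
    have hp : (0 : ℝ) < w + h := by linarith
    have h1 := dc_le_mem (t := s) (mem_c1 w h ⌊s / (w + h)⌋)
    have h2 : (⌊s / ((w : ℝ) + h)⌋ : ℝ) ≤ s / (w + h) := Int.floor_le _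
    have h3 : s / ((w : ℝ) + h) < ⌊s / ((w : ℝ) + h)⌋ + 1 := Int.lt_floor_add_one _
    rw [le_div_iff₀ hp] at h2
    rw [div_lt_iff₀ hp] at h3
    have h4 : |s - (⌊s / ((w : ℝ) + h)⌋ : ℝ) * (w + h)| ≤ w + h := by
      rw [abs_le]
      constructor <;> nlinarith
    exact h1.trans h4
  have e : ∀ s n, Ph w h s n = min n m * max (dc w h s) (min n m) := by
    intro s n
    unfold Ph
    rw [hm]
  have hmin : ∀ n : ℝ, 0 < n → 0 < min n m := fun n hn => lt_min hn (by linarith)
  have hpos : ∀ s n : ℝ, 0 < n → 0 < Ph w h s n := by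
    intro s n hn
    rw [e]
    exact mul_pos (hmin n hn) (lt_max_of_lt_right (hmin n hn))
  have h5 : ∀ n s : ℝ, 0 < n → n ≤ m → |s - t| ≤ n → Ph w h s n ≤ 2 * Ph w h t n := by
    intro n s hn hnm hst
    rw [e, e, min_eq_left hnm]
    have h1 : max (dc w h s) n ≤ 2 * max (dc w h t) n := by
      have h2 := le_max_left (dc w h t) n
      have h3 := le_max_right (dc w h t) n
      have h4 := hdl s t
      refine max_le ?_ ?_ <;> linarith
    nlinarith
  refine ⟨fun n hn => hpos t n hn, ?_, ?_, ?_, fun n s hn hnm hst => h5 n s hn (hm ▸ hnm) hst⟩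
  · intro n n' hn hnn
    rw [e, e]
    have h1 : min n m ≤ min n' m := min_le_min_right _ hnn
    exact mul_le_mul h1 (max_le_max le_rfl h1) ((hmin n hn).le.trans (le_max_right _ _))
      ((hmin n hn).le.trans h1)
  · intro n k hn hk
    rw [e, e]
    have h1 : min (k * n) m ≤ k * min n m := by
      rw [mul_min_of_nonneg _ _ (by linarith)]
      refine min_le_min_left _ ?_
      nlinarith
    have h2 : max (dc w h t) (min (k * n) m) ≤ k * max (dc w h t) (min n m) := by
      refine max_le ?_ (h1.trans (mul_le_mul_of_nonneg_left (le_max_right _ _) (by linarith)))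
      have h3 := le_max_left (dc w h t) (min n m)
      have h4 := hd0 t
      nlinarith
    have h0 : 0 < min (k * n) m := hmin _ (by positivity)
    calc min (k * n) m * max (dc w h t) (min (k * n) m)
        ≤ (k * min n m) * (k * max (dc w h t) (min n m)) :=
          mul_le_mul h1 h2 (h0.le.trans (le_max_right _ _)) (h0.le.trans h1)
      _ = k ^ 2 * (min n m * max (dc w h t) (min n m)) := by ring
  · intro n s hn hst
    rw [← hm]
    rcases le_or_gt n m with hnm | hnm
    · refine (h5 n s hn hnm hst).trans ?_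
      refine mul_le_mul_of_nonneg_right ?_ (hpos t n hn).le
      rw [le_div_iff₀ (by linarith)]
      linarith
    · rw [e, e, min_eq_right hnm.le]
      have h1 : max (dc w h s) m ≤ w + h := max_le (hdw s) (by linarith)
      have h2 : m ≤ max (dc w h t) m := le_max_right _ _
      calc m * max (dc w h s) m ≤ m * (w + h) := mul_le_mul_of_nonneg_left h1 (by linarith)
        _ ≤ 2 * (w + h) / m * (m * m) := by
          have h3 : 2 * ((w : ℝ) + h) / m * (m * m) = 2 * (w + h) * m := by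
            field_simp
          rw [h3]
          nlinarith
        _ ≤ 2 * (w + h) / m * (m * max (dc w h t) m) := by
          refine mul_le_mul_of_nonneg_left (mul_le_mul_of_nonneg_left h2 (by linarith)) ?_
          exact div_nonneg (by linarith) (by linarith)

end Pool.Agent.Y989.RC.DC
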