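import Pool.Agent.Y989.RC.Stm

/-!
Project RC: lower bound for the probability of no crossing.
-/

set_option autoImplicit false
set_option maxHeartbeats 400000

namespace Pool.Agent.Y989.RC.DLO
open Finset H974 Pool.Agent.H160R2.CV

theorem okP' : Ok P := fun _ => by unfold P; norm_num

/-! ### the empty configuration -/

theorem reach_empty {u v : Vtx} (h : Reach (∅ : Set Edg) u v) : u = v := by
  induction h with
  | refl => rfl
  | tail _ h _ =>
    obtain ⟨e, he, -⟩ := h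
    exact absurd he (Set.notMem_empty e)

theorem pr_none (S : Finset Edg) : (1 / 2 : ℝ) ^ S.card ≤ Pr P S (fun F => F = ∅) := by
  unfold Pr Ex
  have h : ∀ F ∈ S.powerset,
      0 ≤ (∏ e ∈ F, P e) * (∏ e ∈ S \ F, (1 - P e)) * ind (F = ∅) := by
    intro F _
    exact mul_nonneg (mul_nonneg (Finset.prod_nonneg fun e _ => (okP' e).1)
      (Finset.prod_nonneg fun e _ => sub_nonneg.2 (okP' e).2)) (ind_nonneg _)
  refine le_trans (le_of_eq ?_) (Finset.single_le_sum h (Finset.empty_mem_powerset S))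
  rw [Finset.prod_empty, one_mul, Finset.sdiff_empty, ind_of rfl, mul_one]
  unfold P
  rw [Finset.prod_const]
  norm_num

theorem bd_ne {w h : ℤ} (hw : 1 ≤ w) (hh : 1 ≤ h) {x y : ℤ} (h1 : x < y)
    (h2 : y < x + 2 * (w + h)) : bd w h x ≠ bd w h y := by
  have hL : 0 < 2 * (w + h) := by omega
  have m0 := Int.emod_nonneg x hL.ne'
  have m1 := Int.emod_lt_of_pos x hL
  have n0 := Int.emod_nonneg y hL.ne'
  have n1 := Int.emod_lt_of_pos y hL
  have hne : x % (2 * (w + h)) ≠ y % (2 * (w + h)) := by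
    intro he
    have h3 : (y - x) % (2 * (w + h)) = 0 := by
      rw [Int.sub_emod, he, sub_self, Int.zero_emod]
    rw [Int.emod_eq_of_lt (by omega) (by omega)] at h3
    omega
  unfold bd
  generalize x % (2 * (w + h)) = m at *
  generalize y % (2 * (w + h)) = n at *
  intro he
  split_ifs at he <;> (rw [Prod.mk.injEq] at he; omega)

theorem bd_per {w h : ℤ} (x : ℤ) : bd w h (x + 2 * (w + h)) = bd w h x := by
  have e : (x + 2 * (w + h)) % (2 * (w + h)) = x % (2 * (w + h)) := by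
    simp
  unfold bd
  rw [e]

theorem one_sub_low {w h : ℤ} (hw : 1 ≤ w) (hh : 1 ≤ h) {a b c d : ℤ} (hA : Arcs w h a b c d) :
    (1 / 2 : ℝ) ^ (RE 0 w 0 h).card ≤ 1 - PR w h a b c d := by
  unfold PR
  rw [← Pr_not]
  refine (pr_none _).trans (Pr_mono okP' ?_)
  intro F _ hF
  subst hF
  rintro ⟨x, y, hx, hy, hr⟩
  rw [Finset.coe_empty] at hr
  obtain ⟨h1, h2, h3, h4⟩ := hA
  exact bd_ne hw hh (by omega : x < y) (by omega) (reach_empty hr)

theorem card_RE {w h : ℤ} {N : ℕ} (hw : w ≤ N) (hh : h ≤ N) :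
    (RE 0 w 0 h).card ≤ (N + 1) * ((N + 1) * 2) := by
  unfold RE
  refine (Finset.card_filter_le _ _).trans ?_
  rw [Finset.card_product, Finset.card_product, Int.card_Icc, Int.card_Icc, Finset.card_univ,
    Fintype.card_bool]
  refine Nat.mul_le_mul ?_ (Nat.mul_le_mul ?_ le_rfl)
  · omega
  · omega

/-! ### comparison of the sizes -/

theorem min_scale {x κ : ℝ} (hκ : 1 ≤ κ) : min 1 (κ * x) ≤ κ * min 1 x := by
  rcases le_total 1 x with h | h
  · rw [min_eq_left h]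
    exact (min_le_left _ _).trans (by linarith)
  · rw [min_eq_right h]
    exact min_le_right _ _

theorem ratio_le {x y x' y' k1 k2 : ℝ} (hy : 0 < y) (hx' : 0 < x') (hy' : 0 < y')
    (hk1 : 1 ≤ k1) (hk2 : 1 ≤ k2) (h1 : x ≤ k1 * x') (h2 : y' ≤ k2 * y) :
    min 1 (x / y) ≤ (k1 * k2) * min 1 (x' / y') := by
  refine le_trans (min_le_min le_rfl ?_) (min_scale (one_le_mul_of_one_le_of_one_le hk1 hk2))
  rw [div_le_iff₀ hy]
  have h3 : 0 ≤ k1 * (x' / y') := mul_nonneg (by linarith) (div_pos hx' hy').le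
  calc x ≤ k1 * x' := h1
    _ = k1 * (x' / y') * y' := by field_simp
    _ ≤ k1 * (x' / y') * (k2 * y) := mul_le_mul_of_nonneg_left h2 h3
    _ = k1 * k2 * (x' / y') * y := by ring

theorem qr_pos (hPH : S_PH) {w h : ℤ} (hw : 1 ≤ w) (hh : 1 ≤ h) {t r g : ℝ} (hr : 0 < r)
    (hg : 0 < g) : 0 < qr w h t r g :=
  lt_min one_pos (div_pos ((hPH w h hw hh t).1 r hr) ((hPH w h hw hh t).1 g hg))

theorem claim1 (hPH : S_PH) (hKP : S_KP) {K : ℕ} {w h : ℤ} (hw : 4 ≤ w) (hh : 4 ≤ h)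
    (h1 : w ≤ K * h) (h2 : h ≤ K * w) {b e : ℤ} (hbe : b ≤ e) {g τ β ρ : ℝ}
    (hg : g = (e : ℝ) - b + 1) (hβg : β ≤ g) (hgβ : g ≤ 2 * β) (hβ1 : 1 ≤ β) (hρ0 : 0 < ρ)
    (hρτ : ρ ≤ τ) (hτ1 : 1 ≤ τ) :
    qr w h b g τ ≤ (200 * ((K : ℝ) + 1)) * (200 * ((K : ℝ) + 1)) *
      qr (w - 1) (h - 1) (kp w h e) β ρ := by
  have hK0 : (0 : ℝ) ≤ K := by positivity
  have hP' := hPH (w - 1) (h - 1) (by omega) (by omega) (kp w h e)
  have hk := (hKP w h hw hh).2.2.2
  have hβ0 : 0 < β := by linarith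
  have hg1 : 1 ≤ g := le_trans hβ1 hβg
  rcases le_or_gt τ g with hc | hc
  · have e1 : Ph (w - 1) (h - 1) (kp w h e) ρ ≤ 4 * Ph (w - 1) (h - 1) (kp w h e) β := by
      have i1 := hP'.2.2.1 (ρ / 2) 2 (by linarith) (by norm_num)
      have i2 := hP'.2.1 (ρ / 2) β (by linarith) (by linarith)
      have i3 : 2 * (ρ / 2) = ρ := by ring
      rw [i3] at i1
      linarith
    have p1 := hP'.1 ρ hρ0
    have p2 := hP'.1 β hβ0
    have e2 : (1 : ℝ) / 4 ≤ qr (w - 1) (h - 1) (kp w h e) β ρ := by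
      unfold qr
      apply le_min
      · norm_num
      · rw [le_div_iff₀ p1]
        linarith
    have e3 : qr w h b g τ ≤ 1 := min_le_left _ _
    nlinarith
  · have hPb := hPH w h (by omega) (by omega) b
    have hPe := hPH w h (by omega) (by omega) e
    have hM : (2 * ((w : ℝ) + h)) / min (w : ℝ) h ≤ 2 * ((K : ℝ) + 1) := by
      have hw0 : (0 : ℝ) < w := by exact_mod_cast (by omega : (0 : ℤ) < w)
      have hh0 : (0 : ℝ) < h := by exact_mod_cast (by omega : (0 : ℤ) < h)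
      have h1' : (w : ℝ) ≤ K * h := by exact_mod_cast h1
      have h2' : (h : ℝ) ≤ K * w := by exact_mod_cast h2
      rw [div_le_iff₀ (lt_min hw0 hh0)]
      rcases le_total (w : ℝ) h with hwh | hwh
      · rw [min_eq_left hwh]
        linarith
      · rw [min_eq_right hwh]
        linarith
    have hbe' : (b : ℝ) ≤ e := by exact_mod_cast hbe
    have hτ0 : 0 < τ := by linarith
    have a1 : |(b : ℝ) - e| ≤ g := by
      rw [abs_sub_comm, abs_of_nonneg (by linarith)]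
      linarith
    have a2 : |(e : ℝ) - b| ≤ τ := by
      rw [abs_of_nonneg (by linarith)]
      linarith
    have b1 := hPe.2.2.2.1 g b (by linarith) a1
    have b2 := hPb.2.2.2.1 τ e hτ0 a2
    have q1 := (hk e e g β (by simp) hg1 hβ1 hgβ (by linarith)).2
    have q2 := (hk e e τ τ (by simp) hτ1 hτ1 (by linarith) (by linarith)).1
    have q3 := hP'.2.1 ρ τ hρ0 hρτ
    have pe1 := hPe.1 g (by linarith)
    have pb2 := hPb.1 τ hτ0
    have p1 := hP'.1 ρ hρ0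
    have p2 := hP'.1 β hβ0
    unfold qr
    refine ratio_le (hPb.1 τ hτ0) p2 p1 (by linarith) (by linarith) ?_ ?_
    · calc Ph w h b g ≤ (2 * ((w : ℝ) + h)) / min (w : ℝ) h * Ph w h e g := b1
        _ ≤ 2 * ((K : ℝ) + 1) * Ph w h e g := mul_le_mul_of_nonneg_right hM pe1.le
        _ ≤ 2 * ((K : ℝ) + 1) * (100 * Ph (w - 1) (h - 1) (kp w h e) β) :=
          mul_le_mul_of_nonneg_left q1 (by positivity)
        _ = _ := by ring
    · calc Ph (w - 1) (h - 1) (kp w h e) ρ ≤ Ph (w - 1) (h - 1) (kp w h e) τ := q3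
        _ ≤ 100 * Ph w h e τ := q2
        _ ≤ 100 * ((2 * ((w : ℝ) + h)) / min (w : ℝ) h * Ph w h b τ) :=
          mul_le_mul_of_nonneg_left b2 (by norm_num)
        _ ≤ 100 * (2 * ((K : ℝ) + 1) * Ph w h b τ) :=
          mul_le_mul_of_nonneg_left (mul_le_mul_of_nonneg_right hM pb2.le) (by norm_num)
        _ = _ := by ring

theorem claim2 (hPH : S_PH) (hKP : S_KP) {w h : ℤ} (hw : 4 ≤ w) (hh : 4 ≤ h) {d : ℤ}
    {g τ β ρ : ℝ} (hβg : β ≤ g) (hgβ : g ≤ 2 * β) (hβ1 : 1 ≤ β) (hρ0 : 0 < ρ) (hρτ : ρ ≤ τ)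
    (hτ1 : 1 ≤ τ) :
    qr w h d g τ ≤ (100 * 100) * qr (w - 1) (h - 1) (kp w h d) β ρ := by
  have hP' := hPH (w - 1) (h - 1) (by omega) (by omega) (kp w h d)
  have hPd := hPH w h (by omega) (by omega) d
  have hk := (hKP w h hw hh).2.2.2
  have q1 := (hk d d g β (by simp) (by linarith) hβ1 hgβ (by linarith)).2
  have q2 := (hk d d τ τ (by simp) hτ1 hτ1 (by linarith) (by linarith)).1
  have q3 := hP'.2.1 ρ τ hρ0 hρτ
  unfold qr
  exact ratio_le (hPd.1 τ (by linarith)) (hP'.1 β (by linarith)) (hP'.1 ρ hρ0) (by norm_num)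
    (by norm_num) q1 (q3.trans q2)

/-- the comparison of the products -/
theorem yy_le (hPH : S_PH) (hKP : S_KP) {K : ℕ} {w h : ℤ} (hw : 4 ≤ w) (hh : 4 ≤ h)
    (h1 : w ≤ K * h) (h2 : h ≤ K * w) {a b c d : ℤ} (hA : Arcs w h a b c d)
    (hBC : kp w h (c - 1) < kp w h d)
    (hDA : kp w h (a + 2 * (w + h) - 1) < kp w h b + 2 * (w - 1 + (h - 1))) :
    YY w h a b c d ≤ (200 * ((K : ℝ) + 1)) * (200 * ((K : ℝ) + 1)) * (100 * 100) *
      XX (w - 1) (h - 1) (kp w h b) (kp w h (c - 1)) (kp w h d) (kp w h (a + 2 * (w + h) - 1)) := by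
  obtain ⟨k1, k2, -, -⟩ := hKP w h hw hh
  obtain ⟨o1, o2, o3, o4⟩ := hA
  have f1 := k2 b (c - 1) (by omega)
  have f2 := k2 (c - 1) d (by omega)
  have f3 := k2 d (a + 2 * (w + h) - 1) (by omega)
  have f4 := k2 (a + 2 * (w + h) - 1) (b + 2 * (w + h)) (by omega)
  rw [k1 b] at f4
  generalize hAe : kp w h b = A at *
  generalize hBe : kp w h (c - 1) = B at *
  generalize hCe : kp w h d = C at *
  generalize hDe : kp w h (a + 2 * (w + h) - 1) = D at *
  have r1 : ((B : ℝ) - A + 1) ≤ (c : ℝ) - b := by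
    have : B - A + 1 ≤ c - b := by omega
    exact_mod_cast this
  have r2 : (c : ℝ) - b ≤ 2 * ((B : ℝ) - A + 1) := by
    have : c - b ≤ 2 * (B - A + 1) := by omega
    exact_mod_cast this
  have r3 : (1 : ℝ) ≤ (B : ℝ) - A + 1 := by
    have : 1 ≤ B - A + 1 := by omega
    exact_mod_cast this
  have s1 : ((D : ℝ) - C + 1) ≤ (a : ℝ) + 2 * (w + h) - d := by
    have : D - C + 1 ≤ a + 2 * (w + h) - d := by omega
    exact_mod_cast this
  have s2 : (a : ℝ) + 2 * (w + h) - d ≤ 2 * ((D : ℝ) - C + 1) := by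
    have : a + 2 * (w + h) - d ≤ 2 * (D - C + 1) := by omega
    exact_mod_cast this
  have s3 : (1 : ℝ) ≤ (D : ℝ) - C + 1 := by
    have : 1 ≤ D - C + 1 := by omega
    exact_mod_cast this
  have t1 : (C : ℝ) - B ≤ (d : ℝ) - c + 1 := by
    have : C - B ≤ d - c + 1 := by omega
    exact_mod_cast this
  have t2 : (A : ℝ) + 2 * (((w - 1 : ℤ) : ℝ) + ((h - 1 : ℤ) : ℝ)) - D ≤ (b : ℝ) - a + 1 := by
    have : A + 2 * ((w - 1) + (h - 1)) - D ≤ b - a + 1 := by omega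
    exact_mod_cast this
  have t3 : (1 : ℝ) ≤ (C : ℝ) - B := by
    have : 1 ≤ C - B := by omega
    exact_mod_cast this
  have t4 : (1 : ℝ) ≤ (A : ℝ) + 2 * (((w - 1 : ℤ) : ℝ) + ((h - 1 : ℤ) : ℝ)) - D := by
    have : 1 ≤ A + 2 * ((w - 1) + (h - 1)) - D := by omega
    exact_mod_cast this
  have u1 : (1 : ℝ) ≤ (b : ℝ) - a + 1 := by
    have : 1 ≤ b - a + 1 := by omega
    exact_mod_cast this
  have u2 : (1 : ℝ) ≤ (d : ℝ) - c + 1 := by
    have : 1 ≤ d - c + 1 := by omega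
    exact_mod_cast this
  unfold YY XX
  generalize hρe : min ((C : ℝ) - B) ((A : ℝ) + 2 * (((w - 1 : ℤ) : ℝ) + ((h - 1 : ℤ) : ℝ)) - D) = ρ
  generalize hτe : min ((b : ℝ) - a + 1) ((d : ℝ) - c + 1) = τ
  have hρ0 : 0 < ρ := by
    rw [← hρe]
    exact lt_min (by linarith) (by linarith)
  have hτ1 : 1 ≤ τ := by
    rw [← hτe]
    exact le_min u1 u2
  have hρτ : ρ ≤ τ := by
    rw [← hρe, ← hτe]
    exact le_min ((min_le_right _ _).trans t2) ((min_le_left _ _).trans t1)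
  have c1 := claim1 hPH hKP hw hh h1 h2 (b := b) (e := c - 1) (by omega) (g := (c : ℝ) - b)
    (τ := τ) (β := (B : ℝ) - A + 1) (ρ := ρ) (by push_cast; ring) r1 r2 r3 hρ0 hρτ hτ1
  have c2 := claim2 hPH hKP hw hh (d := d) (g := (a : ℝ) + 2 * (w + h) - d) (τ := τ)
    (β := (D : ℝ) - C + 1) (ρ := ρ) s1 s2 s3 hρ0 hρτ hτ1
  rw [hBe] at c1
  rw [hCe] at c2
  have hq1 : 0 < qr w h b ((c : ℝ) - b) τ :=
    qr_pos hPH (by omega) (by omega) (by linarith) (by linarith)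
  have hq2 : 0 < qr w h d ((a : ℝ) + 2 * (w + h) - d) τ :=
    qr_pos hPH (by omega) (by omega) (by linarith) (by linarith)
  refine (mul_le_mul c1 c2 hq2.le (hq1.le.trans c1)).trans (le_of_eq ?_)
  ring

theorem yy_pos (hPH : S_PH) {w h : ℤ} (hw : 1 ≤ w) (hh : 1 ≤ h) {a b c d : ℤ}
    (hA : Arcs w h a b c d) : 0 < YY w h a b c d ∧ YY w h a b c d ≤ 1 := by
  obtain ⟨o1, o2, o3, o4⟩ := hA
  have u1 : (1 : ℝ) ≤ (b : ℝ) - a + 1 := by
    have : 1 ≤ b - a + 1 := by omega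
    exact_mod_cast this
  have u2 : (1 : ℝ) ≤ (d : ℝ) - c + 1 := by
    have : 1 ≤ d - c + 1 := by omega
    exact_mod_cast this
  have u3 : (1 : ℝ) ≤ (c : ℝ) - b := by
    have : 1 ≤ c - b := by omega
    exact_mod_cast this
  have u4 : (1 : ℝ) ≤ (a : ℝ) + 2 * (w + h) - d := by
    have : 1 ≤ a + 2 * (w + h) - d := by omega
    exact_mod_cast this
  have hτ : 0 < min ((b : ℝ) - a + 1) ((d : ℝ) - c + 1) := lt_min (by linarith) (by linarith)
  have q1 : 0 < qr w h b ((c : ℝ) - b) (min ((b : ℝ) - a + 1) ((d : ℝ) - c + 1)) :=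
    qr_pos hPH hw hh (by linarith) hτ
  have q2 : 0 < qr w h d ((a : ℝ) + 2 * (w + h) - d)
      (min ((b : ℝ) - a + 1) ((d : ℝ) - c + 1)) := qr_pos hPH hw hh (by linarith) hτ
  unfold YY
  refine ⟨mul_pos q1 q2, ?_⟩
  exact mul_le_one₀ (min_le_left _ _) q2.le (min_le_left _ _)

theorem t_DLO : S_DUL → S_LO → S_KP → S_DC → S_PH → S_DLO := by
  intro hDUL hLO hKP _ hPH K
  obtain ⟨c0, hc0, hL⟩ := hLO (2 * K)
  have hK0 : (0 : ℝ) ≤ K := by positivity
  obtain ⟨κ, hκ⟩ : ∃ κ : ℝ, κ = (200 * ((K : ℝ) + 1)) * (200 * ((K : ℝ) + 1)) * (100 * 100) :=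
    ⟨_, rfl⟩
  have hκ0 : 0 < κ := by
    rw [hκ]
    positivity
  have hκr : 0 < κ ^ ((1 : ℝ) / 3) := Real.rpow_pos_of_pos hκ0 _
  obtain ⟨N, hN⟩ : ∃ N : ℕ, N = 3 * K := ⟨_, rfl⟩
  refine ⟨min ((1 / 2 : ℝ) ^ ((N + 1) * ((N + 1) * 2))) (min (1 / 4 * c0 / κ ^ ((1 : ℝ) / 3))
    (1 / 4)), by positivity, ?_⟩
  intro w h hasp a b c d hA
  obtain ⟨hw, hh, h1, h2⟩ := hasp
  obtain ⟨y0, y1⟩ := yy_pos hPH hw hh hA
  have z0 : 0 ≤ YY w h a b c d ^ ((1 : ℝ) / 3) := Real.rpow_nonneg y0.le _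
  have z1 : YY w h a b c d ^ ((1 : ℝ) / 3) ≤ 1 := Real.rpow_le_one y0.le y1 (by norm_num)
  rcases lt_or_ge (min w h) 4 with hm | hm
  · have hK1 : 1 ≤ K := by
      by_contra hcon
      have : K = 0 := by omega
      subst this
      simp at h1
      omega
    have hK1' : (1 : ℤ) ≤ K := by exact_mod_cast hK1
    have hb : w ≤ (N : ℤ) ∧ h ≤ (N : ℤ) := by
      rw [hN]
      push_cast
      rcases min_lt_iff.1 hm with h3 | h3
      · constructor
        · omega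
        · nlinarith
      · constructor
        · nlinarith
        · omega
    have h5 := one_sub_low hw hh hA
    have h6 : (1 / 2 : ℝ) ^ ((N + 1) * ((N + 1) * 2)) ≤ (1 / 2 : ℝ) ^ (RE 0 w 0 h).card :=
      pow_le_pow_of_le_one (by norm_num) (by norm_num) (card_RE hb.1 hb.2)
    calc _ ≤ (1 / 2 : ℝ) ^ ((N + 1) * ((N + 1) * 2)) * 1 :=
          mul_le_mul (min_le_left _ _) z1 z0 (by positivity)
      _ = (1 / 2 : ℝ) ^ ((N + 1) * ((N + 1) * 2)) := mul_one _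
      _ ≤ _ := h6.trans h5
  · have hw4 : 4 ≤ w := hm.trans (min_le_left _ _)
    have hh4 : 4 ≤ h := hm.trans (min_le_right _ _)
    have hD := hDUL w h (by omega) (by omega) a b c d hA
    obtain ⟨k1, k2, -, -⟩ := hKP w h hw4 hh4
    have hA' := hA
    obtain ⟨o1, o2, o3, o4⟩ := hA'
    have f1 := k2 b (c - 1) (by omega)
    have f2 := k2 (c - 1) d (by omega)
    have f3 := k2 d (a + 2 * (w + h) - 1) (by omega)
    have f4 := k2 (a + 2 * (w + h) - 1) (b + 2 * (w + h)) (by omega)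
    rw [k1 b] at f4
    by_cases hcase : kp w h (c - 1) = kp w h d ∨
        kp w h (a + 2 * (w + h) - 1) = kp w h b + 2 * (w - 1 + (h - 1))
    · have hp1 : PR (w - 1) (h - 1) (kp w h b) (kp w h (c - 1)) (kp w h d)
          (kp w h (a + 2 * (w + h) - 1)) = 1 := by
        unfold PR
        apply Pr_true
        intro F _
        rcases hcase with hc | hc
        · refine ⟨kp w h (c - 1), kp w h d, ⟨f1.1, le_rfl⟩, ⟨le_rfl, f3.1⟩, ?_⟩
          rw [hc]
          exact Reach.refl _ _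
        · refine ⟨kp w h b, kp w h (a + 2 * (w + h) - 1), ⟨le_rfl, f1.1⟩, ⟨f3.1, le_rfl⟩, ?_⟩
          rw [hc, bd_per]
          exact Reach.refl _ _
      rw [hp1] at hD
      calc _ ≤ (1 / 4 : ℝ) * 1 :=
            mul_le_mul ((min_le_right _ _).trans (min_le_right _ _)) z1 z0 (by norm_num)
        _ ≤ _ := hD
    · push Not at hcase
      have hBC : kp w h (c - 1) < kp w h d := lt_of_le_of_ne f2.1 hcase.1
      have hDA : kp w h (a + 2 * (w + h) - 1) < kp w h b + 2 * (w - 1 + (h - 1)) :=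
        lt_of_le_of_ne f4.1 hcase.2
      have hyy := yy_le hPH hKP hw4 hh4 h1 h2 hA hBC hDA
      rw [← hκ] at hyy
      have hasp' : Asp (2 * K) (w - 1) (h - 1) := by
        refine ⟨by omega, by omega, ?_, ?_⟩
        · push_cast
          nlinarith
        · push_cast
          nlinarith
      have hlow := hL (w - 1) (h - 1) hasp' _ _ _ _ (⟨f1.1, hBC, f3.1, hDA⟩ :
        Arcs (w - 1) (h - 1) (kp w h b) (kp w h (c - 1)) (kp w h d) (kp w h (a + 2 * (w + h) - 1)))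
      generalize XX (w - 1) (h - 1) (kp w h b) (kp w h (c - 1)) (kp w h d)
        (kp w h (a + 2 * (w + h) - 1)) = X at hyy hlow
      generalize PR (w - 1) (h - 1) (kp w h b) (kp w h (c - 1)) (kp w h d)
        (kp w h (a + 2 * (w + h) - 1)) = Q at hlow hD
      have hX0 : 0 ≤ X := by
        by_contra hcon
        push Not at hcon
        nlinarith
      have h7 : YY w h a b c d ^ ((1 : ℝ) / 3) ≤ κ ^ ((1 : ℝ) / 3) * X ^ ((1 : ℝ) / 3) := by
        rw [← Real.mul_rpow hκ0.le hX0]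
        exact Real.rpow_le_rpow y0.le hyy (by norm_num)
      calc _ ≤ (1 / 4 * c0 / κ ^ ((1 : ℝ) / 3)) * YY w h a b c d ^ ((1 : ℝ) / 3) :=
            mul_le_mul_of_nonneg_right ((min_le_right _ _).trans (min_le_left _ _)) z0
        _ ≤ (1 / 4 * c0 / κ ^ ((1 : ℝ) / 3)) * (κ ^ ((1 : ℝ) / 3) * X ^ ((1 : ℝ) / 3)) :=
            mul_le_mul_of_nonneg_left h7 (by positivity)
        _ = 1 / 4 * (c0 * X ^ ((1 : ℝ) / 3)) := by
            field_simp
        _ ≤ 1 / 4 * Q := mul_le_mul_of_nonneg_left hlow (by norm_num)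
        _ ≤ _ := hD

end Pool.Agent.Y989.RC.DLO
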