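import Pool.Agent.Y989.RC.Stm

/-!
Project RC, job DUL (helper986): planar duality in the rectangle, lower bound.
Adapted from `TH976/QC/DualLow.lean` and `TH976/QC/Low.lean`.
-/

set_option autoImplicit false

namespace Pool.Agent.Y989.RC.DUL
open Finset H974 TH976 TH976.QC

/-- boundary point with number `s`, `0 ≤ s ≤ 2 (w + h)` -/
def bdS (w h s : ℤ) : Vtx :=
  if s ≤ w then (s, 0)
  else if s ≤ w + h then (w, s - w)
  else if s ≤ 2 * w + h then (2 * w + h - s, h)
  else (0, 2 * w + 2 * h - s)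

/-- boundary edge with number `s` -/
def beS (w h s : ℤ) : Edg :=
  if s < w then (s, 0, true)
  else if s < w + h then (w, s - w, false)
  else if s < 2 * w + h then (2 * w + h - s - 1, h, true)
  else (0, 2 * w + 2 * h - s - 1, false)

/-- outer face next to the boundary edge `s` -/
def ofS (w h s : ℤ) : Vtx :=
  if s < w then (s, -1)
  else if s < w + h then (w, s - w)
  else if s < 2 * w + h then (2 * w + h - s - 1, h)
  else (-1, 2 * w + 2 * h - s - 1)

/-- inner face next to the boundary edge `s` -/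
def inS (w h s : ℤ) : Vtx :=
  if s < w then (s, 0)
  else if s < w + h then (w - 1, s - w)
  else if s < 2 * w + h then (2 * w + h - s - 1, h - 1)
  else (0, 2 * w + 2 * h - s - 1)

/-- outer face next to the boundary edge `k` -/
def ofR (w h k : ℤ) : Vtx := ofS w h (k % (2 * (w + h)))

theorem bd_eq (w h k : ℤ) : bd w h k = bdS w h (k % (2 * (w + h))) := rfl

theorem beR_eq (w h k : ℤ) : beR w h k = beS w h (k % (2 * (w + h))) := rfl

theorem dm {L K s : ℤ} (h0 : 0 ≤ s) (h1 : s < L) : (L * K + s) % L = s ∧ (L * K + s) / L = K := by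
  constructor
  · rw [add_comm, Int.add_mul_emod_self_left]
    exact Int.emod_eq_of_lt h0 h1
  · rw [add_comm, Int.add_mul_ediv_left _ _ (by omega), Int.ediv_eq_zero_of_lt h0 h1, zero_add]

theorem decomp {L : ℤ} (hL : 0 < L) (k : ℤ) : ∃ K s : ℤ, k = L * K + s ∧ 0 ≤ s ∧ s < L ∧
    k % L = s ∧ k / L = K :=
  ⟨k / L, k % L, (Int.mul_ediv_add_emod k L).symm, Int.emod_nonneg _ (by omega),
    Int.emod_lt_of_pos _ hL, rfl, rfl⟩

theorem bd_succ {w h : ℤ} (hw : 1 ≤ w) (hh : 1 ≤ h) (k : ℤ) :
    bd w h (k + 1) = bdS w h (k % (2 * (w + h)) + 1) := by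
  obtain ⟨K, s, hk, h0, h1, h2, -⟩ := decomp (by omega : 0 < 2 * (w + h)) k
  rw [h2, bd_eq]
  rcases eq_or_lt_of_le (by omega : s + 1 ≤ 2 * (w + h)) with h3 | h3
  · have e : k + 1 = 2 * (w + h) * (K + 1) + 0 := by rw [hk]; linear_combination h3
    rw [e, (dm le_rfl (by omega)).1]
    unfold bdS
    split_ifs <;> first | omega | (rw [Prod.mk.injEq]; omega)
  · have e : k + 1 = 2 * (w + h) * K + (s + 1) := by rw [hk]; ring
    rw [e, (dm (by omega) h3).1]

/-- a closed dual path between two outer faces blocks open paths -/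
theorem no_rect {w h p q u v : ℤ} {F : Set Edg} (hw : 1 ≤ w) (hh : 1 ≤ h) (h1 : p < u)
    (h2 : u ≤ q) (h3 : q < v) (h4 : v ≤ p + 2 * (w + h))
    (hd : DReach (Fᶜ ∩ ↑(RE 0 w 0 h)) (ofR w h p) (ofR w h q))
    (ho : Reach (F ∩ ↑(RE 0 w 0 h)) (bd w h u) (bd w h v)) : False := by
  obtain ⟨Z, hZ1, hZ2⟩ := chain_of_dreach hd
  have hL : 0 < 2 * (w + h) := by omega
  have hZout : ∀ e, e ∉ RE 0 w 0 h → Z e = 0 := by
    intro e he
    by_contra h
    exact he (hZ1 e h).2
  have hZF : ∀ e, e ∈ F → Z e = 0 := by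
    intro e he
    by_contra h
    exact (hZ1 e h).1 he
  have hof : ∀ k x y : ℤ, 0 ≤ x → x < w → 0 ≤ y → y < h → ¬ (ofR w h k = (x, y)) := by
    intro k x y hx hx' hy hy' he
    obtain ⟨K, s, -, h0, h1, h2, -⟩ := decomp hL k
    unfold ofR ofS at he
    rw [h2] at he
    split_ifs at he <;> simp only [Prod.mk.injEq] at he <;> omega
  have hcyc : ∀ x y, 0 ≤ x → x < w → 0 ≤ y → y < h → H974.bd Z x y = 0 := by
    intro x1 y1 h3 h4 h5 h6
    rw [hZ2, b2_not_of (hof _ _ _ h3 h4 h5 h6), b2_not_of (hof _ _ _ h3 h4 h5 h6), add_zero]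
  set s : ℤ → ℤ → ZMod 2 := fun x y =>
    ∑ j ∈ Finset.Ico 0 y, Z (0, j, false) + ∑ i ∈ Finset.Ico 0 x, Z (i, y, true) with hs
  have sH : ∀ x y, 0 ≤ x → s (x + 1) y = s x y + Z (x, y, true) := by
    intro x y hx
    simp only [hs]
    rw [sum_Ico_int_succ hx, add_assoc]
  have sV : ∀ (n : ℕ) (y : ℤ), (n : ℤ) ≤ w → 0 ≤ y → y < h →
      s (n : ℤ) (y + 1) + s (n : ℤ) y = Z ((n : ℤ), y, false) := by
    intro n y hn hc hc'
    induction n with
    | zero =>
      simp only [hs, Nat.cast_zero, Finset.Ico_self, Finset.sum_empty, add_zero]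
      rw [sum_Ico_int_succ hc]
      have h4 := zmod2_add_self (∑ j ∈ Finset.Ico 0 y, Z (0, j, false))
      linear_combination h4
    | succ n ih =>
      have e1 : ((n + 1 : ℕ) : ℤ) = (n : ℤ) + 1 := by push_cast; ring
      rw [e1] at hn ⊢
      have ih' := ih (by omega)
      rw [sH _ _ (by omega), sH _ _ (by omega)]
      have h3 := hcyc (n : ℤ) y (by omega) (by omega) hc hc'
      unfold H974.bd at h3
      have h4 := zmod2_add_self (Z ((n : ℤ), y, false))
      have h5 := zmod2_add_self (Z ((n : ℤ) + 1, y, false))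
      linear_combination ih' + h3 - h5
  have sV' : ∀ x y, 0 ≤ x → x ≤ w → 0 ≤ y → y < h → s x (y + 1) = s x y + Z (x, y, false) := by
    intro x y hx hx' hc hc'
    obtain ⟨n, hn⟩ := Int.eq_ofNat_of_zero_le hx
    have h3 := sV n y (by omega) hc hc'
    rw [← hn] at h3
    have h4 := zmod2_add_self (s x y)
    linear_combination h3 - h4
  -- `s` is constant along open paths
  have hpath : ∀ z : Vtx, Reach (F ∩ RE 0 w 0 h) (bd w h u) z →
      s z.1 z.2 = s (bd w h u).1 (bd w h u).2 := by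
    intro z hz
    induction hz with
    | refl => rfl
    | @tail w' w'' _ hstep ih =>
      obtain ⟨⟨x0, y0, bo⟩, ⟨heF, heR⟩, hcase⟩ := hstep
      have hZe := hZF _ heF
      cases bo
      · have hm : 0 ≤ x0 ∧ x0 ≤ w ∧ 0 ≤ y0 ∧ y0 < h := by simpa using heR
        have h3 := sV' x0 y0 hm.1 hm.2.1 hm.2.2.1 hm.2.2.2
        rw [hZe, add_zero] at h3
        simp only [src_mk, tgt_false] at hcase
        rcases hcase with ⟨h4, h5⟩ | ⟨h4, h5⟩
        · rw [← h4] at ih; rw [← h5]; simpa [h3] using ih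
        · rw [← h5] at ih; rw [← h4]; simpa [h3] using ih
      · have hm : 0 ≤ x0 ∧ x0 < w ∧ 0 ≤ y0 ∧ y0 ≤ h := by simpa using heR
        have h3 := sH x0 y0 hm.1
        rw [hZe, add_zero] at h3
        simp only [src_mk, tgt_true] at hcase
        rcases hcase with ⟨h4, h5⟩ | ⟨h4, h5⟩
        · rw [← h4] at ih; rw [← h5]; simpa [h3] using ih
        · rw [← h5] at ih; rw [← h4]; simpa [h3] using ih
  have hend := hpath _ ho
  -- the potential along the boundary
  obtain ⟨T, hT⟩ : ∃ T : ℤ → ZMod 2, T = fun k => s (bd w h k).1 (bd w h k).2 := ⟨_, rfl⟩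
  have hTk : ∀ k, T k = s (bd w h k).1 (bd w h k).2 := fun k => by rw [hT]
  rw [← hTk, ← hTk] at hend
  have hbe : ∀ k, T k + T (k + 1) = Z (beR w h k) := by
    intro k
    obtain ⟨K, r, -, h0, h1, h2, -⟩ := decomp hL k
    rw [hTk, hTk, bd_succ hw hh, bd_eq, beR_eq, h2]
    rcases lt_or_ge r w with c1 | c1
    · have e1 : bdS w h r = (r, 0) := by unfold bdS; rw [if_pos c1.le]
      have e2 : bdS w h (r + 1) = (r + 1, 0) := by unfold bdS; rw [if_pos (by omega)]
      have e3 : beS w h r = (r, 0, true) := by unfold beS; rw [if_pos c1]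
      rw [e1, e2, e3]
      simp only
      rw [sH r 0 h0]
      have := zmod2_add_self (s r 0)
      linear_combination this
    rcases lt_or_ge r (w + h) with c2 | c2
    · have e1 : bdS w h r = (w, r - w) := by
        unfold bdS; split_ifs <;> first | omega | (rw [Prod.mk.injEq]; omega)
      have e2 : bdS w h (r + 1) = (w, (r - w) + 1) := by
        unfold bdS; split_ifs <;> first | omega | (rw [Prod.mk.injEq]; omega)
      have e3 : beS w h r = (w, r - w, false) := by
        unfold beS; rw [if_neg (by omega), if_pos c2]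
      rw [e1, e2, e3]
      simp only
      rw [sV' w (r - w) (by omega) le_rfl (by omega) (by omega)]
      have := zmod2_add_self (s w (r - w))
      linear_combination this
    rcases lt_or_ge r (2 * w + h) with c3 | c3
    · have e1 : bdS w h r = ((2 * w + h - r - 1) + 1, h) := by
        unfold bdS; split_ifs <;> first | omega | (rw [Prod.mk.injEq]; omega)
      have e2 : bdS w h (r + 1) = (2 * w + h - r - 1, h) := by
        unfold bdS; split_ifs <;> first | omega | (rw [Prod.mk.injEq]; omega)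
      have e3 : beS w h r = (2 * w + h - r - 1, h, true) := by
        unfold beS; rw [if_neg (by omega), if_neg (by omega), if_pos c3]
      rw [e1, e2, e3]
      simp only
      rw [sH (2 * w + h - r - 1) h (by omega)]
      have := zmod2_add_self (s (2 * w + h - r - 1) h)
      linear_combination this
    · have e1 : bdS w h r = (0, (2 * w + 2 * h - r - 1) + 1) := by
        unfold bdS; split_ifs <;> first | omega | (rw [Prod.mk.injEq]; omega)
      have e2 : bdS w h (r + 1) = (0, 2 * w + 2 * h - r - 1) := by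
        unfold bdS; split_ifs <;> first | omega | (rw [Prod.mk.injEq]; omega)
      have e3 : beS w h r = (0, 2 * w + 2 * h - r - 1, false) := by
        unfold beS; rw [if_neg (by omega), if_neg (by omega), if_neg (by omega)]
      rw [e1, e2, e3]
      simp only
      rw [sV' 0 (2 * w + 2 * h - r - 1) le_rfl (by omega) (by omega) (by omega)]
      have := zmod2_add_self (s 0 (2 * w + 2 * h - r - 1))
      linear_combination this
  have hofi : ∀ k l : ℤ, ofR w h l = ofR w h k → l % (2 * (w + h)) = k % (2 * (w + h)) := by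
    intro k l he
    obtain ⟨K, s, -, h0, h1, h2, -⟩ := decomp hL k
    obtain ⟨K', s', -, h0', h1', h2', -⟩ := decomp hL l
    unfold ofR ofS at he
    rw [h2, h2'] at he ⊢
    split_ifs at he <;> simp only [Prod.mk.injEq] at he <;> omega
  have hrow : ∀ k, Z (beR w h k) =
      (if k % (2 * (w + h)) = p % (2 * (w + h)) then (1 : ZMod 2) else 0)
      + (if k % (2 * (w + h)) = q % (2 * (w + h)) then (1 : ZMod 2) else 0) := by
    intro k
    have h5 : Z (beR w h k) = b2 (ofR w h p = ofR w h k) + b2 (ofR w h q = ofR w h k) := by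
      obtain ⟨K, r, -, h0, h1, h2, -⟩ := decomp hL k
      have e0 : ofR w h k = ofS w h r := by unfold ofR; rw [h2]
      rw [e0, beR_eq, h2]
      rcases lt_or_ge r w with c1 | c1
      · have e : ofS w h r = (r, -1) := by unfold ofS; rw [if_pos c1]
        have e3 : beS w h r = (r, 0, true) := by unfold beS; rw [if_pos c1]
        have h4 := hZ2 r (-1)
        rw [e, e3, ← h4]
        unfold H974.bd
        rw [hZout (r, -1, true) (by simp), hZout (r, -1, false) (by simp),
          hZout (r + 1, -1, false) (by simp), show (-1 : ℤ) + 1 = 0 by ring]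
        simp
      rcases lt_or_ge r (w + h) with c2 | c2
      · have e : ofS w h r = (w, r - w) := by unfold ofS; rw [if_neg (by omega), if_pos c2]
        have e3 : beS w h r = (w, r - w, false) := by
          unfold beS; rw [if_neg (by omega), if_pos c2]
        have h4 := hZ2 w (r - w)
        rw [e, e3, ← h4]
        unfold H974.bd
        rw [hZout (w, r - w, true) (by simp), hZout (w, r - w + 1, true) (by simp),
          hZout (w + 1, r - w, false) (by simp)]
        simp
      rcases lt_or_ge r (2 * w + h) with c3 | c3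
      · have e : ofS w h r = (2 * w + h - r - 1, h) := by
          unfold ofS; rw [if_neg (by omega), if_neg (by omega), if_pos c3]
        have e3 : beS w h r = (2 * w + h - r - 1, h, true) := by
          unfold beS; rw [if_neg (by omega), if_neg (by omega), if_pos c3]
        have h4 := hZ2 (2 * w + h - r - 1) h
        rw [e, e3, ← h4]
        unfold H974.bd
        rw [hZout (2 * w + h - r - 1, h + 1, true) (by simp),
          hZout (2 * w + h - r - 1, h, false) (by simp),
          hZout (2 * w + h - r - 1 + 1, h, false) (by simp)]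
        simp
      · have e : ofS w h r = (-1, 2 * w + 2 * h - r - 1) := by
          unfold ofS; rw [if_neg (by omega), if_neg (by omega), if_neg (by omega)]
        have e3 : beS w h r = (0, 2 * w + 2 * h - r - 1, false) := by
          unfold beS; rw [if_neg (by omega), if_neg (by omega), if_neg (by omega)]
        have h4 := hZ2 (-1) (2 * w + 2 * h - r - 1)
        rw [e, e3, ← h4]
        unfold H974.bd
        rw [hZout (-1, 2 * w + 2 * h - r - 1, true) (by simp),
          hZout (-1, 2 * w + 2 * h - r - 1 + 1, true) (by simp),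
          hZout (-1, 2 * w + 2 * h - r - 1, false) (by simp), show (-1 : ℤ) + 1 = 0 by ring]
        simp
    rw [h5]
    have hcong : ∀ l : ℤ, l % (2 * (w + h)) = k % (2 * (w + h)) → ofR w h l = ofR w h k := by
      intro l hl
      unfold ofR
      rw [hl]
    congr 1
    · split_ifs with h6
      · exact b2_of (hcong p h6.symm)
      · exact b2_not_of (fun h7 => h6 (hofi k p h7).symm)
    · split_ifs with h6
      · exact b2_of (hcong q h6.symm)
      · exact b2_not_of (fun h7 => h6 (hofi k q h7).symm)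
  have hne : ∀ i l : ℤ, i < l → l < i + 2 * (w + h) → i % (2 * (w + h)) ≠ l % (2 * (w + h)) := by
    intro i l hi hl he
    have h6 : (l - i) % (2 * (w + h)) = 0 := by
      exact Int.emod_eq_emod_iff_emod_sub_eq_zero.1 he.symm
    rw [Int.emod_eq_of_lt (by omega) (by omega)] at h6
    omega
  have htot : T u + T v = 1 := by
    rw [← telescope' (by omega : u ≤ v) T, Finset.sum_congr rfl (fun i _ => hbe i),
      Finset.sum_congr rfl (fun i _ => hrow i)]
    have e : ∀ i ∈ Finset.Ico u v,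
        ((if i % (2 * (w + h)) = p % (2 * (w + h)) then (1 : ZMod 2) else 0) +
        (if i % (2 * (w + h)) = q % (2 * (w + h)) then (1 : ZMod 2) else 0)) =
        (if i = q then (1 : ZMod 2) else 0) := by
      intro i hi
      rw [Finset.mem_Ico] at hi
      rw [if_neg (hne p i (by omega) (by omega)).symm, zero_add]
      rcases lt_trichotomy i q with h6 | h6 | h6
      · rw [if_neg (hne i q h6 (by omega)), if_neg (by omega)]
      · rw [h6]; simp
      · rw [if_neg (hne q i h6 (by omega)).symm, if_neg (by omega)]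
    rw [Finset.sum_congr rfl e, Finset.sum_ite_eq' (Finset.Ico u v) q (fun _ => (1 : ZMod 2))]
    rw [if_pos (Finset.mem_Ico.2 ⟨h2, h3⟩)]
  rw [hend, zmod2_add_self] at htot
  exact zero_ne_one htot

end Pool.Agent.Y989.RC.DUL

namespace Pool.Agent.Y989.RC.DUL
open Finset H974 TH976 TH976.QC

/-- the interior edges of the rectangle -/
noncomputable def intE (w h : ℤ) : Finset Edg :=
  (RE 0 w 0 h).filter (fun e => if e.2.2 then 1 ≤ e.2.1 ∧ e.2.1 < h else 1 ≤ e.1 ∧ e.1 < w)

theorem mem_intE_true {w h x y : ℤ} :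
    ((x, y, true) : Edg) ∈ intE w h ↔ (0 ≤ x ∧ x < w) ∧ (1 ≤ y ∧ y < h) := by
  unfold intE
  rw [Finset.mem_filter, mem_RE_true]
  simp only [if_true]
  omega

theorem mem_intE_false {w h x y : ℤ} :
    ((x, y, false) : Edg) ∈ intE w h ↔ (1 ≤ x ∧ x < w) ∧ (0 ≤ y ∧ y < h) := by
  unfold intE
  rw [Finset.mem_filter, mem_RE_false]
  simp only [Bool.false_eq_true, if_false]
  omega

theorem intE_sub (w h : ℤ) : intE w h ⊆ RE 0 w 0 h := Finset.filter_subset _ _

theorem dmp_intE (w h : ℤ) : dmp (intE w h) = RE 0 (w - 1) 0 (h - 1) := by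
  ext ⟨x, y, bo⟩
  cases bo
  · rw [mem_dmp, dls_f, mem_intE_true, mem_RE_false]
    omega
  · rw [mem_dmp, dls_t, mem_intE_false, mem_RE_true]
    omega

theorem be_notMem {w h : ℤ} (hw : 1 ≤ w) (hh : 1 ≤ h) (k : ℤ) : beR w h k ∉ intE w h := by
  obtain ⟨K, r, -, h0, h1, h2, -⟩ := decomp (by omega : 0 < 2 * (w + h)) k
  rw [beR_eq, h2]
  unfold beS
  split_ifs
  · rw [mem_intE_true]; omega
  · rw [mem_intE_false]; omega
  · rw [mem_intE_true]; omega
  · rw [mem_intE_false]; omega

theorem be_mem {w h : ℤ} (hw : 1 ≤ w) (hh : 1 ≤ h) (k : ℤ) : beR w h k ∈ RE 0 w 0 h := by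
  obtain ⟨K, r, -, h0, h1, h2, -⟩ := decomp (by omega : 0 < 2 * (w + h)) k
  rw [beR_eq, h2]
  unfold beS
  split_ifs
  · rw [mem_RE_true]; omega
  · rw [mem_RE_false]; omega
  · rw [mem_RE_true]; omega
  · rw [mem_RE_false]; omega

/-- the inner face next to a boundary edge -/
theorem in_eq {w h : ℤ} (hw : 2 ≤ w) (hh : 2 ≤ h) (k : ℤ) :
    bd (w - 1) (h - 1) (kp w h k) = inS w h (k % (2 * (w + h))) := by
  obtain ⟨K, s, -, h0, h1, h2, h3⟩ := decomp (by omega : 0 < 2 * (w + h)) k
  obtain ⟨r, hr⟩ : ∃ r : ℤ, r = s - (if w ≤ s then 1 else 0) - (if w + h ≤ s then 1 else 0) -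
    (if 2 * w + h ≤ s then 1 else 0) := ⟨_, rfl⟩
  have e : kp w h k = 2 * ((w - 1) + (h - 1)) * K + r := by
    unfold kp
    rw [h2, h3, hr]
    ring
  rw [h2, e, bd_eq]
  rcases eq_or_lt_of_le (by split_ifs at hr <;> omega : r ≤ 2 * ((w - 1) + (h - 1))) with h4 | h4
  · have e2 : 2 * ((w - 1) + (h - 1)) * K + r = 2 * ((w - 1) + (h - 1)) * (K + 1) + 0 := by
      rw [h4]; ring
    rw [e2, (dm le_rfl (by omega)).1]
    unfold bdS inS
    split_ifs at hr ⊢ <;> first | omega | (rw [Prod.mk.injEq]; omega)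
  · rw [(dm (by split_ifs at hr <;> omega) h4).1]
    unfold bdS inS
    split_ifs at hr ⊢ <;> first | omega | (rw [Prod.mk.injEq]; omega)

theorem be_faces {w h : ℤ} (k : ℤ) :
    (dsrc (beR w h k) = ofR w h k ∧ dtgt (beR w h k) = inS w h (k % (2 * (w + h)))) ∨
    (dsrc (beR w h k) = inS w h (k % (2 * (w + h))) ∧ dtgt (beR w h k) = ofR w h k) := by
  rw [beR_eq]
  unfold ofR
  generalize k % (2 * (w + h)) = s
  unfold beS ofS inS
  split_ifs
  · left; simp
  · right; simp
  · right; simp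
  · left
    rw [dsrc_false, dtgt_mk]
    simp

theorem kp_succ {w h : ℤ} (hw : 1 ≤ w) (hh : 1 ≤ h) (k : ℤ) :
    kp w h (k + 1) = kp w h k ∨ kp w h (k + 1) = kp w h k + 1 := by
  obtain ⟨K, s, hk, h0, h1, h2, h3⟩ := decomp (by omega : 0 < 2 * (w + h)) k
  rcases eq_or_lt_of_le (by omega : s + 1 ≤ 2 * (w + h)) with h4 | h4
  · have e : k + 1 = 2 * (w + h) * (K + 1) + 0 := by rw [hk]; linear_combination h4
    have e2 := dm (L := 2 * (w + h)) (K := K + 1) (s := 0) le_rfl (by omega)
    left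
    unfold kp
    rw [e, e2.1, e2.2, h2, h3]
    rw [if_neg (by omega), if_neg (by omega), if_neg (by omega), if_pos (by omega),
      if_pos (by omega), if_pos (by omega)]
    have : s = 2 * (w + h) - 1 := by omega
    rw [this]
    ring
  · have e : k + 1 = 2 * (w + h) * K + (s + 1) := by rw [hk]; ring
    have e2 := dm (L := 2 * (w + h)) (K := K) (s := s + 1) (by omega) h4
    unfold kp
    rw [e, e2.1, e2.2, h2, h3]
    generalize K * (2 * (w + h) - 4) = X
    split_ifs <;> omega

theorem kp_surj {w h : ℤ} (hw : 1 ≤ w) (hh : 1 ≤ h) {m n x : ℤ} (hmn : m ≤ n)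
    (h1 : kp w h m ≤ x) (h2 : x ≤ kp w h n) : ∃ p, (m ≤ p ∧ p ≤ n) ∧ kp w h p = x := by
  induction n, hmn using Int.le_induction with
  | base => exact ⟨m, ⟨le_rfl, le_rfl⟩, le_antisymm h1 h2⟩
  | succ n hn ih =>
    rcases le_or_gt x (kp w h n) with h3 | h3
    · obtain ⟨p, hp, hp2⟩ := ih h3
      exact ⟨p, ⟨hp.1, by omega⟩, hp2⟩
    · refine ⟨n + 1, ⟨by omega, le_rfl⟩, ?_⟩
      rcases kp_succ hw hh n with h4 | h4 <;> omega

theorem ofR_period {w h : ℤ} (p : ℤ) : ofR w h (p - 2 * (w + h)) = ofR w h p := by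
  unfold ofR
  rw [Int.sub_emod_right]

/-- a dual path between boundary cells and two closed boundary edges separate the arcs -/
theorem sep {w h a b c d p q : ℤ} {F : Finset Edg} (hw : 2 ≤ w) (hh : 2 ≤ h)
    (hp : d ≤ p ∧ p ≤ a + 2 * (w + h) - 1) (hq : b ≤ q ∧ q ≤ c - 1)
    (hF : F ⊆ RE 0 w 0 h) (hbp : beR w h p ∉ F) (hbq : beR w h q ∉ F)
    (hr : Reach (↑(dmp (intE w h \ F)) : Set Edg) (bd (w - 1) (h - 1) (kp w h q))
      (bd (w - 1) (h - 1) (kp w h p))) :
    ¬ CN w h a b c d F := by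
  rw [in_eq hw hh, in_eq hw hh] at hr
  have h4 : DReach ((↑F : Set Edg)ᶜ ∩ ↑(RE 0 w 0 h)) (inS w h (q % (2 * (w + h))))
      (inS w h (p % (2 * (w + h)))) := by
    rw [coe_dmp, reach_dl] at hr
    refine hr.mono ?_
    intro e he
    rw [Finset.mem_coe, Finset.mem_sdiff] at he
    exact ⟨fun h => he.2 (Finset.mem_coe.mp h), Finset.mem_coe.mpr (intE_sub w h he.1)⟩
  have h5 : DReach ((↑F : Set Edg)ᶜ ∩ ↑(RE 0 w 0 h)) (ofR w h p)
      (inS w h (p % (2 * (w + h)))) :=
    DAdj.reach ⟨beR w h p, ⟨fun h => hbp (Finset.mem_coe.mp h),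
      Finset.mem_coe.mpr (be_mem (by omega) (by omega) p)⟩, be_faces p⟩
  have h6 : DReach ((↑F : Set Edg)ᶜ ∩ ↑(RE 0 w 0 h)) (inS w h (q % (2 * (w + h))))
      (ofR w h q) :=
    DReach.symm (DAdj.reach ⟨beR w h q, ⟨fun h => hbq (Finset.mem_coe.mp h),
      Finset.mem_coe.mpr (be_mem (by omega) (by omega) q)⟩, be_faces q⟩)
  rintro ⟨x, y, hx, hy, hxy⟩
  refine no_rect (F := (↑F : Set Edg)) (p := p - 2 * (w + h)) (q := q) (u := x) (v := y) (by omega)
    (by omega) (by omega) (by omega) (by omega) (by omega) ?_ (hxy.mono ?_)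
  · rw [ofR_period]
    exact h5.trans ((DReach.symm h4).trans h6)
  · intro e he
    exact ⟨he, Finset.mem_coe.mpr (hF (Finset.mem_coe.mp he))⟩

theorem t_DUL : S_DUL := by
  intro w h hw hh a b c d hA
  obtain ⟨hab, hbc, hcd, hda⟩ := hA
  unfold PR
  rw [← dmp_intE, ← pr_dual, ← Pr_not]
  apply fubini2 (intE_sub w h)
  rintro A' hA' ⟨x, y, hx, hy, hxy⟩
  obtain ⟨q, hq1, hq2⟩ := kp_surj (by omega : 1 ≤ w) (by omega : 1 ≤ h)
    (by omega : b ≤ c - 1) hx.1 hx.2
  obtain ⟨p, hp1, hp2⟩ := kp_surj (by omega : 1 ≤ w) (by omega : 1 ≤ h)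
    (by omega : d ≤ a + 2 * (w + h) - 1) hy.1 hy.2
  refine ⟨beR w h p, beR w h q, fun B hB h1 h2 => ?_⟩
  have hB2 : B ⊆ RE 0 w 0 h := hB.trans Finset.sdiff_subset
  apply sep (p := p) (q := q) hw hh hp1 hq1
    (Finset.union_subset (hA'.trans (intE_sub w h)) hB2)
  · rw [Finset.mem_union]
    rintro (h | h)
    · exact be_notMem (by omega) (by omega) p (hA' h)
    · exact h1 h
  · rw [Finset.mem_union]
    rintro (h | h)
    · exact be_notMem (by omega) (by omega) q (hA' h)
    · exact h2 h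
  · rw [hp2, hq2]
    refine hxy.mono ?_
    have : dmp (intE w h \ A') ⊆ dmp (intE w h \ (A' ∪ B)) := by
      intro e he
      rw [mem_dmp, Finset.mem_sdiff] at he ⊢
      refine ⟨he.1, fun h => ?_⟩
      rcases Finset.mem_union.mp h with h | h
      · exact he.2 h
      · exact (Finset.mem_sdiff.mp (hB h)).2 he.1
    exact_mod_cast this

end Pool.Agent.Y989.RC.DUL
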