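import Pool.Agent.Y989.RC.Stm

/-! Upper bound for the probability that there is no crossing. -/

set_option autoImplicit false

namespace Pool.Agent.Y989.RC.DUP

section
open Finset H974 TH976 TH976.QC Pool.Agent.H160R2.CV
open Pool.Agent.H160R2.CV.Quad Pool.Agent.H389R2.CD

theorem PR_nonneg (w h a b c d : ℤ) : 0 ≤ PR w h a b c d := by
  unfold PR
  exact Pr_nonneg okP _ _

end

theorem qr_one {w h : ℤ} (hw : 1 ≤ w) (hh : 1 ≤ h) (hPH : S_PH) (t x y : ℝ) (hy : 0 < y)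
    (hxy : y ≤ x) : qr w h t x y = 1 := by
  obtain ⟨h1, h2, -⟩ := hPH w h hw hh t
  unfold qr
  rw [min_eq_left]
  rw [le_div_iff₀ (h1 y hy), one_mul]
  exact h2 y x hy hxy

theorem qr_le_one {w h : ℤ} (t x y : ℝ) : qr w h t x y ≤ 1 := min_le_left _ _

theorem qr_nonneg {w h : ℤ} (hw : 1 ≤ w) (hh : 1 ≤ h) (hPH : S_PH) (t x y : ℝ) (hx : 0 < x)
    (hy : 0 < y) : 0 ≤ qr w h t x y := by
  obtain ⟨h1, -⟩ := hPH w h hw hh t
  have a1 := h1 x hx
  have a2 := h1 y hy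
  unfold qr
  positivity

/-- comparison of two ratios -/
theorem min_cmp {p q p' q' K L : ℝ} (hp' : 0 < p') (hq : 0 < q) (hq' : 0 < q')
    (hK : 0 < K) (hL : 0 < L) (h1 : p ≤ K * p') (h2 : q' ≤ L * q) (hKL : 1 ≤ K * L) :
    min 1 (p / q) ≤ K * L * min 1 (p' / q') := by
  have h3 : p / q ≤ K * L * (p' / q') := by
    rw [div_le_iff₀ hq]
    have e : K * L * (p' / q') * q = K * p' * (L * q / q') := by field_simp
    rw [e]
    have h4 : 1 ≤ L * q / q' := by rw [le_div_iff₀ hq', one_mul]; exact h2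
    have h5 : 0 ≤ K * p' := by positivity
    calc p ≤ K * p' := h1
      _ = K * p' * 1 := by ring
      _ ≤ K * p' * (L * q / q') := by gcongr
  rcases min_cases 1 (p' / q') with ⟨e, _⟩ | ⟨e, _⟩
  · rw [e, mul_one]
    exact (min_le_left _ _).trans hKL
  · rw [e]
    exact (min_le_right _ _).trans h3

/-- change of the base point -/
theorem qr_base {w h : ℤ} (hw : 1 ≤ w) (hh : 1 ≤ h) (hPH : S_PH) (t u g τ : ℝ) (hg : 0 < g)
    (hτ : 0 < τ) (htu : |t - u| ≤ g) : qr w h u g τ ≤ 4 * qr w h t g τ := by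
  have hM : (0 : ℝ) < min (w : ℝ) h := by
    have h1 : (1 : ℝ) ≤ w := by exact_mod_cast hw
    have h2 : (1 : ℝ) ≤ h := by exact_mod_cast hh
    exact lt_min (by linarith) (by linarith)
  by_cases h1 : τ ≤ g
  · rw [qr_one hw hh hPH t g τ hτ h1]
    have := qr_le_one (w := w) (h := h) u g τ
    linarith
  push Not at h1
  by_cases h2 : g ≤ min (w : ℝ) h
  · obtain ⟨p1, p2, -, -, p5⟩ := hPH w h hw hh t
    obtain ⟨q1, q2, -, -, q5⟩ := hPH w h hw hh u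
    obtain ⟨n, hn⟩ : ∃ n : ℝ, n = min τ (min (w : ℝ) h) := ⟨_, rfl⟩
    have hn0 : 0 < n := by rw [hn]; exact lt_min hτ hM
    have hgn : g ≤ n := by rw [hn]; exact le_min h1.le h2
    have hnM : n ≤ min (w : ℝ) h := by rw [hn]; exact min_le_right _ _
    have e : ∀ v : ℝ, Ph w h v τ = Ph w h v n := by
      intro v
      unfold Ph
      rw [hn, min_assoc, min_self]
    have a1 : Ph w h u g ≤ 2 * Ph w h t g := p5 g u hg h2 (by rw [abs_sub_comm]; exact htu)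
    have a2 : Ph w h t n ≤ 2 * Ph w h u n := q5 n t hn0 hnM (htu.trans hgn)
    unfold qr
    rw [e, e]
    have := min_cmp (p1 g hg) (q1 n hn0) (p1 n hn0) (by norm_num) (by norm_num) a1 a2 (by norm_num)
    have e5 : (2 * 2 : ℝ) = 4 := by norm_num
    rwa [e5] at this
  · push Not at h2
    have e : Ph w h t g = Ph w h t τ := by
      unfold Ph
      rw [min_eq_right h2.le, min_eq_right (h2.le.trans h1.le)]
    have e2 : qr w h t g τ = 1 := by
      obtain ⟨p1, -⟩ := hPH w h hw hh t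
      unfold qr
      rw [e, div_self (p1 τ hτ).ne', min_self]
    rw [e2]
    have := qr_le_one (w := w) (h := h) u g τ
    linarith

/-- comparison with the dual rectangle -/
theorem qr_dual {w h : ℤ} (hw : 4 ≤ w) (hh : 4 ≤ h) (hKP : S_KP) (hPH : S_PH) (k : ℤ)
    (g g' τ τ' : ℝ) (hg' : 1 ≤ g') (hgg : g' ≤ g) (hgg' : g ≤ 2 * g') (hτ' : 1 ≤ τ')
    (hττ : τ' ≤ τ) (hττ' : τ ≤ 3 * τ') :
    qr (w - 1) (h - 1) (kp w h k) g' τ' ≤ 90000 * qr w h k g τ := by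
  obtain ⟨-, -, -, h4⟩ := hKP w h hw hh
  obtain ⟨p1, p2, p3, -⟩ := hPH w h (by omega) (by omega) (k : ℝ)
  obtain ⟨q1, -⟩ := hPH (w - 1) (h - 1) (by omega) (by omega) (kp w h k : ℝ)
  have a1 : Ph (w - 1) (h - 1) (kp w h k) g' ≤ 100 * Ph w h k g :=
    (h4 k k g g' (by simp) (by linarith) hg' hgg' (by linarith)).1
  have a2 : Ph w h k τ ≤ 900 * Ph (w - 1) (h - 1) (kp w h k) τ' := by
    have b1 : Ph w h k τ ≤ Ph w h k (3 * τ') := p2 _ _ (by linarith) hττ'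
    have b2 := p3 τ' 3 (by linarith) (by norm_num)
    have b3 := (h4 k k τ' τ' (by simp) hτ' hτ' (by linarith) (by linarith)).2
    nlinarith
  have := min_cmp (p1 g (by linarith)) (q1 τ' (by linarith)) (p1 τ (by linarith))
    (by norm_num : (0 : ℝ) < 100) (by norm_num : (0 : ℝ) < 900) a1 a2 (by norm_num)
  have e5 : (100 * 900 : ℝ) = 90000 := by norm_num
  rwa [e5] at this

/-- rectangles of bounded size -/
theorem qr_small {w h : ℤ} (hw : 1 ≤ w) (hh : 1 ≤ h) (hPH : S_PH) (hm : min (w : ℝ) h ≤ 3)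
    (t x y : ℝ) (hx : 1 ≤ x) (hy : 0 < y) : 1 / 9 ≤ qr w h t x y := by
  have hM : (1 : ℝ) ≤ min (w : ℝ) h := by
    have h1 : (1 : ℝ) ≤ w := by exact_mod_cast hw
    have h2 : (1 : ℝ) ≤ h := by exact_mod_cast hh
    exact le_min h1 h2
  obtain ⟨p1, p2, -⟩ := hPH w h hw hh t
  have a1 : max (dc w h t) 1 ≤ Ph w h t x := by
    have b1 := p2 1 x (by norm_num) hx
    have e : Ph w h t 1 = max (dc w h t) 1 := by
      unfold Ph
      rw [min_eq_left hM, one_mul]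
    rwa [e] at b1
  have a2 : Ph w h t y ≤ 9 * max (dc w h t) 1 := by
    unfold Ph
    obtain ⟨z, hz⟩ : ∃ z : ℝ, z = min y (min (w : ℝ) h) := ⟨_, rfl⟩
    rw [← hz]
    have hz0 : 0 < z := by rw [hz]; exact lt_min hy (by linarith)
    have hz3 : z ≤ 3 := by rw [hz]; exact (min_le_right _ _).trans hm
    have hd1 : 1 ≤ max (dc w h t) 1 := le_max_right _ _
    have hd2 : dc w h t ≤ max (dc w h t) 1 := le_max_left _ _
    have h3 : max (dc w h t) z ≤ 3 * max (dc w h t) 1 := max_le (by linarith) (by linarith)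
    have h4 : 0 < max (dc w h t) z := lt_of_lt_of_le hz0 (le_max_right _ _)
    nlinarith
  unfold qr
  refine le_min (by norm_num) ?_
  rw [le_div_iff₀ (p1 y hy)]
  linarith

theorem t_DUP : S_DUU → S_UP → S_KP → S_DC → S_PH → S_DUP := by
  intro hDUU hUP hKP _ hPH
  obtain ⟨C0, hC0, hUP⟩ := hUP
  obtain ⟨K, hK⟩ : ∃ K : ℝ, K = (360000 * 90000 : ℝ) ^ ((1 : ℝ) / 3) := ⟨_, rfl⟩
  have hK0 : 0 < K := by rw [hK]; positivity
  refine ⟨5 + C0 * K, by positivity, ?_⟩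
  intro w h hw hh a b c d harc
  obtain ⟨hab, hbc, hcd, hda⟩ := harc
  have hab' : (a : ℝ) ≤ b := by exact_mod_cast hab
  have hbc' : (b : ℝ) + 1 ≤ c := by exact_mod_cast hbc
  have hcd' : (c : ℝ) ≤ d := by exact_mod_cast hcd
  have hda' : (d : ℝ) + 1 ≤ a + 2 * (w + h) := by exact_mod_cast hda
  have hPR := PR_nonneg w h a b c d
  obtain ⟨τ, hτ⟩ : ∃ τ : ℝ, τ = min ((b : ℝ) - a + 1) (d - c + 1) := ⟨_, rfl⟩
  have hτ1 : 1 ≤ τ := by rw [hτ]; exact le_min (by linarith) (by linarith)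
  have hYY : YY w h a b c d = qr w h b (c - b) τ * qr w h d (a + 2 * (w + h) - d) τ := by
    unfold YY
    rw [hτ]
  have hY0 : 0 ≤ YY w h a b c d := by
    rw [hYY]
    exact mul_nonneg (qr_nonneg hw hh hPH _ _ _ (by linarith) (by linarith))
      (qr_nonneg hw hh hPH _ _ _ (by linarith) (by linarith))
  have hYp : 0 ≤ (YY w h a b c d) ^ ((1 : ℝ) / 3) := Real.rpow_nonneg hY0 _
  have hCK : 0 ≤ C0 * K * (YY w h a b c d) ^ ((1 : ℝ) / 3) := by positivity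
  by_cases hsm : min (w : ℝ) h ≤ 3
  · have h1 : 1 / 81 ≤ YY w h a b c d := by
      rw [hYY]
      have a1 := qr_small hw hh hPH hsm b (c - b) τ (by linarith) (by linarith)
      have a2 := qr_small hw hh hPH hsm d (a + 2 * (w + h) - d) τ (by linarith) (by linarith)
      nlinarith
    have h2 : 1 / 5 ≤ (YY w h a b c d) ^ ((1 : ℝ) / 3) := by
      have h3 : ((1 / 5 : ℝ) ^ (3 : ℕ)) ^ ((1 : ℝ) / 3) = 1 / 5 := by
        rw [← Real.rpow_natCast, ← Real.rpow_mul (by norm_num)]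
        norm_num
      rw [← h3]
      exact Real.rpow_le_rpow (by norm_num) (by norm_num; linarith) (by norm_num)
    nlinarith
  have hw4 : 4 ≤ w := by
    by_contra hc
    apply hsm
    refine (min_le_left _ _).trans ?_
    have : w ≤ 3 := by omega
    exact_mod_cast this
  have hh4 : 4 ≤ h := by
    by_contra hc
    apply hsm
    refine (min_le_right _ _).trans ?_
    have : h ≤ 3 := by omega
    exact_mod_cast this
  obtain ⟨k1, k2, -, -⟩ := hKP w h hw4 hh4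
  have hD : kp w h (a + 2 * (w + h) - 1) = kp w h (a - 1) + 2 * (w - 1 + (h - 1)) := by
    rw [← k1]
    congr 1
    ring
  have hdu := hDUU w h (by omega) (by omega) a b c d ⟨hab, hbc, hcd, hda⟩
  have m1 := k2 b (c - 1) (by omega)
  have m2 := k2 (c - 1) d (by omega)
  have m3 := k2 d (a + 2 * (w + h) - 1) (by omega)
  have m4 := k2 (a - 1) b (by omega)
  by_cases hBC : kp w h (c - 1) = kp w h d
  · have hs : d = c := by omega
    have hτe : τ = 1 := by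
      rw [hτ, hs, sub_self, zero_add]
      exact min_eq_right (by linarith)
    have hY1 : YY w h a b c d = 1 := by
      rw [hYY, qr_one hw hh hPH _ _ _ (by linarith) (by linarith),
        qr_one hw hh hPH _ _ _ (by linarith) (by linarith), mul_one]
    rw [hY1, Real.one_rpow] at hYp hCK ⊢
    nlinarith
  by_cases hDA : kp w h (a - 1) = kp w h b
  · have hs : a = b := by omega
    have hτe : τ = 1 := by
      rw [hτ, hs, sub_self, zero_add]
      exact min_eq_left (by linarith)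
    have hY1 : YY w h a b c d = 1 := by
      rw [hYY, qr_one hw hh hPH _ _ _ (by linarith) (by linarith),
        qr_one hw hh hPH _ _ _ (by linarith) (by linarith), mul_one]
    rw [hY1, Real.one_rpow] at hYp hCK ⊢
    nlinarith
  obtain ⟨A, hAe⟩ : ∃ A, A = kp w h b := ⟨_, rfl⟩
  obtain ⟨B, hBe⟩ : ∃ B, B = kp w h (c - 1) := ⟨_, rfl⟩
  obtain ⟨Cc, hCe⟩ : ∃ Cc, Cc = kp w h d := ⟨_, rfl⟩
  obtain ⟨D, hDe⟩ : ∃ D, D = kp w h (a + 2 * (w + h) - 1) := ⟨_, rfl⟩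
  have hupp := hUP (w - 1) (h - 1) (by omega) (by omega) A B Cc D
    ⟨by omega, by omega, by omega, by omega⟩
  rw [← hAe, ← hBe, ← hCe, ← hDe] at hdu
  obtain ⟨ρ, hρ⟩ : ∃ ρ : ℝ, ρ = min ((Cc : ℝ) - B) (A + 2 * (((w - 1 : ℤ) : ℝ) + ((h - 1 : ℤ) : ℝ)) - D) :=
    ⟨_, rfl⟩
  have n1 : B < Cc ∧ Cc - B ≤ d - c + 1 ∧ d - c + 1 ≤ 3 * (Cc - B) := by omega
  have n2 : D < A + 2 * (w - 1 + (h - 1)) ∧ A + 2 * (w - 1 + (h - 1)) - D ≤ b - a + 1 ∧
      b - a + 1 ≤ 3 * (A + 2 * (w - 1 + (h - 1)) - D) := by omega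
  have n3 : A ≤ B ∧ B - A + 1 ≤ c - b ∧ c - b ≤ 2 * (B - A + 1) := by omega
  have n4 : Cc ≤ D ∧ D - Cc + 1 ≤ a + 2 * (w + h) - d ∧
      a + 2 * (w + h) - d ≤ 2 * (D - Cc + 1) := by omega
  have r1 : (B : ℝ) + 1 ≤ Cc ∧ (Cc : ℝ) - B ≤ d - c + 1 ∧ (d : ℝ) - c + 1 ≤ 3 * (Cc - B) := by
    exact_mod_cast n1
  have r2 : (D : ℝ) + 1 ≤ A + 2 * (((w - 1 : ℤ) : ℝ) + ((h - 1 : ℤ) : ℝ)) ∧
      (A : ℝ) + 2 * (((w - 1 : ℤ) : ℝ) + ((h - 1 : ℤ) : ℝ)) - D ≤ b - a + 1 ∧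
      (b : ℝ) - a + 1 ≤ 3 * (A + 2 * (((w - 1 : ℤ) : ℝ) + ((h - 1 : ℤ) : ℝ)) - D) := by
    exact_mod_cast n2
  have r3 : (A : ℝ) ≤ B ∧ (B : ℝ) - A + 1 ≤ c - b ∧ (c : ℝ) - b ≤ 2 * (B - A + 1) := by
    exact_mod_cast n3
  have r4 : (Cc : ℝ) ≤ D ∧ (D : ℝ) - Cc + 1 ≤ a + 2 * (w + h) - d ∧
      (a : ℝ) + 2 * (w + h) - d ≤ 2 * (D - Cc + 1) := by
    exact_mod_cast n4
  have hρ1 : 1 ≤ ρ := by rw [hρ]; exact le_min (by linarith [r1.1]) (by linarith [r2.1])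
  have hρτ : ρ ≤ τ := by
    rw [hρ, hτ]
    exact le_min ((min_le_right _ _).trans r2.2.1) ((min_le_left _ _).trans r1.2.1)
  have hτρ : τ ≤ 3 * ρ := by
    rw [hρ, hτ]
    rcases min_choice ((Cc : ℝ) - B) (A + 2 * (((w - 1 : ℤ) : ℝ) + ((h - 1 : ℤ) : ℝ)) - D) with e | e
    · rw [e]
      exact (min_le_right _ _).trans r1.2.2
    · rw [e]
      exact (min_le_left _ _).trans r2.2.2
  have hXX : XX (w - 1) (h - 1) A B Cc D =
      qr (w - 1) (h - 1) B (B - A + 1) ρ * qr (w - 1) (h - 1) Cc (D - Cc + 1) ρ := by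
    unfold XX
    rw [hρ]
  have f1 : qr (w - 1) (h - 1) B (B - A + 1) ρ ≤ 360000 * qr w h b (c - b) τ := by
    have g1 := qr_dual hw4 hh4 hKP hPH (c - 1) (c - b) (B - A + 1) τ ρ (by linarith [r3.1]) r3.2.1
      r3.2.2 hρ1 hρτ hτρ
    rw [← hBe] at g1
    have g2 := qr_base hw hh hPH (b : ℝ) ((c - 1 : ℤ) : ℝ) (c - b) τ (by linarith) (by linarith) (by
      push_cast
      rw [abs_le]
      constructor <;> linarith)
    linarith
  have f2 : qr (w - 1) (h - 1) Cc (D - Cc + 1) ρ ≤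
      90000 * qr w h d (a + 2 * (w + h) - d) τ := by
    have g1 := qr_dual hw4 hh4 hKP hPH d (a + 2 * (w + h) - d) (D - Cc + 1) τ ρ
      (by linarith [r4.1]) r4.2.1 r4.2.2 hρ1 hρτ hτρ
    rwa [← hCe] at g1
  have hXY : XX (w - 1) (h - 1) A B Cc D ≤ 360000 * 90000 * YY w h a b c d := by
    rw [hXX, hYY]
    have z1 : 0 ≤ qr (w - 1) (h - 1) Cc (D - Cc + 1) ρ :=
      qr_nonneg (by omega) (by omega) hPH _ _ _ (by linarith [r4.1]) (by linarith)
    have z2 : 0 ≤ qr w h b (c - b) τ :=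
      qr_nonneg hw hh hPH _ _ _ (by linarith) (by linarith)
    calc _ ≤ (360000 * qr w h b (c - b) τ) * (90000 * qr w h d (a + 2 * (w + h) - d) τ) :=
          mul_le_mul f1 f2 z1 (by positivity)
      _ = _ := by ring
  have hX0 : 0 ≤ XX (w - 1) (h - 1) A B Cc D := by
    rw [hXX]
    exact mul_nonneg (qr_nonneg (by omega) (by omega) hPH _ _ _ (by linarith [r3.1]) (by linarith))
      (qr_nonneg (by omega) (by omega) hPH _ _ _ (by linarith [r4.1]) (by linarith))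
  have hfin : (XX (w - 1) (h - 1) A B Cc D) ^ ((1 : ℝ) / 3) ≤
      K * (YY w h a b c d) ^ ((1 : ℝ) / 3) := by
    rw [hK, ← Real.mul_rpow (by norm_num) hY0]
    exact Real.rpow_le_rpow hX0 hXY (by norm_num)
  have hlast : C0 * (XX (w - 1) (h - 1) A B Cc D) ^ ((1 : ℝ) / 3) ≤
      C0 * (K * (YY w h a b c d) ^ ((1 : ℝ) / 3)) := mul_le_mul_of_nonneg_left hfin hC0.le
  nlinarith

end Pool.Agent.Y989.RC.DUP
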