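import Pool.Agent.Y989.RC.Stm2

/-! Project RC (helper989), part ELL: the two periods of the Schwarz-Christoffel map are complete
elliptic integrals. -/

namespace Pool.Agent.Y989.RC.ELL

open MeasureTheory Real Set

theorem den_pos (s t : ℝ) (hs0 : 0 < s) (hs1 : s < 1) : 0 < 1 - s ^ 2 * sin t ^ 2 := by
  have h1 : s ^ 2 < 1 := by nlinarith
  have h2 := sin_sq_le_one t
  have h3 := sq_nonneg (sin t)
  nlinarith [mul_nonneg (sq_nonneg s) (by linarith : (0 : ℝ) ≤ 1 - sin t ^ 2)]

theorem cont (s : ℝ) (hs0 : 0 < s) (hs1 : s < 1) :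
    Continuous (fun t : ℝ => 1 / √(1 - s ^ 2 * sin t ^ 2)) := by
  refine continuous_const.div (by fun_prop) fun t => ?_
  exact (Real.sqrt_pos.mpr (den_pos s t hs0 hs1)).ne'

theorem even_int (s : ℝ) (hs0 : 0 < s) (hs1 : s < 1) :
    ∫ t in (-(π / 2))..(π / 2), 1 / √(1 - s ^ 2 * sin t ^ 2) =
      2 * ∫ t in (0 : ℝ)..(π / 2), 1 / √(1 - s ^ 2 * sin t ^ 2) := by
  have hc := cont s hs0 hs1
  have h1 : ∫ t in (-(π / 2))..(0 : ℝ), 1 / √(1 - s ^ 2 * sin t ^ 2) =
      ∫ t in (0 : ℝ)..(π / 2), 1 / √(1 - s ^ 2 * sin t ^ 2) := by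
    have h2 := intervalIntegral.integral_comp_neg (a := (0 : ℝ)) (b := π / 2)
      (fun t : ℝ => 1 / √(1 - s ^ 2 * sin t ^ 2))
    simp only [sin_neg, neg_sq, neg_zero] at h2
    exact h2.symm
  rw [← intervalIntegral.integral_add_adjacent_intervals (hc.intervalIntegrable _ 0)
    (hc.intervalIntegrable 0 _), h1]
  ring

theorem main (a : ℝ) (h0 : 0 < a) (h1 : a < π / 2) :
    IntervalIntegrable (fS a) volume (-a) a ∧
    ∫ φ in (-a)..a, fS a φ = 2 * ∫ t in (0 : ℝ)..(π / 2), 1 / √(1 - sin a ^ 2 * sin t ^ 2) := by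
  have hs0 : 0 < sin a := sin_pos_of_pos_of_lt_pi h0 (by linarith [pi_pos])
  have hs1 : sin a < 1 := by
    rw [← sin_pi_div_two]
    exact sin_lt_sin_of_lt_of_le_pi_div_two (by linarith) le_rfl h1
  have hpi := pi_pos
  have hb : ∀ t : ℝ, -1 < sin a * sin t ∧ sin a * sin t < 1 := by
    intro t
    have h2 := neg_one_le_sin t
    have h3 := sin_le_one t
    constructor
    · nlinarith
    · nlinarith
  let f : ℝ → ℝ := fun t => arcsin (sin a * sin t)
  let f' : ℝ → ℝ := fun t => sin a * cos t / √(1 - (sin a * sin t) ^ 2)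
  have hf : ContinuousOn f (Icc (-(π / 2)) (π / 2)) :=
    (continuous_arcsin.comp (continuous_const.mul continuous_sin)).continuousOn
  have hff' : ∀ x ∈ Ioo (-(π / 2)) (π / 2), HasDerivAt f (f' x) x := by
    intro x _
    have h2 := (hasDerivAt_arcsin (hb x).1.ne' (hb x).2.ne).comp x
      ((hasDerivAt_sin x).const_mul (sin a))
    have h3 : f' x = 1 / √(1 - (sin a * sin x) ^ 2) * (sin a * cos x) := by
      simp only [f']; ring
    rw [h3]
    exact h2
  have hf' : ∀ x ∈ Ioo (-(π / 2)) (π / 2), 0 ≤ f' x := by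
    intro x hx
    have := cos_pos_of_mem_Ioo hx
    simp only [f']
    positivity
  have hE : ∀ t ∈ Ioo (-(π / 2)) (π / 2),
      f' t • fS a (f t) = 1 / √(1 - sin a ^ 2 * sin t ^ 2) := by
    intro t ht
    have hc := cos_pos_of_mem_Ioo ht
    have h2 : sin (f t) = sin a * sin t := sin_arcsin (hb t).1.le (hb t).2.le
    have h3 : |(sin a * sin t) ^ 2 - sin a ^ 2| = (sin a * cos t) ^ 2 := by
      have h4 : (sin a * sin t) ^ 2 - sin a ^ 2 = -((sin a * cos t) ^ 2) := by
        rw [mul_pow, mul_pow, cos_sq']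
        ring
      rw [h4, abs_neg, abs_of_nonneg (sq_nonneg _)]
    have h5 : √((sin a * cos t) ^ 2) = sin a * cos t := Real.sqrt_sq (by positivity)
    simp only [fS, f', smul_eq_mul]
    rw [h2, h3, h5, mul_pow]
    have h6 := Real.sqrt_pos.mpr (den_pos (sin a) t hs0 hs1)
    have h7 : sin a * cos t ≠ 0 := by positivity
    field_simp
  have hm : f (-(π / 2)) = -a := by
    simp only [f, sin_neg, sin_pi_div_two, mul_neg, mul_one, arcsin_neg]
    rw [arcsin_sin (by linarith) h1.le]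
  have hp : f (π / 2) = a := by
    simp only [f, sin_pi_div_two, mul_one]
    rw [arcsin_sin (by linarith) h1.le]
  have hab : -(π / 2) ≤ π / 2 := by linarith
  have hI := integral_Icc_deriv_smul_of_deriv_nonneg (g := fS a) hf hff' hf' hab
  have hJ := integrableOn_Icc_deriv_smul_iff_of_deriv_nonneg (g := fS a) hf hff' hf' hab
  rw [hm, hp] at hI hJ
  have hc := cont (sin a) hs0 hs1
  have haa : -a ≤ a := by linarith
  constructor
  · rw [intervalIntegrable_iff_integrableOn_Icc_of_le haa, ← hJ,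
      integrableOn_Icc_iff_integrableOn_Ioo]
    have h2 : IntegrableOn (fun t : ℝ => 1 / √(1 - sin a ^ 2 * sin t ^ 2))
        (Ioo (-(π / 2)) (π / 2)) :=
      (hc.integrableOn_Icc (a := -(π / 2)) (b := π / 2)).mono_set Ioo_subset_Icc_self
    exact h2.congr_fun (fun t ht => (hE t ht).symm) measurableSet_Ioo
  · rw [intervalIntegral.integral_of_le haa, ← integral_Icc_eq_integral_Ioc, ← hI,
      ← even_int (sin a) hs0 hs1, intervalIntegral.integral_of_le hab,
      integral_Icc_eq_integral_Ioo, integral_Ioc_eq_integral_Ioo]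
    exact setIntegral_congr_fun measurableSet_Ioo hE

theorem shift (a ψ : ℝ) : fS a (ψ + π / 2) = fS (π / 2 - a) ψ := by
  unfold fS
  rw [sin_add_pi_div_two, sin_pi_div_two_sub]
  have h1 : cos ψ ^ 2 - sin a ^ 2 = -(sin ψ ^ 2 - cos a ^ 2) := by
    rw [cos_sq', cos_sq']; ring
  rw [h1, abs_neg]

theorem t_ELL : S_ELL := by
  intro a h0 h1
  have hA := main a h0 h1
  refine ⟨hA.2, ?_⟩
  have hB := main (π / 2 - a) (by linarith) (by linarith)
  rw [sin_pi_div_two_sub] at hB
  have h2 : IntervalIntegrable (fS a) volume a (π - a) := by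
    have h3 := hB.1.comp_sub_right (π / 2)
    have h4 : (fun x => fS (π / 2 - a) (x - π / 2)) = fS a := by
      funext x
      rw [← shift, sub_add_cancel]
    rw [h4] at h3
    convert h3 using 1 <;> ring
  have h3 : IntervalIntegrable (fS a) volume (-a) (π - a) := hA.1.trans h2
  have h4 : SC a (π - a) - SC a a = ∫ φ in a..(π - a), fS a φ :=
    intervalIntegral.integral_interval_sub_left h3 hA.1
  rw [h4, ← hB.2]
  have h5 := intervalIntegral.integral_comp_add_right (a := -(π / 2 - a)) (b := π / 2 - a)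
    (fS a) (π / 2)
  have h6 : -(π / 2 - a) + π / 2 = a := by ring
  have h7 : π / 2 - a + π / 2 = π - a := by ring
  rw [h6, h7] at h5
  rw [← h5]
  simp only [shift]

end Pool.Agent.Y989.RC.ELL
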