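import Pool.Agent.Y989.RC.Stm2

/-!
Project RC: the parameters exist for every rectangle (author: helper155).
-/

set_option autoImplicit false

namespace Pool.Agent.Y989.RC.EXI
open MeasureTheory Real Set Filter Topology

/-- the complete elliptic integral -/
noncomputable def Ke (k : ℝ) : ℝ := ∫ t in (0 : ℝ)..(π / 2), 1 / √(1 - k ^ 2 * sin t ^ 2)

theorem low {k c : ℝ} (hk : k ^ 2 ≤ c) (t : ℝ) : 1 - c ≤ 1 - k ^ 2 * sin t ^ 2 := by
  have h1 : k ^ 2 * sin t ^ 2 ≤ k ^ 2 * 1 :=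
    mul_le_mul_of_nonneg_left (sin_sq_le_one t) (sq_nonneg k)
  linarith

theorem pos {k : ℝ} (hk : k ^ 2 < 1) (t : ℝ) : 0 < 1 - k ^ 2 * sin t ^ 2 :=
  lt_of_lt_of_le (by linarith) (low le_rfl t)

theorem cont_t {k : ℝ} (hk : k ^ 2 < 1) : Continuous fun t : ℝ => 1 / √(1 - k ^ 2 * sin t ^ 2) :=
  continuous_const.div (by fun_prop) fun t => (Real.sqrt_pos.2 (pos hk t)).ne'

theorem Ke_cont {k : ℝ} (hk : k ^ 2 < 1) : ContinuousAt Ke k := by
  obtain ⟨c, hc⟩ : ∃ c, c = (1 + k ^ 2) / 2 := ⟨_, rfl⟩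
  have hc1 : c < 1 := by linarith
  have hkc : k ^ 2 < c := by linarith
  have hev : ∀ᶠ x : ℝ in 𝓝 k, x ^ 2 < c :=
    (by fun_prop : Continuous fun x : ℝ => x ^ 2).continuousAt.eventually (gt_mem_nhds hkc)
  refine intervalIntegral.continuousAt_of_dominated_interval (bound := fun _ => 1 / √(1 - c))
    ?_ ?_ ?_ ?_
  · exact hev.mono fun x hx => (cont_t (hx.trans hc1)).aestronglyMeasurable
  · refine hev.mono fun x hx => ae_of_all _ fun t _ => ?_
    rw [Real.norm_of_nonneg (by positivity)]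
    exact one_div_le_one_div_of_le (Real.sqrt_pos.2 (by linarith))
      (Real.sqrt_le_sqrt (low hx.le t))
  · exact intervalIntegrable_const
  · refine ae_of_all _ fun t _ => ?_
    exact ContinuousAt.div continuousAt_const (by fun_prop) (Real.sqrt_pos.2 (pos hk t)).ne'

theorem Ke_pos {k : ℝ} (hk : k ^ 2 < 1) : 0 < Ke k := by
  refine intervalIntegral.intervalIntegral_pos_of_pos ((cont_t hk).intervalIntegrable _ _)
    (fun t => ?_) (by positivity)
  have := Real.sqrt_pos.2 (pos hk t)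
  positivity

theorem Ke_le {k : ℝ} (hk : k ^ 2 ≤ 1 / 4) : Ke k ≤ π := by
  have h1 : k ^ 2 < 1 := by linarith
  have h2 : Ke k ≤ ∫ _t in (0 : ℝ)..(π / 2), (2 : ℝ) := by
    refine intervalIntegral.integral_mono_on (by positivity) ((cont_t h1).intervalIntegrable _ _)
      intervalIntegrable_const fun t _ => ?_
    have h3 : (1 / 2 : ℝ) ≤ √(1 - k ^ 2 * sin t ^ 2) := by
      apply Real.le_sqrt_of_sq_le
      have := low hk t
      linarith
    calc 1 / √(1 - k ^ 2 * sin t ^ 2) ≤ 1 / (1 / 2) := one_div_le_one_div_of_le (by norm_num) h3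
      _ = 2 := by norm_num
  rw [intervalIntegral.integral_const, smul_eq_mul] at h2
  linarith

theorem Ke_big {k e : ℝ} (he : 0 < e) (hk : k ^ 2 = 1 - e ^ 2) : Real.log (1 / e) ≤ Ke k := by
  have hk1 : k ^ 2 < 1 := by
    have : 0 < e ^ 2 := by positivity
    linarith
  have hpi : (1 : ℝ) ≤ π / 2 := by linarith [Real.pi_gt_three]
  have hder : ∀ t ∈ uIcc (0 : ℝ) (π / 2),
      HasDerivAt (fun t : ℝ => -Real.log (π / 2 + e - t)) (1 / (π / 2 + e - t)) t := by
    intro t ht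
    rw [uIcc_of_le (by positivity)] at ht
    have h0 : π / 2 + e - t ≠ 0 := by
      have := ht.2
      exact (by linarith : 0 < π / 2 + e - t).ne'
    have h1 : HasDerivAt (fun t : ℝ => π / 2 + e - t) (-1) t := by
      have h2 := (hasDerivAt_id t).const_sub (π / 2 + e)
      exact h2
    have h3 := (h1.log h0).neg
    have e1 : -(-1 / (π / 2 + e - t)) = 1 / (π / 2 + e - t) := by ring
    rw [e1] at h3
    exact h3
  have hcont : ContinuousOn (fun t : ℝ => 1 / (π / 2 + e - t)) (uIcc (0 : ℝ) (π / 2)) := by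
    rw [uIcc_of_le (by positivity)]
    refine ContinuousOn.div continuousOn_const (by fun_prop) fun t ht => ?_
    have := ht.2
    exact (by linarith : 0 < π / 2 + e - t).ne'
  have hint := intervalIntegral.integral_eq_sub_of_hasDerivAt hder hcont.intervalIntegrable
  have h4 : ∫ t in (0 : ℝ)..(π / 2), 1 / (π / 2 + e - t) ≤ Ke k := by
    refine intervalIntegral.integral_mono_on (by positivity) hcont.intervalIntegrable
      ((cont_t hk1).intervalIntegrable _ _) fun t ht => ?_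
    have ht2 : t ≤ π / 2 := ht.2
    apply one_div_le_one_div_of_le (Real.sqrt_pos.2 (pos hk1 t))
    rw [Real.sqrt_le_left (by linarith)]
    have h5 : cos t ≤ π / 2 - t := by
      rw [← Real.sin_pi_div_two_sub]
      exact Real.sin_le (by linarith)
    have h6 : 0 ≤ cos t := Real.cos_nonneg_of_mem_Icc ⟨by linarith [ht.1], ht2⟩
    have h7 : cos t ^ 2 ≤ (π / 2 - t) ^ 2 := pow_le_pow_left₀ h6 h5 2
    have h8 : 0 ≤ e * (π / 2 - t) := mul_nonneg he.le (by linarith)
    have h9 : e ^ 2 * sin t ^ 2 ≤ e ^ 2 * 1 :=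
      mul_le_mul_of_nonneg_left (sin_sq_le_one t) (sq_nonneg e)
    have h10 := sin_sq_add_cos_sq t
    rw [hk]
    nlinarith
  have h11 : Real.log (1 / e) ≤ ∫ t in (0 : ℝ)..(π / 2), 1 / (π / 2 + e - t) := by
    rw [hint]
    have e1 : π / 2 + e - π / 2 = e := by ring
    have e2 : Real.log (1 / e) = -Real.log e := by rw [one_div, Real.log_inv]
    simp only [e1, sub_zero, e2]
    have h12 : 0 ≤ Real.log (π / 2 + e) := Real.log_nonneg (by linarith)
    linarith
  exact h11.trans h4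

/-- a small angle for which one integral is large and the other one bounded -/
theorem ang (R : ℝ) : ∃ α : ℝ, 0 < α ∧ α < π / 2 ∧ R ≤ Ke (cos α) ∧ Ke (sin α) ≤ π := by
  obtain ⟨e, he⟩ : ∃ e, e = min (1 / 2) (Real.exp (-R)) := ⟨_, rfl⟩
  have he0 : 0 < e := by
    rw [he]
    exact lt_min (by norm_num) (Real.exp_pos _)
  have he1 : e ≤ 1 / 2 := by
    rw [he]
    exact min_le_left _ _
  have he2 : e ≤ Real.exp (-R) := by
    rw [he]
    exact min_le_right _ _
  have hs : sin (Real.arcsin e) = e := Real.sin_arcsin (by linarith) (by linarith)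
  have hc : cos (Real.arcsin e) ^ 2 = 1 - e ^ 2 := by
    have := sin_sq_add_cos_sq (Real.arcsin e)
    rw [hs] at this
    linarith
  refine ⟨Real.arcsin e, Real.arcsin_pos.2 he0, Real.arcsin_lt_pi_div_two.2 (by linarith), ?_, ?_⟩
  · refine le_trans ?_ (Ke_big he0 hc)
    rw [one_div, Real.log_inv]
    have h1 := Real.log_le_log he0 he2
    rw [Real.log_exp] at h1
    linarith
  · apply Ke_le
    rw [hs]
    have : e ^ 2 ≤ (1 / 2) ^ 2 := pow_le_pow_left₀ he0.le he1 2
    linarith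

theorem sin_lt {α : ℝ} (h0 : 0 < α) (h1 : α < π / 2) : sin α ^ 2 < 1 ∧ cos α ^ 2 < 1 := by
  have h2 : 0 < cos α := Real.cos_pos_of_mem_Ioo ⟨by linarith, h1⟩
  have h3 : 0 < sin α := Real.sin_pos_of_pos_of_lt_pi h0 (by linarith [Real.pi_pos])
  have h4 := sin_sq_add_cos_sq α
  have h5 : 0 < cos α ^ 2 := by positivity
  have h6 : 0 < sin α ^ 2 := by positivity
  constructor <;> linarith

/-- The parameters exist for every rectangle. -/
theorem t_EXI : S_FS → S_ELL → S_EXI := by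
  intro _ hell w h hw hh
  have hw1 : (1 : ℝ) ≤ w := by exact_mod_cast hw
  have hh1 : (1 : ℝ) ≤ h := by exact_mod_cast hh
  obtain ⟨a, a0, a1, a2, a3⟩ := ang (h * π)
  obtain ⟨b, b0, b1, b2, b3⟩ := ang (w * π)
  have hpi := Real.pi_pos
  have hcont : ContinuousOn (fun x : ℝ => (h : ℝ) * Ke (sin x) - w * Ke (cos x))
      (Ioo 0 (π / 2)) := by
    intro x hx
    obtain ⟨s1, s2⟩ := sin_lt hx.1 hx.2
    have c1 : ContinuousAt (fun x => Ke (sin x)) x :=
      ContinuousAt.comp (f := sin) (Ke_cont s1) Real.continuous_sin.continuousAt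
    have c2 : ContinuousAt (fun x => Ke (cos x)) x :=
      ContinuousAt.comp (f := cos) (Ke_cont s2) Real.continuous_cos.continuousAt
    exact ((continuousAt_const.mul c1).sub (continuousAt_const.mul c2)).continuousWithinAt
  have hma : a ∈ Ioo 0 (π / 2) := ⟨a0, a1⟩
  have hmb : π / 2 - b ∈ Ioo 0 (π / 2) := ⟨by linarith, by linarith⟩
  have hfa : (h : ℝ) * Ke (sin a) - w * Ke (cos a) ≤ 0 := by
    have h1 : (h : ℝ) * Ke (sin a) ≤ h * π := mul_le_mul_of_nonneg_left a3 (by linarith)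
    have h2 : 1 * (h * π) ≤ (w : ℝ) * Ke (cos a) :=
      mul_le_mul hw1 a2 (by positivity) (by linarith)
    linarith
  have hfb : 0 ≤ (h : ℝ) * Ke (sin (π / 2 - b)) - w * Ke (cos (π / 2 - b)) := by
    rw [Real.sin_pi_div_two_sub, Real.cos_pi_div_two_sub]
    have h1 : (w : ℝ) * Ke (sin b) ≤ w * π := mul_le_mul_of_nonneg_left b3 (by linarith)
    have h2 : 1 * (w * π) ≤ (h : ℝ) * Ke (cos b) :=
      mul_le_mul hh1 b2 (by positivity) (by linarith)
    linarith
  obtain ⟨α, hα, hφ⟩ := isPreconnected_Ioo.intermediate_value hma hmb hcont ⟨hfa, hfb⟩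
  obtain ⟨s1, s2⟩ := sin_lt hα.1 hα.2
  have k1 := Ke_pos s1
  have k2 := Ke_pos s2
  obtain ⟨l1, l2⟩ := hell α hα.1 hα.2
  have l1' : SC α α = 2 * Ke (sin α) := l1
  have l2' : SC α (π - α) - SC α α = 2 * Ke (cos α) := l2
  have hφ' : (h : ℝ) * Ke (sin α) - w * Ke (cos α) = 0 := hφ
  have hw0 : (0 : ℝ) < w := by linarith
  refine ⟨α, w / (2 * Ke (sin α)), hα.1, hα.2, by positivity, ?_, ?_⟩
  · rw [l1']
    field_simp
  · have l3 : SC α (π - α) = 2 * Ke (cos α) + 2 * Ke (sin α) := by linarith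
    rw [l3, div_mul_eq_mul_div, div_eq_iff (by positivity)]
    linarith

end Pool.Agent.Y989.RC.EXI
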