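import Pool.Agent.Y989.RC.Stm2

/-!
# Project RC, the statement FS: the Schwarz-Christoffel density is integrable
-/

set_option autoImplicit false

namespace Pool.Agent.Y989.RC.FS

open MeasureTheory Real Filter Pool.Agent.Y989.RC

theorem sin_sq_sub (α φ : ℝ) : sin φ ^ 2 - sin α ^ 2 = sin (φ - α) * sin (φ + α) := by
  rw [sin_sub, sin_add]
  nlinarith [sin_sq_add_cos_sq φ, sin_sq_add_cos_sq α]

/-- the singularity -/
noncomputable def g (x : ℝ) : ℝ := 1 / √|sin x|

theorem g_nonneg (x : ℝ) : 0 ≤ g x := by unfold g; positivity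

theorem g_meas : Measurable g := (Real.continuous_sin.abs.measurable.sqrt).const_div 1

theorem g_int0 : IntervalIntegrable g volume 0 (π / 2) := by
  have h1 : IntervalIntegrable (fun x : ℝ => √(π / 2) * x ^ (-(1 / 2) : ℝ)) volume 0 (π / 2) :=
    (intervalIntegral.intervalIntegrable_rpow' (by norm_num)).const_mul _
  refine h1.mono_fun g_meas.aestronglyMeasurable ?_
  rw [Filter.EventuallyLE, ae_restrict_iff' measurableSet_uIoc]
  refine Filter.Eventually.of_forall fun x hx => ?_
  rw [Set.uIoc_of_le (by positivity)] at hx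
  have hx0 : 0 < x := hx.1
  have hpi := Real.pi_pos
  have h2 : 2 / π * |x| ≤ |sin x| := Real.mul_abs_le_abs_sin (by rw [abs_of_pos hx0]; exact hx.2)
  rw [abs_of_pos hx0] at h2
  have h3 : x ^ (-(1 / 2) : ℝ) = 1 / √x := by
    rw [Real.rpow_neg hx0.le, ← Real.sqrt_eq_rpow, one_div]
  have h4 : √(π / 2) * (1 / √x) = 1 / √(2 / π * x) := by
    rw [Real.sqrt_mul (by positivity), Real.sqrt_div (by positivity), Real.sqrt_div (by positivity)]
    have : √π ≠ 0 := by positivity
    have : √2 ≠ 0 := by positivity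
    have : √x ≠ 0 := by positivity
    field_simp
  rw [h3, h4, Real.norm_of_nonneg (g_nonneg x), Real.norm_of_nonneg (by positivity)]
  unfold g
  exact one_div_le_one_div_of_le (by positivity) (Real.sqrt_le_sqrt h2)

theorem g_even (x : ℝ) : g (-x) = g x := by unfold g; rw [sin_neg, abs_neg]

theorem g_per : Function.Periodic g π := by
  intro x
  unfold g
  rw [sin_add_pi, abs_neg]

theorem g_int (a b : ℝ) : IntervalIntegrable g volume a b := by
  have h1 : IntervalIntegrable g volume (-(π / 2)) 0 := by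
    have h := (IntervalIntegrable.iff_comp_neg (f := g) (a := 0) (b := π / 2)
      enorm_ne_top).1 g_int0
    simp only [g_even, neg_zero] at h
    exact h.symm
  have h2 : IntervalIntegrable g volume (-(π / 2)) (-(π / 2) + π) := by
    have : -(π / 2) + π = π / 2 := by ring
    rw [this]
    exact h1.trans g_int0
  exact g_per.intervalIntegrable Real.pi_ne_zero h2 a b

theorem fS_meas (α : ℝ) : Measurable (fS α) := by
  unfold fS
  exact ((((Real.continuous_sin.pow 2).sub continuous_const).abs.measurable.sqrt).const_div 1)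

theorem fS_nonneg (α φ : ℝ) : 0 ≤ fS α φ := by unfold fS; positivity

theorem fS_eq (α φ : ℝ) : fS α φ = g (φ - α) * g (φ + α) := by
  unfold fS g
  rw [sin_sq_sub, abs_mul, Real.sqrt_mul (abs_nonneg _), one_div_mul_one_div]

theorem fS_le (α φ : ℝ) (h0 : 0 < α) (h1 : α < π / 2) :
    fS α φ ≤ 1 / √(sin (2 * α) / 2) * (g (φ - α) + g (φ + α)) := by
  have hs : 0 < sin (2 * α) := Real.sin_pos_of_pos_of_lt_pi (by linarith) (by linarith)
  have key : sin (2 * α) ≤ |sin (φ - α)| + |sin (φ + α)| := by
    have e : sin (2 * α) = sin (φ + α) * cos (φ - α) - cos (φ + α) * sin (φ - α) := by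
      rw [← sin_sub]
      congr 1
      ring
    have e1 : |sin (φ + α) * cos (φ - α)| ≤ |sin (φ + α)| := by
      rw [abs_mul]
      exact mul_le_of_le_one_right (abs_nonneg _) (abs_cos_le_one _)
    have e2 : |cos (φ + α) * sin (φ - α)| ≤ |sin (φ - α)| := by
      rw [abs_mul]
      exact mul_le_of_le_one_left (abs_nonneg _) (abs_cos_le_one _)
    have e3 := le_abs_self (sin (φ + α) * cos (φ - α))
    have e4 := neg_abs_le (cos (φ + α) * sin (φ - α))
    linarith
  have hu : ∀ u : ℝ, sin (2 * α) / 2 ≤ |sin u| → g u ≤ 1 / √(sin (2 * α) / 2) := by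
    intro u hu
    unfold g
    exact one_div_le_one_div_of_le (by positivity) (Real.sqrt_le_sqrt hu)
  have hc : 0 ≤ 1 / √(sin (2 * α) / 2) := by positivity
  rw [fS_eq]
  have p1 := g_nonneg (φ - α)
  have p2 := g_nonneg (φ + α)
  rcases le_total (sin (2 * α) / 2) |sin (φ - α)| with h | h
  · have := hu _ h
    calc g (φ - α) * g (φ + α) ≤ 1 / √(sin (2 * α) / 2) * g (φ + α) :=
          mul_le_mul_of_nonneg_right this p2
      _ ≤ _ := mul_le_mul_of_nonneg_left (by linarith) hc
  · have := hu (φ + α) (by linarith)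
    calc g (φ - α) * g (φ + α) ≤ g (φ - α) * (1 / √(sin (2 * α) / 2)) :=
          mul_le_mul_of_nonneg_left this p1
      _ = 1 / √(sin (2 * α) / 2) * g (φ - α) := mul_comm _ _
      _ ≤ _ := mul_le_mul_of_nonneg_left (by linarith) hc

theorem fS_int (α : ℝ) (h0 : 0 < α) (h1 : α < π / 2) (a b : ℝ) :
    IntervalIntegrable (fS α) volume a b := by
  have i1 : IntervalIntegrable (fun φ => g (φ - α)) volume a b := by
    have := (g_int (a - α) (b - α)).comp_sub_right α
    simpa using this
  have i2 : IntervalIntegrable (fun φ => g (φ + α)) volume a b := by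
    have := (g_int (a + α) (b + α)).comp_add_right α
    simpa using this
  refine ((i1.add i2).const_mul (1 / √(sin (2 * α) / 2))).mono_fun
    (fS_meas α).aestronglyMeasurable ?_
  refine Filter.Eventually.of_forall fun φ => ?_
  have h2 := fS_le α φ h0 h1
  change ‖fS α φ‖ ≤ ‖1 / √(sin (2 * α) / 2) * (g (φ - α) + g (φ + α))‖
  rw [Real.norm_of_nonneg (fS_nonneg α φ)]
  exact h2.trans (le_abs_self _)

theorem fS_ge (α : ℝ) : ∀ᵐ φ, (1 : ℝ) ≤ fS α φ := by
  have hcount : ({φ : ℝ | ∃ k : ℤ, k * π = φ - α} ∪ {φ : ℝ | ∃ k : ℤ, k * π = φ + α}).Countable := by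
    refine Set.Countable.union ?_ ?_
    · refine (Set.countable_range (fun k : ℤ => k * π + α)).mono ?_
      rintro φ ⟨k, hk⟩
      exact ⟨k, by simp only; linarith⟩
    · refine (Set.countable_range (fun k : ℤ => k * π - α)).mono ?_
      rintro φ ⟨k, hk⟩
      exact ⟨k, by simp only; linarith⟩
  have hae := hcount.ae_notMem volume
  filter_upwards [hae] with φ hφ
  rw [Set.mem_union, not_or] at hφ
  have n1 : sin (φ - α) ≠ 0 := fun h => hφ.1 (Real.sin_eq_zero_iff.1 h)
  have n2 : sin (φ + α) ≠ 0 := fun h => hφ.2 (Real.sin_eq_zero_iff.1 h)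
  unfold fS
  have hpos : 0 < |sin φ ^ 2 - sin α ^ 2| := by
    rw [sin_sq_sub]
    exact abs_pos.2 (mul_ne_zero n1 n2)
  have hle : |sin φ ^ 2 - sin α ^ 2| ≤ 1 := by
    rw [sin_sq_sub, abs_mul]
    exact mul_le_one₀ (abs_sin_le_one _) (abs_nonneg _) (abs_sin_le_one _)
  exact one_le_one_div (Real.sqrt_pos.2 hpos) (Real.sqrt_le_one.2 hle)

theorem grow (α : ℝ) (h0 : 0 < α) (h1 : α < π / 2) (x y : ℝ) (hxy : x ≤ y) :
    y - x ≤ SC α y - SC α x := by
  have hi := fS_int α h0 h1
  have h2 : SC α y - SC α x = ∫ φ in x..y, fS α φ := by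
    unfold SC
    exact intervalIntegral.integral_interval_sub_left (hi _ _) (hi _ _)
  rw [h2]
  have h3 := intervalIntegral.integral_mono_ae hxy (intervalIntegrable_const (c := (1 : ℝ)))
    (hi x y) (fS_ge α)
  simpa using h3

theorem t_FS : S_FS := by
  intro α h0 h1
  have hi := fS_int α h0 h1
  have hg := grow α h0 h1
  have hcont : Continuous (SC α) := intervalIntegral.continuous_primitive hi (-α)
  refine ⟨hi, hcont, ?_, ?_, ?_⟩
  · intro x y hxy
    have := hg x y hxy.le
    linarith
  · intro θ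
    have hper : Function.Periodic (fS α) π := by
      intro φ
      unfold fS
      rw [sin_add_pi, neg_sq]
    have h2 : SC α (θ + π) - SC α θ = ∫ φ in θ..(θ + π), fS α φ := by
      unfold SC
      exact intervalIntegral.integral_interval_sub_left (hi _ _) (hi _ _)
    have h3 := hper.intervalIntegral_add_eq θ (-α)
    have h4 : -α + π = π - α := by ring
    rw [h4] at h3
    have h5 : SC α (π - α) = ∫ φ in (-α)..(π - α), fS α φ := rfl
    rw [h5, ← h3, ← h2]
    ring
  · refine hcont.surjective ?_ ?_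
    · refine tendsto_atTop_mono' atTop ?_ (tendsto_atTop_add_const_right atTop (SC α 0) tendsto_id)
      filter_upwards [eventually_ge_atTop 0] with θ hθ
      have := hg 0 θ hθ
      simp only [id]
      linarith
    · refine tendsto_atBot_mono' atBot ?_ (tendsto_atBot_add_const_right atBot (SC α 0) tendsto_id)
      filter_upwards [eventually_le_atBot 0] with θ hθ
      have := hg θ 0 hθ
      simp only [id]
      linarith

end Pool.Agent.Y989.RC.FS
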