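import Pool.Agent.Y989.RC.Stm

/-!
Project RC, job RC-GRC (helper564): long paths meet the grid.
-/

set_option autoImplicit false

namespace Pool.Agent.Y989.RC.GRC
open Finset H974 TH976


theorem inR_reach {w h : ℤ} {F : Finset Edg} (hF : F ⊆ RE 0 w 0 h) {u v : Vtx}
    (hu : inR 0 w 0 h u) (huv : Reach (↑F) u v) : inR 0 w 0 h v := by
  induction huv with
  | refl => exact hu
  | @tail p q _ hs ih =>
    obtain ⟨⟨x, y, b⟩, he, hcase⟩ := hs
    have hm := hF (Finset.mem_coe.1 he)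
    unfold inR at ih ⊢
    cases b
    · rw [mem_RE_false] at hm
      simp only [src_mk, tgt_false] at hcase
      rcases hcase with ⟨h3, h4⟩ | ⟨h3, h4⟩
      · rw [← h4]; simp only; omega
      · rw [← h3]; simp only; omega
    · rw [mem_RE_true] at hm
      simp only [src_mk, tgt_true] at hcase
      rcases hcase with ⟨h3, h4⟩ | ⟨h3, h4⟩
      · rw [← h4]; simp only; omega
      · rw [← h3]; simp only; omega

theorem inter_eq {w h : ℤ} {F : Finset Edg} (hF : F ⊆ RE 0 w 0 h) :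
    (↑F : Set Edg) ⊆ ↑F ∩ ↑(RE 0 w 0 h) := fun e he => ⟨he, by exact_mod_cast hF (by exact_mod_cast he)⟩

/-- a strip in the middle between two numbers -/
theorem strip {m x y : ℤ} (hm : 1 ≤ m) (hx : 0 ≤ x) (hxy : 3 * m ≤ y - x) :
    ∃ k : ℤ, 0 ≤ k ∧ x ≤ k * m ∧ (k + 1) * m ≤ y := by
  refine ⟨x / m + 1, by have := Int.ediv_nonneg hx (by omega : (0 : ℤ) ≤ m); omega, ?_, ?_⟩
  · have h1 := Int.emod_add_mul_ediv x m
    have h2 := Int.emod_lt_of_pos x (by omega : 0 < m)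
    nlinarith
  · have h1 := Int.emod_add_mul_ediv x m
    have h2 := Int.emod_nonneg x (by omega : m ≠ 0)
    nlinarith

theorem t_GRC : S_GRC := by
  intro w h m hm hw hh F hF ⟨hV, hH⟩
  -- vertical strip paths
  have hV' : ∀ k : ℤ, 0 ≤ k → (k + 1) * m ≤ w → ∃ x x' : ℤ, (k * m ≤ x ∧ x ≤ (k + 1) * m) ∧
      (k * m ≤ x' ∧ x' ≤ (k + 1) * m) ∧
      Reach (↑F ∩ ↑(RE (k * m) ((k + 1) * m) 0 h)) (x, 0) (x', h) := by
    intro k hk hkw
    obtain ⟨x, x', h1, h2, h3⟩ := hV k hk hkw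
    exact ⟨x, x', h1, h2, h3.mono (Set.inter_subset_inter_right (↑F : Set Edg)
      (by exact_mod_cast TBE_subset_RE))⟩
  have hH' : ∀ k : ℤ, 0 ≤ k → (k + 1) * m ≤ h → ∃ y y' : ℤ, (k * m ≤ y ∧ y ≤ (k + 1) * m) ∧
      (k * m ≤ y' ∧ y' ≤ (k + 1) * m) ∧
      Reach (↑F ∩ ↑(RE 0 w (k * m) ((k + 1) * m))) (0, y) (w, y') := by
    intro k hk hkh
    obtain ⟨y, y', h1, h2, h3⟩ := hH k hk hkh
    exact ⟨y, y', h1, h2, h3.mono (Set.inter_subset_inter_right (↑F : Set Edg)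
      (by exact_mod_cast LRE_subset_RE))⟩
  have hkm : ∀ k : ℤ, k * m < (k + 1) * m := fun k => by nlinarith
  have hk0 : ∀ k : ℤ, 0 ≤ k → 0 ≤ k * m := fun k hk => by positivity
  -- the strip paths meet
  have hmeet : ∀ k j : ℤ, 0 ≤ k → (k + 1) * m ≤ w → 0 ≤ j → (j + 1) * m ≤ h →
      ∀ x x' y y' : ℤ, Reach (↑F ∩ ↑(RE (k * m) ((k + 1) * m) 0 h)) (x, 0) (x', h) →
        Reach (↑F ∩ ↑(RE 0 w (j * m) ((j + 1) * m))) (0, y) (w, y') →
        Reach (↑F) (0, y) (x, 0) := by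
    intro k j hk hkw hj hjh x x' y y' h1 h2
    have h3 : Reach (↑F ∩ ↑(RE 0 w 0 h)) (0, y) (x, 0) :=
      cross_meet (a := k * m) (b := (k + 1) * m) (c := j * m) (d := (j + 1) * m)
        (hk0 k hk) (hkm k) hkw (hk0 j hj) (hkm j) hjh h2 (by simp only; exact hk0 k hk)
        (by simp only; exact hkw) h1 (by simp only; exact hk0 j hj) (by simp only; exact hjh)
    exact h3.mono Set.inter_subset_left
  obtain ⟨x₀, x₀', -, -, hz⟩ := hV' 0 le_rfl (by omega)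
  obtain ⟨y₀, y₀', -, -, hz2⟩ := hH' 0 le_rfl (by omega)
  have h00 : Reach (↑F) (0, y₀) (x₀, 0) :=
    hmeet 0 0 le_rfl (by omega) le_rfl (by omega) x₀ x₀' y₀ y₀' hz hz2
  have hVz : ∀ k : ℤ, 0 ≤ k → (k + 1) * m ≤ w → ∀ x x' : ℤ,
      Reach (↑F ∩ ↑(RE (k * m) ((k + 1) * m) 0 h)) (x, 0) (x', h) →
      Reach (↑F) (x, 0) (x₀, 0) := by
    intro k hk hkw x x' h1
    exact (hmeet k 0 hk hkw le_rfl (by omega) x x' y₀ y₀' h1 hz2).symm.trans h00
  have hHz : ∀ j : ℤ, 0 ≤ j → (j + 1) * m ≤ h → ∀ y y' : ℤ,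
      Reach (↑F ∩ ↑(RE 0 w (j * m) ((j + 1) * m))) (0, y) (w, y') →
      Reach (↑F) (0, y) (x₀, 0) := by
    intro j hj hjh y y' h1
    exact hmeet 0 j le_rfl (by omega) hj hjh x₀ x₀' y y' hz h1
  -- long paths
  have key1 : ∀ u v : Vtx, inR 0 w 0 h u → 3 * m ≤ v.1 - u.1 → Reach (↑F) u v →
      Reach (↑F) u (x₀, 0) := by
    intro u v hu hd huv
    have hv := inR_reach hF hu huv
    unfold inR at hu hv
    obtain ⟨k, hk, h1, h2⟩ := strip hm (x := u.1) (y := v.1) (by omega) hd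
    obtain ⟨x, x', -, -, h3⟩ := hV' k hk (by omega)
    have h4 : Reach (↑F ∩ ↑(RE 0 w 0 h)) u (x, 0) :=
      cross_meet (a := k * m) (b := (k + 1) * m) (c := 0) (d := h)
        (hk0 k hk) (hkm k) (by omega) le_rfl (by omega) le_rfl (huv.mono (inter_eq hF)) h1 h2
        h3 (by simp only; omega) (by simp only; omega)
    exact (h4.mono Set.inter_subset_left).trans (hVz k hk (by omega) x x' h3)
  have key2 : ∀ u v : Vtx, inR 0 w 0 h u → 3 * m ≤ v.2 - u.2 → Reach (↑F) u v →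
      Reach (↑F) u (x₀, 0) := by
    intro u v hu hd huv
    have hv := inR_reach hF hu huv
    unfold inR at hu hv
    obtain ⟨k, hk, h1, h2⟩ := strip hm (x := u.2) (y := v.2) (by omega) hd
    obtain ⟨y, y', -, -, h3⟩ := hH' k hk (by omega)
    have h4 : Reach (↑F ∩ ↑(RE 0 w 0 h)) (0, y) u :=
      cross_meet (a := 0) (b := w) (c := k * m) (d := (k + 1) * m)
        le_rfl (by omega) le_rfl (hk0 k hk) (hkm k) (by omega) h3 (by simp only; omega)
        (by simp only; omega) (huv.mono (inter_eq hF)) h1 h2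
    exact (h4.mono Set.inter_subset_left).symm.trans (hHz k hk (by omega) y y' h3)
  refine ⟨(x₀, 0), ?_⟩
  intro u v hu hd huv
  have hv := inR_reach hF hu huv
  have hd' : 3 * m ≤ v.1 - u.1 ∨ 3 * m ≤ u.1 - v.1 ∨ 3 * m ≤ v.2 - u.2 ∨ 3 * m ≤ u.2 - v.2 := by
    unfold sd at hd
    omega
  rcases hd' with hd' | hd' | hd' | hd'
  · exact key1 u v hu hd' huv
  · exact huv.trans (key1 v u hv hd' huv.symm)
  · exact key2 u v hu hd' huv
  · exact huv.trans (key2 v u hv hd' huv.symm)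

end Pool.Agent.Y989.RC.GRC
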