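import Pool.Agent.Y989.RC.Stm

/-!
Project RC, part GRP (helper170): all strips are crossed with positive probability.
-/

set_option autoImplicit false

namespace Pool.Agent.Y989.RC.GRP
open Finset H974 TH976 TH976.QC Pool.Agent.H160R2.CV
open Pool.Agent.H160R2.CV.Quad Pool.Agent.H389R2.CD
open H973 (hh_long)

theorem hh_row (n : ℕ) : (1 / 2 : ℝ) * (1 / 4) ^ n ≤ hh (1 / 2) ((n : ℤ) + 2) 1 := by
  induction n with
  | zero =>
    have h1 := hh_half 1 (by norm_num)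
    have e : ((0 : ℕ) : ℤ) + 2 = 1 + 1 := by norm_num
    rw [e, h1, pow_zero, mul_one]
  | succ n ih =>
    have h0 : (0 : ℝ) ≤ 1 / 2 := by norm_num
    have h1 : (1 / 2 : ℝ) ≤ 1 := by norm_num
    have g := hh_glue h0 h1 (w1 := (n : ℤ) + 2) (w2 := 2) (v := 1) (h := 1) (by norm_num)
      (by omega) (by norm_num) (by norm_num)
    have e : (n : ℤ) + 2 + 2 - 1 = ((n + 1 : ℕ) : ℤ) + 2 := by push_cast; ring
    rw [e] at g
    have a1 : (1 / 2 : ℝ) ≤ hh (1 / 2) 2 1 := by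
      have h2 := hh_half 1 (by norm_num)
      have e2 : (2 : ℤ) = 1 + 1 := by norm_num
      rw [e2, h2]
    have a2 : (1 / 2 : ℝ) ≤ hh (1 / 2) 1 1 := hh_square 1 (by norm_num)
    have p1 : (0 : ℝ) < 1 / 2 * (1 / 4) ^ n := by positivity
    calc (1 / 2 : ℝ) * (1 / 4) ^ (n + 1) = (1 / 2 * (1 / 4) ^ n) * (1 / 2) * (1 / 2) := by
          rw [pow_succ]; ring
      _ ≤ hh (1 / 2) ((n : ℤ) + 2) 1 * hh (1 / 2) 2 1 * hh (1 / 2) 1 1 :=
          mul_le_mul (mul_le_mul ih a1 (by norm_num) (p1.le.trans ih)) a2 (by norm_num)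
            (mul_nonneg (p1.le.trans ih) (le_trans (by norm_num) a1))
      _ ≤ _ := g

/-- the constant -/
noncomputable def cK (K : ℕ) : ℝ := min ((1 / 2 : ℝ) * (1 / 4) ^ K) ((1 / 2 : ℝ) ^ (48 * (K + 1)))

theorem cK_pos (K : ℕ) : 0 < cK K := lt_min (by positivity) (by positivity)

theorem cK_le (K : ℕ) : cK K ≤ 1 := by
  refine (min_le_right _ _).trans ?_
  exact pow_le_one₀ (by norm_num) (by norm_num)

theorem hh_ge (K : ℕ) {L m : ℤ} (hm : 1 ≤ m) (hL : 1 ≤ L) (hLK : L ≤ K * m) :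
    cK K ≤ hh (1 / 2) L m := by
  have h0 : (0 : ℝ) ≤ 1 / 2 := by norm_num
  have h1 : (1 / 2 : ℝ) ≤ 1 := by norm_num
  have hK0 : (0 : ℤ) ≤ K := Int.natCast_nonneg K
  by_cases h : m = 1
  · subst h
    refine (min_le_left _ _).trans ((hh_row K).trans ?_)
    exact hh_mono h0 h1 (by omega) (by omega) le_rfl
  · refine (min_le_right _ _).trans ((hh_long K (m := m / 2) (by omega)).trans ?_)
    refine hh_mono h0 h1 (by omega) ?_ (by omega)
    have h3 : m ≤ 3 * (m / 2) := by omega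
    have h4 : (0 : ℤ) ≤ m / 2 := by omega
    nlinarith

theorem fin_fkg {S : Finset Edg} (A : ℕ → Finset Edg → Prop) (hA : ∀ k, IncrE S (A k)) {c : ℝ}
    (hc : 0 ≤ c) (h : ∀ k, c ≤ Pr P S (A k)) (n : ℕ) :
    IncrE S (fun F => ∀ k < n, A k F) ∧ c ^ n ≤ Pr P S (fun F => ∀ k < n, A k F) := by
  induction n with
  | zero =>
    refine ⟨fun F G _ _ _ k hk => absurd hk (Nat.not_lt_zero k), ?_⟩
    rw [pow_zero, pr_true S fun F k hk => absurd hk (Nat.not_lt_zero k)]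
  | succ n ih =>
    refine ⟨fun F G h1 h2 hF k hk => hA k F G h1 h2 (hF k hk), ?_⟩
    have h1 := fkg ih.1 (hA n) hc ih.2 (h n)
    rw [pow_succ]
    refine h1.trans (Pr_mono okP ?_)
    intro F _ hF k hk
    rcases Nat.lt_succ_iff_lt_or_eq.1 hk with h2 | h2
    · exact hF.1 k h2
    · rw [h2]
      exact hF.2

theorem t_GRP : S_GRP := by
  intro K
  refine ⟨cK K ^ K * cK K ^ K, mul_pos (pow_pos (cK_pos K) K) (pow_pos (cK_pos K) K), ?_⟩
  intro w h m hm hmw hmh hwK hhK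
  have hm0 : 0 < m := by omega
  let A : ℕ → Finset Edg → Prop := fun k F => ((k : ℤ) + 1) * m ≤ w →
    TBc ((k : ℤ) * m) (((k : ℤ) + 1) * m) 0 h F
  let B : ℕ → Finset Edg → Prop := fun k F => ((k : ℤ) + 1) * m ≤ h →
    LRc 0 w ((k : ℤ) * m) (((k : ℤ) + 1) * m) F
  have hAi : ∀ k, IncrE (RE 0 w 0 h) (A k) := fun k F G h1 _ hF hc => (hF hc).mono h1
  have hBi : ∀ k, IncrE (RE 0 w 0 h) (B k) := fun k F G h1 _ hF hc => (hF hc).mono h1
  have hAp : ∀ k, cK K ≤ Pr P (RE 0 w 0 h) (A k) := by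
    intro k
    have hkm : (0 : ℤ) ≤ (k : ℤ) * m := mul_nonneg (Int.natCast_nonneg k) hm0.le
    by_cases hc : ((k : ℤ) + 1) * m ≤ w
    · have e : Pr P (RE 0 w 0 h) (TBc ((k : ℤ) * m) (((k : ℤ) + 1) * m) 0 h) =
          hh (1 / 2) (h - 0) (((k : ℤ) + 1) * m - (k : ℤ) * m) :=
        pr_TBc (1 / 2) (TBE_subset_RE.trans (RE_subset hkm hc le_rfl le_rfl))
      have e2 : ((k : ℤ) + 1) * m - (k : ℤ) * m = m := by ring
      rw [e2, sub_zero] at e
      have h1 : cK K ≤ hh (1 / 2) h m := hh_ge K hm (by omega) hhK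
      rw [← e] at h1
      exact h1.trans (Pr_mono okP fun F _ hF _ => hF)
    · rw [pr_true _ fun F h1 => absurd h1 hc]
      exact cK_le K
  have hBp : ∀ k, cK K ≤ Pr P (RE 0 w 0 h) (B k) := by
    intro k
    have hkm : (0 : ℤ) ≤ (k : ℤ) * m := mul_nonneg (Int.natCast_nonneg k) hm0.le
    by_cases hc : ((k : ℤ) + 1) * m ≤ h
    · have e : Pr P (RE 0 w 0 h) (LRc 0 w ((k : ℤ) * m) (((k : ℤ) + 1) * m)) =
          hh (1 / 2) (w - 0) (((k : ℤ) + 1) * m - (k : ℤ) * m) :=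
        pr_LRc (1 / 2) (LRE_subset_RE.trans (RE_subset le_rfl le_rfl hkm hc))
      have e2 : ((k : ℤ) + 1) * m - (k : ℤ) * m = m := by ring
      rw [e2, sub_zero] at e
      have h1 : cK K ≤ hh (1 / 2) w m := hh_ge K hm (by omega) hwK
      rw [← e] at h1
      exact h1.trans (Pr_mono okP fun F _ hF _ => hF)
    · rw [pr_true _ fun F h1 => absurd h1 hc]
      exact cK_le K
  obtain ⟨a1, a2⟩ := fin_fkg A hAi (cK_pos K).le hAp K
  obtain ⟨b1, b2⟩ := fin_fkg B hBi (cK_pos K).le hBp K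
  refine (fkg a1 b1 (pow_nonneg (cK_pos K).le K) a2 b2).trans (Pr_mono okP ?_)
  rintro F _ ⟨hFA, hFB⟩
  constructor
  · intro k hk hkw
    obtain ⟨n, rfl⟩ := Int.eq_ofNat_of_zero_le hk
    have h1 : ((n : ℤ) + 1) * m ≤ K * m := hkw.trans hwK
    have h2 : (n : ℤ) + 1 ≤ K := le_of_mul_le_mul_right h1 hm0
    exact hFA n (by omega) hkw
  · intro k hk hkw
    obtain ⟨n, rfl⟩ := Int.eq_ofNat_of_zero_le hk
    have h1 : ((n : ℤ) + 1) * m ≤ K * m := hkw.trans hhK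
    have h2 : (n : ℤ) + 1 ≤ K := le_of_mul_le_mul_right h1 hm0
    exact hFB n (by omega) hkw

end Pool.Agent.Y989.RC.GRP
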