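import Pool.Agent.Y989.RC.Stm3

/-!
Project RC: the arm of a boundary arc, lower bound (helper889).
-/

set_option autoImplicit false

namespace Pool.Agent.Y989.RC.IAR
open Finset H974 TH976 TH976.QC Pool.Agent.H160R2.CV
open Pool.Agent.H160R2.CV.Quad Pool.Agent.H389R2.CD

theorem bd_bt {w h x : ℤ} (hw : 1 ≤ w) (hh : 1 ≤ h) (h1 : -h ≤ x) (h2 : x ≤ w) :
    bd w h x = bt x := by
  unfold bd bt
  rcases lt_or_ge x 0 with hx | hx
  · have e : x % (2 * (w + h)) = x + 2 * (w + h) := by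
      rw [← Int.add_emod_right]
      exact Int.emod_eq_of_lt (by omega) (by omega)
    rw [e]
    split_ifs <;> refine Prod.ext ?_ ?_ <;> simp only <;> omega
  · have e : x % (2 * (w + h)) = x := Int.emod_eq_of_lt (by omega) (by omega)
    rw [e, if_pos h2]
    refine Prod.ext ?_ ?_ <;> simp only <;> omega

/-- the sizes in standard position -/
theorem Ph_std (hDC : S_DC) {w h t : ℤ} (hw : 1 ≤ w) (hh : 1 ≤ h) (h1 : -h ≤ 2 * t)
    (h2 : 2 * t ≤ w) {x : ℝ} (hx : x ≤ min (w : ℝ) h) : Ph w h t x = Mf t x := by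
  have e1 : -(h : ℝ) ≤ 2 * (t : ℝ) := by exact_mod_cast h1
  have e2 : 2 * (t : ℝ) ≤ (w : ℝ) := by exact_mod_cast h2
  have e3 := (hDC w h hw hh).2.1 t (by linarith) (by linarith)
  unfold Ph Mf
  rw [min_eq_left hx, e3]

/-- the claim for the rectangle `[0,w] × [0,h]` and the boundary point `t` -/
def QI (c : ℝ) (w h t : ℤ) : Prop := ∀ (a b : ℤ) (r n : ℕ), 1 ≤ r → (r : ℤ) = b - a + 1 →
  a ≤ t → t ≤ b → r ≤ n → 6 * (n : ℤ) ≤ min w h →
  c * (Ph w h t r / Ph w h t n) ^ ((1 : ℝ) / 3) ≤ Pr P (RE 0 w 0 h) (IAR w h a b t n)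

theorem std (hDC : S_DC) (hA : ArS) : ∃ c : ℝ, 0 < c ∧ ∀ w h t : ℤ, 1 ≤ w → 1 ≤ h →
    -h ≤ 2 * t → 2 * t ≤ w → QI c w h t := by
  obtain ⟨c1, hc1, hI⟩ := IA_low
  obtain ⟨K, hK⟩ := ratio_cmp hA
  have hK1 : 1 ≤ K := (hK 0 1 1 le_rfl le_rfl).hk
  have hK0 : 0 < K := by linarith
  refine ⟨c1 / K, by positivity, ?_⟩
  intro w h t hw hh h1 h2 a b r n hr hrr hat htb hrn hn
  have hQ : InQ (RE 0 w 0 h) := by
    rintro ⟨x, y, _ | _⟩ he
    · simp only [mem_RE_false] at he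
      exact ⟨he.1, he.2.2.1⟩
    · simp only [mem_RE_true] at he
      exact ⟨he.1, he.2.2.1⟩
  have hq : qb (bt t) (3 * n) ⊆ RE 0 w 0 h := by
    rintro ⟨x, y, _ | _⟩ he
    · simp only [qb, bt, mem_RE_false] at he ⊢
      push_cast at he
      omega
    · simp only [qb, bt, mem_RE_true] at he ⊢
      push_cast at he
      omega
  have e1 := hI a b t r n hr hrr hat htb hrn (RE 0 w 0 h) hQ hq
  have e2 := (hK t r n hr (by omega)).r
  have hnm : (n : ℝ) ≤ min (w : ℝ) h := by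
    have g1 : (n : ℤ) ≤ w := by omega
    have g2 : (n : ℤ) ≤ h := by omega
    refine le_min ?_ ?_
    · exact_mod_cast g1
    · exact_mod_cast g2
  have hrm : (r : ℝ) ≤ min (w : ℝ) h := le_trans (by exact_mod_cast hrn) hnm
  rw [Ph_std hDC hw hh h1 h2 hrm, Ph_std hDC hw hh h1 h2 hnm]
  calc c1 / K * (Mf t r / Mf t n) ^ ((1 : ℝ) / 3) ≤
        c1 / K * (K * (aq (bt t) n / aq (bt t) r)) :=
        mul_le_mul_of_nonneg_left e2 (by positivity)
    _ = c1 * (aq (bt t) n / aq (bt t) r) := by field_simp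
    _ ≤ _ := e1
    _ ≤ _ := by
      refine Pr_mono Pool.Agent.H160R2.CV.Quad.okP ?_
      rintro F - ⟨x, v, hx, hv, hxv⟩
      refine ⟨x, v, hx, ?_, ?_⟩
      · rw [bd_bt hw hh (by omega) (by omega)]
        exact hv
      · rw [bd_bt hw hh (by omega) (by omega)]
        exact hxv

theorem rot_pr {w h : ℤ} {φ : Edg ≃ Edg} {ψ : Vtx ≃ Vtx} (hS : IsSym w h φ ψ (fun t => t - w))
    (a b t : ℤ) (n : ℕ) : Pr P (RE 0 w 0 h) (IAR w h a b t n) =
      Pr P (RE 0 h 0 w) (IAR h w (a - w) (b - w) (t - w) n) := by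
  obtain ⟨-, h2, h3, -, h5, h6⟩ := hS
  have h5' : ∀ t, ψ (bd w h t) = bd h w (t - w) := h5
  rw [← h6]
  have hiff : ∀ F : Finset Edg, IAR w h a b t n F ↔
      IAR h w (a - w) (b - w) (t - w) n (F.map φ.toEmbedding) := by
    intro F
    constructor
    · rintro ⟨x, v, hx, hv, hr⟩
      refine ⟨x - w, ψ v, ⟨by omega, by omega⟩, ?_, ?_⟩
      · rw [← h5', h3]
        exact hv
      · rw [← h5']
        exact (h2 F _ _).2 hr
    · rintro ⟨x, v, hx, hv, hr⟩
      refine ⟨x + w, ψ.symm v, ⟨by omega, by omega⟩, ?_, ?_⟩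
      · rw [← h3, ψ.apply_symm_apply, h5']
        exact hv
      · rw [← h2 F, ψ.apply_symm_apply, h5', add_sub_cancel_right]
        exact hr
  exact congrArg _ (funext fun F => propext (hiff F))

theorem QI_rot (hR : S_ROT) (hDC : S_DC) {c : ℝ} {w h : ℤ} (hw : 1 ≤ w) (hh : 1 ≤ h) (t : ℤ) :
    QI c w h t ↔ QI c h w (t - w) := by
  obtain ⟨φ, ψ, hS⟩ := hR w h hw hh
  have hP : ∀ x : ℝ, Ph h w ((t - w : ℤ) : ℝ) x = Ph w h t x := by
    intro x
    have e := ((hDC w h hw hh).1 t).1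
    unfold Ph
    rw [min_comm (h : ℝ) w]
    push_cast
    rw [e]
  constructor
  · intro H a b r n hr hrr hat htb hrn hn
    rw [hP, hP]
    have := H (a + w) (b + w) r n hr (by omega) (by omega) (by omega) hrn (by omega)
    rw [rot_pr hS, add_sub_cancel_right, add_sub_cancel_right] at this
    exact this
  · intro H a b r n hr hrr hat htb hrn hn
    have := H (a - w) (b - w) r n hr (by omega) (by omega) (by omega) hrn (by omega)
    rw [hP, hP] at this
    rw [rot_pr hS]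
    exact this

theorem QI_per (hR : S_ROT) (hDC : S_DC) {c : ℝ} {w h : ℤ} (hw : 1 ≤ w) (hh : 1 ≤ h) (t : ℤ) :
    QI c w h t ↔ QI c w h (t - (w + h)) := by
  rw [QI_rot hR hDC hw hh t, QI_rot hR hDC hh hw (t - w), sub_sub]

theorem QI_perk (hR : S_ROT) (hDC : S_DC) {c : ℝ} {w h : ℤ} (hw : 1 ≤ w) (hh : 1 ≤ h) (t : ℤ)
    (k : ℤ) : QI c w h t ↔ QI c w h (t - k * (w + h)) := by
  induction k using Int.induction_on with
  | zero => rw [zero_mul, sub_zero]
  | succ i ih =>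
    have e : t - ((i : ℤ) + 1) * (w + h) = t - (i : ℤ) * (w + h) - (w + h) := by ring
    rw [e, ← QI_per hR hDC hw hh]
    exact ih
  | pred i ih =>
    have e : t - (-(i : ℤ)) * (w + h) = t - (-(i : ℤ) - 1) * (w + h) - (w + h) := by ring
    rw [ih, e]
    exact (QI_per hR hDC hw hh _).symm

theorem t_IAR_aux (hA : ArS) : S_ROT → S_DC → S_IAR := by
  intro hR hDC
  obtain ⟨c, hc, hstd⟩ := std hDC hA
  refine ⟨c, hc, ?_⟩
  intro w h a b t hw hh r n hr hrr hat htb hrn hn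
  have key : QI c w h t := by
    obtain ⟨k, hk⟩ : ∃ k, k = (2 * t + h) / (2 * (w + h)) := ⟨_, rfl⟩
    rw [QI_perk hR hDC hw hh t k]
    have e0 := Int.emod_add_mul_ediv (2 * t + h) (2 * (w + h))
    have e1 := Int.emod_nonneg (2 * t + h) (show 2 * (w + h) ≠ 0 by omega)
    have e2 := Int.emod_lt_of_pos (2 * t + h) (show 0 < 2 * (w + h) by omega)
    rw [← hk] at e0
    have e3 : 2 * (t - k * (w + h)) + h = (2 * t + h) % (2 * (w + h)) := by linarith
    obtain ⟨s, hs⟩ : ∃ s, s = t - k * (w + h) := ⟨_, rfl⟩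
    rw [← hs] at e3 ⊢
    rcases le_or_gt (2 * s) w with h3 | h3
    · exact hstd w h s hw hh (by omega) h3
    · rw [QI_rot hR hDC hw hh]
      exact hstd h w (s - w) hh hw (by omega) (by omega)
  exact key a b r n hr hrr hat htb hrn hn

theorem t_IAR : S_ROT → S_DC → S_IAR := t_IAR_aux Pool.Agent.H160R2.SA.arSharp

end Pool.Agent.Y989.RC.IAR
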