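import Pool.Agent.Y989.RC.Stm

/-! RC-KP (job 10955, by helper891). -/

set_option autoImplicit false

namespace Pool.Agent.Y989.RC.KP

open Pool.Agent.Y989.RC

theorem kp_of {w h k q s : ℤ} (hL : 0 < w + h) (h0 : 0 ≤ s) (h1 : s < 2 * (w + h))
    (hk : k = s + 2 * (w + h) * q) : kp w h k = q * (2 * (w + h) - 4) +
      (s - (if w ≤ s then 1 else 0) - (if w + h ≤ s then 1 else 0) -
        (if 2 * w + h ≤ s then 1 else 0)) := by
  have h2 : k / (2 * (w + h)) = q ∧ k % (2 * (w + h)) = s :=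
    (Int.ediv_emod_unique (by omega)).2 ⟨hk.symm, h0, h1⟩
  unfold kp
  rw [h2.1, h2.2]

/-- The formula with the half period. -/
theorem kp_half {w h r : ℤ} (hw : 4 ≤ w) (hh : 4 ≤ h) (h0 : 0 ≤ r) (h1 : r < w + h) (m : ℤ) :
    kp w h (r + (w + h) * m) = m * (w + h - 2) + (r - if w ≤ r then 1 else 0) := by
  rcases Int.even_or_odd' m with ⟨q, rfl | rfl⟩
  · rw [kp_of (q := q) (s := r) (by omega) h0 (by omega) (by ring)]
    rw [if_neg (show ¬ w + h ≤ r by omega), if_neg (show ¬ 2 * w + h ≤ r by omega)]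
    ring
  · rw [kp_of (q := q) (s := r + (w + h)) (by omega) (by omega) (by omega) (by ring)]
    rw [if_pos (show w ≤ r + (w + h) by omega), if_pos (show w + h ≤ r + (w + h) by omega)]
    by_cases h2 : w ≤ r
    · rw [if_pos h2, if_pos (show 2 * w + h ≤ r + (w + h) by omega)]
      ring
    · rw [if_neg h2, if_neg (show ¬ 2 * w + h ≤ r + (w + h) by omega)]
      ring

theorem split {w h : ℤ} (hw : 4 ≤ w) (hh : 4 ≤ h) (k : ℤ) :
    ∃ r m : ℤ, 0 ≤ r ∧ r < w + h ∧ k = r + (w + h) * m :=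
  ⟨k % (w + h), k / (w + h), Int.emod_nonneg _ (by omega), Int.emod_lt_of_pos _ (by omega),
    (Int.emod_add_mul_ediv k (w + h)).symm⟩

theorem kp_per {w h : ℤ} (hw : 4 ≤ w) (hh : 4 ≤ h) (k : ℤ) :
    kp w h (k + 2 * (w + h)) = kp w h k + 2 * (w - 1 + (h - 1)) := by
  obtain ⟨r, m, h0, h1, rfl⟩ := split hw hh k
  rw [show r + (w + h) * m + 2 * (w + h) = r + (w + h) * (m + 2) by ring,
    kp_half hw hh h0 h1, kp_half hw hh h0 h1]
  ring

/-- One step, and what follows a step without increase. -/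
theorem kp_step {w h : ℤ} (hw : 4 ≤ w) (hh : 4 ≤ h) (k : ℤ) :
    kp w h (k + 1) = kp w h k + 1 ∨
      (kp w h (k + 1) = kp w h k ∧ kp w h (k + 2) = kp w h k + 1) := by
  obtain ⟨r, m, h0, h1, rfl⟩ := split hw hh k
  rw [kp_half hw hh h0 h1]
  by_cases h2 : r + 1 < w + h
  · rw [show r + (w + h) * m + 1 = (r + 1) + (w + h) * m by ring,
      kp_half hw hh (by omega) h2]
    by_cases h3 : w = r + 1
    · right
      rw [show r + (w + h) * m + 2 = (r + 2) + (w + h) * m by ring,
        kp_half hw hh (by omega) (by omega)]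
      rw [if_neg (show ¬ w ≤ r by omega), if_pos (show w ≤ r + 1 by omega),
        if_pos (show w ≤ r + 2 by omega)]
      constructor <;> ring
    · left
      by_cases h4 : w ≤ r
      · rw [if_pos h4, if_pos (show w ≤ r + 1 by omega)]
        ring
      · rw [if_neg h4, if_neg (show ¬ w ≤ r + 1 by omega)]
        ring
  · right
    have h3 : r = w + h - 1 := by omega
    subst h3
    rw [show w + h - 1 + (w + h) * m + 1 = 0 + (w + h) * (m + 1) by ring,
      show w + h - 1 + (w + h) * m + 2 = 1 + (w + h) * (m + 1) by ring,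
      kp_half hw hh (by omega) (by omega), kp_half hw hh (by omega) (by omega),
      if_pos (show w ≤ w + h - 1 by omega), if_neg (show ¬ w ≤ 0 by omega),
      if_neg (show ¬ w ≤ 1 by omega)]
    constructor <;> ring

theorem kp_incr {w h : ℤ} (hw : 4 ≤ w) (hh : 4 ≤ h) (d : ℕ) : ∀ k : ℤ,
    kp w h k ≤ kp w h (k + d) ∧ kp w h (k + d) - kp w h k ≤ d ∧
      (d : ℤ) ≤ 2 * (kp w h (k + d) - kp w h k) + 1 := by
  induction d using Nat.strong_induction_on with
  | _ d ih =>
    intro k
    rcases d with _ | _ | d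
    · simp
    · have h1 := kp_step hw hh k
      push_cast
      omega
    · have h1 := kp_step hw hh k
      have h2 := ih (d + 1) (by omega) (k + 1)
      have h3 := ih d (by omega) (k + 2)
      push_cast at h2 h3 ⊢
      rw [show k + 1 + ((d : ℤ) + 1) = k + (d + 1 + 1) by ring] at h2
      rw [show k + 2 + (d : ℤ) = k + (d + 1 + 1) by ring] at h3
      omega

theorem dc_shift (hDC : S_DC) {w h : ℤ} (hw : 1 ≤ w) (hh : 1 ≤ h) (t : ℝ) (m : ℤ) :
    dc w h (t + (m : ℝ) * (w + h)) = dc w h t := by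
  have h1 : Function.Periodic (dc w h) ((w : ℝ) + h) := fun t => ((hDC w h hw hh).1 t).2.2.1
  exact h1.int_mul m t

theorem dc_lo (hDC : S_DC) {w h : ℤ} (hw : 1 ≤ w) (hh : 1 ≤ h) {t : ℝ} (h0 : 0 ≤ t)
    (h1 : t ≤ w) : dc w h t = min t (w - t) := (hDC w h hw hh).2.2.1 t h0 h1

theorem dc_hi (hDC : S_DC) {w h : ℤ} (hw : 1 ≤ w) (hh : 1 ≤ h) {t : ℝ} (h0 : (w : ℝ) ≤ t)
    (h1 : t ≤ w + h) : dc w h t = min (t - w) (h - (t - w)) := by
  rw [← ((hDC w h hw hh).1 t).1]
  exact dc_lo hDC hh hw (by linarith) (by linarith)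

theorem dc_near (hDC : S_DC) {w h : ℤ} (hw : 4 ≤ w) (hh : 4 ≤ h) (k : ℤ) :
    |dc (w - 1) (h - 1) (kp w h k) - dc w h k| ≤ 1 := by
  obtain ⟨r, m, h0, h1, rfl⟩ := split hw hh k
  have h0' : (0 : ℝ) ≤ r := by exact_mod_cast h0
  have h1' : (r : ℝ) + 1 ≤ w + h := by exact_mod_cast h1
  rw [kp_half hw hh h0 h1]
  have e1 : dc w h ((r + (w + h) * m : ℤ) : ℝ) = dc w h r := by
    rw [← dc_shift hDC (by omega) (by omega) (r : ℝ) m]
    congr 1
    push_cast
    ring
  have e2 : ∀ x : ℤ, dc (w - 1) (h - 1) ((m * (w + h - 2) + x : ℤ) : ℝ) =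
      dc (w - 1) (h - 1) (x : ℝ) := by
    intro x
    rw [← dc_shift hDC (w := w - 1) (h := h - 1) (by omega) (by omega) (x : ℝ) m]
    congr 1
    push_cast
    ring
  rw [e1, e2]
  by_cases h2 : w ≤ r
  · have h2' : (w : ℝ) ≤ r := by exact_mod_cast h2
    rw [if_pos h2, dc_hi hDC (by omega) (by omega) h2' (by linarith),
      dc_hi hDC (by omega) (by omega) (by push_cast; linarith) (by push_cast; linarith)]
    push_cast
    rw [abs_le]
    constructor
    · have := min_le_left ((r : ℝ) - w) (h - (r - w))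
      have := min_le_right ((r : ℝ) - w) (h - (r - w))
      rcases min_choice ((r : ℝ) - 1 - (w - 1)) ((h : ℝ) - 1 - (r - 1 - (w - 1))) with h3 | h3 <;>
        rw [h3] <;> linarith
    · have := min_le_left ((r : ℝ) - 1 - (w - 1)) ((h : ℝ) - 1 - (r - 1 - (w - 1)))
      have := min_le_right ((r : ℝ) - 1 - (w - 1)) ((h : ℝ) - 1 - (r - 1 - (w - 1)))
      rcases min_choice ((r : ℝ) - w) ((h : ℝ) - (r - w)) with h3 | h3 <;>
        rw [h3] <;> linarith
  · have h2' : (r : ℝ) + 1 ≤ w := by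
      have : r + 1 ≤ w := by omega
      exact_mod_cast this
    rw [if_neg h2, dc_lo hDC (by omega) (by omega) h0' (by linarith),
      dc_lo hDC (by omega) (by omega) (by push_cast; linarith) (by push_cast; linarith)]
    push_cast
    rw [abs_le]
    constructor
    · have := min_le_left ((r : ℝ)) (w - r)
      have := min_le_right ((r : ℝ)) (w - r)
      rcases min_choice ((r : ℝ) - 0) ((w : ℝ) - 1 - (r - 0)) with h3 | h3 <;>
        rw [h3] <;> linarith
    · have := min_le_left ((r : ℝ) - 0) ((w : ℝ) - 1 - (r - 0))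
      have := min_le_right ((r : ℝ) - 0) ((w : ℝ) - 1 - (r - 0))
      rcases min_choice ((r : ℝ)) ((w : ℝ) - r) with h3 | h3 <;>
        rw [h3] <;> linarith

/-- The comparison of the products. -/
theorem cmp_aux {x y a b : ℝ} (hx : 1 ≤ x) (hy : 0 ≤ y) (hyx : y ≤ 2 * x) (hab : b ≤ a + 2) :
    y * max b y ≤ 100 * (x * max a x) := by
  have h1 : x ≤ max a x := le_max_right _ _
  have h2 : a ≤ max a x := le_max_left _ _
  have h3 : max b y ≤ 3 * max a x := max_le (by linarith) (by linarith)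
  have h4 : 0 ≤ max b y := hy.trans (le_max_right _ _)
  calc y * max b y ≤ (2 * x) * (3 * max a x) :=
        mul_le_mul hyx h3 h4 (by linarith)
    _ ≤ 100 * (x * max a x) := by nlinarith

theorem t_KP : S_DC → S_KP := by
  intro hDC w h hw hh
  refine ⟨kp_per hw hh, ?_, dc_near hDC hw hh, ?_⟩
  · intro k l hkl
    obtain ⟨d, rfl⟩ : ∃ d : ℕ, l = k + d := ⟨(l - k).toNat, by omega⟩
    obtain ⟨h1, h2, h3⟩ := kp_incr hw hh d k
    refine ⟨h1, by omega, by omega⟩
  · intro k l n n' hkl hn hn' h1 h2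
    have hw' : (4 : ℝ) ≤ w := by exact_mod_cast hw
    have hh' : (4 : ℝ) ≤ h := by exact_mod_cast hh
    have a1 := dc_near hDC hw hh k
    have a2 := ((hDC w h (by omega) (by omega)).1 (k : ℝ)).2.2.2.2.2 l
    have a3 := ((hDC w h (by omega) (by omega)).1 (l : ℝ)).2.2.2.2.2 k
    rw [abs_sub_comm] at a2
    rw [abs_le] at a1
    have b1 : (1 : ℝ) ≤ min n (min (w : ℝ) h) := le_min hn (le_min (by linarith) (by linarith))
    have b2 : (1 : ℝ) ≤ min n' (min (((w - 1 : ℤ)) : ℝ) ((h - 1 : ℤ) : ℝ)) := by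
      push_cast
      exact le_min hn' (le_min (by linarith) (by linarith))
    have b3 : min n' (min (((w - 1 : ℤ)) : ℝ) ((h - 1 : ℤ) : ℝ)) ≤ 2 * min n (min (w : ℝ) h) := by
      push_cast
      rcases min_choice n (min (w : ℝ) h) with h3 | h3
      · rw [h3]
        exact (min_le_left _ _).trans h2
      · rw [h3]
        rcases min_choice (w : ℝ) h with h4 | h4
        · rw [h4]
          exact ((min_le_right _ _).trans (min_le_left _ _)).trans (by linarith)
        · rw [h4]
          exact ((min_le_right _ _).trans (min_le_right _ _)).trans (by linarith)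
    have b4 : min n (min (w : ℝ) h) ≤ 2 * min n' (min (((w - 1 : ℤ)) : ℝ) ((h - 1 : ℤ) : ℝ)) := by
      push_cast
      rcases min_choice n' (min ((w : ℝ) - 1) ((h : ℝ) - 1)) with h3 | h3
      · rw [h3]
        exact (min_le_left _ _).trans h1
      · rw [h3]
        rcases min_choice ((w : ℝ) - 1) ((h : ℝ) - 1) with h4 | h4
        · rw [h4]
          exact ((min_le_right _ _).trans (min_le_left _ _)).trans (by linarith)
        · rw [h4]
          exact ((min_le_right _ _).trans (min_le_right _ _)).trans (by linarith)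
    unfold Ph
    constructor
    · exact cmp_aux b1 (by linarith) b3 (by linarith)
    · exact cmp_aux b2 (by linarith) b4 (by linarith)

end Pool.Agent.Y989.RC.KP
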