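import Pool.Agent.Y989.RC.Stm2

/-!
# Project RC, task RC-LA: the local size of the boundary map (helper306)
-/

set_option autoImplicit false

namespace Pool.Agent.Y989.RC.LA
open MeasureTheory Real

/-! ### The integral of `1 / √|x|` -/

noncomputable def g (x : ℝ) : ℝ := 1 / √|x|

lemma g_nonneg (x : ℝ) : 0 ≤ g x := by
  unfold g
  positivity

lemma g_neg (x : ℝ) : g (-x) = g x := by
  unfold g
  rw [abs_neg]

lemma g_eq {x : ℝ} (hx : 0 ≤ x) : g x = x ^ (-(1 / 2) : ℝ) := by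
  unfold g
  rw [abs_of_nonneg hx, Real.rpow_neg hx, Real.sqrt_eq_rpow, one_div]

lemma g_int0 {c : ℝ} (hc : 0 ≤ c) : IntervalIntegrable g volume 0 c := by
  have h := intervalIntegral.intervalIntegrable_rpow' (a := 0) (b := c) (r := (-(1 / 2) : ℝ))
    (by norm_num)
  refine h.congr ?_
  intro x hx
  rw [Set.uIoc_of_le hc] at hx
  exact (g_eq hx.1.le).symm

lemma g_int0' (c : ℝ) : IntervalIntegrable g volume 0 c := by
  rcases le_total 0 c with hc | hc
  · exact g_int0 hc
  · rw [IntervalIntegrable.iff_comp_neg]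
    have h := g_int0 (c := -c) (by linarith)
    rw [neg_zero]
    refine h.congr ?_
    intro x _
    exact (g_neg x).symm

lemma g_int (a b : ℝ) : IntervalIntegrable g volume a b := (g_int0' a).symm.trans (g_int0' b)

lemma g_val0 {c : ℝ} (hc : 0 ≤ c) : ∫ x in (0 : ℝ)..c, g x = 2 * √c := by
  have h : ∫ x in (0 : ℝ)..c, g x = ∫ x in (0 : ℝ)..c, x ^ (-(1 / 2) : ℝ) := by
    refine intervalIntegral.integral_congr fun x hx => ?_
    rw [Set.uIcc_of_le hc] at hx
    exact g_eq hx.1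
  rw [h, integral_rpow (Or.inl (by norm_num))]
  have e : (-(1 / 2) + 1 : ℝ) = 1 / 2 := by norm_num
  rw [e, ← Real.sqrt_eq_rpow, ← Real.sqrt_eq_rpow, Real.sqrt_zero]
  ring

lemma g_val0' {c : ℝ} (hc : c ≤ 0) : ∫ x in (0 : ℝ)..c, g x = -(2 * √(-c)) := by
  have h := intervalIntegral.integral_comp_neg (a := 0) (b := c) g
  simp only [g_neg] at h
  rw [h, neg_zero, intervalIntegral.integral_symm, g_val0 (by linarith)]

lemma sqrt_sub_le {a b : ℝ} (ha : 0 ≤ a) (hab : a ≤ b) : √b - √a ≤ √(b - a) := by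
  have h1 : √b ≤ √a + √(b - a) := by
    rw [Real.sqrt_le_left (by positivity)]
    have e1 := Real.sq_sqrt ha
    have e2 := Real.sq_sqrt (show 0 ≤ b - a by linarith)
    nlinarith [mul_nonneg (Real.sqrt_nonneg a) (Real.sqrt_nonneg (b - a))]
  linarith

lemma g_le {a b : ℝ} (hab : a ≤ b) : ∫ x in a..b, g x ≤ 4 * √(b - a) := by
  have h := intervalIntegral.integral_interval_sub_left (g_int0' b) (g_int0' a)
  rw [← h]
  have hs := Real.sqrt_nonneg (b - a)
  rcases le_total 0 a with ha | ha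
  · rw [g_val0 (ha.trans hab), g_val0 ha]
    have := sqrt_sub_le ha hab
    linarith
  · rcases le_total 0 b with hb | hb
    · rw [g_val0 hb, g_val0' ha]
      have h1 : √b ≤ √(b - a) := Real.sqrt_le_sqrt (by linarith)
      have h2 : √(-a) ≤ √(b - a) := Real.sqrt_le_sqrt (by linarith)
      linarith
    · rw [g_val0' hb, g_val0' ha]
      have := sqrt_sub_le (a := -b) (b := -a) (by linarith) (by linarith)
      have e : -a - -b = b - a := by ring
      rw [e] at this
      linarith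

lemma g_shift_int (a b z : ℝ) : IntervalIntegrable (fun x => g (x - z)) volume a b := by
  have h := (g_int (a - z) (b - z)).comp_sub_right z
  simpa using h

lemma g_shift_le {a b : ℝ} (hab : a ≤ b) (z : ℝ) : ∫ x in a..b, g (x - z) ≤ 4 * √(b - a) := by
  rw [intervalIntegral.integral_comp_sub_right]
  have h := g_le (a := a - z) (b := b - z) (by linarith)
  have e : b - z - (a - z) = b - a := by ring
  rwa [e] at h

/-! ### The sine near its zeros -/

lemma near (x : ℝ) : |x / π - (round (x / π) : ℤ)| ≤ 1 / 2 ∧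
    |x - (round (x / π) : ℤ) * π| ≤ π / 2 ∧
    2 / π * |x - (round (x / π) : ℤ) * π| ≤ |sin x| ∧
    |sin x| ≤ |x - (round (x / π) : ℤ) * π| := by
  have hp := Real.pi_pos
  have h0 := abs_sub_round (x / π)
  have h1 : |x - (round (x / π) : ℤ) * π| ≤ π / 2 := by
    have e : x - (round (x / π) : ℤ) * π = (x / π - (round (x / π) : ℤ)) * π := by
      field_simp
    rw [e, abs_mul, abs_of_pos hp]
    nlinarith
  have h2 : |sin (x - (round (x / π) : ℤ) * π)| = |sin x| := by
    rw [Real.sin_sub_int_mul_pi, abs_mul, abs_zpow, abs_neg, abs_one, one_zpow, one_mul]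
  refine ⟨h0, h1, ?_, ?_⟩
  · have := Real.mul_abs_le_abs_sin h1
    rwa [h2] at this
  · rw [← h2]
    exact Real.abs_sin_le_abs

/-- the constant -/
noncomputable def q : ℝ := 1 / √(2 / π)

lemma q_pos : 0 < q := by
  unfold q
  have := Real.pi_pos
  positivity

lemma inv_sin_le (x : ℝ) : 1 / √|sin x| ≤ q * g (x - (round (x / π) : ℤ) * π) := by
  obtain ⟨-, -, h2, h3⟩ := near x
  have hp := Real.pi_pos
  rcases (abs_nonneg (sin x)).eq_or_lt with h0 | h0
  · rw [← h0]
    simp only [Real.sqrt_zero, div_zero]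
    exact mul_nonneg q_pos.le (g_nonneg _)
  · have hv : 0 < |x - (round (x / π) : ℤ) * π| := lt_of_lt_of_le h0 h3
    unfold q g
    rw [div_mul_div_comm, one_mul, ← Real.sqrt_mul (by positivity)]
    exact one_div_le_one_div_of_le (Real.sqrt_pos.2 (by positivity)) (Real.sqrt_le_sqrt h2)

lemma inv_sin_le_sum {t x : ℝ} (h1 : t ≤ x) (h2 : x ≤ t + 2 * π) :
    1 / √|sin x| ≤ q * ∑ i ∈ Finset.range 4, g (x - ((⌊t / π⌋ : ℤ) + i) * π) := by
  have hp := Real.pi_pos
  refine (inv_sin_le x).trans (mul_le_mul_of_nonneg_left ?_ q_pos.le)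
  obtain ⟨h0, -, -, -⟩ := near x
  set k : ℤ := round (x / π) with hk
  set m : ℤ := ⌊t / π⌋ with hm
  have hm1 : (m : ℝ) ≤ t / π := Int.floor_le _
  have hm2 : t / π < m + 1 := Int.lt_floor_add_one _
  have e1 : t / π ≤ x / π := div_le_div_of_nonneg_right h1 hp.le
  have e2 : x / π ≤ t / π + 2 := by
    have : x / π ≤ (t + 2 * π) / π := div_le_div_of_nonneg_right h2 hp.le
    have e : (t + 2 * π) / π = t / π + 2 := by field_simp
    rwa [e] at this
  rw [abs_le] at h0
  have k1 : m ≤ k := by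
    have : (m : ℝ) - 1 < k := by linarith
    have h3 : m - 1 < k := by exact_mod_cast this
    omega
  have k2 : k ≤ m + 3 := by
    have : (k : ℝ) < m + 4 := by linarith
    have h3 : k < m + 4 := by exact_mod_cast this
    omega
  obtain ⟨i, hi⟩ : ∃ i : ℕ, k = m + i := ⟨(k - m).toNat, by omega⟩
  have hi4 : i ∈ Finset.range 4 := by
    rw [Finset.mem_range]
    omega
  have h5 := Finset.single_le_sum (f := fun i : ℕ => g (x - ((m : ℝ) + i) * π))
    (fun i _ => g_nonneg _) hi4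
  have e5 : ((k : ℤ) : ℝ) = (m : ℝ) + i := by
    rw [hi]
    push_cast
    ring
  rw [e5]
  exact h5

/-! ### Bounds for the derivative -/

/-- the corners -/
def Z (α : ℝ) : Set ℝ := {x | ∃ k : ℤ, x = k * π + α ∨ x = k * π - α}

lemma et_eq (α θ : ℝ) : et α θ = Metric.infDist θ (Z α) := rfl

lemma et_nonneg (α θ : ℝ) : 0 ≤ et α θ := Metric.infDist_nonneg

lemma Z_ne (α : ℝ) : (Z α).Nonempty := ⟨(0 : ℤ) * π + α, 0, Or.inl rfl⟩

lemma Z_countable (α : ℝ) : (Z α).Countable := by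
  have h : Z α ⊆ Set.range (fun k : ℤ => (k : ℝ) * π + α) ∪
      Set.range (fun k : ℤ => (k : ℝ) * π - α) := by
    rintro x ⟨k, h | h⟩
    · exact Or.inl ⟨k, h.symm⟩
    · exact Or.inr ⟨k, h.symm⟩
  exact ((Set.countable_range _).union (Set.countable_range _)).mono h

lemma et_lip (α φ ψ : ℝ) : et α φ ≤ et α ψ + |φ - ψ| := by
  have h := Metric.infDist_le_infDist_add_dist (s := Z α) (x := φ) (y := ψ)
  rwa [Real.dist_eq] at h

lemma w_eq (α φ : ℝ) : |sin φ ^ 2 - sin α ^ 2| = |sin (φ - α)| * |sin (φ + α)| := by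
  rw [← abs_mul, Real.sin_sub, Real.sin_add]
  congr 1
  have h1 := Real.sin_sq_add_cos_sq φ
  have h2 := Real.sin_sq_add_cos_sq α
  linear_combination (sin α ^ 2) * h1 - (sin φ ^ 2) * h2

lemma fS_eq (α φ : ℝ) : fS α φ = 1 / √(|sin (φ - α)| * |sin (φ + α)|) := by
  unfold fS
  rw [w_eq]

lemma fS_nonneg (α φ : ℝ) : 0 ≤ fS α φ := by
  unfold fS
  positivity

lemma et_le1 (α φ : ℝ) : 2 / π * et α φ ≤ |sin (φ - α)| := by
  obtain ⟨-, -, h, -⟩ := near (φ - α)
  refine le_trans (mul_le_mul_of_nonneg_left ?_ (by positivity)) h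
  have hz : ((round ((φ - α) / π) : ℤ) : ℝ) * π + α ∈ Z α := ⟨_, Or.inl rfl⟩
  have h1 := Metric.infDist_le_dist_of_mem (x := φ) hz
  rw [Real.dist_eq] at h1
  have e : φ - (((round ((φ - α) / π) : ℤ) : ℝ) * π + α) =
      φ - α - ((round ((φ - α) / π) : ℤ) : ℝ) * π := by ring
  rw [e] at h1
  exact h1

lemma et_le2 (α φ : ℝ) : 2 / π * et α φ ≤ |sin (φ + α)| := by
  obtain ⟨-, -, h, -⟩ := near (φ + α)
  refine le_trans (mul_le_mul_of_nonneg_left ?_ (by positivity)) h
  have hz : ((round ((φ + α) / π) : ℤ) : ℝ) * π - α ∈ Z α := ⟨_, Or.inr rfl⟩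
  have h1 := Metric.infDist_le_dist_of_mem (x := φ) hz
  rw [Real.dist_eq] at h1
  have e : φ - (((round ((φ + α) / π) : ℤ) : ℝ) * π - α) =
      φ + α - ((round ((φ + α) / π) : ℤ) : ℝ) * π := by ring
  rw [e] at h1
  exact h1

lemma w_le (α φ : ℝ) : |sin (φ - α)| * |sin (φ + α)| ≤ et α φ := by
  rw [et_eq, Metric.le_infDist (Z_ne α)]
  rintro z ⟨k, hz | hz⟩
  · have h1 : |sin (φ - α)| ≤ |φ - z| := by
      have h2 : |sin (φ - α - (k : ℝ) * π)| = |sin (φ - α)| := by
        rw [Real.sin_sub_int_mul_pi, abs_mul, abs_zpow, abs_neg, abs_one, one_zpow, one_mul]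
      have e : φ - α - (k : ℝ) * π = φ - z := by
        rw [hz]
        ring
      rw [← h2, e]
      exact Real.abs_sin_le_abs
    rw [Real.dist_eq]
    calc |sin (φ - α)| * |sin (φ + α)| ≤ |φ - z| * 1 :=
          mul_le_mul h1 (Real.abs_sin_le_one _) (abs_nonneg _) (abs_nonneg _)
      _ = |φ - z| := mul_one _
  · have h1 : |sin (φ + α)| ≤ |φ - z| := by
      have h2 : |sin (φ + α - (k : ℝ) * π)| = |sin (φ + α)| := by
        rw [Real.sin_sub_int_mul_pi, abs_mul, abs_zpow, abs_neg, abs_one, one_zpow, one_mul]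
      have e : φ + α - (k : ℝ) * π = φ - z := by
        rw [hz]
        ring
      rw [← h2, e]
      exact Real.abs_sin_le_abs
    rw [Real.dist_eq]
    calc |sin (φ - α)| * |sin (φ + α)| ≤ 1 * |φ - z| :=
          mul_le_mul (Real.abs_sin_le_one _) h1 (abs_nonneg _) zero_le_one
      _ = |φ - z| := one_mul _

lemma w_pos {α φ : ℝ} (h : φ ∉ Z α) : 0 < |sin (φ - α)| * |sin (φ + α)| := by
  refine mul_pos ?_ ?_
  · rw [abs_pos]
    intro h0
    obtain ⟨n, hn⟩ := Real.sin_eq_zero_iff.1 h0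
    exact h ⟨n, Or.inl (by linarith)⟩
  · rw [abs_pos]
    intro h0
    obtain ⟨n, hn⟩ := Real.sin_eq_zero_iff.1 h0
    exact h ⟨n, Or.inr (by linarith)⟩

/-- the constant of the corners being apart -/
lemma sum_ge {κ α : ℝ} (hκ : 0 < κ) (h1 : κ ≤ α) (h2 : α ≤ π / 2 - κ) (φ : ℝ) :
    sin (2 * κ) ≤ |sin (φ - α)| + |sin (φ + α)| := by
  have hp := Real.pi_pos
  have e : sin (2 * α) = sin (φ + α) * cos (φ - α) - cos (φ + α) * sin (φ - α) := by
    rw [← Real.sin_sub]
    congr 1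
    ring
  have a1 : sin (φ + α) * cos (φ - α) ≤ |sin (φ + α)| := by
    calc sin (φ + α) * cos (φ - α) ≤ |sin (φ + α) * cos (φ - α)| := le_abs_self _
      _ = |sin (φ + α)| * |cos (φ - α)| := abs_mul _ _
      _ ≤ |sin (φ + α)| * 1 := mul_le_mul_of_nonneg_left (Real.abs_cos_le_one _) (abs_nonneg _)
      _ = _ := mul_one _
  have a2 : -(cos (φ + α) * sin (φ - α)) ≤ |sin (φ - α)| := by
    calc -(cos (φ + α) * sin (φ - α)) ≤ |cos (φ + α) * sin (φ - α)| := neg_le_abs _
      _ = |cos (φ + α)| * |sin (φ - α)| := abs_mul _ _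
      _ ≤ 1 * |sin (φ - α)| := mul_le_mul_of_nonneg_right (Real.abs_cos_le_one _) (abs_nonneg _)
      _ = _ := one_mul _
  have a3 : sin (2 * κ) ≤ sin (2 * α) := by
    rcases le_total (2 * α) (π / 2) with h | h
    · exact Real.sin_le_sin_of_le_of_le_pi_div_two (by linarith) h (by linarith)
    · rw [← Real.sin_pi_sub (2 * α)]
      exact Real.sin_le_sin_of_le_of_le_pi_div_two (by linarith) (by linarith) (by linarith)
  linarith

lemma mu_pos {κ α : ℝ} (hκ : 0 < κ) (h1 : κ ≤ α) (h2 : α ≤ π / 2 - κ) : 0 < sin (2 * κ) := by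
  have hp := Real.pi_pos
  exact Real.sin_pos_of_pos_of_lt_pi (by linarith) (by linarith)

/-- lower bound for the product by the distance to the corners -/
lemma w_ge {κ α : ℝ} (hκ : 0 < κ) (h1 : κ ≤ α) (h2 : α ≤ π / 2 - κ) (φ : ℝ) :
    sin (2 * κ) / 2 * (2 / π * et α φ) ≤ |sin (φ - α)| * |sin (φ + α)| := by
  have hs := sum_ge hκ h1 h2 φ
  have hm := mu_pos hκ h1 h2
  have he := et_nonneg α φ
  have hp := Real.pi_pos
  rcases le_total (sin (2 * κ) / 2) |sin (φ - α)| with h | h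
  · exact mul_le_mul h (et_le2 α φ) (by positivity) (abs_nonneg _)
  · have h' : sin (2 * κ) / 2 ≤ |sin (φ + α)| := by linarith
    rw [mul_comm |sin (φ - α)|]
    exact mul_le_mul h' (et_le1 α φ) (by positivity) (abs_nonneg _)

lemma fS_le {κ α : ℝ} (hκ : 0 < κ) (h1 : κ ≤ α) (h2 : α ≤ π / 2 - κ) (φ : ℝ) :
    fS α φ ≤ 1 / √(sin (2 * κ) / 2) * (1 / √|sin (φ - α)| + 1 / √|sin (φ + α)|) := by
  have hs := sum_ge hκ h1 h2 φ
  have hm := mu_pos hκ h1 h2
  have hm0 : 0 < √(sin (2 * κ) / 2) := Real.sqrt_pos.2 (by positivity)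
  have key : ∀ u v : ℝ, 0 ≤ u → sin (2 * κ) / 2 ≤ v →
      1 / √(u * v) ≤ 1 / √(sin (2 * κ) / 2) * (1 / √u) := by
    intro u v hu hv
    rcases hu.eq_or_lt with h0 | h0
    · rw [← h0]
      simp
    · rw [div_mul_div_comm, one_mul, ← Real.sqrt_mul (by positivity)]
      refine one_div_le_one_div_of_le (Real.sqrt_pos.2 (by positivity)) (Real.sqrt_le_sqrt ?_)
      rw [mul_comm]
      exact mul_le_mul_of_nonneg_left hv hu
  rw [fS_eq, mul_add]
  rcases le_total (sin (2 * κ) / 2) |sin (φ - α)| with h | h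
  · have := key |sin (φ + α)| |sin (φ - α)| (abs_nonneg _) h
    rw [mul_comm |sin (φ - α)|]
    have h3 : 0 ≤ 1 / √(sin (2 * κ) / 2) * (1 / √|sin (φ - α)|) := by positivity
    linarith
  · have := key |sin (φ - α)| |sin (φ + α)| (abs_nonneg _) (by linarith)
    have h3 : 0 ≤ 1 / √(sin (2 * κ) / 2) * (1 / √|sin (φ + α)|) := by positivity
    linarith

/-- the Hölder bound -/
lemma holder {κ α : ℝ} (hκ : 0 < κ) (h1 : κ ≤ α) (h2 : α ≤ π / 2 - κ)
    (hint : ∀ a b : ℝ, IntervalIntegrable (fS α) volume a b) {θ θ' : ℝ} (h : θ ≤ θ')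
    (h' : θ' ≤ θ + 2 * π) :
    ∫ φ in θ..θ', fS α φ ≤ 1 / √(sin (2 * κ) / 2) * q * 32 * √(θ' - θ) := by
  have hm := mu_pos hκ h1 h2
  set K : ℝ := 1 / √(sin (2 * κ) / 2) with hK
  have hK0 : 0 ≤ K := by positivity
  set z1 : ℕ → ℝ := fun i => ((⌊(θ - α) / π⌋ : ℤ) + i) * π + α with hz1
  set z2 : ℕ → ℝ := fun i => ((⌊(θ + α) / π⌋ : ℤ) + i) * π - α with hz2
  have hpt : ∀ φ ∈ Set.Icc θ θ', fS α φ ≤ K * q *
      (∑ i ∈ Finset.range 4, g (φ - z1 i) + ∑ i ∈ Finset.range 4, g (φ - z2 i)) := by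
    intro φ hφ
    refine (fS_le hκ h1 h2 φ).trans ?_
    rw [mul_assoc]
    refine mul_le_mul_of_nonneg_left ?_ hK0
    rw [mul_add]
    have a1 := inv_sin_le_sum (t := θ - α) (x := φ - α) (by linarith [hφ.1]) (by linarith [hφ.2])
    have a2 := inv_sin_le_sum (t := θ + α) (x := φ + α) (by linarith [hφ.1]) (by linarith [hφ.2])
    have e1 : ∀ i : ℕ, φ - α - ((⌊(θ - α) / π⌋ : ℤ) + i) * π = φ - z1 i := by
      intro i
      rw [hz1]
      ring
    have e2 : ∀ i : ℕ, φ + α - ((⌊(θ + α) / π⌋ : ℤ) + i) * π = φ - z2 i := by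
      intro i
      rw [hz2]
      ring
    simp only [e1] at a1
    simp only [e2] at a2
    exact add_le_add a1 a2
  have i1 : ∀ z : ℕ → ℝ, IntervalIntegrable (fun φ => ∑ i ∈ Finset.range 4, g (φ - z i))
      volume θ θ' := by
    intro z
    have := IntervalIntegrable.sum (μ := volume) (a := θ) (b := θ') (Finset.range 4)
      (f := fun i φ => g (φ - z i)) (fun i _ => g_shift_int θ θ' (z i))
    refine this.congr ?_
    intro x _
    simp
  have v1 : ∀ z : ℕ → ℝ, ∫ φ in θ..θ', (∑ i ∈ Finset.range 4, g (φ - z i)) ≤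
      16 * √(θ' - θ) := by
    intro z
    rw [intervalIntegral.integral_finsetSum (fun i _ => g_shift_int θ θ' (z i))]
    calc ∑ i ∈ Finset.range 4, ∫ φ in θ..θ', g (φ - z i) ≤
        ∑ _i ∈ Finset.range 4, 4 * √(θ' - θ) :=
          Finset.sum_le_sum fun i _ => g_shift_le h (z i)
      _ = 16 * √(θ' - θ) := by
          rw [Finset.sum_const, Finset.card_range, nsmul_eq_mul]
          push_cast
          ring
  have hI := intervalIntegral.integral_mono_on h (hint θ θ')
    (((i1 z1).add (i1 z2)).const_mul (K * q)) hpt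
  refine hI.trans ?_
  rw [intervalIntegral.integral_const_mul, intervalIntegral.integral_add (i1 z1) (i1 z2)]
  have hq := q_pos
  have hKq : 0 ≤ K * q := by positivity
  calc K * q * ((∫ φ in θ..θ', (∑ i ∈ Finset.range 4, g (φ - z1 i))) +
        ∫ φ in θ..θ', (∑ i ∈ Finset.range 4, g (φ - z2 i))) ≤
      K * q * (16 * √(θ' - θ) + 16 * √(θ' - θ)) :=
        mul_le_mul_of_nonneg_left (add_le_add (v1 z1) (v1 z2)) hKq
    _ = K * q * 32 * √(θ' - θ) := by ring

/-! ### The two bounds -/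

lemma main_low {α θ θ' ψ : ℝ} (hint : ∀ a b : ℝ, IntervalIntegrable (fS α) volume a b)
    (h : θ < θ') (hψ : ψ ∈ Set.Icc θ θ') :
    1 / √2 * (θ' - θ) ≤ (∫ φ in θ..θ', fS α φ) * √(max (et α ψ) (θ' - θ)) := by
  set m := max (et α ψ) (θ' - θ) with hm
  have hm0 : 0 < m := lt_of_lt_of_le (sub_pos.2 h) (le_max_right _ _)
  have hae : (fun _ : ℝ => 1 / √(2 * m)) ≤ᵐ[volume.restrict (Set.Icc θ θ')] fS α := by
    rw [Filter.EventuallyLE, ae_restrict_iff' measurableSet_Icc]
    filter_upwards [(Z_countable α).ae_notMem volume] with φ hφ hmem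
    rw [fS_eq]
    have a0 : |φ - ψ| ≤ θ' - θ := by
      rw [abs_le]
      constructor
      · linarith [hmem.1, hψ.2]
      · linarith [hmem.2, hψ.1]
    have a1 : et α φ ≤ 2 * m := by
      have b1 := et_lip α φ ψ
      have b2 : et α ψ ≤ m := le_max_left _ _
      have b3 : θ' - θ ≤ m := le_max_right _ _
      linarith
    exact one_div_le_one_div_of_le (Real.sqrt_pos.2 (w_pos hφ))
      (Real.sqrt_le_sqrt ((w_le α φ).trans a1))
  have hI := intervalIntegral.integral_mono_ae_restrict h.le intervalIntegrable_const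
    (hint θ θ') hae
  rw [intervalIntegral.integral_const, smul_eq_mul] at hI
  have e : 1 / √2 * (θ' - θ) = (θ' - θ) * (1 / √(2 * m)) * √m := by
    have h1 : √m ≠ 0 := (Real.sqrt_pos.2 hm0).ne'
    have h2 : √(2 : ℝ) ≠ 0 := by positivity
    rw [Real.sqrt_mul (by norm_num)]
    field_simp
  rw [e]
  exact mul_le_mul_of_nonneg_right hI (Real.sqrt_nonneg _)

lemma main_up {κ α θ θ' ψ : ℝ} (hκ : 0 < κ) (h1 : κ ≤ α) (h2 : α ≤ π / 2 - κ)
    (hint : ∀ a b : ℝ, IntervalIntegrable (fS α) volume a b)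
    (h : θ < θ') (h' : θ' ≤ θ + 2 * π) (hψ : ψ ∈ Set.Icc θ θ') :
    (∫ φ in θ..θ', fS α φ) * √(max (et α ψ) (θ' - θ)) ≤
      (1 / √(sin (2 * κ) / 2 * (2 / π) * (1 / 2)) + 1 / √(sin (2 * κ) / 2) * q * 32 * √2) *
        (θ' - θ) := by
  have hm := mu_pos hκ h1 h2
  have hp := Real.pi_pos
  have hq := q_pos
  set D := θ' - θ with hD
  have hD0 : 0 < D := sub_pos.2 h
  set e := et α ψ with he
  set ν := sin (2 * κ) / 2 * (2 / π) * (1 / 2) with hν
  have hν0 : 0 < ν := by positivity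
  set C2 := 1 / √(sin (2 * κ) / 2) * q * 32 with hC2
  have hC20 : 0 ≤ C2 := by positivity
  rcases le_or_gt D (e / 2) with hc | hc
  · have hmax : max e D = e := max_eq_left (by linarith)
    have he0 : 0 < e := by linarith
    have hpt : ∀ φ ∈ Set.Icc θ θ', fS α φ ≤ 1 / √(ν * e) := by
      intro φ hφ
      have a0 : |ψ - φ| ≤ D := by
        rw [abs_le]
        constructor
        · linarith [hφ.2, hψ.1]
        · linarith [hφ.1, hψ.2]
      have a1 := et_lip α ψ φ
      have a2 : e / 2 ≤ et α φ := by linarith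
      have a3 := w_ge hκ h1 h2 φ
      have a4 : ν * e ≤ sin (2 * κ) / 2 * (2 / π * et α φ) := by
        have : ν * e = sin (2 * κ) / 2 * (2 / π * (e / 2)) := by
          rw [hν]
          ring
        rw [this]
        gcongr
      rw [fS_eq]
      exact one_div_le_one_div_of_le (Real.sqrt_pos.2 (by positivity))
        (Real.sqrt_le_sqrt (a4.trans a3))
    have hI := intervalIntegral.integral_mono_on h.le (hint θ θ') intervalIntegrable_const hpt
    rw [intervalIntegral.integral_const, smul_eq_mul, ← hD] at hI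
    rw [hmax]
    calc (∫ φ in θ..θ', fS α φ) * √e ≤ D * (1 / √(ν * e)) * √e :=
          mul_le_mul_of_nonneg_right hI (Real.sqrt_nonneg _)
      _ = 1 / √ν * D := by
          have h3 : √e ≠ 0 := (Real.sqrt_pos.2 he0).ne'
          have h4 : √ν ≠ 0 := (Real.sqrt_pos.2 hν0).ne'
          rw [Real.sqrt_mul hν0.le]
          field_simp
      _ ≤ (1 / √ν + C2 * √2) * D := by
          refine mul_le_mul_of_nonneg_right ?_ hD0.le
          have : 0 ≤ C2 * √2 := by positivity
          linarith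
  · have hmax : max e D ≤ 2 * D := max_le (by linarith) (by linarith)
    have hI := holder hκ h1 h2 hint h.le h'
    rw [← hC2, ← hD] at hI
    calc (∫ φ in θ..θ', fS α φ) * √(max e D) ≤ (C2 * √D) * √(2 * D) := by
          refine mul_le_mul hI (Real.sqrt_le_sqrt hmax) (Real.sqrt_nonneg _) (by positivity)
      _ = C2 * √2 * D := by
          rw [Real.sqrt_mul (by norm_num)]
          have := Real.mul_self_sqrt hD0.le
          linear_combination (C2 * √2) * this
      _ ≤ (1 / √ν + C2 * √2) * D := by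
          refine mul_le_mul_of_nonneg_right ?_ hD0.le
          have : 0 ≤ 1 / √ν := by positivity
          linarith

theorem t_LA : S_FS → S_LA := by
  intro hFS κ hκ
  have hp := Real.pi_pos
  rcases le_or_gt κ (π / 2 - κ) with hκ2 | hκ2
  · have hm := mu_pos hκ le_rfl hκ2
    have hq := q_pos
    refine ⟨1 / √2, 1 / √(sin (2 * κ) / 2 * (2 / π) * (1 / 2)) +
      1 / √(sin (2 * κ) / 2) * q * 32 * √2, by positivity, by positivity, ?_⟩
    intro α h1 h2 θ θ' h h'
    obtain ⟨hint, -⟩ := hFS α (by linarith) (by linarith)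
    have hSC : SC α θ' - SC α θ = ∫ φ in θ..θ', fS α φ :=
      intervalIntegral.integral_interval_sub_left (hint _ _) (hint _ _)
    rw [hSC]
    have hθ : θ ∈ Set.Icc θ θ' := ⟨le_rfl, h.le⟩
    have hθ' : θ' ∈ Set.Icc θ θ' := ⟨h.le, le_rfl⟩
    exact ⟨main_low hint h hθ, main_up hκ h1 h2 hint h h' hθ, main_low hint h hθ',
      main_up hκ h1 h2 hint h h' hθ'⟩
  · refine ⟨1, 1, one_pos, one_pos, ?_⟩
    intro α h1 h2
    linarith

end Pool.Agent.Y989.RC.LA
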