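import Pool.Agent.Y989.RC.Stm2

/-!
Project RC: distance to the corners under the boundary map (job RC-LB). All authors are named:
helper989 (statements and plan), helper67 (this proof).
-/

set_option autoImplicit false

namespace Pool.Agent.Y989.RC.LB
open MeasureTheory Real Set

theorem e1 (x : ℝ) : 1 / √x = x ^ (-(1 / 2) : ℝ) := by
  rcases le_or_gt 0 x with h | h
  · rw [Real.rpow_neg h, ← Real.sqrt_eq_rpow, one_div]
  · rw [Real.sqrt_eq_zero_of_nonpos h.le, Real.rpow_def_of_neg h]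
    have e : cos (-(1 / 2) * π) = 0 := by
      rw [show -(1 / 2) * π = -(π / 2) by ring, Real.cos_neg, Real.cos_pi_div_two]
    rw [e]
    simp

theorem intR (a b c : ℝ) : IntervalIntegrable (fun x => 1 / √(x - c)) volume a b ∧
    ∫ x in a..b, 1 / √(x - c) = 2 * (√(b - c) - √(a - c)) := by
  have e : (fun x : ℝ => 1 / √(x - c)) = fun x => (fun y : ℝ => y ^ (-(1 / 2) : ℝ)) (x - c) := by
    funext x
    exact e1 _
  constructor
  · rw [e]
    have h := (intervalIntegral.intervalIntegrable_rpow' (a := a - c) (b := b - c)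
      (r := (-(1 / 2) : ℝ)) (by norm_num)).comp_sub_right c
    simpa using h
  · rw [e, intervalIntegral.integral_comp_sub_right (fun y : ℝ => y ^ (-(1 / 2) : ℝ)) c,
      integral_rpow (Or.inl (by norm_num)), show (-(1 / 2) : ℝ) + 1 = 1 / 2 by norm_num,
      ← Real.sqrt_eq_rpow, ← Real.sqrt_eq_rpow]
    ring

theorem intL (a b c : ℝ) : IntervalIntegrable (fun x => 1 / √(c - x)) volume a b ∧
    ∫ x in a..b, 1 / √(c - x) = 2 * (√(c - a) - √(c - b)) := by
  have e : (fun x : ℝ => 1 / √(c - x)) = fun x => (fun y : ℝ => y ^ (-(1 / 2) : ℝ)) (c - x) := by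
    funext x
    exact e1 _
  constructor
  · rw [e]
    have h := (intervalIntegral.intervalIntegrable_rpow' (a := c - a) (b := c - b)
      (r := (-(1 / 2) : ℝ)) (by norm_num)).comp_sub_left c
    simpa using h
  · rw [e, intervalIntegral.integral_comp_sub_left (fun y : ℝ => y ^ (-(1 / 2) : ℝ)) c,
      integral_rpow (Or.inl (by norm_num)), show (-(1 / 2) : ℝ) + 1 = 1 / 2 by norm_num,
      ← Real.sqrt_eq_rpow, ← Real.sqrt_eq_rpow]
    ring

theorem spl (x c : ℝ) : 1 / √|x - c| = 1 / √(x - c) + 1 / √(c - x) := by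
  rcases le_total c x with h | h
  · rw [abs_of_nonneg (sub_nonneg.2 h), Real.sqrt_eq_zero_of_nonpos (x := c - x) (by linarith)]
    simp
  · rw [abs_of_nonpos (sub_nonpos.2 h), Real.sqrt_eq_zero_of_nonpos (x := x - c) (by linarith),
      neg_sub]
    simp

theorem intA (a b c : ℝ) : IntervalIntegrable (fun x => 1 / √|x - c|) volume a b ∧
    ∫ x in a..b, 1 / √|x - c| = 2 * (√(b - c) - √(a - c)) + 2 * (√(c - a) - √(c - b)) := by
  have e : (fun x : ℝ => 1 / √|x - c|) = fun x => 1 / √(x - c) + 1 / √(c - x) := by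
    funext x
    exact spl x c
  constructor
  · rw [e]
    exact (intR a b c).1.add (intL a b c).1
  · rw [e, intervalIntegral.integral_add (intR a b c).1 (intL a b c).1, (intR a b c).2,
      (intL a b c).2]

theorem sqa (x y : ℝ) (hx : 0 ≤ x) : √(x + y) ≤ √x + √y := by
  rcases le_total 0 y with hy | hy
  · refine Real.sqrt_le_iff.2 ⟨by positivity, ?_⟩
    nlinarith [Real.sq_sqrt hx, Real.sq_sqrt hy,
      mul_nonneg (Real.sqrt_nonneg x) (Real.sqrt_nonneg y)]
  · rw [Real.sqrt_eq_zero_of_nonpos hy, add_zero]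
    exact Real.sqrt_le_sqrt (by linarith)

theorem intAle {a b : ℝ} (c : ℝ) (hab : a ≤ b) : ∫ x in a..b, 1 / √|x - c| ≤ 4 * √(b - a) := by
  rw [(intA a b c).2]
  have h1 := sqa (b - a) (a - c) (by linarith)
  have h2 := sqa (b - a) (c - b) (by linarith)
  rw [show b - a + (a - c) = b - c by ring] at h1
  rw [show b - a + (c - b) = c - a by ring] at h2
  linarith

/-- `u` is at most an integrable function with integral at most `M` -/
def B (a b M : ℝ) (u : ℝ → ℝ) : Prop :=
  ∃ g : ℝ → ℝ, IntervalIntegrable g volume a b ∧ ∫ x in a..b, g x ≤ M ∧ ∀ x ∈ Icc a b, u x ≤ g x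

theorem B.add {a b M N : ℝ} {u v : ℝ → ℝ} (h : B a b M u) (h' : B a b N v) :
    B a b (M + N) (fun x => u x + v x) := by
  obtain ⟨g, hg1, hg2, hg3⟩ := h
  obtain ⟨g', hg1', hg2', hg3'⟩ := h'
  refine ⟨fun x => g x + g' x, hg1.add hg1', ?_, fun x hx => add_le_add (hg3 x hx) (hg3' x hx)⟩
  rw [intervalIntegral.integral_add hg1 hg1']
  linarith

theorem B.smul {a b M : ℝ} {u : ℝ → ℝ} (h : B a b M u) {c : ℝ} (hc : 0 ≤ c) :
    B a b (c * M) (fun x => c * u x) := by
  obtain ⟨g, hg1, hg2, hg3⟩ := h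
  refine ⟨fun x => c * g x, hg1.const_mul c, ?_, fun x hx => mul_le_mul_of_nonneg_left (hg3 x hx) hc⟩
  rw [intervalIntegral.integral_const_mul]
  exact mul_le_mul_of_nonneg_left hg2 hc

theorem B.mono {a b M : ℝ} {u v : ℝ → ℝ} (h : B a b M u) (hv : ∀ x ∈ Icc a b, v x ≤ u x) :
    B a b M v := by
  obtain ⟨g, hg1, hg2, hg3⟩ := h
  exact ⟨g, hg1, hg2, fun x hx => (hv x hx).trans (hg3 x hx)⟩

theorem B.le {a b M : ℝ} {u : ℝ → ℝ} (hab : a ≤ b) (hu : IntervalIntegrable u volume a b)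
    (h : B a b M u) : ∫ x in a..b, u x ≤ M := by
  obtain ⟨g, hg1, hg2, hg3⟩ := h
  exact (intervalIntegral.integral_mono_on hab hu hg1 hg3).trans hg2

theorem Bg {a b : ℝ} (c : ℝ) (hab : a ≤ b) : B a b (4 * √(b - a)) (fun x => 1 / √|x - c|) :=
  ⟨_, (intA a b c).1, intAle c hab, fun _ _ => le_rfl⟩

/-- comparison of two inverse square roots -/
theorem invs {A D r : ℝ} (hr : 0 < r) (h : r ^ 2 * |D| ≤ |A|) (h0 : D = 0 → A = 0) :
    1 / √|A| ≤ 1 / r * (1 / √|D|) := by
  by_cases hD : D = 0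
  · rw [h0 hD, hD]
    simp
  · have hD' : 0 < |D| := abs_pos.2 hD
    have e : r * √|D| ≤ √|A| := by
      have := Real.sqrt_le_sqrt h
      rwa [Real.sqrt_mul (by positivity), Real.sqrt_sq hr.le] at this
    have h3 : 0 < √|D| := Real.sqrt_pos.2 hD'
    rw [one_div_mul_one_div]
    exact one_div_le_one_div_of_le (by positivity) e

/-- the nearest zero of the sine -/
theorem near (y : ℝ) : ∃ i : ℤ, |y - i * π| ≤ π / 2 ∧ 1 / √|sin y| ≤ 2 * (1 / √|y - i * π|) := by
  have hpi := Real.pi_pos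
  refine ⟨round (y / π), ?_, ?_⟩
  · have h := abs_sub_round (y / π)
    have e : y - (round (y / π) : ℤ) * π = (y / π - round (y / π)) * π := by
      field_simp
    rw [e, abs_mul, abs_of_pos hpi]
    nlinarith
  · have h := abs_sub_round (y / π)
    have e : y - (round (y / π) : ℤ) * π = (y / π - round (y / π)) * π := by
      field_simp
    have h1 : |y - (round (y / π) : ℤ) * π| ≤ π / 2 := by
      rw [e, abs_mul, abs_of_pos hpi]
      nlinarith
    have h2 := Real.mul_abs_le_abs_sin h1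
    have h3 : |sin (y - (round (y / π) : ℤ) * π)| = |sin y| := by
      rw [Real.sin_sub_int_mul_pi, abs_mul]
      simp
    rw [h3] at h2
    have h4 := invs (A := sin y) (D := y - (round (y / π) : ℤ) * π) (r := 1 / 2) (by norm_num) (by
      refine le_trans (mul_le_mul_of_nonneg_right ?_ (abs_nonneg _)) h2
      rw [le_div_iff₀ hpi]
      nlinarith [Real.pi_le_four]) (by
      intro h0
      rw [h0] at h3
      simpa using h3.symm)
    rw [show (1 : ℝ) / (1 / 2) = 2 by norm_num] at h4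
    exact h4

theorem Bsin {a b : ℝ} (β : ℝ) (hab : a ≤ b) (hD : b - a ≤ π) :
    B a b (24 * √(b - a)) (fun x => 1 / √|sin (x - β)|) := by
  have hpi := Real.pi_pos
  obtain ⟨k, hk⟩ : ∃ k : ℤ, k = ⌊(a - β) / π⌋ := ⟨_, rfl⟩
  have k1 : (k : ℝ) * π ≤ a - β := by
    have := Int.floor_le ((a - β) / π)
    rw [← hk, le_div_iff₀ hpi] at this
    exact this
  have k2 : a - β < (k + 1) * π := by
    have := Int.lt_floor_add_one ((a - β) / π)
    rw [← hk, div_lt_iff₀ hpi] at this
    exact this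
  have h0 := (((Bg (a := a) (b := b) (β + k * π) hab).add (Bg (β + (k + 1) * π) hab)).add
    (Bg (β + (k + 2) * π) hab)).smul (c := 2) (by norm_num)
  rw [show 2 * (4 * √(b - a) + 4 * √(b - a) + 4 * √(b - a)) = 24 * √(b - a) by ring] at h0
  refine h0.mono fun x hx => ?_
  obtain ⟨i, hi1, hi2⟩ := near (x - β)
  refine hi2.trans (mul_le_mul_of_nonneg_left ?_ (by norm_num))
  obtain ⟨j1, j2⟩ := abs_le.1 hi1
  have i1 : k ≤ i := by
    by_contra hlt
    have h5 : (i : ℝ) + 1 ≤ k := by exact_mod_cast not_le.1 hlt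
    have := hx.1
    nlinarith
  have i2 : i ≤ k + 2 := by
    by_contra hlt
    have h5 : (k : ℝ) + 2 + 1 ≤ i := by exact_mod_cast not_le.1 hlt
    have := hx.2
    nlinarith
  have p1 : 0 ≤ 1 / √|x - (β + k * π)| := by positivity
  have p2 : 0 ≤ 1 / √|x - (β + (k + 1) * π)| := by positivity
  have p3 : 0 ≤ 1 / √|x - (β + (k + 2) * π)| := by positivity
  have hcase : i = k ∨ i = k + 1 ∨ i = k + 2 := by omega
  have e : x - β - i * π = x - (β + i * π) := by ring
  rw [e]
  rcases hcase with h | h | h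
  · rw [h]
    linarith
  · rw [h]
    push_cast
    linarith
  · rw [h]
    push_cast
    linarith

theorem prodsin (x α : ℝ) : sin x ^ 2 - sin α ^ 2 = sin (x - α) * sin (x - -α) := by
  rw [sub_neg_eq_add, sin_sub, sin_add]
  have h1 := sin_sq_add_cos_sq x
  have h2 := sin_sq_add_cos_sq α
  have e : (sin x * cos α - cos x * sin α) * (sin x * cos α + cos x * sin α) =
    sin x ^ 2 * cos α ^ 2 - cos x ^ 2 * sin α ^ 2 := by ring
  rw [e, show cos α ^ 2 = 1 - sin α ^ 2 by linarith, show cos x ^ 2 = 1 - sin x ^ 2 by linarith]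
  ring

/-- the constant -/
theorem sin2 {κ α : ℝ} (hκ : 0 < κ) (h1 : κ ≤ α) (h2 : α ≤ π / 2 - κ) (x : ℝ) :
    (2 / π * κ) ^ 2 ≤ |sin (x - α)| ∨ (2 / π * κ) ^ 2 ≤ |sin (x - -α)| := by
  have hpi := Real.pi_pos
  have s1 : 2 / π * κ ≤ sin α :=
    (mul_le_mul_of_nonneg_left h1 (by positivity)).trans
      (Real.mul_le_sin (by linarith) (by linarith))
  have s2 : 2 / π * κ ≤ cos α := by
    rw [← Real.sin_pi_div_two_sub]
    exact (mul_le_mul_of_nonneg_left (by linarith) (by positivity)).trans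
      (Real.mul_le_sin (x := π / 2 - α) (by linarith) (by linarith))
  have s3 : (2 / π * κ) ^ 2 ≤ sin α * cos α := by
    rw [sq]
    exact mul_le_mul s1 s2 (by positivity) ((by positivity : (0 : ℝ) ≤ 2 / π * κ).trans s1)
  by_contra hcon
  obtain ⟨c1, c2⟩ := not_or.1 hcon
  rw [not_le] at c1 c2
  have e : 2 * (sin α * cos α) = sin (x - -α) * cos (x - α) - cos (x - -α) * sin (x - α) := by
    rw [← sin_sub, show x - -α - (x - α) = 2 * α by ring, sin_two_mul]
    ring
  have b1 : sin (x - -α) * cos (x - α) ≤ |sin (x - -α)| := by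
    refine (le_abs_self _).trans ?_
    rw [abs_mul]
    exact mul_le_of_le_one_right (abs_nonneg _) (abs_cos_le_one _)
  have b2 : -(cos (x - -α) * sin (x - α)) ≤ |sin (x - α)| := by
    refine (neg_le_abs _).trans ?_
    rw [abs_mul]
    exact mul_le_of_le_one_left (abs_nonneg _) (abs_cos_le_one _)
  linarith

theorem fS_le {κ α : ℝ} (hκ : 0 < κ) (h1 : κ ≤ α) (h2 : α ≤ π / 2 - κ) (x : ℝ) :
    fS α x ≤ 1 / (2 / π * κ) * (1 / √|sin (x - α)| + 1 / √|sin (x - -α)|) := by
  have hpi := Real.pi_pos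
  have hr : 0 < 2 / π * κ := by positivity
  have q1 : 0 ≤ 1 / √|sin (x - α)| := by positivity
  have q2 : 0 ≤ 1 / √|sin (x - -α)| := by positivity
  have hc : 0 ≤ 1 / (2 / π * κ) := by positivity
  unfold fS
  rw [prodsin]
  rcases sin2 hκ h1 h2 x with h | h
  · refine (invs (A := sin (x - α) * sin (x - -α)) (D := sin (x - -α)) hr ?_ ?_).trans ?_
    · rw [abs_mul]
      exact mul_le_mul_of_nonneg_right h (abs_nonneg _)
    · intro h0
      rw [h0, mul_zero]
    · exact mul_le_mul_of_nonneg_left (by linarith) hc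
  · refine (invs (A := sin (x - α) * sin (x - -α)) (D := sin (x - α)) hr ?_ ?_).trans ?_
    · rw [abs_mul, mul_comm]
      exact mul_le_mul_of_nonneg_left h (abs_nonneg _)
    · intro h0
      rw [h0, zero_mul]
    · exact mul_le_mul_of_nonneg_left (by linarith) hc

theorem SC_sub {α : ℝ} (hI : ∀ a b : ℝ, IntervalIntegrable (fS α) volume a b) (a b : ℝ) :
    SC α b - SC α a = ∫ φ in a..b, fS α φ := by
  unfold SC
  exact intervalIntegral.integral_interval_sub_left (hI _ _) (hI _ _)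

theorem SC_up {κ α : ℝ} (hκ : 0 < κ) (h1 : κ ≤ α) (h2 : α ≤ π / 2 - κ)
    (hI : ∀ a b : ℝ, IntervalIntegrable (fS α) volume a b) {a b : ℝ} (hab : a ≤ b)
    (hD : b - a ≤ π) : SC α b - SC α a ≤ 48 / (2 / π * κ) * √(b - a) := by
  rw [SC_sub hI]
  have hpi := Real.pi_pos
  have h := (((Bsin α hab hD).add (Bsin (-α) hab hD)).smul
    (c := 1 / (2 / π * κ)) (by positivity)).mono fun x _ => fS_le hκ h1 h2 x
  refine (h.le hab (hI a b)).trans (le_of_eq ?_)
  ring

/-- the angles of the corners -/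
def Z (α : ℝ) : Set ℝ := {x | ∃ k : ℤ, x = k * π + α ∨ x = k * π - α}

theorem ne_ae (α : ℝ) : ∀ᵐ φ : ℝ, sin φ ^ 2 - sin α ^ 2 ≠ 0 := by
  have hc : (range (fun n : ℤ => (n : ℝ) * π + α) ∪ range (fun n : ℤ => (n : ℝ) * π + -α)).Countable :=
    (countable_range _).union (countable_range _)
  filter_upwards [hc.ae_notMem volume] with φ hφ h0
  apply hφ
  rw [prodsin] at h0
  rcases mul_eq_zero.1 h0 with h | h
  · obtain ⟨n, hn⟩ := Real.sin_eq_zero_iff.1 h
    exact Or.inl ⟨n, by simp only; linarith⟩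
  · obtain ⟨n, hn⟩ := Real.sin_eq_zero_iff.1 h
    exact Or.inr ⟨n, by simp only; linarith⟩

theorem sqZ {α z : ℝ} (hz : z ∈ Z α) : sin α ^ 2 = sin z ^ 2 := by
  have e : |sin z| = |sin α| := by
    obtain ⟨k, h | h⟩ := hz
    · rw [h, show (k : ℝ) * π + α = α - ((-k : ℤ) : ℝ) * π by push_cast; ring,
        Real.sin_sub_int_mul_pi, abs_mul]
      simp
    · rw [h, show (k : ℝ) * π - α = -(α - (k : ℝ) * π) by ring, sin_neg,
        Real.sin_sub_int_mul_pi, abs_neg, abs_mul]
      simp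
  rw [← sq_abs, ← e, sq_abs]

theorem fS_ge {α z φ : ℝ} (hz : z ∈ Z α) (h0 : sin φ ^ 2 - sin α ^ 2 ≠ 0) :
    1 / √|φ - z| ≤ fS α φ := by
  unfold fS
  have h1 : 0 < |sin φ ^ 2 - sin α ^ 2| := abs_pos.2 h0
  refine one_div_le_one_div_of_le (Real.sqrt_pos.2 h1) (Real.sqrt_le_sqrt ?_)
  rw [sqZ hz, prodsin, abs_mul]
  calc |sin (φ - z)| * |sin (φ - -z)| ≤ |φ - z| * 1 :=
        mul_le_mul (Real.abs_sin_le_abs) (abs_sin_le_one _) (abs_nonneg _) (abs_nonneg _)
    _ = |φ - z| := mul_one _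

theorem SC_low {α z : ℝ} (hz : z ∈ Z α)
    (hI : ∀ a b : ℝ, IntervalIntegrable (fS α) volume a b) (θ : ℝ) :
    2 * √|θ - z| ≤ |SC α θ - SC α z| := by
  have hmono : ∀ a b : ℝ, a ≤ b → ∫ x in a..b, 1 / √|x - z| ≤ SC α b - SC α a := by
    intro a b hab
    rw [SC_sub hI]
    refine intervalIntegral.integral_mono_ae hab (intA a b z).1 (hI a b) ?_
    filter_upwards [ne_ae α] with φ hφ
    exact fS_ge hz hφ
  rcases le_total z θ with h | h
  · have h1 := hmono z θ h
    rw [(intA z θ z).2, sub_self, Real.sqrt_zero, sub_zero, zero_sub,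
      Real.sqrt_eq_zero_of_nonpos (x := z - θ) (by linarith)] at h1
    rw [abs_of_nonneg (sub_nonneg.2 h)]
    refine le_trans ?_ (le_abs_self _)
    linarith
  · have h1 := hmono θ z h
    rw [(intA θ z z).2, sub_self, Real.sqrt_zero, sub_zero, zero_sub,
      Real.sqrt_eq_zero_of_nonpos (x := θ - z) (by linarith)] at h1
    rw [abs_of_nonpos (sub_nonpos.2 h), neg_sub]
    refine le_trans ?_ (neg_le_abs _)
    linarith

theorem SC_Z {w h : ℤ} {α lam : ℝ} (hP : Par w h α lam)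
    (hper : ∀ θ : ℝ, SC α (θ + π) = SC α θ + SC α (π - α)) (k : ℤ) :
    lam * SC α (k * π - α) = k * (w + h) ∧ lam * SC α (k * π + α) = k * (w + h) + w := by
  obtain ⟨h1, h2, h3, h4, h5⟩ := hP
  have hper' : ∀ θ : ℝ, ∀ k : ℤ, lam * SC α (θ + k * π) = lam * SC α θ + k * (w + h) := by
    intro θ k
    induction k using Int.induction_on with
    | zero => simp
    | succ i ih =>
      have e : θ + ((i : ℤ) + 1 : ℤ) * π = θ + ((i : ℤ) : ℝ) * π + π := by push_cast; ring
      rw [e, hper, mul_add, ih, h5]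
      push_cast
      ring
    | pred i ih =>
      have e := hper (θ + (-(i : ℤ) - 1 : ℤ) * π)
      have e2 : θ + ((-(i : ℤ) - 1 : ℤ) : ℝ) * π + π = θ + ((-(i : ℤ) : ℤ) : ℝ) * π := by
        push_cast; ring
      rw [e2] at e
      have e3 : lam * SC α (θ + ((-(i : ℤ) - 1 : ℤ) : ℝ) * π) =
          lam * SC α (θ + ((-(i : ℤ) : ℤ) : ℝ) * π) - lam * SC α (π - α) := by
        rw [e]
        ring
      rw [e3, ih, h5]
      push_cast
      ring
  constructor
  · rw [show (k : ℝ) * π - α = -α + k * π by ring, hper']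
    have : SC α (-α) = 0 := intervalIntegral.integral_same
    rw [this]
    ring
  · rw [show (k : ℝ) * π + α = α + k * π by ring, hper', h4]
    ring

theorem t_LB : S_FS → S_DC → S_LB := by
  intro hFS _ κ hκ
  have hpi := Real.pi_pos
  have hM : 0 < 48 / (2 / π * κ) := by positivity
  refine ⟨2, 48 / (2 / π * κ), by norm_num, hM, fun w h α lam hw hh hP h1 h2 θ => ?_⟩
  obtain ⟨hI, -, hmono, hper, -⟩ := hFS α hP.1 hP.2.1
  have hlam : 0 < lam := hP.2.2.1
  have hZ := SC_Z hP hper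
  have hne : (Z α).Nonempty := ⟨_, 0, Or.inl rfl⟩
  have het : et α θ = Metric.infDist θ (Z α) := rfl
  have hcor : ∀ z ∈ Z α, lam * SC α z ∈ corners w h := by
    rintro z ⟨k, hk | hk⟩
    · exact ⟨k, Or.inr (by rw [hk]; exact (hZ k).2)⟩
    · exact ⟨k, Or.inl (by rw [hk]; exact (hZ k).1)⟩
  have hcor' : ∀ y ∈ corners w h, ∃ z ∈ Z α, y = lam * SC α z := by
    rintro y ⟨k, hk | hk⟩
    · exact ⟨k * π - α, ⟨k, Or.inr rfl⟩, by rw [hk]; exact (hZ k).1.symm⟩
    · exact ⟨k * π + α, ⟨k, Or.inl rfl⟩, by rw [hk]; exact (hZ k).2.symm⟩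
  have hdist : ∀ z, dist (lam * SC α θ) (lam * SC α z) = lam * |SC α θ - SC α z| := by
    intro z
    rw [Real.dist_eq, ← mul_sub, abs_mul, abs_of_pos hlam]
  constructor
  · refine (Metric.le_infDist ⟨_, hcor _ hne.choose_spec⟩).2 fun y hy => ?_
    obtain ⟨z, hz, rfl⟩ := hcor' y hy
    rw [hdist]
    have h3 := SC_low hz hI θ
    have h4 : √(et α θ) ≤ √|θ - z| := Real.sqrt_le_sqrt (by
      rw [het, ← Real.dist_eq]
      exact Metric.infDist_le_dist_of_mem hz)
    nlinarith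
  · -- upper bound
    have hup : ∀ z ∈ Z α, |θ - z| ≤ π →
        dc w h (lam * SC α θ) ≤ lam * (48 / (2 / π * κ)) * √|θ - z| := by
      intro z hz hzp
      have h3 : dc w h (lam * SC α θ) ≤ lam * |SC α θ - SC α z| := by
        rw [← hdist]
        exact Metric.infDist_le_dist_of_mem (hcor z hz)
      have h4 : |SC α θ - SC α z| ≤ 48 / (2 / π * κ) * √|θ - z| := by
        rcases le_total z θ with hle | hle
        · rw [abs_of_nonneg (sub_nonneg.2 (hmono.monotone hle)),
            abs_of_nonneg (sub_nonneg.2 hle)]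
          rw [abs_of_nonneg (sub_nonneg.2 hle)] at hzp
          exact SC_up hκ h1 h2 hI hle hzp
        · rw [abs_of_nonpos (sub_nonpos.2 (hmono.monotone hle)),
            abs_of_nonpos (sub_nonpos.2 hle), neg_sub, neg_sub]
          rw [abs_of_nonpos (sub_nonpos.2 hle), neg_sub] at hzp
          exact SC_up hκ h1 h2 hI hle hzp
      rw [mul_assoc]
      exact h3.trans (mul_le_mul_of_nonneg_left h4 hlam.le)
    obtain ⟨z0, hz0, hz0p⟩ : ∃ z ∈ Z α, |θ - z| ≤ π := by
      refine ⟨⌊(θ - α) / π⌋ * π + α, ⟨_, Or.inl rfl⟩, ?_⟩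
      have k1 := Int.floor_le ((θ - α) / π)
      have k2 := Int.lt_floor_add_one ((θ - α) / π)
      rw [le_div_iff₀ hpi] at k1
      rw [div_lt_iff₀ hpi] at k2
      rw [abs_le]
      constructor <;> nlinarith
    have hup' : ∀ z ∈ Z α, dc w h (lam * SC α θ) ≤ lam * (48 / (2 / π * κ)) * √|θ - z| := by
      intro z hz
      rcases le_total |θ - z| π with hle | hle
      · exact hup z hz hle
      · refine (hup z0 hz0 hz0p).trans (mul_le_mul_of_nonneg_left ?_ (by positivity))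
        exact Real.sqrt_le_sqrt (hz0p.trans hle)
    have hq : (dc w h (lam * SC α θ) / (lam * (48 / (2 / π * κ)))) ^ 2 ≤ et α θ := by
      rw [het]
      refine (Metric.le_infDist hne).2 fun z hz => ?_
      rw [Real.dist_eq]
      have h5 := hup' z hz
      rw [mul_comm (lam * (48 / (2 / π * κ))), ← div_le_iff₀ (by positivity)] at h5
      have h6 : 0 ≤ dc w h (lam * SC α θ) / (lam * (48 / (2 / π * κ))) :=
        div_nonneg Metric.infDist_nonneg (by positivity)
      calc (dc w h (lam * SC α θ) / (lam * (48 / (2 / π * κ)))) ^ 2 ≤ √|θ - z| ^ 2 :=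
            pow_le_pow_left₀ h6 h5 2
        _ = |θ - z| := Real.sq_sqrt (abs_nonneg _)
    have h7 := Real.le_sqrt_of_sq_le hq
    rw [div_le_iff₀ (by positivity)] at h7
    calc dc w h (lam * SC α θ) ≤ √(et α θ) * (lam * (48 / (2 / π * κ))) := h7
      _ = 48 / (2 / π * κ) * (lam * √(et α θ)) := by ring

end Pool.Agent.Y989.RC.LB
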