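import Pool.Agent.Y989.RC.Stm

/-!
Project RC: assembly of the lower bound (helper412).
-/

set_option autoImplicit false

namespace Pool.Agent.Y989.RC.LO
open Finset H974 Pool.Agent.H160R2.CV

/-! ### all edges open -/

theorem reach_left {w h : ℤ} {F : Finset Edg} (hF : RE 0 w 0 h ⊆ F) (y : ℤ) (hy0 : 0 ≤ y) (hy : y ≤ h) :
    ∀ n : ℕ, (n : ℤ) ≤ w → Reach (↑F) ((n : ℤ), y) (0, y) := by
  intro n
  induction n with
  | zero => intro _; exact Reach.refl _ _
  | succ n ih =>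
    intro hn
    have h1 := ih (by push_cast at hn; omega)
    refine Reach.trans (Adj.reach ⟨((n : ℤ), y, true), ?_, Or.inr ⟨rfl, ?_⟩⟩) h1
    · apply hF
      rw [mem_RE_true]
      push_cast at hn
      omega
    · rw [tgt_true]
      push_cast
      rfl

theorem reach_down {w h : ℤ} {F : Finset Edg} (hw : 0 ≤ w) (hF : RE 0 w 0 h ⊆ F) :
    ∀ n : ℕ, (n : ℤ) ≤ h → Reach (↑F) (0, (n : ℤ)) (0, 0) := by
  intro n
  induction n with
  | zero => intro _; exact Reach.refl _ _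
  | succ n ih =>
    intro hn
    have h1 := ih (by push_cast at hn; omega)
    refine Reach.trans (Adj.reach ⟨(0, (n : ℤ), false), ?_, Or.inr ⟨rfl, ?_⟩⟩) h1
    · apply hF
      rw [mem_RE_false]
      push_cast at hn
      omega
    · rw [tgt_false]
      push_cast
      rfl

theorem reach_zero {w h : ℤ} {F : Finset Edg} (hF : RE 0 w 0 h ⊆ F) (u : Vtx) (hu : inR 0 w 0 h u) :
    Reach (↑F) u (0, 0) := by
  obtain ⟨x, y⟩ := u
  obtain ⟨⟨h1, h2⟩, h3, h4⟩ := hu
  simp only at h1 h2 h3 h4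
  have e1 := reach_left hF y h3 h4 x.toNat (by omega)
  have e2 := reach_down (by omega) hF y.toNat (by omega)
  rw [Int.toNat_of_nonneg h1] at e1
  rw [Int.toNat_of_nonneg h3] at e2
  exact e1.trans e2

theorem bd_inR (w h t : ℤ) (hw : 1 ≤ w) (hh : 1 ≤ h) : inR 0 w 0 h (bd w h t) := by
  have h1 : 0 ≤ t % (2 * (w + h)) := Int.emod_nonneg _ (by omega)
  have h2 : t % (2 * (w + h)) < 2 * (w + h) := Int.emod_lt_of_pos _ (by omega)
  unfold bd inR
  generalize t % (2 * (w + h)) = s at h1 h2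
  split_ifs <;> simp only <;> omega

theorem card_RE (w h : ℤ) (hw : 1 ≤ w) (hh : 1 ≤ h) (N : ℕ) (hwN : w ≤ N) (hhN : h ≤ N) :
    (RE 0 w 0 h).card ≤ (N + 1) * ((N + 1) * 2) := by
  unfold RE
  refine (card_filter_le _ _).trans ?_
  rw [card_product, card_product, Int.card_Icc, Int.card_Icc]
  have h1 : (w + 1 - 0).toNat ≤ N + 1 := by omega
  have h2 : (h + 1 - 0).toNat ≤ N + 1 := by omega
  have h3 : (Finset.univ : Finset Bool).card = 2 := rfl
  rw [h3]
  exact Nat.mul_le_mul h1 (Nat.mul_le_mul_right _ h2)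

theorem pr_small (w h : ℤ) (hw : 1 ≤ w) (hh : 1 ≤ h) (N : ℕ) (hwN : w ≤ N) (hhN : h ≤ N) (a b c d : ℤ)
    (hA : Arcs w h a b c d) : (1 / 2 : ℝ) ^ ((N + 1) * ((N + 1) * 2)) ≤ PR w h a b c d := by
  refine le_trans (pow_le_pow_of_le_one (by norm_num) (by norm_num) (card_RE w h hw hh N hwN hhN)) ?_
  refine (TH976.pr_all (S := RE 0 w 0 h) (T := RE 0 w 0 h) (Finset.Subset.refl _)).trans ?_
  unfold PR
  apply Pr_mono Pool.Agent.H160R2.CV.Quad.okP
  intro F _ hF
  obtain ⟨h1, h2, h3, h4⟩ := hA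
  refine ⟨b, c, ⟨h1, le_rfl⟩, ⟨le_rfl, h3⟩, ?_⟩
  exact (reach_zero hF _ (bd_inR w h b hw hh)).trans (reach_zero hF _ (bd_inR w h c hw hh)).symm

/-! ### sizes -/

theorem ph_rot (hDC : S_DC) (w h : ℤ) (hw : 1 ≤ w) (hh : 1 ≤ h) (t n : ℝ) :
    Ph h w (t - w) n = Ph w h t n := by
  unfold Ph
  rw [((hDC w h hw hh).1 t).1, min_comm (h : ℝ) w]

theorem ph_per (hDC : S_DC) (w h : ℤ) (hw : 1 ≤ w) (hh : 1 ≤ h) (t n : ℝ) :
    Ph w h (t + 2 * (w + h)) n = Ph w h t n := by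
  have e : t + 2 * ((w : ℝ) + h) = t + (w + h) + (w + h) := by ring
  unfold Ph
  rw [e, ((hDC w h hw hh).1 _).2.2.1, ((hDC w h hw hh).1 _).2.2.1]

theorem qr_rot (hDC : S_DC) (w h : ℤ) (hw : 1 ≤ w) (hh : 1 ≤ h) (t r g : ℝ) :
    qr h w (t - w) r g = qr w h t r g := by
  unfold qr
  rw [ph_rot hDC w h hw hh, ph_rot hDC w h hw hh]

theorem qr_per (hDC : S_DC) (w h : ℤ) (hw : 1 ≤ w) (hh : 1 ≤ h) (t r g : ℝ) :
    qr w h (t + 2 * (w + h)) r g = qr w h t r g := by
  unfold qr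
  rw [ph_per hDC w h hw hh, ph_per hDC w h hw hh]

theorem XX_rot (hDC : S_DC) (w h : ℤ) (hw : 1 ≤ w) (hh : 1 ≤ h) (a b c d : ℤ) :
    XX h w (a - w) (b - w) (c - w) (d - w) = XX w h a b c d := by
  unfold XX
  push_cast
  have e1 : (b : ℝ) - w - (a - w) + 1 = b - a + 1 := by ring
  have e2 : (c : ℝ) - w - (b - w) = c - b := by ring
  have e3 : (a : ℝ) - w + 2 * (h + w) - (d - w) = a + 2 * (w + h) - d := by ring
  have e4 : (d : ℝ) - w - (c - w) + 1 = d - c + 1 := by ring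
  rw [e1, e2, e3, e4, qr_rot hDC w h hw hh, qr_rot hDC w h hw hh]

theorem qr_nonneg (hPH : S_PH) (w h : ℤ) (hw : 1 ≤ w) (hh : 1 ≤ h) (t r g : ℝ) (hr : 0 < r) (hg : 0 < g) :
    0 ≤ qr w h t r g := by
  unfold qr
  have h1 := (hPH w h hw hh t).1 r hr
  have h2 := (hPH w h hw hh t).1 g hg
  positivity

theorem qr_le_one (w h : ℤ) (t r g : ℝ) : qr w h t r g ≤ 1 := min_le_left _ _

theorem gaps (w h a b c d : ℤ) (hA : Arcs w h a b c d) :
    (0 : ℝ) < (b : ℝ) - a + 1 ∧ (0 : ℝ) < (d : ℝ) - c + 1 ∧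
      (0 : ℝ) < min ((c : ℝ) - b) (a + 2 * (w + h) - d) := by
  obtain ⟨h1, h2, h3, h4⟩ := hA
  have e1 : (a : ℝ) ≤ b := by exact_mod_cast h1
  have e2 : (b : ℝ) < c := by exact_mod_cast h2
  have e3 : (c : ℝ) ≤ d := by exact_mod_cast h3
  have e4 : (d : ℝ) < a + 2 * (w + h) := by exact_mod_cast h4
  exact ⟨by linarith, by linarith, lt_min (by linarith) (by linarith)⟩

theorem XX_nonneg (hPH : S_PH) (w h : ℤ) (hw : 1 ≤ w) (hh : 1 ≤ h) (a b c d : ℤ) (hA : Arcs w h a b c d) :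
    0 ≤ XX w h a b c d := by
  obtain ⟨h1, h2, h3⟩ := gaps w h a b c d hA
  unfold XX
  exact mul_nonneg (qr_nonneg hPH w h hw hh _ _ _ h1 h3) (qr_nonneg hPH w h hw hh _ _ _ h2 h3)

theorem XX_le_one (hPH : S_PH) (w h : ℤ) (hw : 1 ≤ w) (hh : 1 ≤ h) (a b c d : ℤ) (hA : Arcs w h a b c d) :
    XX w h a b c d ≤ 1 := by
  obtain ⟨h1, h2, h3⟩ := gaps w h a b c d hA
  unfold XX
  exact mul_le_one₀ (qr_le_one _ _ _ _ _) (qr_nonneg hPH w h hw hh _ _ _ h2 h3) (qr_le_one _ _ _ _ _)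

/-- comparison of the sizes at the two ends of an arc -/
theorem qr_cmp (hPH : S_PH) (K : ℕ) (w h : ℤ) (hasp : Asp K w h) (s t r g : ℝ) (hr : 0 < r) (hg : 0 < g)
    (hst : |s - t| ≤ r) : qr w h s r g ≤ (2 * ((K : ℝ) + 1)) ^ 2 * qr w h t r g := by
  obtain ⟨hw, hh, hwK, hhK⟩ := hasp
  have hw1 : (1 : ℝ) ≤ w := by exact_mod_cast hw
  have hh1 : (1 : ℝ) ≤ h := by exact_mod_cast hh
  have hwK' : (w : ℝ) ≤ K * h := by exact_mod_cast hwK
  have hhK' : (h : ℝ) ≤ K * w := by exact_mod_cast hhK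
  have hK0 : (0 : ℝ) ≤ K := Nat.cast_nonneg _
  have hC1 : (1 : ℝ) ≤ 2 * ((K : ℝ) + 1) := by linarith
  have hmin : 0 < min (w : ℝ) h := lt_min (by linarith) (by linarith)
  have hC : (2 * ((w : ℝ) + h)) / min (w : ℝ) h ≤ 2 * ((K : ℝ) + 1) := by
    rw [div_le_iff₀ hmin]
    rcases le_total (w : ℝ) h with h1 | h1
    · rw [min_eq_left h1]; nlinarith
    · rw [min_eq_right h1]; nlinarith
  have hcmp : ∀ (x y n : ℝ), 0 < n → |x - y| ≤ n → Ph w h x n ≤ 2 * ((K : ℝ) + 1) * Ph w h y n := by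
    intro x y n hn hxy
    have h1 := (hPH w h hw hh y).2.2.2.1 n x hn hxy
    exact h1.trans (mul_le_mul_of_nonneg_right hC ((hPH w h hw hh y).1 n hn).le)
  have hpsr := (hPH w h hw hh s).1 r hr
  have hpsg := (hPH w h hw hh s).1 g hg
  have hptr := (hPH w h hw hh t).1 r hr
  have hptg := (hPH w h hw hh t).1 g hg
  have hC2 : (1 : ℝ) ≤ (2 * ((K : ℝ) + 1)) ^ 2 := one_le_pow₀ hC1
  rcases le_or_gt r g with hrg | hrg
  · have h1 := hcmp s t r hr hst
    have h2 := hcmp t s g hg (by rw [abs_sub_comm]; exact hst.trans hrg)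
    have h3 : Ph w h s r / Ph w h s g ≤ (2 * ((K : ℝ) + 1)) ^ 2 * (Ph w h t r / Ph w h t g) := by
      rw [← mul_div_assoc, div_le_div_iff₀ hpsg hptg]
      calc Ph w h s r * Ph w h t g ≤ (2 * ((K : ℝ) + 1) * Ph w h t r) * (2 * ((K : ℝ) + 1) * Ph w h s g) :=
            mul_le_mul h1 h2 hptg.le (by positivity)
        _ = _ := by ring
    unfold qr
    rcases le_total 1 (Ph w h t r / Ph w h t g) with h4 | h4
    · rw [min_eq_left h4, mul_one]
      exact (min_le_left _ _).trans hC2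
    · rw [min_eq_right h4]
      exact (min_le_right _ _).trans h3
  · have h1 : qr w h t r g = 1 := by
      unfold qr
      apply min_eq_left
      rw [one_le_div hptg]
      exact (hPH w h hw hh t).2.1 g r hg hrg.le
    rw [h1, mul_one]
    exact (qr_le_one _ _ _ _ _).trans hC2

/-- exchange of the arcs -/
theorem XX_exc (hDC : S_DC) (hPH : S_PH) (K : ℕ) (w h : ℤ) (hasp : Asp K w h) (a b c d : ℤ)
    (hA : Arcs w h a b c d) : XX w h a b c d ≤
      ((2 * ((K : ℝ) + 1)) ^ 2) ^ 2 * XX w h c d (a + 2 * (w + h)) (b + 2 * (w + h)) := by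
  obtain ⟨h1, h2, h3⟩ := gaps w h a b c d hA
  have hw := hasp.1
  have hh := hasp.2.1
  unfold XX
  push_cast
  have e1 : (a : ℝ) + 2 * (w + h) - d = a + 2 * (w + h) - d := rfl
  have e2 : (c : ℝ) + 2 * (w + h) - (b + 2 * (w + h)) = c - b := by ring
  have e3 : (b : ℝ) + 2 * (w + h) - (a + 2 * (w + h)) + 1 = b - a + 1 := by ring
  rw [e2, e3, min_comm ((a : ℝ) + 2 * (w + h) - d) (c - b), qr_per hDC w h hw hh]
  set ρ := min ((c : ℝ) - b) (a + 2 * (w + h) - d) with hρ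
  have k1 : qr w h b (b - a + 1) ρ ≤ (2 * ((K : ℝ) + 1)) ^ 2 * qr w h a (b - a + 1) ρ := by
    apply qr_cmp hPH K w h hasp _ _ _ _ h1 h3
    have : (a : ℝ) ≤ b := by exact_mod_cast hA.1
    rw [abs_of_nonneg (by linarith)]
    linarith
  have k2 : qr w h c (d - c + 1) ρ ≤ (2 * ((K : ℝ) + 1)) ^ 2 * qr w h d (d - c + 1) ρ := by
    apply qr_cmp hPH K w h hasp _ _ _ _ h2 h3
    have : (c : ℝ) ≤ d := by exact_mod_cast hA.2.2.1
    rw [abs_sub_comm, abs_of_nonneg (by linarith)]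
    linarith
  have p1 := qr_nonneg hPH w h hw hh (c : ℝ) _ _ h2 h3
  have p2 := qr_nonneg hPH w h hw hh (a : ℝ) _ _ h1 h3
  calc qr w h b (b - a + 1) ρ * qr w h c (d - c + 1) ρ
      ≤ ((2 * ((K : ℝ) + 1)) ^ 2 * qr w h a (b - a + 1) ρ) *
        ((2 * ((K : ℝ) + 1)) ^ 2 * qr w h d (d - c + 1) ρ) :=
        mul_le_mul k1 k2 p1 (by positivity)
    _ = _ := by ring

/-! ### rotation -/

/-- the lower bound with constant `κ` for all arcs with a small first gap which starts at `b` -/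
def Good (κ : ℝ) (w h b : ℤ) : Prop := ∀ a c d : ℤ, Arcs w h a b c d →
  c - b ≤ a + 2 * (w + h) - d → 100 * (c - b) ≤ min w h →
  κ * (XX w h a b c d) ^ ((1 : ℝ) / 3) ≤ PR w h a b c d

theorem good_rot (hSYM : S_SYM) (hDC : S_DC) (κ : ℝ) (w h b : ℤ) (hw : 1 ≤ w) (hh : 1 ≤ h) :
    Good κ w h b ↔ Good κ h w (b - w) := by
  constructor
  · intro hG a c d hA h1 h2
    have h3 := hG (a + w) (c + w) (d + w) (by unfold Arcs at hA ⊢; omega) (by omega)
      (by rw [min_comm]; omega)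
    have e1 := (hSYM w h hw hh (a + w) b (c + w) (d + w)).1
    have e2 := XX_rot hDC w h hw hh (a + w) b (c + w) (d + w)
    rw [add_sub_cancel_right, add_sub_cancel_right, add_sub_cancel_right] at e1 e2
    rw [e2, ← e1]
    exact h3
  · intro hG a c d hA h1 h2
    have h3 := hG (a - w) (c - w) (d - w) (by unfold Arcs at hA ⊢; omega) (by omega)
      (by rw [min_comm]; omega)
    have e1 := (hSYM w h hw hh a b c d).1
    have e2 := XX_rot hDC w h hw hh a b c d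
    rw [e1, ← e2]
    exact h3

theorem good_half (hSYM : S_SYM) (hDC : S_DC) (κ : ℝ) (w h b : ℤ) (hw : 1 ≤ w) (hh : 1 ≤ h) :
    Good κ w h b ↔ Good κ w h (b - (w + h)) := by
  rw [good_rot hSYM hDC κ w h b hw hh, good_rot hSYM hDC κ h w (b - w) hh hw]
  have e : b - w - h = b - (w + h) := by ring
  rw [e]

theorem good_nat (hSYM : S_SYM) (hDC : S_DC) (κ : ℝ) (w h : ℤ) (hw : 1 ≤ w) (hh : 1 ≤ h) (n : ℕ) :
    ∀ b : ℤ, Good κ w h b ↔ Good κ w h (b - n * (w + h)) := by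
  induction n with
  | zero => intro b; simp
  | succ n ih =>
    intro b
    rw [ih b, good_half hSYM hDC κ w h _ hw hh]
    have e : b - (n : ℤ) * (w + h) - (w + h) = b - ((n + 1 : ℕ) : ℤ) * (w + h) := by push_cast; ring
    rw [e]

theorem good_int (hSYM : S_SYM) (hDC : S_DC) (κ : ℝ) (w h : ℤ) (hw : 1 ≤ w) (hh : 1 ≤ h) (k b : ℤ) :
    Good κ w h b ↔ Good κ w h (b - k * (w + h)) := by
  rcases Int.le_total 0 k with hk | hk
  · have h1 := good_nat hSYM hDC κ w h hw hh k.toNat b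
    rw [Int.toNat_of_nonneg hk] at h1
    exact h1
  · have h1 := good_nat hSYM hDC κ w h hw hh (-k).toNat (b - k * (w + h))
    rw [Int.toNat_of_nonneg (by omega)] at h1
    have e : b - k * (w + h) - -k * (w + h) = b := by ring
    rw [e] at h1
    exact h1.symm

theorem good_all (hSYM : S_SYM) (hDC : S_DC) (κ : ℝ)
    (hLO1 : ∀ w h : ℤ, 1 ≤ w → 1 ≤ h → ∀ a b c' d : ℤ,
      Arcs w h a b c' d → c' - b ≤ a + 2 * (w + h) - d → 100 * (c' - b) ≤ min w h → -h ≤ 2 * b →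
        2 * b ≤ w → κ * (XX w h a b c' d) ^ ((1 : ℝ) / 3) ≤ PR w h a b c' d)
    (w h : ℤ) (hw : 1 ≤ w) (hh : 1 ≤ h) (b : ℤ) : Good κ w h b := by
  set k : ℤ := (2 * b + h) / (2 * (w + h)) with hk
  rw [good_int hSYM hDC κ w h hw hh k b]
  set b' : ℤ := b - k * (w + h) with hb'
  have h1 : 2 * b' + h = (2 * b + h) % (2 * (w + h)) := by
    rw [Int.emod_def, ← hk, hb']
    ring
  have h2 : 0 ≤ 2 * b' + h := by rw [h1]; exact Int.emod_nonneg _ (by omega)
  have h3 : 2 * b' + h < 2 * (w + h) := by rw [h1]; exact Int.emod_lt_of_pos _ (by omega)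
  by_cases h4 : 2 * b' ≤ w
  · intro a c d hA h5 h6
    exact hLO1 w h hw hh a b' c d hA h5 h6 (by omega) h4
  · rw [good_rot hSYM hDC κ w h b' hw hh]
    intro a c d hA h5 h6
    exact hLO1 h w hh hw a (b' - w) c d hA h5 h6 (by omega) (by omega)

theorem t_LO : S_SYM → S_DC → S_PH → S_LO1 → S_LO2 → S_LO := by
  intro hSYM hDC hPH hLO1 hLO2 K
  obtain ⟨c₁, hc₁, h₁⟩ := hLO1
  obtain ⟨c₂, hc₂, h₂⟩ := hLO2 K
  set N : ℕ := 1000 * K with hN
  set c₀ : ℝ := (1 / 2 : ℝ) ^ ((N + 1) * ((N + 1) * 2)) with hc₀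
  have hc₀' : 0 < c₀ := by positivity
  set M : ℝ := (((2 * ((K : ℝ) + 1)) ^ 2) ^ 2) ^ ((1 : ℝ) / 3) with hM
  have hM1 : 1 ≤ M := by
    apply Real.one_le_rpow _ (by norm_num)
    apply one_le_pow₀
    apply one_le_pow₀
    have : (0 : ℝ) ≤ K := Nat.cast_nonneg _
    linarith
  have hM0 : 0 < M := by linarith
  refine ⟨min c₀ (min c₂ (c₁ * M⁻¹)), by positivity, ?_⟩
  intro w h hasp a b c d hA
  have hw := hasp.1
  have hh := hasp.2.1
  have hX0 := XX_nonneg hPH w h hw hh a b c d hA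
  have hXp : 0 ≤ (XX w h a b c d) ^ ((1 : ℝ) / 3) := Real.rpow_nonneg hX0 _
  have hgood : ∀ (w h : ℤ) (hw : 1 ≤ w) (hh : 1 ≤ h) (b : ℤ), Good c₁ w h b :=
    fun w h hw hh b => good_all hSYM hDC c₁ h₁ w h hw hh b
  have hc₁M : c₁ * M⁻¹ ≤ c₁ := by
    apply mul_le_of_le_one_right hc₁.le
    exact inv_le_one_of_one_le₀ hM1
  by_cases hsmall : min w h < 1000
  · -- small rectangles
    have hK : 1 ≤ K := by
      rcases Nat.eq_zero_or_pos K with h0 | h0
      · exfalso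
        have := hasp.2.2.1
        rw [h0] at this
        simp at this
        omega
      · exact h0
    have hwN : w ≤ (N : ℤ) := by
      have h3 := hasp.2.2.1
      have hK' : (1 : ℤ) ≤ K := by exact_mod_cast hK
      rw [hN]
      push_cast
      rcases le_total w h with h4 | h4
      · rw [min_eq_left h4] at hsmall
        nlinarith
      · rw [min_eq_right h4] at hsmall
        nlinarith
    have hhN : h ≤ (N : ℤ) := by
      have h3 := hasp.2.2.2
      have hK' : (1 : ℤ) ≤ K := by exact_mod_cast hK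
      rw [hN]
      push_cast
      rcases le_total w h with h4 | h4
      · rw [min_eq_left h4] at hsmall
        nlinarith
      · rw [min_eq_right h4] at hsmall
        nlinarith
    have h3 := pr_small w h hw hh N hwN hhN a b c d hA
    refine le_trans ?_ h3
    have h4 : (XX w h a b c d) ^ ((1 : ℝ) / 3) ≤ 1 :=
      Real.rpow_le_one hX0 (XX_le_one hPH w h hw hh a b c d hA) (by norm_num)
    calc min c₀ (min c₂ (c₁ * M⁻¹)) * (XX w h a b c d) ^ ((1 : ℝ) / 3) ≤ c₀ * 1 :=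
          mul_le_mul (min_le_left _ _) h4 hXp hc₀'.le
      _ = c₀ := mul_one _
  · have hbig : 1000 ≤ min w h := by omega
    by_cases hg1 : min w h ≤ 100 * (c - b)
    · by_cases hg2 : min w h ≤ 100 * (a + 2 * (w + h) - d)
      · refine le_trans (mul_le_mul_of_nonneg_right ?_ hXp) (h₂ w h hasp hbig a b c d hA hg1 hg2)
        exact (min_le_right _ _).trans (min_le_left _ _)
      · -- the second gap is small
        have hA' : Arcs w h c d (a + 2 * (w + h)) (b + 2 * (w + h)) := by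
          obtain ⟨q1, q2, q3, q4⟩ := hA
          exact ⟨q3, q4, by omega, by omega⟩
        have h3 := hgood w h hw hh d c (a + 2 * (w + h)) (b + 2 * (w + h)) hA' (by omega) (by omega)
        have e1 := (hSYM w h hw hh a b c d).2.2.1
        rw [← e1] at h3
        refine le_trans ?_ h3
        have h4 := XX_exc hDC hPH K w h hasp a b c d hA
        have hX0' := XX_nonneg hPH w h hw hh _ _ _ _ hA'
        have h5 : (XX w h a b c d) ^ ((1 : ℝ) / 3) ≤
            M * (XX w h c d (a + 2 * (w + h)) (b + 2 * (w + h))) ^ ((1 : ℝ) / 3) := by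
          rw [hM, ← Real.mul_rpow (by positivity) hX0']
          exact Real.rpow_le_rpow hX0 h4 (by norm_num)
        have h6 : min c₀ (min c₂ (c₁ * M⁻¹)) ≤ c₁ * M⁻¹ := (min_le_right _ _).trans (min_le_right _ _)
        calc min c₀ (min c₂ (c₁ * M⁻¹)) * (XX w h a b c d) ^ ((1 : ℝ) / 3)
            ≤ (c₁ * M⁻¹) * (M * (XX w h c d (a + 2 * (w + h)) (b + 2 * (w + h))) ^ ((1 : ℝ) / 3)) :=
              mul_le_mul h6 h5 hXp (by positivity)
          _ = c₁ * (XX w h c d (a + 2 * (w + h)) (b + 2 * (w + h))) ^ ((1 : ℝ) / 3) := by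
              field_simp
    · by_cases hg2 : c - b ≤ a + 2 * (w + h) - d
      · have h3 := hgood w h hw hh b a c d hA hg2 (by omega)
        refine le_trans (mul_le_mul_of_nonneg_right ?_ hXp) h3
        exact ((min_le_right _ _).trans (min_le_right _ _)).trans hc₁M
      · have hA' : Arcs w h c d (a + 2 * (w + h)) (b + 2 * (w + h)) := by
          obtain ⟨q1, q2, q3, q4⟩ := hA
          exact ⟨q3, q4, by omega, by omega⟩
        have h3 := hgood w h hw hh d c (a + 2 * (w + h)) (b + 2 * (w + h)) hA' (by omega) (by omega)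
        have e1 := (hSYM w h hw hh a b c d).2.2.1
        rw [← e1] at h3
        refine le_trans ?_ h3
        have h4 := XX_exc hDC hPH K w h hasp a b c d hA
        have hX0' := XX_nonneg hPH w h hw hh _ _ _ _ hA'
        have h5 : (XX w h a b c d) ^ ((1 : ℝ) / 3) ≤
            M * (XX w h c d (a + 2 * (w + h)) (b + 2 * (w + h))) ^ ((1 : ℝ) / 3) := by
          rw [hM, ← Real.mul_rpow (by positivity) hX0']
          exact Real.rpow_le_rpow hX0 h4 (by norm_num)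
        have h6 : min c₀ (min c₂ (c₁ * M⁻¹)) ≤ c₁ * M⁻¹ := (min_le_right _ _).trans (min_le_right _ _)
        calc min c₀ (min c₂ (c₁ * M⁻¹)) * (XX w h a b c d) ^ ((1 : ℝ) / 3)
            ≤ (c₁ * M⁻¹) * (M * (XX w h c d (a + 2 * (w + h)) (b + 2 * (w + h))) ^ ((1 : ℝ) / 3)) :=
              mul_le_mul h6 h5 hXp (by positivity)
          _ = c₁ * (XX w h c d (a + 2 * (w + h)) (b + 2 * (w + h))) ^ ((1 : ℝ) / 3) := by
              field_simp

end Pool.Agent.Y989.RC.LO
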