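import Pool.Agent.Y989.RC.Stm

set_option autoImplicit false

namespace Pool.Agent.Y989.RC.LO1
open Finset H974 TH976 TH976.QC Pool.Agent.H160R2.CV
open Pool.Agent.H160R2.CV.Quad Pool.Agent.H389R2.CD

/-- the boundary numbering is the standard one near the corner `(0, 0)` -/
theorem bd_bt {w h x : ℤ} (hw : 1 ≤ w) (hh : 1 ≤ h) (h1 : -h ≤ x) (h2 : x ≤ w) :
    bd w h x = bt x := by
  unfold bd bt
  rcases le_or_gt 0 x with hx | hx
  · have e : x % (2 * (w + h)) = x := Int.emod_eq_of_lt hx (by omega)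
    rw [e, if_pos h2, max_eq_left hx, max_eq_right (by omega)]
  · have e : x % (2 * (w + h)) = x + 2 * (w + h) := by
      rw [← Int.add_emod_right, Int.emod_eq_of_lt (by omega) (by omega)]
    rw [e, if_neg (by omega), if_neg (by omega), max_eq_right (by omega), max_eq_left (by omega)]
    split_ifs with h3
    · have : x = -h := by omega
      subst this
      ext
      · simp only; omega
      · simp only; omega
    · ext
      · simp only
      · simp only; omega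

/-- the two distances agree up to a factor two -/
theorem dc_low {w h : ℤ} (hD : S_DC) (hw : 1 ≤ w) (hh : 1 ≤ h) (t : ℤ)
    (h1 : -(h : ℝ) / 2 ≤ t) (h2 : (t : ℝ) ≤ 51 / 100 * w) :
    |(t : ℝ)| / 2 ≤ dc w h t ∧ dc w h t ≤ |(t : ℝ)| := by
  obtain ⟨d1, d2, d3, d4⟩ := hD w h hw hh
  have hw' : (1 : ℝ) ≤ w := by exact_mod_cast hw
  refine ⟨?_, (d1 t).2.2.2.2.1⟩
  rcases le_total (0 : ℝ) t with ht | ht
  · rw [d3 t ht (by linarith), abs_of_nonneg ht]
    exact le_min (by linarith) (by linarith)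
  · rw [d2 t h1 (by linarith)]
    have := abs_nonneg (t : ℝ)
    linarith

/-- the two ratios agree up to a factor two -/
theorem qr_le {w h t : ℤ} {r r' g : ℝ} (hd1 : |(t : ℝ)| / 2 ≤ dc w h t) (hd2 : dc w h t ≤ |(t : ℝ)|)
    (hg : 0 < g) (hgm : g ≤ min (w : ℝ) h) (hr : 0 < r) (hr' : r' = min r g) :
    qr w h t r g ≤ 2 * qf t r' g := by
  have hM : ∀ n : ℝ, 0 < n → n ≤ min (w : ℝ) h → Ph w h t n ≤ Mf t n ∧ Mf t n ≤ 2 * Ph w h t n := by
    intro n hn hnm
    unfold Ph Mf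
    rw [min_eq_left hnm]
    have e1 := le_max_left (dc w h t) n
    have e2 := le_max_right (dc w h t) n
    constructor
    · exact mul_le_mul_of_nonneg_left (max_le_max hd2 le_rfl) hn.le
    · have : max |(t : ℝ)| n ≤ 2 * max (dc w h t) n := max_le (by linarith) (by linarith)
      calc n * max |(t : ℝ)| n ≤ n * (2 * max (dc w h t) n) := mul_le_mul_of_nonneg_left this hn.le
        _ = _ := by ring
  rcases le_or_gt r g with hrg | hrg
  · rw [min_eq_left hrg] at hr'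
    subst hr'
    obtain ⟨a1, a2⟩ := hM r' hr (hrg.trans hgm)
    obtain ⟨b1, b2⟩ := hM g hg hgm
    have p1 := Mf_pos t hr
    have p2 := Mf_pos t hg
    have p3 : 0 < Ph w h t g := by linarith
    unfold qr qf
    rw [mul_min_of_nonneg _ _ (by norm_num : (0 : ℝ) ≤ 2)]
    apply le_min
    · exact (min_le_left _ _).trans (by norm_num)
    · refine (min_le_right _ _).trans ?_
      rw [mul_div_assoc', div_le_div_iff₀ p3 p2]
      have p4 : 0 < Ph w h t r' := by linarith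
      nlinarith [mul_le_mul a1 b2 p2.le p1.le]
  · rw [min_eq_right hrg.le] at hr'
    subst hr'
    have e : qf t r' r' = 1 := by
      unfold qf
      rw [div_self (Mf_pos t hg).ne', min_self]
    rw [e]
    exact (min_le_left _ _).trans (by norm_num)

theorem t_LO1 : S_DC → S_PH → S_LO1 := by
  intro hD _
  obtain ⟨κ, hκ, hL⟩ := low_exp Pool.Agent.H160R2.SA.arSharp
  refine ⟨κ / 4, by positivity, ?_⟩
  intro w h hw hh a b c' d hA hg hgm hb1 hb2
  obtain ⟨hab, hbc, hcd, hda⟩ := hA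
  have hgw : 100 * (c' - b) ≤ w := hgm.trans (min_le_left _ _)
  have hgh : 100 * (c' - b) ≤ h := hgm.trans (min_le_right _ _)
  obtain ⟨g, hg'⟩ : ∃ g : ℕ, (g : ℤ) = c' - b := ⟨(c' - b).toNat, by omega⟩
  obtain ⟨r, hr⟩ : ∃ r : ℕ, (r : ℤ) = b - a + 1 := ⟨(b - a + 1).toNat, by omega⟩
  obtain ⟨s, hs⟩ : ∃ s : ℕ, (s : ℤ) = d - c' + 1 := ⟨(d - c' + 1).toNat, by omega⟩
  obtain ⟨r', hr'⟩ : ∃ r', r' = min r g := ⟨_, rfl⟩
  obtain ⟨s', hs'⟩ : ∃ s', s' = min s g := ⟨_, rfl⟩
  have hS : qb (bt b) (40 * g) ⊆ RE 0 w 0 h := by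
    rintro ⟨x, y, _ | _⟩ he
    · rw [qb, mem_RE_false] at he
      rw [mem_RE_false]
      simp only [bt] at he
      push_cast at he
      omega
    · rw [qb, mem_RE_true] at he
      rw [mem_RE_true]
      simp only [bt] at he
      push_cast at he
      omega
  have hQ : InQ (RE 0 w 0 h) := by
    rintro ⟨x, y, _ | _⟩ he
    · rw [mem_RE_false] at he
      simp only
      omega
    · rw [mem_RE_true] at he
      simp only
      omega
  have h1 := hL (b - r' + 1) b c' (c' + s' - 1) r' s' g (by omega) (by omega) (by omega)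
    (by omega) (by omega) hg' (RE 0 w 0 h) hQ hS
  have h2 : Pr P (RE 0 w 0 h) (CNq (b - r' + 1) b c' (c' + s' - 1)) ≤ PR w h a b c' d := by
    refine Pr_mono okP ?_
    rintro F _ ⟨x, y, hx, hy, hxy⟩
    refine ⟨x, y, ⟨by omega, by omega⟩, ⟨by omega, by omega⟩, ?_⟩
    rw [bd_bt hw hh (by omega) (by omega), bd_bt hw hh (by omega) (by omega)]
    exact hxy
  refine le_trans ?_ (h1.trans h2)
  -- the comparison of the products
  have hw' : (1 : ℝ) ≤ w := by exact_mod_cast hw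
  have hh' : (1 : ℝ) ≤ h := by exact_mod_cast hh
  have hgR : (g : ℝ) = (c' : ℝ) - b := by exact_mod_cast hg'
  have hrR : (r : ℝ) = (b : ℝ) - a + 1 := by exact_mod_cast hr
  have hsR : (s : ℝ) = (d : ℝ) - c' + 1 := by exact_mod_cast hs
  have hg1 : (1 : ℝ) ≤ g := by exact_mod_cast (by omega : 1 ≤ g)
  have hr1 : (1 : ℝ) ≤ r := by exact_mod_cast (by omega : 1 ≤ r)
  have hs1 : (1 : ℝ) ≤ s := by exact_mod_cast (by omega : 1 ≤ s)
  have hgw' : 100 * ((c' : ℝ) - b) ≤ w := by exact_mod_cast hgw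
  have hgh' : 100 * ((c' : ℝ) - b) ≤ h := by exact_mod_cast hgh
  have hb1' : -(h : ℝ) ≤ 2 * b := by exact_mod_cast hb1
  have hb2' : 2 * (b : ℝ) ≤ w := by exact_mod_cast hb2
  have hmin : min ((c' : ℝ) - b) (a + 2 * (w + h) - d) = g := by
    rw [hgR]
    apply min_eq_left
    exact_mod_cast hg
  have hgm' : (g : ℝ) ≤ min (w : ℝ) h := le_min (by linarith) (by linarith)
  obtain ⟨b1, b2⟩ := dc_low hD hw hh b (by linarith) (by linarith)
  obtain ⟨c1, c2⟩ := dc_low hD hw hh c' (by linarith) (by linarith)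
  have q1 : qr w h b r g ≤ 2 * qf b r' g :=
    qr_le b1 b2 (by linarith) hgm' (by linarith) (by rw [hr']; push_cast; rfl)
  have q2 : qr w h c' s g ≤ 2 * qf c' s' g :=
    qr_le c1 c2 (by linarith) hgm' (by linarith) (by rw [hs']; push_cast; rfl)
  have hr'1 : (1 : ℝ) ≤ r' := by exact_mod_cast (by omega : 1 ≤ r')
  have hs'1 : (1 : ℝ) ≤ s' := by exact_mod_cast (by omega : 1 ≤ s')
  have p1 := qf_pos b (r := (r' : ℝ)) (g := (g : ℝ)) (by linarith) (by linarith)
  have p2 := qf_pos c' (r := (s' : ℝ)) (g := (g : ℝ)) (by linarith) (by linarith)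
  have hPhn : ∀ t n : ℝ, 0 ≤ n → 0 ≤ Ph w h t n := by
    intro t n hn
    have hm : 0 ≤ min n (min (w : ℝ) h) := le_min hn (le_min (by linarith) (by linarith))
    exact mul_nonneg hm (hm.trans (le_max_right _ _))
  have n1 : 0 ≤ qr w h b r g :=
    le_min zero_le_one (div_nonneg (hPhn _ _ (by linarith)) (hPhn _ _ (by linarith)))
  have n2 : 0 ≤ qr w h c' s g :=
    le_min zero_le_one (div_nonneg (hPhn _ _ (by linarith)) (hPhn _ _ (by linarith)))
  have hX : XX w h a b c' d ≤ 4 * (qf b r' g * qf c' s' g) := by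
    unfold XX
    rw [hmin, ← hrR, ← hsR]
    calc qr w h b r g * qr w h c' s g ≤ (2 * qf b r' g) * (2 * qf c' s' g) :=
          mul_le_mul q1 q2 n2 (by positivity)
      _ = _ := by ring
  have hX0 : 0 ≤ XX w h a b c' d := by
    unfold XX
    rw [hmin, ← hrR, ← hsR]
    exact mul_nonneg n1 n2
  have h4 : (4 : ℝ) ^ ((1 : ℝ) / 3) ≤ 4 := by
    calc (4 : ℝ) ^ ((1 : ℝ) / 3) ≤ (4 : ℝ) ^ (1 : ℝ) :=
          Real.rpow_le_rpow_of_exponent_le (by norm_num) (by norm_num)
      _ = 4 := Real.rpow_one _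
  have hq0 : 0 ≤ (qf b r' g * qf c' s' g) ^ ((1 : ℝ) / 3) := Real.rpow_nonneg (by positivity) _
  calc κ / 4 * XX w h a b c' d ^ ((1 : ℝ) / 3)
      ≤ κ / 4 * (4 * (qf b r' g * qf c' s' g)) ^ ((1 : ℝ) / 3) :=
        mul_le_mul_of_nonneg_left (Real.rpow_le_rpow hX0 hX (by norm_num)) (by positivity)
    _ = κ / 4 * ((4 : ℝ) ^ ((1 : ℝ) / 3) * (qf b r' g * qf c' s' g) ^ ((1 : ℝ) / 3)) := by
        rw [Real.mul_rpow (by norm_num) (by positivity)]
    _ ≤ κ / 4 * (4 * (qf b r' g * qf c' s' g) ^ ((1 : ℝ) / 3)) := by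
        apply mul_le_mul_of_nonneg_left _ (by positivity)
        exact mul_le_mul_of_nonneg_right h4 hq0
    _ = κ * (qf b r' g * qf c' s' g) ^ ((1 : ℝ) / 3) := by ring

end Pool.Agent.Y989.RC.LO1
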