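import Pool.Agent.Y989.RC.Stm

/-!
Project RC (helper989), part LO2 (helper487): the lower bound when both gaps are large.
-/

set_option autoImplicit false

namespace Pool.Agent.Y989.RC.LO2
open Finset H974 TH976 TH976.QC Pool.Agent.H160R2.CV
open Pool.Agent.H160R2.CV.Quad Pool.Agent.H389R2.CD

theorem inR_bd {w h : ℤ} (hw : 1 ≤ w) (hh : 1 ≤ h) (t : ℤ) : inR 0 w 0 h (bd w h t) := by
  have h1 : 0 ≤ t % (2 * (w + h)) := Int.emod_nonneg _ (by omega)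
  have h2 : t % (2 * (w + h)) < 2 * (w + h) := Int.emod_lt_of_pos _ (by omega)
  unfold bd inR
  generalize t % (2 * (w + h)) = q at h1 h2
  split_ifs <;> dsimp only <;> omega

theorem sd_step {w h : ℤ} (hw : 1 ≤ w) (hh : 1 ≤ h) (t : ℤ) :
    sd (bd w h t) (bd w h (t + 1)) ≤ 1 := by
  have h1 : 0 ≤ t % (2 * (w + h)) := Int.emod_nonneg _ (by omega)
  have h2 : t % (2 * (w + h)) < 2 * (w + h) := Int.emod_lt_of_pos _ (by omega)
  have h3 : (t + 1) % (2 * (w + h)) = (t % (2 * (w + h)) + 1) % (2 * (w + h)) := by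
    rw [Int.emod_add_emod]
  have h4 : (t % (2 * (w + h)) + 1 < 2 * (w + h) ∧
      (t + 1) % (2 * (w + h)) = t % (2 * (w + h)) + 1) ∨
      (t % (2 * (w + h)) + 1 = 2 * (w + h) ∧ (t + 1) % (2 * (w + h)) = 0) := by
    rcases lt_or_ge (t % (2 * (w + h)) + 1) (2 * (w + h)) with h5 | h5
    · left
      refine ⟨h5, ?_⟩
      rw [h3, Int.emod_eq_of_lt (by omega) h5]
    · right
      have h6 : t % (2 * (w + h)) + 1 = 2 * (w + h) := by omega
      refine ⟨h6, ?_⟩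
      rw [h3, h6, Int.emod_self]
  unfold bd sd
  generalize (t + 1) % (2 * (w + h)) = q' at h4
  generalize t % (2 * (w + h)) = q at h1 h2 h4
  rcases h4 with ⟨h5, rfl⟩ | ⟨h5, rfl⟩
  · split_ifs <;> dsimp only <;> omega
  · split_ifs <;> dsimp only <;> omega

theorem sd_bd_nat {w h : ℤ} (hw : 1 ≤ w) (hh : 1 ≤ h) (t : ℤ) (n : ℕ) :
    sd (bd w h t) (bd w h (t + n)) ≤ n := by
  induction n with
  | zero =>
    rw [Nat.cast_zero, add_zero, sd_self]
  | succ n ih =>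
    have h1 := sd_step hw hh (t + n)
    have h2 := sd_tri (bd w h t) (bd w h (t + n)) (bd w h (t + n + 1))
    have e : t + ((n + 1 : ℕ) : ℤ) = t + n + 1 := by push_cast; ring
    rw [e]
    omega

theorem sd_bd {w h : ℤ} (hw : 1 ≤ w) (hh : 1 ≤ h) {x y : ℤ} {n : ℕ} (hxy : x ≤ y)
    (hn : y ≤ x + n) : sd (bd w h x) (bd w h y) ≤ n := by
  have h1 := sd_bd_nat hw hh x (y - x).toNat
  have e : x + (((y - x).toNat : ℕ) : ℤ) = y := by omega
  rw [e] at h1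
  omega

theorem incr_IAR (S : Finset Edg) (w h a b t : ℤ) (n : ℕ) : IncrE S (IAR w h a b t n) := by
  rintro F G hFG - ⟨x, v, hx, hv, hr⟩
  exact ⟨x, v, hx, hv, hr.mono (by exact_mod_cast hFG)⟩

theorem incr_Grid (S : Finset Edg) (w h m : ℤ) : IncrE S (Grid w h m) := by
  rintro F G hFG - ⟨h1, h2⟩
  exact ⟨fun k k0 k1 => (h1 k k0 k1).mono hFG, fun k k0 k1 => (h2 k k0 k1).mono hFG⟩

/-- the two arms and the grid give the connection -/
theorem conn (hG : S_GRC) {w h a b c' d : ℤ} {m r' s' : ℕ} (hw : 1 ≤ w) (hh : 1 ≤ h)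
    (hm : 1 ≤ m) (hmw : 3 * (m : ℤ) ≤ w) (hmh : 3 * (m : ℤ) ≤ h)
    (hrm : r' ≤ m) (hsm : s' ≤ m) (hra : (r' : ℤ) ≤ b - a + 1)
    (hsd : (s' : ℤ) ≤ d - c' + 1) {F : Finset Edg} (hF : F ⊆ RE 0 w 0 h)
    (h1 : IAR w h (b - r' + 1) b b (4 * m) F) (h2 : IAR w h c' (c' + s' - 1) c' (4 * m) F)
    (h3 : Grid w h m F) : CN w h a b c' d F := by
  obtain ⟨z, hz⟩ := hG w h m (by exact_mod_cast hm) hmw hmh F hF h3
  obtain ⟨x, v, hx, hv, hr⟩ := h1
  obtain ⟨y, u, hy, hu, hr2⟩ := h2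
  have e1 : sd (bd w h x) (bd w h b) ≤ m := sd_bd hw hh hx.2 (by omega)
  have e2 : sd (bd w h c') (bd w h y) ≤ m := sd_bd hw hh hy.1 (by omega)
  have f1 : 3 * m ≤ sd (bd w h x) v := by
    have t1 := sd_tri v (bd w h x) (bd w h b)
    rw [sd_comm v (bd w h x)] at t1
    omega
  have f2 : 3 * m ≤ sd (bd w h y) u := by
    have t1 := sd_tri u (bd w h y) (bd w h c')
    rw [sd_comm u (bd w h y), sd_comm (bd w h y) (bd w h c')] at t1
    omega
  have g1 := hz (bd w h x) v (inR_bd hw hh x) (by exact_mod_cast f1) hr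
  have g2 := hz (bd w h y) u (inR_bd hw hh y) (by exact_mod_cast f2) hr2
  exact ⟨x, y, ⟨by omega, hx.2⟩, ⟨hy.1, by omega⟩, g1.trans g2.symm⟩

theorem qr_le (hPH : S_PH) {w h : ℤ} (hw : 1 ≤ w) (hh : 1 ≤ h) (t : ℤ) {r ρ : ℝ} {m r' : ℕ}
    (hm : 1 ≤ m) (hr : 0 < r) (hr' : (r' : ℝ) = min r m) (hρ : 4 * (m : ℝ) ≤ ρ) :
    0 < Ph w h t r' / Ph w h t ((4 * m : ℕ) : ℝ) ∧
    qr w h t r ρ ≤ 16 * (Ph w h t r' / Ph w h t ((4 * m : ℕ) : ℝ)) := by
  obtain ⟨hpos, hmono, hscale, -, -⟩ := hPH w h hw hh t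
  have hm1 : (1 : ℝ) ≤ m := by exact_mod_cast hm
  have hm0 : (0 : ℝ) < m := by linarith
  have e : ((4 * m : ℕ) : ℝ) = 4 * m := by push_cast; ring
  rw [e]
  have p4 : 0 < Ph w h t (4 * m) := hpos _ (by linarith)
  have hr'0 : (0 : ℝ) < r' := by
    rw [hr']; exact lt_min hr hm0
  have p1 : 0 < Ph w h t r' := hpos _ hr'0
  refine ⟨div_pos p1 p4, ?_⟩
  unfold qr
  rcases le_total r m with h1 | h1
  · rw [min_eq_left h1] at hr'
    rw [hr'] at p1 ⊢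
    refine (min_le_right _ _).trans ?_
    have h2 : Ph w h t (4 * m) ≤ Ph w h t ρ := hmono _ _ (by linarith) hρ
    have h3 : Ph w h t r / Ph w h t ρ ≤ Ph w h t r / Ph w h t (4 * m) :=
      div_le_div_of_nonneg_left p1.le p4 h2
    have h4 : 0 < Ph w h t r / Ph w h t (4 * m) := div_pos p1 p4
    linarith
  · rw [min_eq_right h1] at hr'
    rw [hr'] at p1 ⊢
    refine (min_le_left _ _).trans ?_
    have h2 := hscale m 4 hm0 (by norm_num)
    have h3 : 1 / 16 ≤ Ph w h t m / Ph w h t (4 * m) := by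
      rw [div_le_div_iff₀ (by norm_num) p4]
      linarith
    linarith

theorem t_LO2 : S_IAR → S_GRP → S_GRC → S_DC → S_PH → S_LO2 := by
  intro hI hP hG _ hPH K
  obtain ⟨c1, hc1, hI⟩ := hI
  obtain ⟨c3, hc3, hP⟩ := hP (2000 * K)
  refine ⟨c1 * c1 * c3 / 256, by positivity, ?_⟩
  intro w h hA hM a b c' d hArc hg1 hg2
  obtain ⟨hw, hh, hwh, hhw⟩ := hA
  obtain ⟨hab, hbc, hcd, hda⟩ := hArc
  obtain ⟨m, hm⟩ : ∃ m : ℕ, (m : ℤ) = min w h / 1000 := ⟨(min w h / 1000).toNat, by omega⟩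
  have hm1 : 1 ≤ m := by omega
  have hm2 : 1000 * (m : ℤ) ≤ min w h := by omega
  have hm3 : min w h ≤ 2000 * (m : ℤ) := by omega
  have hK1 : (1 : ℤ) ≤ K := by
    rcases Nat.eq_zero_or_pos K with h0 | h0
    · rw [h0] at hwh
      simp at hwh
      omega
    · exact_mod_cast h0
  have hwK : w ≤ ((2000 * K : ℕ) : ℤ) * m := by
    push_cast
    have h1 : w ≤ K * min w h := by
      rcases le_total w h with h2 | h2
      · rw [min_eq_left h2]; nlinarith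
      · rw [min_eq_right h2]; exact hwh
    have h2 : (K : ℤ) * min w h ≤ K * (2000 * m) := mul_le_mul_of_nonneg_left hm3 (by omega)
    linarith
  have hhK : h ≤ ((2000 * K : ℕ) : ℤ) * m := by
    push_cast
    have h1 : h ≤ K * min w h := by
      rcases le_total w h with h2 | h2
      · rw [min_eq_left h2]; exact hhw
      · rw [min_eq_right h2]; nlinarith
    have h2 : (K : ℤ) * min w h ≤ K * (2000 * m) := mul_le_mul_of_nonneg_left hm3 (by omega)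
    linarith
  obtain ⟨r', hr'⟩ : ∃ r' : ℕ, (r' : ℤ) = min (b - a + 1) m := ⟨(min (b - a + 1) (m : ℤ)).toNat,
    by omega⟩
  obtain ⟨s', hs'⟩ : ∃ s' : ℕ, (s' : ℤ) = min (d - c' + 1) m :=
    ⟨(min (d - c' + 1) (m : ℤ)).toNat, by omega⟩
  have r1 : 1 ≤ r' := by omega
  have s1 : 1 ≤ s' := by omega
  have rm : r' ≤ m := by omega
  have sm : s' ≤ m := by omega
  have E1 := hI w h (b - r' + 1) b b hw hh r' (4 * m) r1 (by ring) (by omega) le_rfl (by omega)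
    (by omega)
  have E2 := hI w h c' (c' + s' - 1) c' hw hh s' (4 * m) s1 (by ring) le_rfl (by omega) (by omega)
    (by omega)
  have E3 := hP w h m (by omega) (by omega) (by omega) hwK hhK
  have hρ : 4 * (m : ℝ) ≤ min ((c' : ℝ) - b) (a + 2 * (w + h) - d) := by
    have h1 : 4 * (m : ℤ) ≤ c' - b := by omega
    have h2 : 4 * (m : ℤ) ≤ a + 2 * (w + h) - d := by omega
    apply le_min
    · exact_mod_cast h1
    · exact_mod_cast h2
  have hrr : ((r' : ℕ) : ℝ) = min ((b : ℝ) - a + 1) m := by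
    have h1 : ((r' : ℤ) : ℝ) = ((min (b - a + 1) (m : ℤ) : ℤ) : ℝ) := by rw [hr']
    push_cast at h1
    exact h1
  have hss : ((s' : ℕ) : ℝ) = min ((d : ℝ) - c' + 1) m := by
    have h1 : ((s' : ℤ) : ℝ) = ((min (d - c' + 1) (m : ℤ) : ℤ) : ℝ) := by rw [hs']
    push_cast at h1
    exact h1
  have hr0 : (0 : ℝ) < (b : ℝ) - a + 1 := by
    have h1 : (0 : ℤ) < b - a + 1 := by omega
    exact_mod_cast h1
  have hs0 : (0 : ℝ) < (d : ℝ) - c' + 1 := by
    have h1 : (0 : ℤ) < d - c' + 1 := by omega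
    exact_mod_cast h1
  obtain ⟨p1, q1⟩ := qr_le hPH hw hh b (m := m) (r' := r') hm1 hr0 hrr hρ
  obtain ⟨p2, q2⟩ := qr_le hPH hw hh c' (m := m) (r' := s') hm1 hs0 hss hρ
  have p1' := Real.rpow_nonneg p1.le ((1 : ℝ) / 3)
  have p2' := Real.rpow_nonneg p2.le ((1 : ℝ) / 3)
  have k1 := fkg (incr_IAR (RE 0 w 0 h) w h c' (c' + s' - 1) c' (4 * m))
    (incr_Grid (RE 0 w 0 h) w h m) hc3.le E2 E3
  have k2 := fkg (incr_IAR (RE 0 w 0 h) w h (b - r' + 1) b b (4 * m))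
    (incr_and (incr_IAR (RE 0 w 0 h) w h c' (c' + s' - 1) c' (4 * m))
      (incr_Grid (RE 0 w 0 h) w h m)) (by positivity) E1 k1
  have k3 : Pr P (RE 0 w 0 h) (fun F => IAR w h (b - r' + 1) b b (4 * m) F ∧
      (IAR w h c' (c' + s' - 1) c' (4 * m) F ∧ Grid w h m F)) ≤ PR w h a b c' d := by
    unfold PR
    apply Pr_mono (fun _ => by unfold P; norm_num)
    rintro F hF ⟨j1, j2, j3⟩
    exact conn hG hw hh hm1 (by omega) (by omega) rm sm (by omega) (by omega) hF j1 j2 j3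
  have hq1 : 0 ≤ qr w h b ((b : ℝ) - a + 1) (min ((c' : ℝ) - b) (a + 2 * (w + h) - d)) := by
    have hm0 : (1 : ℝ) ≤ m := by exact_mod_cast hm1
    exact le_min zero_le_one (div_nonneg ((hPH w h hw hh b).1 _ hr0).le
      ((hPH w h hw hh b).1 _ (by linarith)).le)
  have hq2 : 0 ≤ qr w h c' ((d : ℝ) - c' + 1) (min ((c' : ℝ) - b) (a + 2 * (w + h) - d)) := by
    have hm0 : (1 : ℝ) ≤ m := by exact_mod_cast hm1
    exact le_min zero_le_one (div_nonneg ((hPH w h hw hh c').1 _ hs0).le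
      ((hPH w h hw hh c').1 _ (by linarith)).le)
  have hX0 : 0 ≤ XX w h a b c' d := mul_nonneg hq1 hq2
  have hX : 1 / 256 * XX w h a b c' d ≤
      (Ph w h b r' / Ph w h b ((4 * m : ℕ) : ℝ)) *
        (Ph w h c' s' / Ph w h c' ((4 * m : ℕ) : ℝ)) := by
    have h1 := mul_le_mul q1 q2 hq2 (by positivity)
    unfold XX
    linarith
  have h5 : (1 / 256 : ℝ) * (XX w h a b c' d) ^ ((1 : ℝ) / 3) ≤
      ((Ph w h b r' / Ph w h b ((4 * m : ℕ) : ℝ)) *
        (Ph w h c' s' / Ph w h c' ((4 * m : ℕ) : ℝ))) ^ ((1 : ℝ) / 3) := by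
    calc (1 / 256 : ℝ) * (XX w h a b c' d) ^ ((1 : ℝ) / 3) ≤
        (1 / 256 : ℝ) ^ ((1 : ℝ) / 3) * (XX w h a b c' d) ^ ((1 : ℝ) / 3) := by
          apply mul_le_mul_of_nonneg_right _ (Real.rpow_nonneg hX0 _)
          calc (1 : ℝ) / 256 = (1 / 256 : ℝ) ^ (1 : ℝ) := (Real.rpow_one _).symm
            _ ≤ _ := Real.rpow_le_rpow_of_exponent_ge (by norm_num) (by norm_num) (by norm_num)
      _ = (1 / 256 * XX w h a b c' d) ^ ((1 : ℝ) / 3) :=
          (Real.mul_rpow (by norm_num) hX0).symm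
      _ ≤ _ := Real.rpow_le_rpow (by positivity) hX (by norm_num)
  rw [Real.mul_rpow p1.le p2.le] at h5
  refine le_trans ?_ (k2.trans k3)
  calc c1 * c1 * c3 / 256 * XX w h a b c' d ^ ((1 : ℝ) / 3) =
      c1 * c1 * c3 * (1 / 256 * XX w h a b c' d ^ ((1 : ℝ) / 3)) := by ring
    _ ≤ c1 * c1 * c3 * ((Ph w h b r' / Ph w h b ((4 * m : ℕ) : ℝ)) ^ ((1 : ℝ) / 3) *
        (Ph w h c' s' / Ph w h c' ((4 * m : ℕ) : ℝ)) ^ ((1 : ℝ) / 3)) :=
        mul_le_mul_of_nonneg_left h5 (by positivity)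
    _ = _ := by ring

end Pool.Agent.Y989.RC.LO2
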