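import Pool.Agent.Y989.RC.Stm2

/-!
Project RC: angles and sizes of boundary intervals (helper824).
-/

set_option autoImplicit false

namespace Pool.Agent.Y989.RC.PM
open Pool.Agent.Y989.RC MeasureTheory Real

theorem core {c1 C1 c2 C2 κ B M L D I e d : ℝ} (hc1 : 0 < c1) (hC1 : 0 < C1) (hc2 : 0 < c2)
    (hC2 : 0 < C2) (hκ : 0 < κ) (hM : 0 < M) (hL1 : κ * M ≤ L) (hL2 : L ≤ M) (hD : 0 < D)
    (hI : 0 < I) (he : 0 ≤ e) (h1 : c1 * D ≤ I * √(max e D)) (h2 : I * √(max e D) ≤ C1 * D)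
    (h3 : c2 * (L * √e) ≤ d) (h4 : d ≤ C2 * (L * √e)) (hB : 1 ≤ B) (hn : L * I ≤ B * M) :
    (C1 * C2 + C1 ^ 2)⁻¹ * (min (L * I) M * max d (min (L * I) M)) ≤ M ^ 2 * D ∧
      M ^ 2 * D ≤ (B ^ 2 / (min (c1 * c2) (c1 ^ 2) * κ ^ 2)) *
        (min (L * I) M * max d (min (L * I) M)) := by
  have hL : 0 < L := lt_of_lt_of_le (mul_pos hκ hM) hL1
  have hmD : 0 < max e D := lt_max_of_lt_right hD
  have hs : 0 < √(max e D) := sqrt_pos.2 hmD
  have hs2 : √(max e D) ^ 2 = max e D := sq_sqrt hmD.le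
  have hse : √e ≤ √(max e D) := sqrt_le_sqrt (le_max_left _ _)
  have hd : 0 ≤ d := le_trans (by positivity) h3
  have hn0 : 0 < L * I := mul_pos hL hI
  have hm0 : 0 < min (L * I) M := lt_min hn0 hM
  have hLM : L ^ 2 ≤ M ^ 2 := by gcongr
  have hI2 : I ^ 2 * max e D ≤ C1 ^ 2 * D ^ 2 := by
    have h := mul_self_le_mul_self (by positivity) h2
    rw [← hs2]
    nlinarith
  constructor
  · rw [inv_mul_le_iff₀ (by positivity)]
    have a1 : L * I * d ≤ C1 * C2 * (L ^ 2 * D) := by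
      calc L * I * d ≤ L * I * (C2 * (L * √(max e D))) := by
            apply mul_le_mul_of_nonneg_left _ hn0.le
            refine h4.trans ?_
            gcongr
        _ = C2 * L ^ 2 * (I * √(max e D)) := by ring
        _ ≤ C2 * L ^ 2 * (C1 * D) := mul_le_mul_of_nonneg_left h2 (by positivity)
        _ = _ := by ring
    have a2 : L * I * (L * I) ≤ C1 ^ 2 * (L ^ 2 * D) := by
      have b1 : I ^ 2 * D ≤ C1 ^ 2 * D * D := by
        calc I ^ 2 * D ≤ I ^ 2 * max e D := mul_le_mul_of_nonneg_left (le_max_right _ _)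
              (by positivity)
          _ ≤ C1 ^ 2 * D ^ 2 := hI2
          _ = _ := by ring
      have b2 : I ^ 2 ≤ C1 ^ 2 * D := le_of_mul_le_mul_right b1 hD
      calc L * I * (L * I) = L ^ 2 * I ^ 2 := by ring
        _ ≤ L ^ 2 * (C1 ^ 2 * D) := mul_le_mul_of_nonneg_left b2 (by positivity)
        _ = _ := by ring
    have a3 : L * I * max d (L * I) ≤ (C1 * C2 + C1 ^ 2) * (L ^ 2 * D) := by
      rcases max_cases d (L * I) with ⟨h, -⟩ | ⟨h, -⟩
      · rw [h]
        have : 0 ≤ C1 ^ 2 * (L ^ 2 * D) := by positivity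
        nlinarith
      · rw [h]
        have : 0 ≤ C1 * C2 * (L ^ 2 * D) := by positivity
        nlinarith
    calc min (L * I) M * max d (min (L * I) M) ≤ L * I * max d (L * I) := by
          apply mul_le_mul (min_le_left _ _) (max_le_max le_rfl (min_le_left _ _))
            (le_max_of_le_left hd) hn0.le
      _ ≤ (C1 * C2 + C1 ^ 2) * (L ^ 2 * D) := a3
      _ ≤ (C1 * C2 + C1 ^ 2) * (M ^ 2 * D) := by gcongr
  · have hmc : 0 < min (c1 * c2) (c1 ^ 2) := lt_min (by positivity) (by positivity)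
    have hB0 : 0 < B := by linarith
    have a1 : min (c1 * c2) (c1 ^ 2) * (L ^ 2 * D) ≤ L * I * max d (L * I) := by
      rcases le_or_gt D e with hDe | hDe
      · have e1 : max e D = e := max_eq_left hDe
        rw [e1] at h1
        calc min (c1 * c2) (c1 ^ 2) * (L ^ 2 * D) ≤ c1 * c2 * (L ^ 2 * D) :=
              mul_le_mul_of_nonneg_right (min_le_left _ _) (by positivity)
          _ = c2 * L ^ 2 * (c1 * D) := by ring
          _ ≤ c2 * L ^ 2 * (I * √e) := mul_le_mul_of_nonneg_left h1 (by positivity)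
          _ = L * I * (c2 * (L * √e)) := by ring
          _ ≤ L * I * d := mul_le_mul_of_nonneg_left h3 hn0.le
          _ ≤ _ := mul_le_mul_of_nonneg_left (le_max_left _ _) hn0.le
      · have e1 : max e D = D := max_eq_right hDe.le
        rw [e1] at h1 hs2
        have b1 : c1 ^ 2 * D * D ≤ I ^ 2 * D := by
          have h := mul_self_le_mul_self (by positivity) h1
          calc c1 ^ 2 * D * D = c1 * D * (c1 * D) := by ring
            _ ≤ I * √D * (I * √D) := h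
            _ = I ^ 2 * √D ^ 2 := by ring
            _ = _ := by rw [hs2]
        have b2 : c1 ^ 2 * D ≤ I ^ 2 := le_of_mul_le_mul_right b1 hD
        calc min (c1 * c2) (c1 ^ 2) * (L ^ 2 * D) ≤ c1 ^ 2 * (L ^ 2 * D) :=
              mul_le_mul_of_nonneg_right (min_le_right _ _) (by positivity)
          _ = L ^ 2 * (c1 ^ 2 * D) := by ring
          _ ≤ L ^ 2 * I ^ 2 := mul_le_mul_of_nonneg_left b2 (by positivity)
          _ = L * I * (L * I) := by ring
          _ ≤ _ := mul_le_mul_of_nonneg_left (le_max_right _ _) hn0.le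
    have a2 : L * I / B ≤ min (L * I) M := by
      refine le_min ?_ ?_
      · exact div_le_self hn0.le hB
      · rw [div_le_iff₀ hB0]
        linarith
    have a3 : max d (L * I) / B ≤ max d (min (L * I) M) := by
      rcases max_cases d (L * I) with ⟨h, -⟩ | ⟨h, -⟩
      · rw [h]
        exact (div_le_self hd hB).trans (le_max_left _ _)
      · rw [h]
        exact a2.trans (le_max_right _ _)
    have a4 : L * I / B * (max d (L * I) / B) ≤ min (L * I) M * max d (min (L * I) M) :=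
      mul_le_mul a2 a3 (div_nonneg (le_max_of_le_left hd) hB0.le) hm0.le
    have a5 : κ ^ 2 * M ^ 2 ≤ L ^ 2 := by
      rw [← mul_pow]
      exact pow_le_pow_left₀ (by positivity) hL1 2
    rw [div_mul_eq_mul_div, le_div_iff₀ (by positivity)]
    calc M ^ 2 * D * (min (c1 * c2) (c1 ^ 2) * κ ^ 2)
        = min (c1 * c2) (c1 ^ 2) * (κ ^ 2 * M ^ 2 * D) := by ring
      _ ≤ min (c1 * c2) (c1 ^ 2) * (L ^ 2 * D) := by gcongr
      _ ≤ L * I * max d (L * I) := a1
      _ = B ^ 2 * (L * I / B * (max d (L * I) / B)) := by field_simp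
      _ ≤ _ := mul_le_mul_of_nonneg_left a4 (by positivity)

/-- angles and sizes of boundary intervals -/
theorem t_PM : S_LA → S_LB → S_ALP → S_FS → S_DC → S_PM := by
  intro hLA hLB hALP hFS _ K
  obtain ⟨κ, hκ, hκ1, hκK⟩ := hALP K
  obtain ⟨c1, C1, hc1, hC1, hA⟩ := hLA κ hκ
  obtain ⟨c2, C2, hc2, hC2, hB⟩ := hLB κ hκ
  have hmc : 0 < min (c1 * c2) (c1 ^ 2) := lt_min (by positivity) (by positivity)
  refine ⟨(C1 * C2 + C1 ^ 2)⁻¹, (2 * ((K : ℝ) + 1)) ^ 2 / (min (c1 * c2) (c1 ^ 2) * κ ^ 2),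
    by positivity, by positivity, ?_⟩
  intro w h hwh α lam hpar θ θ' hθ hθ'
  obtain ⟨hα1, hα2, hl1, hl2⟩ := hκK w h hwh α lam hpar
  obtain ⟨hα0, hα3, hlam, hp1, hp2⟩ := hpar
  obtain ⟨hw, hh, hwK, hhK⟩ := hwh
  obtain ⟨-, -, hmono, hper, -⟩ := hFS α hα0 hα3
  obtain ⟨A1, A2, A3, A4⟩ := hA α hα1 hα2 θ θ' hθ hθ'
  obtain ⟨B1, B2⟩ := hB w h α lam hw hh ⟨hα0, hα3, hlam, hp1, hp2⟩ hα1 hα2 θ
  obtain ⟨B3, B4⟩ := hB w h α lam hw hh ⟨hα0, hα3, hlam, hp1, hp2⟩ hα1 hα2 θ'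
  have hwR : (1 : ℝ) ≤ w := by exact_mod_cast hw
  have hhR : (1 : ℝ) ≤ h := by exact_mod_cast hh
  have hwKR : (w : ℝ) ≤ K * h := by exact_mod_cast hwK
  have hhKR : (h : ℝ) ≤ K * w := by exact_mod_cast hhK
  have hM : 0 < min (w : ℝ) h := lt_min (by linarith) (by linarith)
  have hI : 0 < SC α θ' - SC α θ := sub_pos.2 (hmono hθ)
  have hKr : (0 : ℝ) ≤ K := Nat.cast_nonneg K
  have hn : lam * (SC α θ' - SC α θ) ≤ 2 * ((K : ℝ) + 1) * min (w : ℝ) h := by
    have e1 : SC α (θ + 2 * π) = SC α θ + 2 * SC α (π - α) := by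
      rw [show θ + 2 * π = θ + π + π by ring, hper, hper]
      ring
    have e2 : SC α θ' ≤ SC α (θ + 2 * π) := hmono.monotone hθ'
    have e3 : lam * (SC α θ' - SC α θ) ≤ 2 * ((w : ℝ) + h) := by
      calc lam * (SC α θ' - SC α θ) ≤ lam * (2 * SC α (π - α)) :=
            mul_le_mul_of_nonneg_left (by linarith) hlam.le
        _ = 2 * (lam * SC α (π - α)) := by ring
        _ = _ := by rw [hp2]
    rcases min_cases (w : ℝ) h with ⟨e4, -⟩ | ⟨e4, -⟩
    · rw [e4]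
      nlinarith
    · rw [e4]
      nlinarith
  have hBB : (1 : ℝ) ≤ 2 * ((K : ℝ) + 1) := by linarith
  have r1 := core (D := θ' - θ) hc1 hC1 hc2 hC2 hκ hM hl1 hl2 (sub_pos.2 hθ) hI
    (Metric.infDist_nonneg (x := θ)) A1 A2 B1 B2 hBB hn
  have r2 := core (D := θ' - θ) hc1 hC1 hc2 hC2 hκ hM hl1 hl2 (sub_pos.2 hθ) hI
    (Metric.infDist_nonneg (x := θ')) A3 A4 B3 B4 hBB hn
  exact ⟨r1.1, r1.2, r2.1, r2.2⟩

end Pool.Agent.Y989.RC.PM
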