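import Pool.Agent.Y989.RC.Stm3

/-!
RC-ROT: the two lattice symmetries of the rectangle (helper988).
-/

set_option autoImplicit false

namespace Pool.Agent.Y989.RC.ROT
open Finset H974 TH976 TH976.QC Pool.Agent.H160R2.CV
open Pool.Agent.H160R2.CV.Quad Pool.Agent.H389R2.CD

/-! ### remainders -/

theorem em {N t q s : ℤ} (h : t = N * q + s) (h0 : 0 ≤ s) (h1 : s < N) : t % N = s :=
  ((Int.ediv_emod_unique (a := t) (b := N) (q := q) (r := s) (by omega)).2
    ⟨by rw [h]; ring, h0, h1⟩).2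

theorem ex_qs (N t : ℤ) (hN : 0 < N) : ∃ q s : ℤ, t = N * q + s ∧ 0 ≤ s ∧ s < N :=
  ⟨t / N, t % N, by have := Int.emod_add_mul_ediv t N; linarith, Int.emod_nonneg _ (by omega),
    Int.emod_lt_of_pos _ hN⟩

theorem bdv {w h t q s : ℤ} (ht : t = 2 * (w + h) * q + s) (h0 : 0 ≤ s) (h1 : s < 2 * (w + h)) :
    bd w h t = if s ≤ w then (s, 0)
      else if s ≤ w + h then (w, s - w)
      else if s ≤ 2 * w + h then (2 * w + h - s, h)
      else (0, 2 * w + 2 * h - s) := by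
  unfold bd
  rw [em ht h0 h1]

/-! ### symmetries -/

/-- composition -/
def comp (g k : LSym) : LSym where
  φ := g.φ.trans k.φ
  ψ := g.ψ.trans k.ψ
  compat := by
    intro e
    have h1 := g.compat e
    have h2 := k.compat (g.φ e)
    rcases h1 with ⟨h3, h4⟩ | ⟨h3, h4⟩ <;> rcases h2 with ⟨h5, h6⟩ | ⟨h5, h6⟩
    · left
      exact ⟨by simp [h5, h3], by simp [h6, h4]⟩
    · right
      exact ⟨by simp [h5, h4], by simp [h6, h3]⟩
    · right
      exact ⟨by simp [h5, h3], by simp [h6, h4]⟩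
    · left
      exact ⟨by simp [h5, h4], by simp [h6, h3]⟩

theorem comp_mp (g k : LSym) (F : Finset Edg) : (comp g k).mp F = k.mp (g.mp F) := by
  ext e
  simp only [LSym.mem_mp]
  rfl

theorem sym_of (g : LSym) (w h : ℤ) (τ : ℤ → ℤ) (h1 : g.mp (RE 0 w 0 h) = RE 0 h 0 w)
    (h2 : ∀ u v, sd (g.ψ u) (g.ψ v) = sd u v)
    (h3 : ∀ u, inR 0 h 0 w (g.ψ u) ↔ inR 0 w 0 h u)
    (h4 : ∀ t, g.ψ (bd w h t) = bd h w (τ t)) : IsSym w h g.φ g.ψ τ := by
  refine ⟨fun e => ?_, fun F u v => ?_, h2, h3, h4, fun A => ?_⟩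
  · rw [← h1, LSym.mem_mp, Equiv.symm_apply_apply]
  · have h5 := g.coe_mp F
    unfold LSym.mp at h5
    rw [h5]
    exact g.reach_iff
  · rw [← h1]
    exact (g.pr (1 / 2) (RE 0 w 0 h) A).symm

theorem rfx_RE' (k a b c d : ℤ) : (rfx k).mp (RE a b c d) = RE (k - b) (k - a) c d := by
  ext ⟨x, y, _ | _⟩ <;>
    simp only [LSym.mem_mp, rfx_φst, rfx_φsf, mem_RE_true, mem_RE_false] <;> omega

theorem t_RFL : S_RFL := by
  intro w h hw hh
  refine ⟨tps.φ, tps.ψ, sym_of tps w h _ (tps_RE 0 w 0 h) ?_ ?_ ?_⟩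
  · rintro ⟨x, y⟩ ⟨x', y'⟩
    simp only [tps_ψ, sd]
    exact max_comm _ _
  · rintro ⟨x, y⟩
    simp only [tps_ψ, inR]
    exact and_comm
  · intro t
    obtain ⟨q, s, ht, h0, h1⟩ := ex_qs (2 * (w + h)) t (by omega)
    rw [bdv ht h0 h1]
    by_cases hs : s = 0
    · subst hs
      have h2 : -t = 2 * (h + w) * (-q) + 0 := by rw [ht]; ring
      rw [bdv h2 le_rfl (by omega), if_pos (by omega), if_pos (by omega)]
      simp
    · have h2 : -t = 2 * (h + w) * (-q - 1) + (2 * (h + w) - s) := by rw [ht]; ring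
      show _ = bd h w (-t)
      rw [bdv h2 (by omega) (by omega)]
      split_ifs <;> simp only [tps_ψ, Prod.mk.injEq, true_and, and_true] <;> omega

theorem t_ROT : S_ROT := by
  intro w h hw hh
  have hψ : ∀ x y : ℤ, (comp (rfx w) tps).ψ (x, y) = (y, w - x) := fun x y => rfl
  refine ⟨(comp (rfx w) tps).φ, (comp (rfx w) tps).ψ, sym_of (comp (rfx w) tps) w h _ ?_ ?_ ?_ ?_⟩
  · rw [comp_mp, rfx_RE', tps_RE]
    simp
  · rintro ⟨x, y⟩ ⟨x', y'⟩
    rw [hψ, hψ]
    simp only [sd]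
    rw [max_comm]
    congr 1
    omega
  · rintro ⟨x, y⟩
    rw [hψ]
    simp only [inR]
    omega
  · intro t
    obtain ⟨q, s, ht, h0, h1⟩ := ex_qs (2 * (w + h)) t (by omega)
    rw [bdv ht h0 h1]
    by_cases hs : w ≤ s
    · have h2 : t - w = 2 * (h + w) * q + (s - w) := by rw [ht]; ring
      show _ = bd h w (t - w)
      rw [bdv h2 (by omega) (by omega)]
      split_ifs <;> simp only [hψ, Prod.mk.injEq, true_and] <;> omega
    · have h2 : t - w = 2 * (h + w) * (q - 1) + (s - w + 2 * (h + w)) := by rw [ht]; ring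
      show _ = bd h w (t - w)
      rw [bdv h2 (by omega) (by omega)]
      split_ifs <;> simp only [hψ, Prod.mk.injEq, true_and] <;> omega

end Pool.Agent.Y989.RC.ROT
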