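import Pool.Agent.Y989.RC.Stm3

/-!
Project RC: symmetries of the crossing probabilities (helper15).
-/

set_option autoImplicit false

namespace Pool.Agent.Y989.RC.SYM
open Finset H974 TH976 TH976.QC Pool.Agent.H160R2.CV
open Pool.Agent.H160R2.CV.Quad Pool.Agent.H389R2.CD

theorem bd_period (w h t : ℤ) : bd w h (t + 2 * (w + h)) = bd w h t := by
  unfold bd
  rw [Int.add_emod_right]

theorem Pr_congr {w h : ℤ} {A B : Finset Edg → Prop} (hAB : ∀ F, A F ↔ B F) :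
    Pr P (RE 0 w 0 h) A = Pr P (RE 0 w 0 h) B := by
  have h1 : A = B := funext fun F => propext (hAB F)
  rw [h1]

theorem CN_rot {w h : ℤ} {φ : Edg ≃ Edg} {ψ : Vtx ≃ Vtx}
    (hS : IsSym w h φ ψ (fun t => t - w)) (a b c d : ℤ) (F : Finset Edg) :
    CN w h a b c d F ↔ CN h w (a - w) (b - w) (c - w) (d - w) (F.map φ.toEmbedding) := by
  obtain ⟨-, hR, -, -, hb, -⟩ := hS
  constructor
  · rintro ⟨x, y, hx, hy, hxy⟩
    refine ⟨x - w, y - w, ⟨by omega, by omega⟩, ⟨by omega, by omega⟩, ?_⟩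
    have h1 := (hR F (bd w h x) (bd w h y)).2 hxy
    rw [hb, hb] at h1
    exact h1
  · rintro ⟨x, y, hx, hy, hxy⟩
    refine ⟨x + w, y + w, ⟨by omega, by omega⟩, ⟨by omega, by omega⟩, ?_⟩
    refine (hR F _ _).1 ?_
    rw [hb, hb]
    have h1 : x + w - w = x := by ring
    have h2 : y + w - w = y := by ring
    simp only [h1, h2]
    exact hxy

theorem CN_rfl {w h : ℤ} {φ : Edg ≃ Edg} {ψ : Vtx ≃ Vtx}
    (hS : IsSym w h φ ψ (fun t => -t)) (a b c d : ℤ) (F : Finset Edg) :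
    CN w h a b c d F ↔ CN h w (-d) (-c) (-b) (-a) (F.map φ.toEmbedding) := by
  obtain ⟨-, hR, -, -, hb, -⟩ := hS
  constructor
  · rintro ⟨x, y, hx, hy, hxy⟩
    refine ⟨-y, -x, ⟨by omega, by omega⟩, ⟨by omega, by omega⟩, ?_⟩
    have h1 := (hR F (bd w h x) (bd w h y)).2 hxy
    rw [hb, hb] at h1
    exact Reach.symm h1
  · rintro ⟨x, y, hx, hy, hxy⟩
    refine ⟨-y, -x, ⟨by omega, by omega⟩, ⟨by omega, by omega⟩, ?_⟩
    refine (hR F _ _).1 ?_
    rw [hb, hb]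
    simp only [neg_neg]
    exact Reach.symm hxy

theorem t_SYM : S_ROT → S_RFL → S_SYM := by
  intro hrot hrfl w h hw hh a b c d
  refine ⟨?_, ?_, ?_, ?_⟩
  · obtain ⟨φ, ψ, hS⟩ := hrot w h hw hh
    have h1 := hS.2.2.2.2.2 (CN h w (a - w) (b - w) (c - w) (d - w))
    unfold PR
    rw [← h1]
    exact Pr_congr fun F => CN_rot hS a b c d F
  · obtain ⟨φ, ψ, hS⟩ := hrfl w h hw hh
    have h1 := hS.2.2.2.2.2 (CN h w (-d) (-c) (-b) (-a))
    unfold PR
    rw [← h1]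
    exact Pr_congr fun F => CN_rfl hS a b c d F
  · refine Pr_congr fun F => ⟨?_, ?_⟩
    · rintro ⟨x, y, hx, hy, hxy⟩
      refine ⟨y, x + 2 * (w + h), hy, ⟨by omega, by omega⟩, ?_⟩
      rw [bd_period]
      exact Reach.symm hxy
    · rintro ⟨x, y, hx, hy, hxy⟩
      refine ⟨y - 2 * (w + h), x, ⟨by omega, by omega⟩, hx, ?_⟩
      have h1 := bd_period w h (y - 2 * (w + h))
      rw [sub_add_cancel] at h1
      rw [← h1]
      exact Reach.symm hxy
  · refine Pr_congr fun F => ⟨?_, ?_⟩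
    · rintro ⟨x, y, hx, hy, hxy⟩
      refine ⟨x + 2 * (w + h), y + 2 * (w + h), ⟨by omega, by omega⟩, ⟨by omega, by omega⟩, ?_⟩
      rw [bd_period, bd_period]
      exact hxy
    · rintro ⟨x, y, hx, hy, hxy⟩
      refine ⟨x - 2 * (w + h), y - 2 * (w + h), ⟨by omega, by omega⟩, ⟨by omega, by omega⟩, ?_⟩
      have h1 := bd_period w h (x - 2 * (w + h))
      have h2 := bd_period w h (y - 2 * (w + h))
      rw [sub_add_cancel] at h1 h2
      rw [← h1, ← h2]
      exact hxy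

end Pool.Agent.Y989.RC.SYM
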