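import Pool.Agent.Y989.RC.Stm

set_option autoImplicit false

/-!
Project RC: the upper bound for the crossing probability.
-/

namespace Pool.Agent.Y989.RC.UP
open Finset H974 TH976 TH976.QC Pool.Agent.H160R2.CV
open Pool.Agent.H160R2.CV.Quad Pool.Agent.H389R2.CD Pool.Agent.Y989.RC

/-! ### geometry -/

theorem mod_cases {L x y : ℤ} (hL : 0 < L) (h1 : x ≤ y) (h2 : y < x + L) :
    y % L = x % L + (y - x) ∨ y % L = x % L + (y - x) - L := by
  have a1 := Int.emod_nonneg x hL.ne'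
  have a2 := Int.emod_lt_of_pos x hL
  have b1 := Int.emod_nonneg y hL.ne'
  have b2 := Int.emod_lt_of_pos y hL
  have a3 := Int.emod_add_mul_ediv x L
  have b3 := Int.emod_add_mul_ediv y L
  have key : L * (y / L - x / L) = (y - x) - (y % L - x % L) := by
    rw [mul_sub]; linarith
  obtain ⟨q, hq⟩ : ∃ q, q = y / L - x / L := ⟨_, rfl⟩
  rw [← hq] at key
  have c1 : 0 ≤ q := by
    by_contra hc
    have : L * q ≤ L * (-1) := mul_le_mul_of_nonneg_left (by omega) hL.le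
    linarith
  have c2 : q ≤ 1 := by
    by_contra hc
    have : L * 2 ≤ L * q := mul_le_mul_of_nonneg_left (by omega) hL.le
    linarith
  have c3 : q = 0 ∨ q = 1 := by omega
  rcases c3 with c | c
  · left
    rw [c, mul_zero] at key
    linarith
  · right
    rw [c, mul_one] at key
    linarith

theorem bd_in {w h : ℤ} (hw : 1 ≤ w) (hh : 1 ≤ h) (x : ℤ) : inR 0 w 0 h (bd w h x) := by
  have a1 := Int.emod_nonneg x (b := 2 * (w + h)) (by omega)
  have a2 := Int.emod_lt_of_pos x (b := 2 * (w + h)) (by omega)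
  unfold bd inR
  generalize x % (2 * (w + h)) = X at a1 a2 ⊢
  split_ifs <;> simp only <;> omega

theorem bd_far {w h : ℤ} (hw : 1 ≤ w) (hh : 1 ≤ h) {x y : ℤ} {k : ℕ} (h1 : x < y)
    (h2 : y < x + 2 * (w + h)) (h3 : 2 * (k : ℤ) ≤ y - x) (h4 : 2 * (k : ℤ) ≤ x + 2 * (w + h) - y)
    (h5 : (k : ℤ) ≤ min w h) : k ≤ sd (bd w h x) (bd w h y) := by
  have a1 := Int.emod_nonneg x (b := 2 * (w + h)) (by omega)
  have a2 := Int.emod_lt_of_pos x (b := 2 * (w + h)) (by omega)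
  have b1 := Int.emod_nonneg y (b := 2 * (w + h)) (by omega)
  have b2 := Int.emod_lt_of_pos y (b := 2 * (w + h)) (by omega)
  have c := mod_cases (L := 2 * (w + h)) (by omega) h1.le h2
  unfold bd sd
  generalize x % (2 * (w + h)) = X at a1 a2 c ⊢
  generalize y % (2 * (w + h)) = Y at b1 b2 c ⊢
  split_ifs <;> simp only <;> omega

theorem bd_near {w h : ℤ} (hw : 1 ≤ w) (hh : 1 ≤ h) {x y : ℤ} {k : ℕ} (h1 : x ≤ y)
    (h2 : y < x + 2 * (w + h)) (h3 : y - x ≤ k) : sd (bd w h x) (bd w h y) ≤ k := by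
  have a1 := Int.emod_nonneg x (b := 2 * (w + h)) (by omega)
  have a2 := Int.emod_lt_of_pos x (b := 2 * (w + h)) (by omega)
  have b1 := Int.emod_nonneg y (b := 2 * (w + h)) (by omega)
  have b2 := Int.emod_lt_of_pos y (b := 2 * (w + h)) (by omega)
  have c := mod_cases (L := 2 * (w + h)) (by omega) h1 h2
  unfold bd sd
  generalize x % (2 * (w + h)) = X at a1 a2 c ⊢
  generalize y % (2 * (w + h)) = Y at b1 b2 c ⊢
  split_ifs <;> simp only <;> omega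

theorem reach_symm {F : Set Edg} {u v : Vtx} (h : Reach F u v) : Reach F v u :=
  h.symm

/-! ### sizes -/

theorem third_up {q K : ℝ} (hq : 0 ≤ q) (hK : 1 ≤ K) :
    (K * q) ^ ((1 : ℝ) / 3) ≤ K * q ^ ((1 : ℝ) / 3) := by
  rw [Real.mul_rpow (by linarith) hq]
  apply mul_le_mul_of_nonneg_right _ (Real.rpow_nonneg hq _)
  calc K ^ ((1 : ℝ) / 3) ≤ K ^ (1 : ℝ) := Real.rpow_le_rpow_of_exponent_le hK (by norm_num)
    _ = K := Real.rpow_one _

theorem Ph_min (w h : ℤ) (t n : ℝ) : Ph w h t n = Ph w h t (min n (min (w : ℝ) h)) := by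
  unfold Ph
  rw [min_assoc, min_self]

theorem half (hPH : S_PH) {w h : ℤ} (hw : 1 ≤ w) (hh : 1 ≤ h) (t : ℝ) {r ρ ν : ℕ} (hr : 1 ≤ r)
    (hρ : 1 ≤ ρ) (h1 : 16 * (ν : ℤ) ≤ min (ρ : ℤ) (min w h))
    (h2 : min (ρ : ℤ) (min w h) < 16 * (ν + 1)) :
    0 ≤ qr w h t r ρ ∧
    (ν < r → 1 ≤ 1024 * (qr w h t r ρ) ^ ((1 : ℝ) / 3)) ∧
    (r ≤ ν → 0 ≤ Ph w h t r / Ph w h t ν ∧
      (Ph w h t r / Ph w h t ν) ^ ((1 : ℝ) / 3) ≤ 1024 * (qr w h t r ρ) ^ ((1 : ℝ) / 3)) := by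
  obtain ⟨P1, P2, P3, -⟩ := hPH w h hw hh t
  have hr1 : (1 : ℝ) ≤ r := by exact_mod_cast hr
  have hρ1 : (1 : ℝ) ≤ ρ := by exact_mod_cast hρ
  have hw1 : (1 : ℝ) ≤ w := by exact_mod_cast hw
  have hh1 : (1 : ℝ) ≤ h := by exact_mod_cast hh
  have hM : 0 < min (ρ : ℝ) (min (w : ℝ) h) :=
    lt_min (by linarith) (lt_min (by linarith) (by linarith))
  have h3 : min (ρ : ℝ) (min (w : ℝ) h) ≤ 16 * (ν + 1) := by
    have : ((min (ρ : ℤ) (min w h) : ℤ) : ℝ) ≤ ((16 * (ν + 1) : ℤ) : ℝ) := Int.cast_le.2 h2.le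
    push_cast at this
    exact this
  have pr := P1 r (by linarith)
  have pρ := P1 ρ (by linarith)
  have hq0 : 0 < qr w h t r ρ := lt_min one_pos (div_pos pr pρ)
  have hq1 : qr w h t r ρ ≤ 1 := min_le_left _ _
  refine ⟨hq0.le, ?_, ?_⟩
  · intro h4
    have h5 : (ν : ℝ) + 1 ≤ r := by exact_mod_cast h4
    have h6 : Ph w h t ρ ≤ 256 * Ph w h t r := by
      rw [Ph_min w h t ρ]
      calc Ph w h t (min (ρ : ℝ) (min (w : ℝ) h)) ≤ Ph w h t (16 * r) :=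
            P2 _ _ hM (by linarith)
        _ ≤ 16 ^ 2 * Ph w h t r := P3 r 16 (by linarith) (by norm_num)
        _ = _ := by norm_num
    have h7 : 1 / 1024 ≤ qr w h t r ρ := by
      unfold qr
      refine le_min (by norm_num) ?_
      rw [div_le_div_iff₀ (by norm_num) pρ]
      linarith
    have h8 : (1 : ℝ) / 1024 ≤ (qr w h t r ρ) ^ ((1 : ℝ) / 3) := by
      calc (1 : ℝ) / 1024 ≤ qr w h t r ρ := h7
        _ = (qr w h t r ρ) ^ (1 : ℝ) := (Real.rpow_one _).symm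
        _ ≤ _ := Real.rpow_le_rpow_of_exponent_ge hq0 hq1 (by norm_num)
    linarith
  · intro h4
    have hν1 : (1 : ℝ) ≤ ν := by exact_mod_cast (hr.trans h4)
    have h5 : (r : ℝ) ≤ ν := by exact_mod_cast h4
    have h6 : (r : ℝ) ≤ ρ := by
      have : r ≤ ρ := by omega
      exact_mod_cast this
    have pν := P1 ν (by linarith)
    refine ⟨(div_pos pr pν).le, ?_⟩
    have h7 : Ph w h t ρ ≤ 1024 * Ph w h t ν := by
      rw [Ph_min w h t ρ]
      calc Ph w h t (min (ρ : ℝ) (min (w : ℝ) h)) ≤ Ph w h t (32 * ν) :=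
            P2 _ _ hM (by linarith)
        _ ≤ 32 ^ 2 * Ph w h t ν := P3 ν 32 (by linarith) (by norm_num)
        _ = _ := by norm_num
    have h8 : qr w h t r ρ = Ph w h t r / Ph w h t ρ := by
      unfold qr
      exact min_eq_right ((div_le_one pρ).mpr (P2 _ _ (by linarith) h6))
    have h9 : Ph w h t r / Ph w h t ν ≤ 1024 * qr w h t r ρ := by
      rw [h8, mul_div_assoc', div_le_div_iff₀ pν pρ]
      nlinarith
    exact (Real.rpow_le_rpow (div_pos pr pν).le h9 (by norm_num)).trans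
      (third_up hq0.le (by norm_num))

theorem t_UP : S_ARM1 → S_ARM2 → S_DC → S_PH → S_UP := by
  rintro ⟨C1, hC1, H1⟩ ⟨C2, hC2, H2⟩ _ hPH
  refine ⟨(C1 + C2 + 1) * (1024 * 1024), by positivity, ?_⟩
  intro w h hw hh a b c d ⟨g1, g2, g3, g4⟩
  obtain ⟨r, hr⟩ : ∃ r : ℕ, (r : ℤ) = b - a + 1 := ⟨(b - a + 1).toNat, by omega⟩
  obtain ⟨s, hs⟩ : ∃ s : ℕ, (s : ℤ) = d - c + 1 := ⟨(d - c + 1).toNat, by omega⟩
  obtain ⟨ρ, hρ⟩ : ∃ ρ : ℕ, (ρ : ℤ) = min (c - b) (a + 2 * (w + h) - d) :=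
    ⟨(min (c - b) (a + 2 * (w + h) - d)).toNat, by omega⟩
  obtain ⟨ν, hν1, hν2⟩ : ∃ ν : ℕ, 16 * (ν : ℤ) ≤ min (ρ : ℤ) (min w h) ∧
      min (ρ : ℤ) (min w h) < 16 * (ν + 1) :=
    ⟨((min (ρ : ℤ) (min w h)) / 16).toNat, by omega, by omega⟩
  have hr1 : 1 ≤ r := by omega
  have hs1 : 1 ≤ s := by omega
  have hρ1 : 1 ≤ ρ := by omega
  have er : (b : ℝ) - a + 1 = r := by
    have : ((r : ℤ) : ℝ) = ((b - a + 1 : ℤ) : ℝ) := by rw [hr]
    push_cast at this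
    exact this.symm
  have es : (d : ℝ) - c + 1 = s := by
    have : ((s : ℤ) : ℝ) = ((d - c + 1 : ℤ) : ℝ) := by rw [hs]
    push_cast at this
    exact this.symm
  have eρ : min ((c : ℝ) - b) (a + 2 * (w + h) - d) = ρ := by
    have : ((ρ : ℤ) : ℝ) = ((min (c - b) (a + 2 * (w + h) - d) : ℤ) : ℝ) := by rw [hρ]
    push_cast at this
    exact this.symm
  obtain ⟨qb0, b1, b2⟩ := half hPH hw hh (b : ℝ) hr1 hρ1 hν1 hν2
  obtain ⟨qc0, c1, c2⟩ := half hPH hw hh (c : ℝ) hs1 hρ1 hν1 hν2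
  have eX : XX w h a b c d = qr w h b r ρ * qr w h c s ρ := by
    unfold XX
    rw [er, es, eρ]
  rw [eX, Real.mul_rpow qb0 qc0]
  obtain ⟨U, hU⟩ : ∃ U, U = (qr w h b r ρ) ^ ((1 : ℝ) / 3) := ⟨_, rfl⟩
  obtain ⟨V, hV⟩ : ∃ V, V = (qr w h c s ρ) ^ ((1 : ℝ) / 3) := ⟨_, rfl⟩
  have hU0 : 0 ≤ U := by rw [hU]; exact Real.rpow_nonneg qb0 _
  have hV0 : 0 ≤ V := by rw [hV]; exact Real.rpow_nonneg qc0 _
  rw [← hU] at b1 b2 ⊢
  rw [← hV] at c1 c2 ⊢
  have hUV : 0 ≤ U * V := mul_nonneg hU0 hV0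
  have hm : min w h ≤ w ∧ min w h ≤ h := ⟨min_le_left _ _, min_le_right _ _⟩
  have hcxb : ∀ F, r ≤ ν → CN w h a b c d F → CxR w h b r ν F := by
    rintro F hrν ⟨x, y, ⟨x1, x2⟩, ⟨y1, y2⟩, hR⟩
    refine ⟨bd w h x, bd w h y, bd_in hw hh x, bd_near hw hh x2 (by omega) (by omega), ?_, hR⟩
    rw [sd_comm]
    exact bd_far hw hh (by omega) (by omega) (by omega) (by omega) (by omega)
  have hcxc : ∀ F, s ≤ ν → CN w h a b c d F → CxR w h c s ν F := by
    rintro F hrν ⟨x, y, ⟨x1, x2⟩, ⟨y1, y2⟩, hR⟩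
    refine ⟨bd w h y, bd w h x, bd_in hw hh y, ?_, ?_, reach_symm hR⟩
    · rw [sd_comm]
      exact bd_near hw hh y1 (by omega) (by omega)
    · exact bd_far hw hh (by omega) (by omega) (by omega) (by omega) (by omega)
  rcases Nat.lt_or_ge ν r with k1 | k1
  · have u1 := b1 k1
    rcases Nat.lt_or_ge ν s with k2 | k2
    · have u2 := c1 k2
      have h3 : PR w h a b c d ≤ 1 := Pr_le_one okP _ _
      have h4 : 1 ≤ (1024 * U) * (1024 * V) := by nlinarith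
      nlinarith
    · obtain ⟨v0, u2⟩ := c2 k2
      have h3 : PR w h a b c d ≤ C1 * (Ph w h c s / Ph w h c ν) ^ ((1 : ℝ) / 3) := by
        refine le_trans (Pr_mono okP (fun F _ hF => hcxc F k2 hF)) ?_
        exact H1 w h c hw hh s ν hs1 k2 (by omega)
      have h4 : C1 * (Ph w h c s / Ph w h c ν) ^ ((1 : ℝ) / 3) ≤ C1 * (1024 * V) :=
        mul_le_mul_of_nonneg_left u2 hC1.le
      have h5 : C1 * (1024 * V) ≤ C1 * (1024 * V) * (1024 * U) :=
        le_mul_of_one_le_right (by positivity) u1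
      have h6 : 0 ≤ C2 * (U * V) := mul_nonneg hC2.le hUV
      nlinarith
  · obtain ⟨v0, u1⟩ := b2 k1
    rcases Nat.lt_or_ge ν s with k2 | k2
    · have u2 := c1 k2
      have h3 : PR w h a b c d ≤ C1 * (Ph w h b r / Ph w h b ν) ^ ((1 : ℝ) / 3) := by
        refine le_trans (Pr_mono okP (fun F _ hF => hcxb F k1 hF)) ?_
        exact H1 w h b hw hh r ν hr1 k1 (by omega)
      have h4 : C1 * (Ph w h b r / Ph w h b ν) ^ ((1 : ℝ) / 3) ≤ C1 * (1024 * U) :=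
        mul_le_mul_of_nonneg_left u1 hC1.le
      have h5 : C1 * (1024 * U) ≤ C1 * (1024 * U) * (1024 * V) :=
        le_mul_of_one_le_right (by positivity) u2
      have h6 : 0 ≤ C2 * (U * V) := mul_nonneg hC2.le hUV
      nlinarith
    · obtain ⟨v0', u2⟩ := c2 k2
      have h3 : PR w h a b c d ≤ C2 * ((Ph w h b r / Ph w h b ν) *
          (Ph w h c s / Ph w h c ν)) ^ ((1 : ℝ) / 3) := by
        have hand : ∀ F : Finset Edg, F ⊆ RE 0 w 0 h → CN w h a b c d F →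
            (CxR w h b r ν F ∧ CxR w h c s ν F) :=
          fun F _ hF => ⟨hcxb F k1 hF, hcxc F k2 hF⟩
        refine le_trans (Pr_mono okP hand) ?_
        exact H2 w h b c hw hh r ν s ν hr1 k1 hs1 k2 (by omega) (by omega)
          (bd_far hw hh (by omega) (by omega) (by push_cast; omega) (by push_cast; omega)
            (by push_cast; omega))
      rw [Real.mul_rpow v0 v0'] at h3
      have h4 : C2 * ((Ph w h b r / Ph w h b ν) ^ ((1 : ℝ) / 3) *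
          (Ph w h c s / Ph w h c ν) ^ ((1 : ℝ) / 3)) ≤ C2 * ((1024 * U) * (1024 * V)) :=
        mul_le_mul_of_nonneg_left (mul_le_mul u1 u2 (Real.rpow_nonneg v0' _) (by positivity)) hC2.le
      have h6 : 0 ≤ C1 * (U * V) := mul_nonneg hC1.le hUV
      nlinarith

end Pool.Agent.Y989.RC.UP
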