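import Pool.Agent.Y989.RC.Stm2

/-!
The cross-ratio is comparable to `XX`, its complement to `YY` (helper510).
-/

set_option autoImplicit false

namespace Pool.Agent.Y989.RC.XXR

open Pool.Agent.Y989.RC
open MeasureTheory Real

/-- comparable up to the factor `E` -/
def Cmp (E X Y : ℝ) : Prop := X ≤ E * Y ∧ Y ≤ E * X

lemma Cmp.symm {E X Y : ℝ} (h : Cmp E X Y) : Cmp E Y X := ⟨h.2, h.1⟩

lemma Cmp.trans {E F X Y Z : ℝ} (hE : 0 ≤ E) (hF : 0 ≤ F) (h : Cmp E X Y) (h' : Cmp F Y Z) :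
    Cmp (E * F) X Z := by
  constructor
  · calc X ≤ E * Y := h.1
      _ ≤ E * (F * Z) := mul_le_mul_of_nonneg_left h'.1 hE
      _ = E * F * Z := by ring
  · calc Z ≤ F * Y := h'.2
      _ ≤ F * (E * X) := mul_le_mul_of_nonneg_left h.2 hF
      _ = E * F * X := by ring

lemma Cmp.mono {E F X Y : ℝ} (h : Cmp E X Y) (hEF : E ≤ F) (hX : 0 ≤ X) (hY : 0 ≤ Y) :
    Cmp F X Y :=
  ⟨h.1.trans (mul_le_mul_of_nonneg_right hEF hY), h.2.trans (mul_le_mul_of_nonneg_right hEF hX)⟩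

lemma Cmp.mul {E X Y X' Y' : ℝ} (hE : 0 ≤ E) (hX : 0 ≤ X) (hY : 0 ≤ Y) (hX' : 0 ≤ X')
    (hY' : 0 ≤ Y') (h : Cmp E X Y) (h' : Cmp E X' Y') : Cmp (E ^ 2) (X * X') (Y * Y') := by
  constructor
  · calc X * X' ≤ (E * Y) * (E * Y') := mul_le_mul h.1 h'.1 hX' (by positivity)
      _ = E ^ 2 * (Y * Y') := by ring
  · calc Y * Y' ≤ (E * X) * (E * X') := mul_le_mul h.2 h'.2 hY' (by positivity)
      _ = E ^ 2 * (X * X') := by ring

lemma min_le_aux {F X Y : ℝ} (hF : 1 ≤ F) (h : X ≤ F * Y) : min 1 X ≤ F * min 1 Y := by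
  rcases min_choice 1 Y with h1 | h1
  · rw [h1, mul_one]
    exact (min_le_left _ _).trans hF
  · rw [h1]
    exact (min_le_right _ _).trans h

lemma minCmp {F X Y : ℝ} (hF : 1 ≤ F) (h : Cmp F X Y) : Cmp F (min 1 X) (min 1 Y) :=
  ⟨min_le_aux hF h.1, min_le_aux hF h.2⟩

/-- the abstract comparison -/
lemma gen {Px Py : ℝ → ℝ} {E Λ I A B r u v : ℝ} (hE : 1 ≤ E) (hΛ : 1 ≤ Λ) (hr : 0 < r)
    (hu : 0 < u) (hv : 0 < v) (hI : 0 < I) (hA : 0 < A) (hB : 0 < B)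
    (px : ∀ n, 0 < n → 0 < Px n) (mx : ∀ n n', 0 < n → n ≤ n' → Px n ≤ Px n')
    (my : ∀ n n', 0 < n → n ≤ n' → Py n ≤ Py n')
    (bc : ∀ n, r ≤ n → Px n ≤ Λ * Py n ∧ Py n ≤ Λ * Px n)
    (cI : Cmp E I (Px r)) (cA : Cmp E A (Px u)) (cB : Cmp E B (Py v)) :
    Cmp (E ^ 2 * Λ) (min 1 (I / min A B)) (min 1 (Px r / Px (min u v))) := by
  have hE0 : 0 < E := by linarith
  have hΛ0 : 0 < Λ := by linarith
  have hE2 : 1 ≤ E ^ 2 := one_le_pow₀ hE
  have hF : 1 ≤ E ^ 2 * Λ := by nlinarith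
  have hρ : 0 < min u v := lt_min hu hv
  have hm : 0 < min A B := lt_min hA hB
  have hq : 0 < Px (min u v) := px _ hρ
  have hEΛ : E ≤ E * Λ := le_mul_of_one_le_right hE0.le hΛ
  by_cases h : r ≤ min u v
  · have hru : r ≤ u := h.trans (min_le_left _ _)
    have hrv : r ≤ v := h.trans (min_le_right _ _)
    have a1 : A ≤ E * Λ * Px u := cA.1.trans (mul_le_mul_of_nonneg_right hEΛ (px u hu).le)
    have a2 : Px u ≤ E * Λ * A := cA.2.trans (mul_le_mul_of_nonneg_right hEΛ hA.le)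
    have b1 : B ≤ E * Λ * Px v := by
      calc B ≤ E * Py v := cB.1
        _ ≤ E * (Λ * Px v) := mul_le_mul_of_nonneg_left (bc v hrv).2 hE0.le
        _ = E * Λ * Px v := by ring
    have b2 : Px v ≤ E * Λ * B := by
      calc Px v ≤ Λ * Py v := (bc v hrv).1
        _ ≤ Λ * (E * B) := mul_le_mul_of_nonneg_left cB.2 hΛ0.le
        _ = E * Λ * B := by ring
    have h1 : min A B ≤ E * Λ * Px (min u v) := by
      rcases min_choice u v with e | e
      · rw [e]; exact (min_le_left _ _).trans a1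
      · rw [e]; exact (min_le_right _ _).trans b1
    have h2 : Px (min u v) ≤ E * Λ * min A B := by
      rcases min_choice A B with e | e
      · rw [e]; exact (mx _ _ hρ (min_le_left _ _)).trans a2
      · rw [e]; exact (mx _ _ hρ (min_le_right _ _)).trans b2
    have hPr := px r hr
    apply minCmp hF
    constructor
    · rw [div_le_iff₀ hm, mul_div_assoc', div_mul_eq_mul_div, le_div_iff₀ hq]
      calc I * Px (min u v) ≤ (E * Px r) * (E * Λ * min A B) :=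
            mul_le_mul cI.1 h2 hq.le (by positivity)
        _ = E ^ 2 * Λ * Px r * min A B := by ring
    · rw [div_le_iff₀ hq, mul_div_assoc', div_mul_eq_mul_div, le_div_iff₀ hm]
      calc Px r * min A B ≤ (E * I) * (E * Λ * Px (min u v)) :=
            mul_le_mul cI.2 h1 hm.le (by positivity)
        _ = E ^ 2 * Λ * I * Px (min u v) := by ring
  · push Not at h
    have h1 : 1 ≤ Px r / Px (min u v) := by
      rw [le_div_iff₀ hq, one_mul]
      exact mx _ _ hρ h.le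
    rw [min_eq_left h1]
    have h2 : min A B ≤ E ^ 2 * Λ * I := by
      rcases min_choice u v with e | e
      · rw [e] at h
        calc min A B ≤ A := min_le_left _ _
          _ ≤ E * Px u := cA.1
          _ ≤ E * Px r := mul_le_mul_of_nonneg_left (mx _ _ hu h.le) hE0.le
          _ ≤ E * (E * I) := mul_le_mul_of_nonneg_left cI.2 hE0.le
          _ = E ^ 2 * 1 * I := by ring
          _ ≤ E ^ 2 * Λ * I := by gcongr
      · rw [e] at h
        calc min A B ≤ B := min_le_right _ _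
          _ ≤ E * Py v := cB.1
          _ ≤ E * Py r := mul_le_mul_of_nonneg_left (my _ _ hv h.le) hE0.le
          _ ≤ E * (Λ * Px r) := mul_le_mul_of_nonneg_left (bc r le_rfl).2 hE0.le
          _ ≤ E * (Λ * (E * I)) := by
              apply mul_le_mul_of_nonneg_left _ hE0.le
              exact mul_le_mul_of_nonneg_left cI.2 hΛ0.le
          _ = E ^ 2 * Λ * I := by ring
    constructor
    · rw [mul_one]
      exact (min_le_left _ _).trans hF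
    · rcases min_choice 1 (I / min A B) with e | e
      · rw [e, mul_one]
        exact hF
      · rw [e, mul_div_assoc', le_div_iff₀ hm, one_mul]
        exact h2

/-- the size of an interval, with a base near the end -/
lemma size {w h : ℤ} {Λ E1 c C t t0 n N S : ℝ} (hp : ∀ t : ℝ,
      (∀ n : ℝ, 0 < n → 0 < Ph w h t n) ∧
      (∀ n n' : ℝ, 0 < n → n ≤ n' → Ph w h t n ≤ Ph w h t n') ∧
      (∀ n k : ℝ, 0 < n → 1 ≤ k → Ph w h t (k * n) ≤ k ^ 2 * Ph w h t n))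
    (hb : ∀ t s n : ℝ, 0 < n → |s - t| ≤ n → Ph w h s n ≤ Λ * Ph w h t n) (hΛ : 1 ≤ Λ)
    (hc : 0 < c) (hC : 0 < C) (hE1 : E1 = C + 1 / c + 1)
    (ht : |t - t0| ≤ 1 / 3) (hn : 1 / 3 ≤ n) (hnN : n ≤ N) (hN : N ≤ 3 * n) (hS : 0 < S)
    (h1 : c * Ph w h t n ≤ S) (h2 : S ≤ C * Ph w h t n) :
    Cmp (E1 * Λ * 9) S (Ph w h t0 N) := by
  have hn0 : 0 < n := by linarith
  have hc' : 0 < 1 / c := by positivity
  have hE0 : 0 < E1 := by rw [hE1]; linarith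
  have hP := (hp t).1 n hn0
  have e1 : Cmp E1 S (Ph w h t n) := by
    constructor
    · refine h2.trans (mul_le_mul_of_nonneg_right ?_ hP.le)
      rw [hE1]; linarith
    · have : Ph w h t n ≤ 1 / c * S := by
        rw [one_div, inv_mul_eq_div, le_div_iff₀ hc]
        linarith
      refine this.trans (mul_le_mul_of_nonneg_right ?_ hS.le)
      rw [hE1]; linarith
  have e2 : Cmp Λ (Ph w h t n) (Ph w h t0 n) :=
    ⟨hb t0 t n hn0 (ht.trans hn), hb t t0 n hn0 (by rw [abs_sub_comm]; exact ht.trans hn)⟩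
  have e3 : Cmp 9 (Ph w h t0 n) (Ph w h t0 N) := by
    have i1 := (hp t0).2.1 n N hn0 hnN
    have i2 := (hp t0).2.1 N (3 * n) (by linarith) hN
    have i3 := (hp t0).2.2 n 3 hn0 (by norm_num)
    have i4 := (hp t0).1 n hn0
    have i5 := (hp t0).1 N (by linarith)
    constructor
    · linarith
    · linarith
  exact (e1.trans hE0.le (by linarith) e2).trans (by positivity) (by norm_num) e3

theorem t_XXR : S_PM → S_CIR → S_FS → S_DC → S_PH → S_XXR := by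
  intro hPM hCIR hFS hDC hPH K
  obtain ⟨c1, C1, hc1, hC1, hPM⟩ := hPM K
  obtain ⟨c2, C2, hc2, hC2, hCIR⟩ := hCIR
  obtain ⟨Λ, hΛd⟩ : ∃ Λ : ℝ, Λ = 2 * (K + 1) := ⟨_, rfl⟩
  obtain ⟨E1, hE1⟩ : ∃ E1, E1 = C1 + 1 / c1 + 1 := ⟨_, rfl⟩
  obtain ⟨E, hEd⟩ : ∃ E, E = E1 * Λ * 9 := ⟨_, rfl⟩
  obtain ⟨F, hFd⟩ : ∃ F, F = E ^ 2 * Λ := ⟨_, rfl⟩
  have hK0 : (0 : ℝ) ≤ K := Nat.cast_nonneg _
  have hΛ : 1 ≤ Λ := by rw [hΛd]; linarith
  have hE11 : 1 ≤ E1 := by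
    have : 0 < 1 / c1 := by positivity
    rw [hE1]; linarith
  have hE : 1 ≤ E := by
    rw [hEd]
    nlinarith
  have hF : 1 ≤ F := by
    rw [hFd]
    have : 1 ≤ E ^ 2 := one_le_pow₀ hE
    nlinarith
  have hF0 : 0 < F := by linarith
  refine ⟨c2 / F ^ 2, C2 * F ^ 2, by positivity, by positivity, ?_⟩
  intro w h hAsp α lam hPar a b c' d hArcs θ1 θ2 θ3 θ4 t1 t2 t3 t4
  have hPM := hPM w h hAsp α lam hPar
  obtain ⟨hw, hh, hwh, hhw⟩ := hAsp
  obtain ⟨hα0, hα1, hlam, hpar1, hpar2⟩ := hPar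
  obtain ⟨_, _, hmono, hper, _⟩ := hFS α hα0 hα1
  obtain ⟨ar1, ar2, ar3, ar4⟩ := hArcs
  have hwr : (1 : ℝ) ≤ w := by exact_mod_cast hw
  have hhr : (1 : ℝ) ≤ h := by exact_mod_cast hh
  have hwh' : (w : ℝ) ≤ K * h := by exact_mod_cast hwh
  have hhw' : (h : ℝ) ≤ K * w := by exact_mod_cast hhw
  have b1 : (a : ℝ) ≤ b := by exact_mod_cast ar1
  have b2 : (b : ℝ) + 1 ≤ c' := by exact_mod_cast ar2
  have b3 : (c' : ℝ) ≤ d := by exact_mod_cast ar3
  have b4 : (d : ℝ) + 1 ≤ a + 2 * (w + h) := by exact_mod_cast ar4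
  obtain ⟨M, hM⟩ : ∃ M : ℝ, M = min (w : ℝ) h := ⟨_, rfl⟩
  have hM1 : 1 ≤ M := by rw [hM]; exact le_min hwr hhr
  have hM0 : 0 < M := by linarith
  have hM2 : 0 < M ^ 2 := by positivity
  have hper2 : lam * SC α (θ1 + 2 * π) = a - 1 / 3 + 2 * (w + h) := by
    have e : θ1 + 2 * π = θ1 + π + π := by ring
    rw [e, hper, hper, mul_add, mul_add, t1, hpar2]
    ring
  have hinj : ∀ x y : ℝ, lam * SC α x < lam * SC α y → x < y := by
    intro x y hxy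
    exact hmono.lt_iff_lt.1 (lt_of_mul_lt_mul_left hxy hlam.le)
  have o1 : θ1 < θ2 := hinj _ _ (by rw [t1, t2]; linarith)
  have o2 : θ2 < θ3 := hinj _ _ (by rw [t2, t3]; linarith)
  have o3 : θ3 < θ4 := hinj _ _ (by rw [t3, t4]; linarith)
  have o4 : θ4 < θ1 + 2 * π := hinj _ _ (by rw [t4, hper2]; linarith)
  -- the sizes
  have hPH' := hPH w h hw hh
  have hp : ∀ t : ℝ, (∀ n : ℝ, 0 < n → 0 < Ph w h t n) ∧
      (∀ n n' : ℝ, 0 < n → n ≤ n' → Ph w h t n ≤ Ph w h t n') ∧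
      (∀ n k : ℝ, 0 < n → 1 ≤ k → Ph w h t (k * n) ≤ k ^ 2 * Ph w h t n) := fun t =>
    ⟨(hPH' t).1, (hPH' t).2.1, (hPH' t).2.2.1⟩
  have hratio : (2 * ((w : ℝ) + h)) / min (w : ℝ) h ≤ Λ := by
    rw [← hM, div_le_iff₀ hM0, hΛd]
    rcases min_choice (w : ℝ) h with e | e
    · rw [hM, e]; nlinarith
    · rw [hM, e]; nlinarith
  have hb : ∀ t s n : ℝ, 0 < n → |s - t| ≤ n → Ph w h s n ≤ Λ * Ph w h t n := by
    intro t s n hn hst
    exact ((hPH' t).2.2.2.1 n s hn hst).trans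
      (mul_le_mul_of_nonneg_right hratio ((hp t).1 n hn).le)
  have hPhper : ∀ t n : ℝ, Ph w h (t + 2 * (w + h)) n = Ph w h t n := by
    intro t n
    have e1 := (((hDC w h hw hh).1 t).2.2).1
    have e2 := (((hDC w h hw hh).1 (t + (w + h))).2.2).1
    have e3 : t + 2 * ((w : ℝ) + h) = t + (w + h) + (w + h) := by ring
    unfold Ph
    rw [e3, e2, e1]
  have hsz : ∀ (θ θ' t0 t0' N : ℝ), θ < θ' → θ' ≤ θ + 2 * π →
      |lam * SC α θ - t0| ≤ 1 / 3 → |lam * SC α θ' - t0'| ≤ 1 / 3 →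
      1 / 3 ≤ lam * SC α θ' - lam * SC α θ → lam * SC α θ' - lam * SC α θ ≤ N →
      N ≤ 3 * (lam * SC α θ' - lam * SC α θ) →
      Cmp E (M ^ 2 * (θ' - θ)) (Ph w h t0 N) ∧ Cmp E (M ^ 2 * (θ' - θ)) (Ph w h t0' N) := by
    intro θ θ' t0 t0' N h1 h2 h3 h4 h5 h6 h7
    have hS : 0 < M ^ 2 * (θ' - θ) := mul_pos hM2 (by linarith)
    obtain ⟨p1, p2, p3, p4⟩ := hPM θ θ' h1 h2
    rw [← hM, mul_sub lam (SC α θ') (SC α θ)] at p1 p2 p3 p4
    rw [hEd]
    exact ⟨size hp hb hΛ hc1 hC1 hE1 h3 h5 h6 h7 hS p1 p2,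
      size hp hb hΛ hc1 hC1 hE1 h4 h5 h6 h7 hS p3 p4⟩
  have habs1 : ∀ x : ℝ, |x - 1 / 3 - x| ≤ 1 / 3 := fun x => by
    rw [show x - 1 / 3 - x = -(1 / 3) by ring, abs_neg, abs_of_pos (by norm_num)]
  have habs2 : ∀ x : ℝ, |x + 1 / 3 - x| ≤ 1 / 3 := fun x => by
    rw [show x + 1 / 3 - x = 1 / 3 by ring, abs_of_pos (by norm_num)]
  obtain ⟨si1, si2⟩ := hsz θ1 θ2 a b ((b : ℝ) - a + 1) o1 (by linarith) (by rw [t1]; exact habs1 _)
    (by rw [t2]; exact habs2 _) (by rw [t1, t2]; linarith) (by rw [t1, t2]; linarith)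
    (by rw [t1, t2]; linarith)
  obtain ⟨sg1, sg2⟩ := hsz θ2 θ3 b c' ((c' : ℝ) - b) o2 (by linarith) (by rw [t2]; exact habs2 _)
    (by rw [t3]; exact habs1 _) (by rw [t2, t3]; linarith) (by rw [t2, t3]; linarith)
    (by rw [t2, t3]; linarith)
  obtain ⟨sj1, sj2⟩ := hsz θ3 θ4 c' d ((d : ℝ) - c' + 1) o3 (by linarith) (by rw [t3]; exact habs1 _)
    (by rw [t4]; exact habs2 _) (by rw [t3, t4]; linarith) (by rw [t3, t4]; linarith)
    (by rw [t3, t4]; linarith)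
  obtain ⟨sk1, sk2⟩ := hsz θ4 (θ1 + 2 * π) d (a + 2 * (w + h)) ((a : ℝ) + 2 * (w + h) - d) o4
    (by linarith) (by rw [t4]; exact habs2 _)
    (by
      rw [hper2, show (a : ℝ) - 1 / 3 + 2 * (w + h) - (a + 2 * (w + h)) = -(1 / 3) by ring, abs_neg,
        abs_of_pos (by norm_num)])
    (by rw [t4, hper2]; linarith) (by rw [t4, hper2]; linarith) (by rw [t4, hper2]; linarith)
  have hi0 : 0 < M ^ 2 * (θ2 - θ1) := mul_pos hM2 (by linarith)
  have hg0 : 0 < M ^ 2 * (θ3 - θ2) := mul_pos hM2 (by linarith)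
  have hj0 : 0 < M ^ 2 * (θ4 - θ3) := mul_pos hM2 (by linarith)
  have hk0 : 0 < M ^ 2 * (θ1 + 2 * π - θ4) := mul_pos hM2 (by linarith)
  have r1 : 0 < (b : ℝ) - a + 1 := by linarith
  have r2 : 0 < (c' : ℝ) - b := by linarith
  have r3 : 0 < (d : ℝ) - c' + 1 := by linarith
  have r4 : 0 < (a : ℝ) + 2 * (w + h) - d := by linarith
  have hbc : ∀ x y r : ℝ, 0 < r → |x - y| ≤ r → ∀ n, r ≤ n →
      Ph w h x n ≤ Λ * Ph w h y n ∧ Ph w h y n ≤ Λ * Ph w h x n := by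
    intro x y r hr hxy n hn
    exact ⟨hb y x n (by linarith) (hxy.trans hn),
      hb x y n (by linarith) (by rw [abs_sub_comm]; exact hxy.trans hn)⟩
  have hkey : ∀ x y I A B r u v : ℝ, 0 < I → 0 < A → 0 < B → 0 < r → 0 < u → 0 < v → |x - y| ≤ r →
      Cmp E (M ^ 2 * I) (Ph w h x r) → Cmp E (M ^ 2 * A) (Ph w h x u) →
      Cmp E (M ^ 2 * B) (Ph w h y v) →
      Cmp F (min 1 (I / min A B)) (qr w h x r (min u v)) := by
    intro x y I A B r u v hI hA hB hr hu hv hxy cI cA cB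
    have e1 := gen (Px := Ph w h x) (Py := Ph w h y) hE hΛ hr hu hv (mul_pos hM2 hI)
      (mul_pos hM2 hA) (mul_pos hM2 hB) (hp x).1 (hp x).2.1 (hp y).2.1 (hbc x y r hr hxy) cI cA cB
    rw [← mul_min_of_nonneg _ _ hM2.le, mul_div_mul_left _ _ hM2.ne', ← hFd] at e1
    exact e1
  have x1 := hkey b a (θ2 - θ1) (θ3 - θ2) (θ1 + 2 * π - θ4) _ _ _ (by linarith) (by linarith)
    (by linarith) r1 r2 r4 (by rw [abs_of_nonneg (by linarith)]; linarith) si2 sg1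
    (by rw [← hPhper a]; exact sk2)
  have x2 := hkey c' d (θ4 - θ3) (θ3 - θ2) (θ1 + 2 * π - θ4) _ _ _ (by linarith) (by linarith)
    (by linarith) r3 r2 r4 (by rw [abs_of_nonpos (by linarith)]; linarith) sj1 sg2 sk1
  have x3 := hkey b c' (θ3 - θ2) (θ2 - θ1) (θ4 - θ3) _ _ _ (by linarith) (by linarith)
    (by linarith) r2 r1 r3 (by rw [abs_of_nonpos (by linarith)]; linarith) sg1 si2 sj1
  have x4 := hkey d (a + 2 * (w + h)) (θ1 + 2 * π - θ4) (θ4 - θ3) (θ2 - θ1) _ _ _ (by linarith)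
    (by linarith) (by linarith) r4 r3 r1 (by rw [abs_of_nonpos (by linarith)]; linarith) sk1 sj2
    (by rw [hPhper a]; exact si1)
  obtain ⟨_, _, hC⟩ := hCIR θ1 θ2 θ3 θ4 o1 o2 o3 o4
  obtain ⟨f1, f2, f3, f4⟩ := hC _ _ _ _ _ _ rfl rfl rfl rfl rfl rfl
  have nn : ∀ X Y : ℝ, 0 < X → 0 < Y → 0 ≤ min 1 (X / Y) := fun X Y hX hY =>
    le_min zero_le_one (by positivity)
  have q0 : ∀ t x y : ℝ, 0 < x → 0 < y → 0 ≤ qr w h t x y := fun t x y hx hy =>
    nn _ _ ((hp t).1 x hx) ((hp t).1 y hy)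
  have mg : 0 < min (θ3 - θ2) (θ1 + 2 * π - θ4) := lt_min (by linarith) (by linarith)
  have mi : 0 < min (θ2 - θ1) (θ4 - θ3) := lt_min (by linarith) (by linarith)
  have X := Cmp.mul hF0.le (nn _ _ (by linarith) mg) (q0 _ _ _ r1 (lt_min r2 r4))
    (nn _ _ (by linarith) mg) (q0 _ _ _ r3 (lt_min r2 r4)) x1 x2
  rw [min_comm (θ4 - θ3), min_comm ((d : ℝ) - c' + 1)] at x4
  have Y := Cmp.mul hF0.le (nn _ _ (by linarith) mi) (q0 _ _ _ r2 (lt_min r1 r3))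
    (nn _ _ (by linarith) mi) (q0 _ _ _ r4 (lt_min r1 r3)) x3 x4
  have hF2 : 0 < F ^ 2 := by positivity
  refine ⟨o1, o2, o3, o4, ?_, ?_, ?_, ?_⟩
  · refine le_trans ?_ f1
    rw [div_mul_eq_mul_div, div_le_iff₀ hF2]
    unfold XX
    calc _ ≤ c2 * (F ^ 2 * _) := mul_le_mul_of_nonneg_left X.2 hc2.le
      _ = _ := by ring
  · refine f2.trans ?_
    unfold XX
    calc _ ≤ C2 * (F ^ 2 * _) := mul_le_mul_of_nonneg_left X.1 hC2.le
      _ = _ := by ring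
  · refine le_trans ?_ f3
    rw [div_mul_eq_mul_div, div_le_iff₀ hF2]
    unfold YY
    calc _ ≤ c2 * (F ^ 2 * _) := mul_le_mul_of_nonneg_left Y.2 hc2.le
      _ = _ := by ring
  · refine f4.trans ?_
    unfold YY
    calc _ ≤ C2 * (F ^ 2 * _) := mul_le_mul_of_nonneg_left Y.1 hC2.le
      _ = _ := by ring

end Pool.Agent.Y989.RC.XXR
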