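import Pool.Agent.Y989.RC.Main
import Pool.Agent.Y989.RC.T_ROT
import Pool.Agent.Y989.RC.T_SYM
import Pool.Agent.Y989.RC.T_DC
import Pool.Agent.Y989.RC.T_ARM1
import Pool.Agent.Y989.RC.T_ARM2
import Pool.Agent.Y989.RC.T_UP
import Pool.Agent.Y989.RC.T_IAR
import Pool.Agent.Y989.RC.T_GRP
import Pool.Agent.Y989.RC.T_GRC
import Pool.Agent.Y989.RC.T_LO2
import Pool.Agent.Y989.RC.T_LO1
import Pool.Agent.Y989.RC.T_LO
import Pool.Agent.Y989.RC.T_DUU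
import Pool.Agent.Y989.RC.T_DUL
import Pool.Agent.Y989.RC.T_KP
import Pool.Agent.Y989.RC.T_DUP
import Pool.Agent.Y989.RC.T_DLO
import Pool.Agent.Y989.RC.T_FS
import Pool.Agent.Y989.RC.T_ELL
import Pool.Agent.Y989.RC.T_EXI
import Pool.Agent.Y989.RC.T_ALP
import Pool.Agent.Y989.RC.T_LA
import Pool.Agent.Y989.RC.T_LB
import Pool.Agent.Y989.RC.T_PM
import Pool.Agent.Y989.RC.T_CIR
import Pool.Agent.Y989.RC.T_XXR

/-!
Project RC: assembly.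
-/

set_option autoImplicit false

namespace Pool.Agent.Y989.RC
open TH976.QC

theorem hdc : S_DC := DC.t_DC
theorem ph : S_PH := DC.t_PH hdc
theorem rot : S_ROT := ROT.t_ROT
theorem sym : S_SYM := SYM.t_SYM rot ROT.t_RFL
theorem arm1 : S_ARM1 := ARM1.t_ARM1 rot hdc
theorem arm2 : S_ARM2 := ARM2.t_ARM2 arm1
theorem up : S_UP := UP.t_UP arm1 arm2 hdc ph
theorem iar : S_IAR := IAR.t_IAR rot hdc
theorem lo2 : S_LO2 := LO2.t_LO2 iar GRP.t_GRP GRC.t_GRC hdc ph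
theorem lo1 : S_LO1 := LO1.t_LO1 hdc ph
theorem lo : S_LO := LO.t_LO sym hdc ph lo1 lo2
theorem kpc : S_KP := KP.t_KP hdc
theorem dup : S_DUP := DUP.t_DUP DUU.t_DUU up kpc hdc ph
theorem dlo : S_DLO := DLO.t_DLO DUL.t_DUL lo kpc hdc ph
theorem fs : S_FS := FS.t_FS
theorem exi : S_EXI := EXI.t_EXI fs ELL.t_ELL
theorem alp : S_ALP := ALP.t_ALP ELL.t_ELL
theorem pm : S_PM := PM.t_PM (LA.t_LA fs) (LB.t_LB fs hdc) alp fs hdc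
theorem xxr : S_XXR := XXR.t_XXR pm CIR.t_CIR fs hdc ph

theorem cardy_all (K : ℕ) : ∃ c C : ℝ, 0 < c ∧ 0 < C ∧ ∀ w h : ℤ, Asp K w h →
    ∀ α lam : ℝ, Par w h α lam → ∀ a b c' d : ℤ, Arcs w h a b c' d → ∀ θ1 θ2 θ3 θ4 : ℝ,
    lam * SC α θ1 = a - 1 / 3 → lam * SC α θ2 = b + 1 / 3 → lam * SC α θ3 = c' - 1 / 3 →
    lam * SC α θ4 = d + 1 / 3 →
    θ1 < θ2 ∧ θ2 < θ3 ∧ θ3 < θ4 ∧ θ4 < θ1 + 2 * Real.pi ∧
    CBd c C (PR w h a b c' d) (xr θ1 θ2 θ3 θ4) :=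
  cardy_rect up lo dup dlo xxr CIR.t_CIR K

end Pool.Agent.Y989.RC
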