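import Pool.Agent.Y989.RC.Stm2

/-!
Project RC: the law of bond percolation and the finite probabilities `PR`.
-/

set_option autoImplicit false

namespace Pool.Agent.Y989.RC
open Finset H974 TH976 TH976.QC Pool.Agent.H160R2.CV H362P MeasureTheory Filter Topology
open Pool.Agent.H160R2.CV.Quad Pool.Agent.H389R2.CD

/-- The boundary sets `I` and `J` of the rectangle are joined by an open path of the rectangle. -/
def JoinedR (w h : ℤ) (I J : Set ℤ) : Set (sqLattice.edgeSet → Bool) :=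
  {ω | ∃ x ∈ I, ∃ y ∈ J, ∃ p : (openGraph ω).Walk (bd w h x) (bd w h y),
    ∀ v ∈ p.support, (0 ≤ v.1 ∧ v.1 ≤ w) ∧ (0 ≤ v.2 ∧ v.2 ≤ h)}

theorem bd_in {w h : ℤ} (hw : 1 ≤ w) (hh : 1 ≤ h) (t : ℤ) :
    (0 ≤ (bd w h t).1 ∧ (bd w h t).1 ≤ w) ∧ (0 ≤ (bd w h t).2 ∧ (bd w h t).2 ≤ h) := by
  have h1 : 0 ≤ t % (2 * (w + h)) := Int.emod_nonneg _ (by omega)
  have h2 : t % (2 * (w + h)) < 2 * (w + h) := Int.emod_lt_of_pos _ (by omega)
  unfold bd
  split_ifs <;> simp only <;> omega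

theorem walk_reachR {w h : ℤ} {ω : sqLattice.edgeSet → Bool} {u v : ℤ × ℤ}
    (p : (openGraph ω).Walk u v) :
    (∀ z ∈ p.support, (0 ≤ z.1 ∧ z.1 ≤ w) ∧ (0 ≤ z.2 ∧ z.2 ≤ h)) →
      Reach (opn ω ∩ ↑(RE 0 w 0 h)) u v := by
  induction p with
  | nil => intro _; exact Relation.ReflTransGen.refl
  | cons h1 p ih =>
    rename_i u z v
    intro hs
    have hr := ih (fun t ht => hs t (by simp [ht]))
    have hu := hs u (by simp)
    have hz := hs z (by simp)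
    obtain ⟨e, he, hc⟩ := (openGraph_adj ω u z).mp h1
    have hiu : inR 0 w 0 h u := by
      unfold inR
      exact hu
    have hiz : inR 0 w 0 h z := by
      unfold inR
      exact hz
    have he2 : e ∈ RE 0 w 0 h := by
      rcases hc with ⟨h1, h2⟩ | ⟨h1, h2⟩
      · exact H731C.RE_of_ends (by rw [h1]; exact hiu) (by rw [h2]; exact hiz)
      · exact H731C.RE_of_ends (by rw [h1]; exact hiz) (by rw [h2]; exact hiu)
    exact Relation.ReflTransGen.head ⟨e, ⟨he, Finset.mem_coe.mpr he2⟩, hc⟩ hr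

theorem reach_walkR {w h : ℤ} {ω : sqLattice.edgeSet → Bool} {u v : ℤ × ℤ}
    (hu : (0 ≤ u.1 ∧ u.1 ≤ w) ∧ (0 ≤ u.2 ∧ u.2 ≤ h)) (hr : Reach (opn ω ∩ ↑(RE 0 w 0 h)) u v) :
    ∃ p : (openGraph ω).Walk u v, ∀ z ∈ p.support, (0 ≤ z.1 ∧ z.1 ≤ w) ∧ (0 ≤ z.2 ∧ z.2 ≤ h) := by
  induction hr with
  | refl => exact ⟨SimpleGraph.Walk.nil, by simpa using hu⟩
  | tail _ hs ih =>
    rename_i b c _
    obtain ⟨p, hp⟩ := ih
    have hc : (0 ≤ c.1 ∧ c.1 ≤ w) ∧ (0 ≤ c.2 ∧ c.2 ≤ h) := by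
      obtain ⟨e, ⟨-, he⟩, hc⟩ := hs
      have := H731C.RE_ends (Finset.mem_coe.mp he)
      rcases hc with ⟨h1, h2⟩ | ⟨h1, h2⟩
      · rw [← h2]; exact this.2
      · rw [← h1]; exact this.1
    have hadj : (openGraph ω).Adj b c :=
      (openGraph_adj ω b c).mpr (Adj.mono Set.inter_subset_left hs)
    refine ⟨p.concat hadj, ?_⟩
    intro z hz
    rw [SimpleGraph.Walk.support_concat] at hz
    have hz' : z ∈ p.support ∨ z = c := by simpa using hz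
    rcases hz' with h | h
    · exact hp z h
    · rw [h]; exact hc

theorem joinedR_eq {w h : ℤ} (hw : 1 ≤ w) (hh : 1 ≤ h) (a b c d : ℤ) :
    JoinedR w h (Set.Icc a b) (Set.Icc c d) =
      {ω | CN w h a b c d (FF (RE 0 w 0 h) ω)} := by
  ext ω
  show (∃ x ∈ Set.Icc a b, ∃ y ∈ Set.Icc c d, _) ↔ CN w h a b c d (FF (RE 0 w 0 h) ω)
  unfold CN
  rw [FF_coe]
  constructor
  · rintro ⟨x, hx, y, hy, p, hp⟩
    exact ⟨x, y, hx, hy, walk_reachR p hp⟩
  · rintro ⟨x, y, hx, hy, hr⟩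
    obtain ⟨p, hp⟩ := reach_walkR (bd_in hw hh x) hr
    exact ⟨x, hx, y, hy, p, hp⟩

/-- crossing probabilities of the rectangle -/
theorem cross_eq {w h : ℤ} (hw : 1 ≤ w) (hh : 1 ≤ h) (a b c d : ℤ) :
    (bondLaw H731C.half).real (JoinedR w h (Set.Icc a b) (Set.Icc c d)) = PR w h a b c d := by
  rw [joinedR_eq hw hh]
  exact law_event H731C.half (RE 0 w 0 h) (CN w h a b c d)

end Pool.Agent.Y989.RC
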