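import Pool.Agent.Y989.RC.Fin

/-!
Project RC: from the bounds by `XX`, `YY` to Cardy's function.
-/

set_option autoImplicit false

namespace Pool.Agent.Y989.RC
open Finset H974 TH976 TH976.QC Pool.Agent.H160R2.CV H362P MeasureTheory Filter Topology
open Pool.Agent.H160R2.CV.Quad Pool.Agent.H389R2.CD

theorem third_up {C cx x X : ℝ} (hC : 0 < C) (hcx : 0 < cx) (hX : 0 ≤ X)
    (h : cx * X ≤ x) : C * X ^ ((1 : ℝ) / 3) ≤ C * (1 / cx) ^ ((1 : ℝ) / 3) * x ^ ((1 : ℝ) / 3) := by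
  have hx : 0 ≤ x := (mul_nonneg hcx.le hX).trans h
  rw [mul_assoc, ← Real.mul_rpow (by positivity) hx]
  apply mul_le_mul_of_nonneg_left _ hC.le
  apply Real.rpow_le_rpow hX _ (by norm_num)
  rw [one_div, inv_mul_eq_div, le_div_iff₀ hcx]
  linarith

theorem third_lo {c Cx x X : ℝ} (hc : 0 < c) (hCx : 0 < Cx) (hX : 0 ≤ X) (hx : 0 ≤ x)
    (h : x ≤ Cx * X) : c * (1 / Cx) ^ ((1 : ℝ) / 3) * x ^ ((1 : ℝ) / 3) ≤ c * X ^ ((1 : ℝ) / 3) := by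
  rw [mul_assoc, ← Real.mul_rpow (by positivity) hx]
  apply mul_le_mul_of_nonneg_left _ hc.le
  apply Real.rpow_le_rpow (by positivity) _ (by norm_num)
  rw [one_div, inv_mul_eq_div, div_le_iff₀ hCx]
  linarith

/-- **power bounds in the rectangle** -/
theorem rect_bounds (hUP : S_UP) (hLO : S_LO) (hDUP : S_DUP) (hDLO : S_DLO) (hXR : S_XXR)
    (hCIR : S_CIR) (K : ℕ) : ∃ c C : ℝ, 0 < c ∧ 0 < C ∧ ∀ w h : ℤ, Asp K w h →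
    ∀ α lam : ℝ, Par w h α lam → ∀ a b c' d : ℤ, Arcs w h a b c' d → ∀ θ1 θ2 θ3 θ4 : ℝ,
    lam * SC α θ1 = a - 1 / 3 → lam * SC α θ2 = b + 1 / 3 → lam * SC α θ3 = c' - 1 / 3 →
    lam * SC α θ4 = d + 1 / 3 →
    θ1 < θ2 ∧ θ2 < θ3 ∧ θ3 < θ4 ∧ θ4 < θ1 + 2 * Real.pi ∧
    0 < xr θ1 θ2 θ3 θ4 ∧ xr θ1 θ2 θ3 θ4 < 1 ∧ Bds c C (PR w h a b c' d) (xr θ1 θ2 θ3 θ4) := by
  obtain ⟨C1, hC1, U⟩ := hUP
  obtain ⟨c2, hc2, L⟩ := hLO K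
  obtain ⟨C3, hC3, DU⟩ := hDUP
  obtain ⟨c4, hc4, DL⟩ := hDLO K
  obtain ⟨cx, Cx, hcx, hCx, X⟩ := hXR K
  obtain ⟨_, _, _, _, CI⟩ := hCIR
  refine ⟨min (c2 * (1 / Cx) ^ ((1 : ℝ) / 3)) (c4 * (1 / Cx) ^ ((1 : ℝ) / 3)),
    max (C1 * (1 / cx) ^ ((1 : ℝ) / 3)) (C3 * (1 / cx) ^ ((1 : ℝ) / 3)),
    lt_min (by positivity) (by positivity), lt_max_of_lt_left (by positivity), ?_⟩
  intro w h hA α lam hP a b c' d hArcs θ1 θ2 θ3 θ4 e1 e2 e3 e4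
  obtain ⟨t1, t2, t3, t4, x1, x2, y1, y2⟩ := X w h hA α lam hP a b c' d hArcs θ1 θ2 θ3 θ4 e1 e2 e3 e4
  obtain ⟨p0, p1, -⟩ := CI θ1 θ2 θ3 θ4 t1 t2 t3 t4
  have hXp : 0 < XX w h a b c' d := by
    by_contra hn
    have : Cx * XX w h a b c' d ≤ 0 := mul_nonpos_of_nonneg_of_nonpos hCx.le (not_lt.mp hn)
    linarith
  have hYp : 0 < YY w h a b c' d := by
    by_contra hn
    have : Cx * YY w h a b c' d ≤ 0 := mul_nonpos_of_nonneg_of_nonpos hCx.le (not_lt.mp hn)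
    linarith
  have u := U w h hA.1 hA.2.1 a b c' d hArcs
  have l := L w h hA a b c' d hArcs
  have du := DU w h hA.1 hA.2.1 a b c' d hArcs
  have dl := DL w h hA a b c' d hArcs
  have xn : 0 ≤ xr θ1 θ2 θ3 θ4 ^ ((1 : ℝ) / 3) := Real.rpow_nonneg p0.le _
  have yn : 0 ≤ (1 - xr θ1 θ2 θ3 θ4) ^ ((1 : ℝ) / 3) := Real.rpow_nonneg (by linarith) _
  refine ⟨t1, t2, t3, t4, p0, p1, ?_, ?_, ?_, ?_⟩
  · exact (mul_le_mul_of_nonneg_right (min_le_left _ _) xn).trans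
      ((third_lo hc2 hCx hXp.le p0.le x2).trans l)
  · exact (u.trans (third_up hC1 hcx hXp.le x1)).trans
      (mul_le_mul_of_nonneg_right (le_max_left _ _) xn)
  · exact (mul_le_mul_of_nonneg_right (min_le_right _ _) yn).trans
      ((third_lo hc4 hCx hYp.le (by linarith) y2).trans dl)
  · exact (du.trans (third_up hC3 hcx hYp.le y1)).trans
      (mul_le_mul_of_nonneg_right (le_max_right _ _) yn)

/-- **Cardy's formula up to constants in the rectangle** -/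
theorem cardy_rect (hUP : S_UP) (hLO : S_LO) (hDUP : S_DUP) (hDLO : S_DLO) (hXR : S_XXR)
    (hCIR : S_CIR) (K : ℕ) : ∃ c C : ℝ, 0 < c ∧ 0 < C ∧ ∀ w h : ℤ, Asp K w h →
    ∀ α lam : ℝ, Par w h α lam → ∀ a b c' d : ℤ, Arcs w h a b c' d → ∀ θ1 θ2 θ3 θ4 : ℝ,
    lam * SC α θ1 = a - 1 / 3 → lam * SC α θ2 = b + 1 / 3 → lam * SC α θ3 = c' - 1 / 3 →
    lam * SC α θ4 = d + 1 / 3 →
    θ1 < θ2 ∧ θ2 < θ3 ∧ θ3 < θ4 ∧ θ4 < θ1 + 2 * Real.pi ∧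
    CBd c C (PR w h a b c' d) (xr θ1 θ2 θ3 θ4) := by
  obtain ⟨c, C, hc, hC, H⟩ := rect_bounds hUP hLO hDUP hDLO hXR hCIR K
  obtain ⟨k, K', hk, hK, HF⟩ := H731C.cardyF_bounds
  refine ⟨c / K', C / k, by positivity, by positivity, ?_⟩
  intro w h hA α lam hP a b c' d hArcs θ1 θ2 θ3 θ4 e1 e2 e3 e4
  obtain ⟨t1, t2, t3, t4, p0, p1, hB⟩ := H w h hA α lam hP a b c' d hArcs θ1 θ2 θ3 θ4 e1 e2 e3 e4
  exact ⟨t1, t2, t3, t4, to_cardy hc hC hk hK p0 p1 hB (HF _ p0 p1)⟩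

end Pool.Agent.Y989.RC
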