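import Pool.Agent.TH976.QC.Fin
import Pool.Agent.H160R2.SA.Arm

/-!
Project RC: Cardy's formula up to constants for all boundary arcs of all rectangles of bounded
aspect ratio. Definitions and statements.
-/

set_option autoImplicit false

namespace Pool.Agent.Y989.RC
open Finset H974 TH976 TH976.QC Pool.Agent.H160R2.CV
open Pool.Agent.H160R2.CV.Quad Pool.Agent.H389R2.CD

/-- The boundary point number `t` of the rectangle `[0,w] × [0,h]`: counterclockwise from the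
corner `(0,0)`, with period `2 (w + h)`. -/
def bd (w h t : ℤ) : Vtx :=
  if t % (2 * (w + h)) ≤ w then (t % (2 * (w + h)), 0)
  else if t % (2 * (w + h)) ≤ w + h then (w, t % (2 * (w + h)) - w)
  else if t % (2 * (w + h)) ≤ 2 * w + h then (2 * w + h - t % (2 * (w + h)), h)
  else (0, 2 * w + 2 * h - t % (2 * (w + h)))

/-- The boundary arcs `[a, b]` and `[c, d]` are connected. -/
def CN (w h a b c d : ℤ) (F : Finset Edg) : Prop :=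
  ∃ x y, (a ≤ x ∧ x ≤ b) ∧ (c ≤ y ∧ y ≤ d) ∧ Reach (↑F) (bd w h x) (bd w h y)

/-- The crossing probability. -/
noncomputable def PR (w h a b c d : ℤ) : ℝ := Pr P (RE 0 w 0 h) (CN w h a b c d)

/-- The numbers of the corners. -/
def corners (w h : ℤ) : Set ℝ :=
  {x | ∃ k : ℤ, x = (k : ℝ) * (w + h) ∨ x = (k : ℝ) * (w + h) + w}

/-- Distance to the nearest corner. -/
noncomputable def dc (w h : ℤ) (t : ℝ) : ℝ := Metric.infDist t (corners w h)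

/-- The conformal size (up to the factor `(min w h) ^ 2`) of a boundary interval of length `n` with
end `t`. -/
noncomputable def Ph (w h : ℤ) (t n : ℝ) : ℝ :=
  min n (min (w : ℝ) h) * max (dc w h t) (min n (min (w : ℝ) h))

/-- The ratio of the sizes of two boundary intervals with lengths `r`, `g` and common end `t`. -/
noncomputable def qr (w h : ℤ) (t r g : ℝ) : ℝ := min 1 (Ph w h t r / Ph w h t g)

/-- Bounded aspect ratio. -/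
def Asp (K : ℕ) (w h : ℤ) : Prop := 1 ≤ w ∧ 1 ≤ h ∧ w ≤ K * h ∧ h ≤ K * w

/-- Two disjoint boundary arcs `[a, b]`, `[c, d]`. -/
def Arcs (w h a b c d : ℤ) : Prop := a ≤ b ∧ b < c ∧ c ≤ d ∧ d < a + 2 * (w + h)

/-- The product which gives the order of the crossing probability. -/
noncomputable def XX (w h a b c d : ℤ) : ℝ :=
  qr w h b (b - a + 1) (min ((c : ℝ) - b) (a + 2 * (w + h) - d)) *
    qr w h c (d - c + 1) (min ((c : ℝ) - b) (a + 2 * (w + h) - d))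

/-- The product which gives the order of the probability that there is no crossing. -/
noncomputable def YY (w h a b c d : ℤ) : ℝ :=
  qr w h b (c - b) (min ((b : ℝ) - a + 1) (d - c + 1)) *
    qr w h d (a + 2 * (w + h) - d) (min ((b : ℝ) - a + 1) (d - c + 1))

/-! ### symmetries -/

/-- rotation by 90 degrees, reflection, exchange of the two arcs, periodicity -/
def S_SYM : Prop := ∀ w h : ℤ, 1 ≤ w → 1 ≤ h → ∀ a b c d : ℤ,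
  PR w h a b c d = PR h w (a - w) (b - w) (c - w) (d - w) ∧
  PR w h a b c d = PR h w (-d) (-c) (-b) (-a) ∧
  PR w h a b c d = PR w h c d (a + 2 * (w + h)) (b + 2 * (w + h)) ∧
  PR w h a b c d = PR w h (a + 2 * (w + h)) (b + 2 * (w + h)) (c + 2 * (w + h)) (d + 2 * (w + h))

/-- distance to the corners -/
def S_DC : Prop := ∀ w h : ℤ, 1 ≤ w → 1 ≤ h →
  (∀ t : ℝ, dc h w (t - w) = dc w h t ∧ dc h w (-t) = dc w h t ∧ dc w h (t + (w + h)) = dc w h t ∧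
    0 ≤ dc w h t ∧ dc w h t ≤ |t| ∧ (∀ s : ℝ, dc w h s ≤ dc w h t + |s - t|)) ∧
  (∀ t : ℝ, -(h : ℝ) / 2 ≤ t → t ≤ (w : ℝ) / 2 → dc w h t = |t|) ∧
  (∀ t : ℝ, 0 ≤ t → t ≤ (w : ℝ) → dc w h t = min t (w - t)) ∧
  (∀ t : ℝ, -(h : ℝ) ≤ t → t ≤ 0 → dc w h t = min (-t) (h + t))

/-- elementary properties of the sizes (`m = min w h`) -/
def S_PH : Prop := ∀ w h : ℤ, 1 ≤ w → 1 ≤ h → ∀ t : ℝ,
  (∀ n : ℝ, 0 < n → 0 < Ph w h t n) ∧
  (∀ n n' : ℝ, 0 < n → n ≤ n' → Ph w h t n ≤ Ph w h t n') ∧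
  (∀ n k : ℝ, 0 < n → 1 ≤ k → Ph w h t (k * n) ≤ k ^ 2 * Ph w h t n) ∧
  (∀ n s : ℝ, 0 < n → |s - t| ≤ n → Ph w h s n ≤ (2 * (w + h)) / min (w : ℝ) h * Ph w h t n) ∧
  (∀ n s : ℝ, 0 < n → n ≤ min (w : ℝ) h → |s - t| ≤ n → Ph w h s n ≤ 2 * Ph w h t n)

/-! ### upper bound -/

/-- a crossing from distance `r` to distance `n` around the boundary point `t` -/
def CxR (w h t : ℤ) (r n : ℕ) (F : Finset Edg) : Prop :=
  ∃ u v : Vtx, inR 0 w 0 h u ∧ sd u (bd w h t) ≤ r ∧ n ≤ sd v (bd w h t) ∧ Reach (↑F) u v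

def S_ARM1 : Prop := ∃ C : ℝ, 0 < C ∧ ∀ w h t : ℤ, 1 ≤ w → 1 ≤ h → ∀ r n : ℕ, 1 ≤ r → r ≤ n →
  2 * (n : ℤ) ≤ min w h →
  Pr P (RE 0 w 0 h) (CxR w h t r n) ≤ C * (Ph w h t r / Ph w h t n) ^ ((1 : ℝ) / 3)

def S_ARM2 : Prop := ∃ C : ℝ, 0 < C ∧ ∀ w h t t' : ℤ, 1 ≤ w → 1 ≤ h → ∀ r n r' n' : ℕ, 1 ≤ r →
  r ≤ n → 1 ≤ r' → r' ≤ n' → 2 * (n : ℤ) ≤ min w h → 2 * (n' : ℤ) ≤ min w h →
  n + n' + 1 ≤ sd (bd w h t) (bd w h t') →
  Pr P (RE 0 w 0 h) (fun F => CxR w h t r n F ∧ CxR w h t' r' n' F) ≤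
    C * ((Ph w h t r / Ph w h t n) * (Ph w h t' r' / Ph w h t' n')) ^ ((1 : ℝ) / 3)

def S_UP : Prop := ∃ C : ℝ, 0 < C ∧ ∀ w h : ℤ, 1 ≤ w → 1 ≤ h → ∀ a b c d : ℤ, Arcs w h a b c d →
  PR w h a b c d ≤ C * (XX w h a b c d) ^ ((1 : ℝ) / 3)

/-! ### lower bound -/

/-- the arc `[a, b]` is connected to distance `n` from the boundary point `t` -/
def IAR (w h a b t : ℤ) (n : ℕ) (F : Finset Edg) : Prop :=
  ∃ (x : ℤ) (v : Vtx), (a ≤ x ∧ x ≤ b) ∧ n ≤ sd v (bd w h t) ∧ Reach (↑F) (bd w h x) v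

def S_IAR : Prop := ∃ c : ℝ, 0 < c ∧ ∀ w h a b t : ℤ, 1 ≤ w → 1 ≤ h → ∀ r n : ℕ, 1 ≤ r →
  (r : ℤ) = b - a + 1 → a ≤ t → t ≤ b → r ≤ n → 6 * (n : ℤ) ≤ min w h →
  c * (Ph w h t r / Ph w h t n) ^ ((1 : ℝ) / 3) ≤ Pr P (RE 0 w 0 h) (IAR w h a b t n)

/-- crossings of all the strips of width `m`, in both directions -/
def Grid (w h m : ℤ) (F : Finset Edg) : Prop :=
  (∀ k : ℤ, 0 ≤ k → (k + 1) * m ≤ w → TBc (k * m) ((k + 1) * m) 0 h F) ∧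
  (∀ k : ℤ, 0 ≤ k → (k + 1) * m ≤ h → LRc 0 w (k * m) ((k + 1) * m) F)

def S_GRP : Prop := ∀ K : ℕ, ∃ c : ℝ, 0 < c ∧ ∀ w h m : ℤ, 1 ≤ m → m ≤ w → m ≤ h → w ≤ K * m →
  h ≤ K * m → c ≤ Pr P (RE 0 w 0 h) (Grid w h m)

def S_GRC : Prop := ∀ w h m : ℤ, 1 ≤ m → 3 * m ≤ w → 3 * m ≤ h → ∀ F : Finset Edg,
  F ⊆ RE 0 w 0 h → Grid w h m F → ∃ z : Vtx, ∀ u v : Vtx, inR 0 w 0 h u →
    3 * m ≤ (sd u v : ℤ) → Reach (↑F) u v → Reach (↑F) u z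

/-- both gaps are large -/
def S_LO2 : Prop := ∀ K : ℕ, ∃ c : ℝ, 0 < c ∧ ∀ w h : ℤ, Asp K w h → 1000 ≤ min w h →
  ∀ a b c' d : ℤ, Arcs w h a b c' d → min w h ≤ 100 * (c' - b) →
    min w h ≤ 100 * (a + 2 * (w + h) - d) → c * (XX w h a b c' d) ^ ((1 : ℝ) / 3) ≤ PR w h a b c' d

/-- one gap is small, in standard position -/
def S_LO1 : Prop := ∃ c : ℝ, 0 < c ∧ ∀ w h : ℤ, 1 ≤ w → 1 ≤ h → ∀ a b c' d : ℤ,
  Arcs w h a b c' d → c' - b ≤ a + 2 * (w + h) - d → 100 * (c' - b) ≤ min w h → -h ≤ 2 * b →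
    2 * b ≤ w → c * (XX w h a b c' d) ^ ((1 : ℝ) / 3) ≤ PR w h a b c' d

def S_LO : Prop := ∀ K : ℕ, ∃ c : ℝ, 0 < c ∧ ∀ w h : ℤ, Asp K w h → ∀ a b c' d : ℤ,
  Arcs w h a b c' d → c * (XX w h a b c' d) ^ ((1 : ℝ) / 3) ≤ PR w h a b c' d

/-! ### duality -/

/-- the boundary edge `k`, between the boundary points `k` and `k + 1` -/
def beR (w h k : ℤ) : Edg :=
  if k % (2 * (w + h)) < w then (k % (2 * (w + h)), 0, true)
  else if k % (2 * (w + h)) < w + h then (w, k % (2 * (w + h)) - w, false)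
  else if k % (2 * (w + h)) < 2 * w + h then (2 * w + h - k % (2 * (w + h)) - 1, h, true)
  else (0, 2 * w + 2 * h - k % (2 * (w + h)) - 1, false)

/-- the number of the inner face next to the boundary edge `k`: the faces `(x, y)`, with lower left
corner `(x, y)`, form the rectangle `[0, w - 1] × [0, h - 1]` -/
def kp (w h k : ℤ) : ℤ :=
  k / (2 * (w + h)) * (2 * (w + h) - 4) + (k % (2 * (w + h)) -
    (if w ≤ k % (2 * (w + h)) then 1 else 0) - (if w + h ≤ k % (2 * (w + h)) then 1 else 0) -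
    (if 2 * w + h ≤ k % (2 * (w + h)) then 1 else 0))

def S_DUU : Prop := ∀ w h : ℤ, 2 ≤ w → 2 ≤ h → ∀ a b c d : ℤ, Arcs w h a b c d →
  1 - PR w h a b c d ≤
    PR (w - 1) (h - 1) (kp w h b) (kp w h (c - 1)) (kp w h d) (kp w h (a + 2 * (w + h) - 1))

def S_DUL : Prop := ∀ w h : ℤ, 2 ≤ w → 2 ≤ h → ∀ a b c d : ℤ, Arcs w h a b c d →
  1 / 4 * PR (w - 1) (h - 1) (kp w h b) (kp w h (c - 1)) (kp w h d) (kp w h (a + 2 * (w + h) - 1)) ≤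
    1 - PR w h a b c d

/-- comparison of the sizes in the rectangle and in the dual rectangle -/
def S_KP : Prop := ∀ w h : ℤ, 4 ≤ w → 4 ≤ h →
  (∀ k : ℤ, kp w h (k + 2 * (w + h)) = kp w h k + 2 * (w - 1 + (h - 1))) ∧
  (∀ k l : ℤ, k ≤ l → kp w h k ≤ kp w h l ∧ kp w h l - kp w h k ≤ l - k ∧
    l - k ≤ 2 * (kp w h l - kp w h k) + 1) ∧
  (∀ k : ℤ, |dc (w - 1) (h - 1) (kp w h k) - dc w h k| ≤ 1) ∧
  (∀ (k l : ℤ) (n n' : ℝ), |(k : ℝ) - l| ≤ 1 → 1 ≤ n → 1 ≤ n' → n ≤ 2 * n' → n' ≤ 2 * n →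
    Ph (w - 1) (h - 1) (kp w h k) n' ≤ 100 * Ph w h l n ∧
    Ph w h l n ≤ 100 * Ph (w - 1) (h - 1) (kp w h k) n')

def S_DUP : Prop := ∃ C : ℝ, 0 < C ∧ ∀ w h : ℤ, 1 ≤ w → 1 ≤ h → ∀ a b c d : ℤ, Arcs w h a b c d →
  1 - PR w h a b c d ≤ C * (YY w h a b c d) ^ ((1 : ℝ) / 3)

def S_DLO : Prop := ∀ K : ℕ, ∃ c : ℝ, 0 < c ∧ ∀ w h : ℤ, Asp K w h → ∀ a b c' d : ℤ,
  Arcs w h a b c' d → c * (YY w h a b c' d) ^ ((1 : ℝ) / 3) ≤ 1 - PR w h a b c' d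

end Pool.Agent.Y989.RC
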