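import Pool.Agent.Y989.RC.Stm

/-!
Project RC: the Schwarz-Christoffel boundary map of the rectangle; statements of the analysis.
-/

set_option autoImplicit false

namespace Pool.Agent.Y989.RC
open MeasureTheory Real

/-- `|f'|` on the unit circle, at the point of argument `φ`, for the conformal map `f` of the disc
onto a rectangle whose corners are the images of `exp (± i α)`, `- exp (± i α)` -/
noncomputable def fS (α φ : ℝ) : ℝ := 1 / √|sin φ ^ 2 - sin α ^ 2|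

/-- arc length along the boundary of the rectangle, from the corner of argument `-α` -/
noncomputable def SC (α θ : ℝ) : ℝ := ∫ φ in (-α)..θ, fS α φ

/-- `lam * SC α` is the boundary map onto the rectangle `[0,w] × [0,h]`: the side `[0,w] × {0}` is
the image of the arc `[-α, α]`, the side `{w} × [0,h]` of the arc `[α, π - α]` -/
def Par (w h : ℤ) (α lam : ℝ) : Prop :=
  0 < α ∧ α < π / 2 ∧ 0 < lam ∧ lam * SC α α = w ∧ lam * SC α (π - α) = w + h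

/-- distance of an angle to the corners -/
noncomputable def et (α θ : ℝ) : ℝ :=
  Metric.infDist θ {x | ∃ k : ℤ, x = k * π + α ∨ x = k * π - α}

/-- elementary properties of the boundary map -/
def S_FS : Prop := ∀ α : ℝ, 0 < α → α < π / 2 →
  (∀ a b : ℝ, IntervalIntegrable (fS α) volume a b) ∧ Continuous (SC α) ∧ StrictMono (SC α) ∧
  (∀ θ : ℝ, SC α (θ + π) = SC α θ + SC α (π - α)) ∧ Function.Surjective (SC α)

/-- the two periods as complete elliptic integrals -/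
def S_ELL : Prop := ∀ α : ℝ, 0 < α → α < π / 2 →
  SC α α = 2 * ∫ t in (0 : ℝ)..(π / 2), 1 / √(1 - sin α ^ 2 * sin t ^ 2) ∧
  SC α (π - α) - SC α α = 2 * ∫ t in (0 : ℝ)..(π / 2), 1 / √(1 - cos α ^ 2 * sin t ^ 2)

/-- existence of the parameters for every rectangle -/
def S_EXI : Prop := ∀ w h : ℤ, 1 ≤ w → 1 ≤ h → ∃ α lam : ℝ, Par w h α lam

/-- the parameters for bounded aspect ratio -/
def S_ALP : Prop := ∀ K : ℕ, ∃ κ : ℝ, 0 < κ ∧ κ ≤ 1 ∧ ∀ w h : ℤ, Asp K w h → ∀ α lam : ℝ,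
  Par w h α lam → κ ≤ α ∧ α ≤ π / 2 - κ ∧ κ * min (w : ℝ) h ≤ lam ∧ lam ≤ min (w : ℝ) h

def S_LA : Prop := ∀ κ : ℝ, 0 < κ → ∃ c C : ℝ, 0 < c ∧ 0 < C ∧ ∀ α : ℝ, κ ≤ α → α ≤ π / 2 - κ →
  ∀ θ θ' : ℝ, θ < θ' → θ' ≤ θ + 2 * π →
    c * (θ' - θ) ≤ (SC α θ' - SC α θ) * √(max (et α θ) (θ' - θ)) ∧
    (SC α θ' - SC α θ) * √(max (et α θ) (θ' - θ)) ≤ C * (θ' - θ) ∧
    c * (θ' - θ) ≤ (SC α θ' - SC α θ) * √(max (et α θ') (θ' - θ)) ∧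
    (SC α θ' - SC α θ) * √(max (et α θ') (θ' - θ)) ≤ C * (θ' - θ)

def S_LB : Prop := ∀ κ : ℝ, 0 < κ → ∃ c C : ℝ, 0 < c ∧ 0 < C ∧ ∀ (w h : ℤ) (α lam : ℝ),
  1 ≤ w → 1 ≤ h → Par w h α lam → κ ≤ α → α ≤ π / 2 - κ → ∀ θ : ℝ,
    c * (lam * √(et α θ)) ≤ dc w h (lam * SC α θ) ∧ dc w h (lam * SC α θ) ≤ C * (lam * √(et α θ))

/-- the angle of a boundary interval is comparable to its size `Ph`, with either end as base -/
def S_PM : Prop := ∀ K : ℕ, ∃ c C : ℝ, 0 < c ∧ 0 < C ∧ ∀ w h : ℤ, Asp K w h → ∀ α lam : ℝ,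
  Par w h α lam → ∀ θ θ' : ℝ, θ < θ' → θ' ≤ θ + 2 * π →
    c * Ph w h (lam * SC α θ) (lam * (SC α θ' - SC α θ)) ≤ min (w : ℝ) h ^ 2 * (θ' - θ) ∧
    min (w : ℝ) h ^ 2 * (θ' - θ) ≤ C * Ph w h (lam * SC α θ) (lam * (SC α θ' - SC α θ)) ∧
    c * Ph w h (lam * SC α θ') (lam * (SC α θ' - SC α θ)) ≤ min (w : ℝ) h ^ 2 * (θ' - θ) ∧
    min (w : ℝ) h ^ 2 * (θ' - θ) ≤ C * Ph w h (lam * SC α θ') (lam * (SC α θ' - SC α θ))

/-- The cross-ratio of the points of the unit circle with arguments `θ1 < θ2 < θ3 < θ4 < θ1 + 2π`. -/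
noncomputable def xr (θ1 θ2 θ3 θ4 : ℝ) : ℝ :=
  sin ((θ2 - θ1) / 2) * sin ((θ4 - θ3) / 2) / (sin ((θ3 - θ1) / 2) * sin ((θ4 - θ2) / 2))

/-- cross-ratio and the sizes of the four arcs -/
def S_CIR : Prop := ∃ c C : ℝ, 0 < c ∧ 0 < C ∧ ∀ θ1 θ2 θ3 θ4 : ℝ, θ1 < θ2 → θ2 < θ3 → θ3 < θ4 →
  θ4 < θ1 + 2 * π → 0 < xr θ1 θ2 θ3 θ4 ∧ xr θ1 θ2 θ3 θ4 < 1 ∧
  ∀ i g j k g' m : ℝ, i = θ2 - θ1 → g = θ3 - θ2 → j = θ4 - θ3 → k = θ1 + 2 * π - θ4 →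
    g' = min g k → m = min i j →
    c * (min 1 (i / g') * min 1 (j / g')) ≤ xr θ1 θ2 θ3 θ4 ∧
    xr θ1 θ2 θ3 θ4 ≤ C * (min 1 (i / g') * min 1 (j / g')) ∧
    c * (min 1 (g / m) * min 1 (k / m)) ≤ 1 - xr θ1 θ2 θ3 θ4 ∧
    1 - xr θ1 θ2 θ3 θ4 ≤ C * (min 1 (g / m) * min 1 (k / m))

/-- the cross-ratio of the ends of the arcs (enlarged by `1/3` on each side) is comparable to
`XX`, and one minus the cross-ratio to `YY` -/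
def S_XXR : Prop := ∀ K : ℕ, ∃ c C : ℝ, 0 < c ∧ 0 < C ∧ ∀ w h : ℤ, Asp K w h → ∀ α lam : ℝ,
  Par w h α lam → ∀ a b c' d : ℤ, Arcs w h a b c' d → ∀ θ1 θ2 θ3 θ4 : ℝ,
    lam * SC α θ1 = a - 1 / 3 → lam * SC α θ2 = b + 1 / 3 → lam * SC α θ3 = c' - 1 / 3 →
    lam * SC α θ4 = d + 1 / 3 →
    θ1 < θ2 ∧ θ2 < θ3 ∧ θ3 < θ4 ∧ θ4 < θ1 + 2 * π ∧
    c * XX w h a b c' d ≤ xr θ1 θ2 θ3 θ4 ∧ xr θ1 θ2 θ3 θ4 ≤ C * XX w h a b c' d ∧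
    c * YY w h a b c' d ≤ 1 - xr θ1 θ2 θ3 θ4 ∧ 1 - xr θ1 θ2 θ3 θ4 ≤ C * YY w h a b c' d

end Pool.Agent.Y989.RC
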