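import Pool.Agent.Y989.RC.Stm

/-!
Project RC: planar duality in the rectangle, upper bound (helper949).
-/

set_option autoImplicit false

namespace Pool.Agent.Y989.RC.DUU
open Finset H974 TH976 TH976.QC Pool.Agent.H160R2.CV
open Pool.Agent.H160R2.CV.Quad Pool.Agent.H389R2.CD
open Pool.Agent.Y989.RC

/-! ### algebra modulo 2 -/

lemma tele {n : ℕ} (hn : 1 ≤ n) (f g : ℤ → ZMod 2)
    (h : ∀ y : ℤ, 1 ≤ y → y + 1 ≤ n → g y * f y = g y * f (y - 1)) :
    ∑ i ∈ range n, f i * (g i + g (i + 1)) = f 0 * g 0 + f (n - 1) * g n := by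
  induction n, hn using Nat.le_induction with
  | base => simp; ring
  | succ n hn ih =>
    rw [sum_range_succ, ih (fun y h1 h2 => h y h1 (by push_cast; omega))]
    have h1 := h n (by exact_mod_cast hn) (by push_cast; omega)
    have h2 := zmod2_add_self (f (n : ℤ) * g (n : ℤ))
    push_cast
    rw [show (n : ℤ) + 1 - 1 = n by ring]
    linear_combination (-1 : ZMod 2) * h1 + h2

lemma four (a b c d : ZMod 2) : (a + b) + (c + d) + ((a + c) + (b + d)) = 0 := by
  revert a b c d
  decide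

/-- summation over the period of a periodic function -/
lemma per_sum {N : ℕ} (f : ℤ → ZMod 2) (hf : ∀ k, f (k + N) = f k) (a : ℤ) :
    ∑ i ∈ range N, f (a + i) = ∑ i ∈ range N, f i := by
  have hstep : ∀ a : ℤ, ∑ i ∈ range N, f (a + 1 + i) = ∑ i ∈ range N, f (a + i) := by
    intro a
    have h1 : ∑ i ∈ range (N + 1), f (a + i) = ∑ i ∈ range N, f (a + i) + f (a + N) := sum_range_succ _ _
    have h2 : ∑ i ∈ range (N + 1), f (a + i) = ∑ i ∈ range N, f (a + (i + 1 : ℕ)) + f (a + (0 : ℕ)) :=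
      sum_range_succ' _ _
    rw [h1, hf a] at h2
    have h3 : ∑ i ∈ range N, f (a + 1 + i) = ∑ i ∈ range N, f (a + (i + 1 : ℕ)) := by
      apply sum_congr rfl
      intro i _
      congr 1
      push_cast; ring
    rw [h3]
    simp only [Nat.cast_zero, add_zero] at h2
    exact (add_right_cancel h2).symm
  have key : ∀ n : ℕ, (∑ i ∈ range N, f ((n : ℤ) + i) = ∑ i ∈ range N, f i) ∧
      (∑ i ∈ range N, f (-(n : ℤ) + i) = ∑ i ∈ range N, f i) := by
    intro n
    induction n with
    | zero => simp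
    | succ n ih =>
      constructor
      · rw [← ih.1, ← hstep (n : ℤ)]
        apply sum_congr rfl
        intro i _
        congr 1
      · rw [← ih.2, ← hstep (-((n + 1 : ℕ) : ℤ))]
        apply sum_congr rfl
        intro i _
        congr 1
        push_cast; ring
  obtain ⟨n, rfl | rfl⟩ := a.eq_nat_or_neg
  · exact (key n).1
  · exact (key n).2

/-! ### the numbering of the boundary -/

/-- the inner face next to the boundary edge `k` -/
def fc (w h k : ℤ) : Vtx :=
  if k % (2 * (w + h)) < w then (k % (2 * (w + h)), 0)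
  else if k % (2 * (w + h)) < w + h then (w - 1, k % (2 * (w + h)) - w)
  else if k % (2 * (w + h)) < 2 * w + h then (2 * w + h - k % (2 * (w + h)) - 1, h - 1)
  else (0, 2 * w + 2 * h - k % (2 * (w + h)) - 1)

lemma fc_eq {w h : ℤ} (hw : 2 ≤ w) (hh : 2 ≤ h) (k : ℤ) : bd (w - 1) (h - 1) (kp w h k) = fc w h k := by
  have hN : 0 < 2 * (w + h) := by omega
  obtain ⟨m, hm⟩ : ∃ m, m = k % (2 * (w + h)) := ⟨_, rfl⟩
  obtain ⟨q, hq⟩ : ∃ q, q = k / (2 * (w + h)) := ⟨_, rfl⟩
  have hm0 : 0 ≤ m := by rw [hm]; exact Int.emod_nonneg _ hN.ne'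
  have hm1 : m < 2 * (w + h) := by rw [hm]; exact Int.emod_lt_of_pos _ hN
  obtain ⟨m', hm'⟩ : ∃ m', m' = m - (if w ≤ m then 1 else 0) - (if w + h ≤ m then 1 else 0) -
      (if 2 * w + h ≤ m then 1 else 0) := ⟨_, rfl⟩
  have hkp : kp w h k = m' + (2 * (w - 1 + (h - 1))) * q := by
    unfold kp
    rw [← hm, ← hq, hm']
    ring
  have hmod : kp w h k % (2 * (w - 1 + (h - 1))) = m' % (2 * (w - 1 + (h - 1))) := by
    rw [hkp, Int.add_mul_emod_self_left]
  have hval : m' % (2 * (w - 1 + (h - 1))) = if m' = 2 * (w - 1 + (h - 1)) then 0 else m' := by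
    have h1 : 0 ≤ m' ∧ m' ≤ 2 * (w - 1 + (h - 1)) := by
      rw [hm']
      split_ifs <;> omega
    split_ifs with h2
    · rw [h2, Int.emod_self]
    · exact Int.emod_eq_of_lt h1.1 (lt_of_le_of_ne h1.2 h2)
  unfold bd fc
  rw [hmod, hval, ← hm]
  rcases lt_or_ge m w with c1 | c1
  · have e : m' = m := by
      rw [hm', if_neg (by omega), if_neg (by omega), if_neg (by omega)]; ring
    rw [e, if_neg (by omega : ¬ m = 2 * (w - 1 + (h - 1))), if_pos (by omega), if_pos c1]
  · rcases lt_or_ge m (w + h) with c2 | c2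
    · have e : m' = m - 1 := by
        rw [hm', if_pos c1, if_neg (by omega), if_neg (by omega)]; ring
      rw [e, if_neg (by omega : ¬ m - 1 = 2 * (w - 1 + (h - 1))), if_neg (by omega : ¬ m < w), if_pos c2]
      rcases eq_or_lt_of_le c1 with c3 | c3
      · rw [if_pos (by omega), Prod.mk.injEq]
        constructor <;> omega
      · rw [if_neg (by omega), if_pos (by omega), Prod.mk.injEq]
        constructor <;> omega
    · rcases lt_or_ge m (2 * w + h) with c4 | c4
      · have e : m' = m - 2 := by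
          rw [hm', if_pos c1, if_pos c2, if_neg (by omega)]; ring
        rw [e, if_neg (by omega : ¬ m - 2 = 2 * (w - 1 + (h - 1))), if_neg (by omega : ¬ m < w),
          if_neg (by omega : ¬ m < w + h), if_pos c4]
        rcases eq_or_lt_of_le c2 with c3 | c3
        · rw [if_neg (by omega), if_pos (by omega), Prod.mk.injEq]
          constructor <;> omega
        · rw [if_neg (by omega), if_neg (by omega), if_pos (by omega), Prod.mk.injEq]
          constructor <;> omega
      · have e : m' = m - 3 := by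
          rw [hm', if_pos c1, if_pos c2, if_pos c4]; ring
        rw [e, if_neg (by omega : ¬ m < w), if_neg (by omega : ¬ m < w + h),
          if_neg (by omega : ¬ m < 2 * w + h)]
        rcases eq_or_lt_of_le (by omega : m ≤ 2 * (w + h) - 1) with c5 | c5
        · rw [if_pos (by omega), if_pos (by omega), Prod.mk.injEq]
          constructor <;> omega
        · rw [if_neg (by omega : ¬ m - 3 = 2 * (w - 1 + (h - 1)))]
          rcases eq_or_lt_of_le c4 with c3 | c3
          · rw [if_neg (by omega), if_neg (by omega), if_pos (by omega), Prod.mk.injEq]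
            constructor <;> omega
          · rw [if_neg (by omega), if_neg (by omega), if_neg (by omega), Prod.mk.injEq]
            constructor <;> omega

lemma mod_succ {N : ℤ} (hN : 2 ≤ N) (k : ℤ) :
    (k % N + 1 < N ∧ (k + 1) % N = k % N + 1 ∧ (k + 1) / N = k / N) ∨
      (k % N + 1 = N ∧ (k + 1) % N = 0 ∧ (k + 1) / N = k / N + 1) := by
  have h1 := Int.emod_add_mul_ediv k N
  have h2 := Int.emod_nonneg k (by omega : N ≠ 0)
  have h3 := Int.emod_lt_of_pos k (by omega : 0 < N)
  rcases lt_or_ge (k % N + 1) N with h4 | h4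
  · left
    have e : k + 1 = (k % N + 1) + N * (k / N) := by omega
    refine ⟨h4, ?_, ?_⟩
    · rw [e, Int.add_mul_emod_self_left, Int.emod_eq_of_lt (by omega) h4]
    · rw [e, Int.add_mul_ediv_left _ _ (by omega : N ≠ 0), Int.ediv_eq_zero_of_lt (by omega) h4, zero_add]
  · right
    have e5 : k % N + 1 = N := by omega
    have e : k + 1 = 0 + N * (k / N + 1) := by
      have : N * (k / N + 1) = N * (k / N) + N := by ring
      omega
    refine ⟨e5, ?_, ?_⟩
    · rw [e, Int.add_mul_emod_self_left, Int.zero_emod]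
    · rw [e, Int.add_mul_ediv_left _ _ (by omega : N ≠ 0), Int.zero_ediv, zero_add]

lemma kp_mono {w h : ℤ} (hw : 2 ≤ w) (hh : 2 ≤ h) : Monotone (kp w h) := by
  apply monotone_int_of_le_succ
  intro k
  have h2 := Int.emod_nonneg k (by omega : 2 * (w + h) ≠ 0)
  unfold kp
  rcases mod_succ (by omega : 2 ≤ 2 * (w + h)) k with ⟨h1, h3, h4⟩ | ⟨h1, h3, h4⟩
  · rw [h3, h4]
    apply add_le_add le_rfl
    obtain ⟨m, hm⟩ : ∃ m, m = k % (2 * (w + h)) := ⟨_, rfl⟩
    rw [← hm] at h1 h2 ⊢
    split_ifs <;> omega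
  · rw [h3, h4]
    obtain ⟨m, hm⟩ : ∃ m, m = k % (2 * (w + h)) := ⟨_, rfl⟩
    rw [← hm] at h1 h2 ⊢
    rw [if_pos (by omega : w ≤ m), if_pos (by omega : w + h ≤ m), if_pos (by omega : 2 * w + h ≤ m),
      if_neg (by omega : ¬ w ≤ 0), if_neg (by omega : ¬ w + h ≤ 0), if_neg (by omega : ¬ 2 * w + h ≤ 0)]
    have : (k / (2 * (w + h)) + 1) * (2 * (w + h) - 4) =
        k / (2 * (w + h)) * (2 * (w + h) - 4) + (2 * (w + h) - 4) := by ring
    rw [this]
    omega

/-- the ends of a boundary edge -/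
lemma ends {w h : ℤ} (hw : 2 ≤ w) (hh : 2 ≤ h) (k : ℤ) :
    (src (beR w h k) = bd w h k ∧ tgt (beR w h k) = bd w h (k + 1)) ∨
      (src (beR w h k) = bd w h (k + 1) ∧ tgt (beR w h k) = bd w h k) := by
  have h2 := Int.emod_nonneg k (by omega : 2 * (w + h) ≠ 0)
  obtain ⟨m, hm⟩ : ∃ m, m = k % (2 * (w + h)) := ⟨_, rfl⟩
  obtain ⟨n, hn⟩ : ∃ n, n = (k + 1) % (2 * (w + h)) := ⟨_, rfl⟩
  have hms := mod_succ (by omega : 2 ≤ 2 * (w + h)) k
  unfold beR bd
  rw [← hm] at h2
  rw [← hm, ← hn] at hms ⊢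
  have hn' : (m + 1 < 2 * (w + h) ∧ n = m + 1) ∨ (m + 1 = 2 * (w + h) ∧ n = 0) := by
    rcases hms with ⟨a1, a2, -⟩ | ⟨a1, a2, -⟩
    · exact Or.inl ⟨a1, a2⟩
    · exact Or.inr ⟨a1, a2⟩
  clear hms hm hn
  rcases lt_or_ge m w with c1 | c1
  · left
    rw [if_pos c1, if_pos c1.le, if_pos (by omega : n ≤ w)]
    simp only [src_mk, tgt_true, Prod.mk.injEq, and_true, true_and]
    omega
  · rcases lt_or_ge m (w + h) with c2 | c2
    · left
      rw [if_neg (by omega : ¬ m < w), if_pos c2, if_neg (by omega : ¬ n ≤ w), if_pos (by omega : n ≤ w + h)]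
      simp only [src_mk, tgt_false]
      split_ifs <;> simp only [Prod.mk.injEq, true_and, and_true] <;> omega
    · rcases lt_or_ge m (2 * w + h) with c3 | c3
      · right
        rw [if_neg (by omega : ¬ m < w), if_neg (by omega : ¬ m < w + h), if_pos c3,
          if_neg (by omega : ¬ n ≤ w), if_neg (by omega : ¬ n ≤ w + h), if_pos (by omega : n ≤ 2 * w + h)]
        simp only [src_mk, tgt_true]
        split_ifs <;> simp only [Prod.mk.injEq, true_and, and_true] <;> omega
      · right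
        rw [if_neg (by omega : ¬ m < w), if_neg (by omega : ¬ m < w + h), if_neg (by omega : ¬ m < 2 * w + h)]
        simp only [src_mk, tgt_false]
        split_ifs <;> simp only [Prod.mk.injEq, true_and, and_true] <;> omega

/-! ### the deterministic part -/

theorem det {w h : ℤ} (hw : 2 ≤ w) (hh : 2 ≤ h) {a b c d : ℤ} (ha : Arcs w h a b c d) {F : Finset Edg}
    (hno : ¬ CN w h a b c d F) :
    CN (w - 1) (h - 1) (kp w h b) (kp w h (c - 1)) (kp w h d) (kp w h (a + 2 * (w + h) - 1))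
      (dmp (RE 0 w 0 h \ F) ∩ RE 0 (w - 1) 0 (h - 1)) := by
  obtain ⟨hab, hbc, hcd, hda⟩ := ha
  obtain ⟨W, hW⟩ : ∃ W : ℕ, w = W := Int.eq_ofNat_of_zero_le (by omega)
  obtain ⟨H, hH⟩ : ∃ H : ℕ, h = H := Int.eq_ofNat_of_zero_le (by omega)
  set R : Vtx → Prop := fun v => ∃ x, (a ≤ x ∧ x ≤ b) ∧ Reach (↑F) (bd w h x) v with hR
  have hRcl : ∀ e ∈ F, (R (src e) ↔ R (tgt e)) := by
    intro e heF
    have hm : e ∈ (↑F : Set Edg) := Finset.mem_coe.mpr heF
    constructor
    · rintro ⟨x, h3, h4⟩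
      exact ⟨x, h3, h4.trans (Adj.reach ⟨e, hm, Or.inl ⟨rfl, rfl⟩⟩)⟩
    · rintro ⟨x, h3, h4⟩
      exact ⟨x, h3, h4.trans (Adj.reach ⟨e, hm, Or.inr ⟨rfl, rfl⟩⟩)⟩
  have hRI : ∀ i : ℤ, a ≤ i → i ≤ b → R (bd w h i) := fun i h1 h2 => ⟨i, ⟨h1, h2⟩, Reach.refl _ _⟩
  have hRJ : ∀ i : ℤ, c ≤ i → i ≤ d → ¬ R (bd w h i) := by
    rintro i h1 h2 ⟨x, h3, h4⟩
    exact hno ⟨x, i, h3, ⟨h1, h2⟩, h4⟩
  set G : Set Edg := {e | (e ∈ RE 0 w 0 h ∧ dl e ∈ RE 0 (w - 1) 0 (h - 1)) ∧ ¬ (R (src e) ↔ R (tgt e))} with hG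
  set X : Vtx → Prop := fun f => ∃ k, (b ≤ k ∧ k ≤ c - 1) ∧ DReach G (fc w h k) f with hX
  have hXcl : ∀ e ∈ G, (X (dsrc e) ↔ X (dtgt e)) := by
    intro e he
    constructor
    · rintro ⟨x, h3, h4⟩
      exact ⟨x, h3, h4.trans (DAdj.reach ⟨e, he, Or.inl ⟨rfl, rfl⟩⟩)⟩
    · rintro ⟨x, h3, h4⟩
      exact ⟨x, h3, h4.trans (DAdj.reach ⟨e, he, Or.inr ⟨rfl, rfl⟩⟩)⟩
  set r : ℤ → ℤ → ZMod 2 := fun x y => b2 (R (x, y)) with hr
  set χ : ℤ → ℤ → ZMod 2 := fun x y => b2 (X (x, y)) with hχ
  have hz : ∀ u v : Vtx, (R u ↔ R v) → b2 (R u) + b2 (R v) = 0 := by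
    intro u v h
    rw [b2_congr h]
    exact zmod2_add_self _
  have hzh : ∀ x y : ℤ, 0 ≤ x → x < w → 1 ≤ y → y + 1 ≤ h →
      (r x y + r (x + 1) y) * χ x y = (r x y + r (x + 1) y) * χ x (y - 1) := by
    intro x y h1 h2 h3 h4
    by_cases hc : R (x, y) ↔ R (x + 1, y)
    · have hc' : r x y + r (x + 1) y = 0 := hz _ _ hc
      rw [hc']; ring
    · have he : ((x, y, true) : Edg) ∈ G := by
        refine ⟨⟨?_, ?_⟩, ?_⟩
        · rw [mem_RE_true]; omega
        · rw [dl_t, mem_RE_false]; omega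
        · simpa using hc
      have h5 := hXcl _ he
      simp only [dsrc_true, dtgt_mk] at h5
      show _ * b2 (X (x, y)) = _ * b2 (X (x, y - 1))
      rw [b2_congr h5]
  have hzv : ∀ x y : ℤ, 1 ≤ x → x + 1 ≤ w → 0 ≤ y → y < h →
      (r x y + r x (y + 1)) * χ x y = (r x y + r x (y + 1)) * χ (x - 1) y := by
    intro x y h1 h2 h3 h4
    by_cases hc : R (x, y) ↔ R (x, y + 1)
    · have hc' : r x y + r x (y + 1) = 0 := hz _ _ hc
      rw [hc']; ring
    · have he : ((x, y, false) : Edg) ∈ G := by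
        refine ⟨⟨?_, ?_⟩, ?_⟩
        · rw [mem_RE_false]; omega
        · rw [dl_f, mem_RE_true]; omega
        · simpa using hc
      have h5 := hXcl _ he
      simp only [dsrc_false, dtgt_mk] at h5
      show _ * b2 (X (x, y)) = _ * b2 (X (x - 1, y))
      rw [b2_congr h5]
  -- summation over the faces
  have hfaces : ∑ i ∈ range W, (χ i 0 * (r i 0 + r (i + 1) 0) + χ i (h - 1) * (r i h + r (i + 1) h)) +
      ∑ j ∈ range H, (χ 0 j * (r 0 j + r 0 (j + 1)) + χ (w - 1) j * (r w j + r w (j + 1))) = 0 := by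
    have h1 : ∑ i ∈ range W, ∑ j ∈ range H, χ i j * ((r i j + r (i + 1) j) + (r i (j + 1) + r (i + 1) (j + 1)) +
        ((r i j + r i (j + 1)) + (r (i + 1) j + r (i + 1) (j + 1)))) = 0 := by
      apply sum_eq_zero
      intro i _
      apply sum_eq_zero
      intro j _
      rw [four, mul_zero]
    have h2 : ∑ i ∈ range W, ∑ j ∈ range H, χ i j * ((r i j + r (i + 1) j) + (r i (j + 1) + r (i + 1) (j + 1)) +
        ((r i j + r i (j + 1)) + (r (i + 1) j + r (i + 1) (j + 1)))) =
        ∑ i ∈ range W, (∑ j ∈ range H, χ i j * ((r i j + r (i + 1) j) + (r i (j + 1) + r (i + 1) (j + 1)))) +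
        ∑ j ∈ range H, (∑ i ∈ range W, χ i j * ((r i j + r i (j + 1)) + (r (i + 1) j + r (i + 1) (j + 1)))) := by
      rw [sum_comm (s := range H) (t := range W), ← sum_add_distrib]
      apply sum_congr rfl
      intro i _
      rw [← sum_add_distrib]
      apply sum_congr rfl
      intro j _
      ring
    rw [h2] at h1
    rw [← h1]
    congr 1
    · apply sum_congr rfl
      intro i hi
      rw [mem_range] at hi
      have := tele (n := H) (by omega) (fun y => χ i y) (fun y => r i y + r (i + 1) y) (by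
        intro y h3 h4
        exact hzh i y (by omega) (by omega) h3 (by omega))
      rw [this, hH]
    · apply sum_congr rfl
      intro j hj
      rw [mem_range] at hj
      have := tele (n := W) (by omega) (fun x => χ x j) (fun x => r x j + r x (j + 1)) (by
        intro x h3 h4
        exact hzv x j h3 (by omega) (by omega) (by omega))
      rw [this, hW]
  -- the boundary
  obtain ⟨β, hβ⟩ : ∃ β : ℤ → ZMod 2, β = fun k => (b2 (R (src (beR w h k))) + b2 (R (tgt (beR w h k)))) *
    b2 (X (fc w h k)) := ⟨_, rfl⟩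
  have hβp : ∀ k, β (k + (2 * (W + H) : ℕ)) = β k := by
    intro k
    rw [hβ]
    have e : (k + ((2 * (W + H) : ℕ) : ℤ)) % (2 * (w + h)) = k % (2 * (w + h)) := by
      have : ((2 * (W + H) : ℕ) : ℤ) = 2 * (w + h) := by rw [hW, hH]; push_cast; ring
      rw [this, Int.add_emod_right]
    simp only [beR, fc, e]
  have hβz : ∀ k, β k = (b2 (R (bd w h k)) + b2 (R (bd w h (k + 1)))) * b2 (X (fc w h k)) := by
    intro k
    rw [hβ]
    simp only
    rcases ends hw hh k with ⟨e1, e2⟩ | ⟨e1, e2⟩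
    · rw [e1, e2]
    · rw [e1, e2]; ring
  have hmodv : ∀ n : ℤ, 0 ≤ n → n < 2 * (w + h) → n % (2 * (w + h)) = n := fun n h1 h2 =>
    Int.emod_eq_of_lt h1 h2
  have hsum0 : ∑ i ∈ range (2 * (W + H)), β i = 0 := by
    rw [← hfaces, show 2 * (W + H) = W + (H + (W + H)) by ring, sum_range_add, sum_range_add, sum_range_add]
    have s1 : ∑ x ∈ range W, β x = ∑ i ∈ range W, χ i 0 * (r i 0 + r (i + 1) 0) := by
      apply sum_congr rfl
      intro i hi
      rw [mem_range] at hi
      have hb : beR w h (i : ℤ) = ((i : ℤ), 0, true) := by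
        unfold beR
        rw [hmodv _ (by omega) (by omega), if_pos (by omega)]
      have hf : fc w h (i : ℤ) = ((i : ℤ), 0) := by
        unfold fc
        rw [hmodv _ (by omega) (by omega), if_pos (by omega)]
      rw [hβ]
      simp only [hb, hf, src_mk, tgt_true]
      exact mul_comm _ _
    have s2 : ∑ x ∈ range H, β ((W + x : ℕ) : ℤ) = ∑ j ∈ range H, χ (w - 1) j * (r w j + r w (j + 1)) := by
      apply sum_congr rfl
      intro j hj
      rw [mem_range] at hj
      have hb : beR w h ((W + j : ℕ) : ℤ) = (w, (j : ℤ), false) := by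
        unfold beR
        rw [hmodv _ (by omega) (by omega), if_neg (by omega), if_pos (by omega)]
        simp only [Prod.mk.injEq, true_and, and_true]
        omega
      have hf : fc w h ((W + j : ℕ) : ℤ) = (w - 1, (j : ℤ)) := by
        unfold fc
        rw [hmodv _ (by omega) (by omega), if_neg (by omega), if_pos (by omega)]
        simp only [Prod.mk.injEq, true_and, and_true]
        omega
      rw [hβ]
      simp only [hb, hf, src_mk, tgt_false]
      exact mul_comm _ _
    have s3 : ∑ x ∈ range W, β ((W + (H + x) : ℕ) : ℤ) = ∑ i ∈ range W, χ i (h - 1) * (r i h + r (i + 1) h) := by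
      rw [← sum_range_reflect (fun i : ℕ => χ i (h - 1) * (r i h + r (i + 1) h))]
      apply sum_congr rfl
      intro i hi
      rw [mem_range] at hi
      have hb : beR w h ((W + (H + i) : ℕ) : ℤ) = (((W - 1 - i : ℕ) : ℤ), h, true) := by
        unfold beR
        rw [hmodv _ (by omega) (by omega), if_neg (by omega), if_neg (by omega), if_pos (by omega)]
        simp only [Prod.mk.injEq, true_and, and_true]
        omega
      have hf : fc w h ((W + (H + i) : ℕ) : ℤ) = (((W - 1 - i : ℕ) : ℤ), h - 1) := by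
        unfold fc
        rw [hmodv _ (by omega) (by omega), if_neg (by omega), if_neg (by omega), if_pos (by omega)]
        simp only [Prod.mk.injEq, true_and, and_true]
        omega
      rw [hβ]
      simp only [hb, hf, src_mk, tgt_true]
      exact mul_comm _ _
    have s4 : ∑ x ∈ range H, β ((W + (H + (W + x)) : ℕ) : ℤ) = ∑ j ∈ range H, χ 0 j * (r 0 j + r 0 (j + 1)) := by
      rw [← sum_range_reflect (fun j : ℕ => χ 0 j * (r 0 j + r 0 (j + 1)))]
      apply sum_congr rfl
      intro i hi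
      rw [mem_range] at hi
      have hb : beR w h ((W + (H + (W + i)) : ℕ) : ℤ) = (0, ((H - 1 - i : ℕ) : ℤ), false) := by
        unfold beR
        rw [hmodv _ (by omega) (by omega), if_neg (by omega), if_neg (by omega), if_neg (by omega)]
        simp only [Prod.mk.injEq, true_and, and_true]
        omega
      have hf : fc w h ((W + (H + (W + i)) : ℕ) : ℤ) = (0, ((H - 1 - i : ℕ) : ℤ)) := by
        unfold fc
        rw [hmodv _ (by omega) (by omega), if_neg (by omega), if_neg (by omega), if_neg (by omega)]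
        simp only [Prod.mk.injEq, true_and, and_true]
        omega
      rw [hβ]
      simp only [hb, hf, src_mk, tgt_false]
      exact mul_comm _ _
    rw [s1, s2, s3, s4, sum_add_distrib, sum_add_distrib]
    ring
  -- there is an edge at the last gap
  have hex : ∃ k, (d ≤ k ∧ k ≤ a + 2 * (w + h) - 1) ∧ X (fc w h k) := by
    by_contra hcon
    push Not at hcon
    have hlast : ∀ k, d ≤ k → k ≤ a + 2 * (w + h) - 1 → β k = 0 := by
      intro k h1 h2
      rw [hβz, b2_not_of (hcon k ⟨h1, h2⟩), mul_zero]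
    have hT : ∀ n : ℕ, (n : ℤ) ≤ 2 * (w + h) → ∑ i ∈ range n, β (a + i) =
        if a + n ≤ b then 0 else if a + n ≤ c then 1 + b2 (R (bd w h (a + n))) else 1 := by
      intro n
      induction n with
      | zero => intro _; rw [sum_range_zero, if_pos (by simpa using hab)]
      | succ n ih =>
        intro hn
        push_cast at hn
        rw [sum_range_succ, ih (by omega), hβz]
        have e : a + ((n + 1 : ℕ) : ℤ) = a + n + 1 := by push_cast; ring
        rw [e]
        obtain ⟨k, hk⟩ : ∃ k, k = a + (n : ℤ) := ⟨_, rfl⟩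
        rw [← hk]
        have hk0 : a ≤ k := by omega
        have hk1 : k ≤ a + 2 * (w + h) - 1 := by omega
        rcases lt_trichotomy k b with c1 | c1 | c1
        · rw [if_pos c1.le, if_pos (by omega : k + 1 ≤ b), b2_of (hRI k hk0 c1.le),
            b2_of (hRI (k + 1) (by omega) (by omega)), show (1 : ZMod 2) + 1 = 0 from rfl]
          ring
        · rw [if_pos c1.le, if_neg (by omega : ¬ k + 1 ≤ b), if_pos (by omega : k + 1 ≤ c),
            b2_of (hRI k hk0 c1.le), b2_of (⟨k, ⟨by omega, by omega⟩, DReach.refl _ _⟩ : X (fc w h k))]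
          ring
        · rw [if_neg (by omega : ¬ k ≤ b), if_neg (by omega : ¬ k + 1 ≤ b)]
          rcases lt_trichotomy k c with c2 | c2 | c2
          · rw [if_pos c2.le, if_pos (by omega : k + 1 ≤ c),
              b2_of (⟨k, ⟨by omega, by omega⟩, DReach.refl _ _⟩ : X (fc w h k))]
            have := zmod2_add_self (b2 (R (bd w h k)))
            linear_combination this
          · rw [if_pos c2.le, if_neg (by omega : ¬ k + 1 ≤ c), b2_not_of (hRJ k c2.ge (by omega))]
            rcases lt_or_ge k d with c3 | c3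
            · rw [b2_not_of (hRJ (k + 1) (by omega) (by omega))]; ring
            · have := hlast k c3 hk1
              rw [hβz, b2_not_of (hRJ k c2.ge (by omega))] at this
              rw [this]; ring
          · rw [if_neg (by omega : ¬ k ≤ c), if_neg (by omega : ¬ k + 1 ≤ c)]
            rcases lt_or_ge k d with c3 | c3
            · rw [b2_not_of (hRJ k (by omega) (by omega)), b2_not_of (hRJ (k + 1) (by omega) (by omega))]; ring
            · have := hlast k c3 hk1
              rw [hβz] at this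
              rw [this]; ring
    have h1 := hT (2 * (W + H)) (by rw [hW, hH]; push_cast; omega)
    rw [per_sum β hβp a, hsum0, if_neg (by rw [hW, hH] at hda; push_cast; omega),
      if_neg (by rw [hW, hH] at hda; push_cast; omega)] at h1
    exact zero_ne_one h1
  obtain ⟨k', ⟨hk1, hk2⟩, k, ⟨hk3, hk4⟩, hreach⟩ := hex
  refine ⟨kp w h k, kp w h k', ⟨kp_mono hw hh hk3, kp_mono hw hh hk4⟩, ⟨kp_mono hw hh hk1, kp_mono hw hh hk2⟩, ?_⟩
  rw [fc_eq hw hh, fc_eq hw hh]
  have h1 : Reach (dl '' G) (fc w h k) (fc w h k') := reach_dl.mpr hreach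
  refine h1.mono ?_
  rintro _ ⟨e, ⟨⟨he1, he2⟩, he3⟩, rfl⟩
  rw [Finset.mem_coe, Finset.mem_inter, mem_dmp, Equiv.symm_apply_apply, Finset.mem_sdiff]
  exact ⟨⟨he1, fun heF => he3 (hRcl e heF)⟩, he2⟩

theorem t_DUU : S_DUU := by
  intro w h hw hh a b c d ha
  have hsub : RE 0 (w - 1) 0 (h - 1) ⊆ dmp (RE 0 w 0 h) := by
    rintro ⟨x, y, _ | _⟩ he
    · rw [mem_RE_false] at he
      rw [mem_dmp, dls_f, mem_RE_true]
      omega
    · rw [mem_RE_true] at he
      rw [mem_dmp, dls_t, mem_RE_false]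
      omega
  obtain ⟨B, hB⟩ : ∃ B : Finset Edg → Prop, B = CN (w - 1) (h - 1) (kp w h b) (kp w h (c - 1)) (kp w h d)
      (kp w h (a + 2 * (w + h) - 1)) := ⟨_, rfl⟩
  have h1 : 1 - PR w h a b c d = Pr P (RE 0 w 0 h) (fun F => ¬ CN w h a b c d F) := by
    unfold PR
    rw [Pr_not]
  have h2 : Pr P (RE 0 w 0 h) (fun F => ¬ CN w h a b c d F) ≤
      Pr P (RE 0 w 0 h) (fun F => (fun F' => B (F' ∩ RE 0 (w - 1) 0 (h - 1))) (dmp (RE 0 w 0 h \ F))) := by
    apply Pr_mono Pool.Agent.H160R2.CV.Quad.okP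
    intro F _ hF
    rw [hB]
    exact det hw hh ha hF
  have h5 := pr_dual (RE 0 w 0 h) (fun F' => B (F' ∩ RE 0 (w - 1) 0 (h - 1)))
  have h2' := h2.trans (le_of_eq h5)
  have h3 : Pr P (dmp (RE 0 w 0 h)) (fun F' => B (F' ∩ RE 0 (w - 1) 0 (h - 1))) =
      Pr P (RE 0 (w - 1) 0 (h - 1)) (fun F' => B (F' ∩ RE 0 (w - 1) 0 (h - 1))) := by
    apply Pr_local hsub
    intro F _
    rw [Finset.inter_assoc, Finset.inter_self]
  have h4 : Pr P (RE 0 (w - 1) 0 (h - 1)) (fun F' => B (F' ∩ RE 0 (w - 1) 0 (h - 1))) =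
      Pr P (RE 0 (w - 1) 0 (h - 1)) B := by
    apply Pr_congr
    intro F hF
    rw [Finset.inter_eq_left.mpr hF]
  rw [h3, h4, hB] at h2'
  rw [h1]
  exact h2'

end Pool.Agent.Y989.RC.DUU
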